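import Mathlib

/-! Area preserving maps of open subsets of the plane: basic calculus. -/

open scoped Topology ContDiff
open Set Filter Complex

noncomputable section

namespace Pool.Agent.Helper186.Area

/-- The standard area form of the plane. -/
def w0 (u v : ℂ) : ℝ := u.re * v.im - u.im * v.re

/-- `f` is smooth at `z` and pulls the area density `ρ₂` back to the density `ρ₁` at `z`. -/
def APAt (ρ₁ ρ₂ : ℂ → ℝ) (f : ℂ → ℂ) (z : ℂ) : Prop :=
  ContDiffAt ℝ ∞ f z ∧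
    ∀ u v : ℂ, ρ₂ (f z) * w0 (fderiv ℝ f z u) (fderiv ℝ f z v) = ρ₁ z * w0 u v

lemma w0_one_I : w0 1 I = 1 := by simp [w0]

lemma APAt.differentiableAt {ρ₁ ρ₂ : ℂ → ℝ} {f : ℂ → ℂ} {z : ℂ} (h : APAt ρ₁ ρ₂ f z) :
    DifferentiableAt ℝ f z := h.1.differentiableAt (by simp)

lemma APAt.continuousAt {ρ₁ ρ₂ : ℂ → ℝ} {f : ℂ → ℂ} {z : ℂ} (h : APAt ρ₁ ρ₂ f z) :
    ContinuousAt f z := h.1.continuousAt

lemma APAt.comp {ρ₁ ρ₂ ρ₃ : ℂ → ℝ} {g f : ℂ → ℂ} {z : ℂ} (hg : APAt ρ₂ ρ₃ g (f z))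
    (hf : APAt ρ₁ ρ₂ f z) : APAt ρ₁ ρ₃ (g ∘ f) z := by
  refine ⟨hg.1.comp z hf.1, fun u v => ?_⟩
  rw [fderiv_comp z hg.differentiableAt hf.differentiableAt]
  simp only [ContinuousLinearMap.comp_apply, Function.comp_apply]
  rw [hg.2, hf.2]

lemma APAt.congr {ρ₁ ρ₂ : ℂ → ℝ} {f g : ℂ → ℂ} {z : ℂ} (hf : APAt ρ₁ ρ₂ f z)
    (h : g =ᶠ[𝓝 z] f) : APAt ρ₁ ρ₂ g z := by
  refine ⟨hf.1.congr_of_eventuallyEq h, fun u v => ?_⟩
  rw [h.fderiv_eq, h.eq_of_nhds]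
  exact hf.2 u v

lemma APAt.id {ρ : ℂ → ℝ} {z : ℂ} : APAt ρ ρ (fun z => z) z := by
  refine ⟨contDiffAt_id, fun u v => ?_⟩
  simp

lemma APAt.injective {ρ₁ ρ₂ : ℂ → ℝ} {f : ℂ → ℂ} {z : ℂ} (h : APAt ρ₁ ρ₂ f z)
    (hz : ρ₁ z ≠ 0) : Function.Injective (fderiv ℝ f z) := by
  rw [injective_iff_map_eq_zero]
  intro u hu
  by_contra hu0
  have h1 := h.2 u (I * u)
  rw [hu] at h1
  have h2 : w0 u (I * u) = u.re * u.re + u.im * u.im := by
    simp [w0]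
  rw [h2] at h1
  have h3 : (0:ℝ) < u.re * u.re + u.im * u.im := by
    have := Complex.normSq_pos.2 hu0
    rwa [Complex.normSq_apply] at this
  have h4 : ρ₂ (f z) * w0 0 (fderiv ℝ f z (I * u)) = 0 := by simp [w0]
  rw [h4] at h1
  rcases mul_eq_zero.1 h1.symm with h5 | h5
  · exact hz h5
  · exact h3.ne' h5

/-- The derivative of an area preserving map as a linear equivalence. -/
lemma APAt.exists_equiv {ρ₁ ρ₂ : ℂ → ℝ} {f : ℂ → ℂ} {z : ℂ} (h : APAt ρ₁ ρ₂ f z)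
    (hz : ρ₁ z ≠ 0) : ∃ A : ℂ ≃L[ℝ] ℂ, (A : ℂ →L[ℝ] ℂ) = fderiv ℝ f z := by
  have hinj := h.injective hz
  have hk : LinearMap.ker (fderiv ℝ f z : ℂ →ₗ[ℝ] ℂ) = ⊥ := LinearMap.ker_eq_bot.2 hinj
  refine ⟨(LinearEquiv.ofInjectiveEndo (fderiv ℝ f z : ℂ →ₗ[ℝ] ℂ) hinj).toContinuousLinearEquiv, ?_⟩
  ext v; rfl

/-- The inverse of an injective area preserving map is area preserving. -/
lemma APAt.inverse {ρ₁ ρ₂ : ℂ → ℝ} {f g : ℂ → ℂ} {z : ℂ} {U : Set ℂ} (h : APAt ρ₁ ρ₂ f z)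
    (hz : ρ₁ z ≠ 0) (hU : U ∈ 𝓝 z) (hg : ∀ x ∈ U, g (f x) = x) : APAt ρ₂ ρ₁ g (f z) := by
  obtain ⟨A, hA⟩ := h.exists_equiv hz
  have hd : HasFDerivAt f (A : ℂ →L[ℝ] ℂ) z := by
    rw [hA]; exact h.differentiableAt.hasFDerivAt
  have hn : (∞ : WithTop ℕ∞) ≠ 0 := by simp
  let e := h.1.toOpenPartialHomeomorph f hd hn
  have hez : z ∈ e.source := h.1.mem_toOpenPartialHomeomorph_source hd hn
  have hsm : ContDiffAt ℝ ∞ e.symm (f z) := h.1.to_localInverse hd hn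
  have hcoe : (e : ℂ → ℂ) = f := h.1.toOpenPartialHomeomorph_coe hd hn
  have hfz : e.symm (f z) = z := by
    have := e.left_inv hez
    rwa [hcoe] at this
  have htar : f z ∈ e.target := by
    have := e.map_source hez
    rwa [hcoe] at this
  have hev : ∀ᶠ w in 𝓝 (f z), e.symm w ∈ U := by
    have := hsm.continuousAt
    refine this.eventually ?_
    rw [hfz]; exact hU
  have hev2 : ∀ᶠ w in 𝓝 (f z), w ∈ e.target := e.open_target.mem_nhds htar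
  have heq : g =ᶠ[𝓝 (f z)] e.symm := by
    filter_upwards [hev, hev2] with w hw1 hw2
    have h1 : f (e.symm w) = w := by
      have := e.right_inv hw2
      rwa [hcoe] at this
    rw [← hg _ hw1, h1]
  have hgs : ContDiffAt ℝ ∞ g (f z) := hsm.congr_of_eventuallyEq heq
  refine ⟨hgs, fun u v => ?_⟩
  have hgz : g (f z) = z := hg z (mem_of_mem_nhds hU)
  have hcomp : (g ∘ f) =ᶠ[𝓝 z] _root_.id := by
    filter_upwards [hU] with x hx using hg x hx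
  have hder : (fderiv ℝ g (f z)).comp (fderiv ℝ f z) = ContinuousLinearMap.id ℝ ℂ := by
    rw [← fderiv_comp z (hgs.differentiableAt (by simp)) h.differentiableAt, hcomp.fderiv_eq,
      fderiv_id]
  have hsurj : Function.Surjective (fderiv ℝ f z) := by
    rw [← hA]; exact A.surjective
  obtain ⟨u', rfl⟩ := hsurj u
  obtain ⟨v', rfl⟩ := hsurj v
  have h1 : ∀ x, fderiv ℝ g (f z) (fderiv ℝ f z x) = x := fun x =>
    DFunLike.congr_fun hder x
  rw [h1, h1, hgz, h.2]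

lemma app_inv (f : Equiv.Perm ℂ) (z : ℂ) : f (f⁻¹ z) = z := f.apply_symm_apply z

lemma inv_app (f : Equiv.Perm ℂ) (z : ℂ) : f⁻¹ (f z) = z := f.symm_apply_apply z

/-- A plane region with an area density. -/
structure Region where
  S : Set ℂ
  ρ : ℂ → ℝ
  isOpen : IsOpen S
  pos : ∀ z ∈ S, 0 < ρ z
  smooth : ∀ z ∈ S, ContDiffAt ℝ ∞ ρ z

variable (R : Region)

/-- The group of area preserving diffeomorphisms, as permutations of the plane which fix every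
point outside the region. -/
def Region.G : Subgroup (Equiv.Perm ℂ) where
  carrier := {f | (∀ z, z ∉ R.S → f z = z) ∧ ∀ z ∈ R.S, APAt R.ρ R.ρ f z}
  one_mem' := ⟨fun _ _ => rfl, fun _ _ => APAt.id⟩
  mul_mem' := by
    rintro f g ⟨hf1, hf2⟩ ⟨hg1, hg2⟩
    refine ⟨fun z hz => ?_, fun z hz => ?_⟩
    · rw [Equiv.Perm.mul_apply, hg1 z hz, hf1 z hz]
    · have hgz : g z ∈ R.S := by
        by_contra h
        have h2 := hg1 _ h
        exact h (by rw [g.injective h2]; exact hz)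
      exact (hf2 _ hgz).comp (hg2 z hz)
  inv_mem' := by
    rintro f ⟨hf1, hf2⟩
    have hmem : ∀ z ∈ R.S, f⁻¹ z ∈ R.S := by
      intro z hz
      by_contra h
      have h2 := hf1 _ h
      rw [app_inv] at h2
      exact h (by rw [← h2]; exact hz)
    refine ⟨fun z hz => ?_, fun z hz => ?_⟩
    · rw [Equiv.Perm.inv_eq_iff_eq, hf1 z hz]
    · have h1 := (hf2 _ (hmem z hz)).inverse (g := ⇑(f⁻¹)) (U := univ) (R.pos _ (hmem z hz)).ne'
        univ_mem (fun x _ => inv_app f x)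
      rwa [app_inv] at h1

variable {R}

lemma mem_G {f : Equiv.Perm ℂ} :
    f ∈ R.G ↔ (∀ z, z ∉ R.S → f z = z) ∧ ∀ z ∈ R.S, APAt R.ρ R.ρ f z := Iff.rfl

lemma G_maps {f : Equiv.Perm ℂ} (hf : f ∈ R.G) {z : ℂ} (hz : z ∈ R.S) : f z ∈ R.S := by
  by_contra h
  have h2 := hf.1 _ h
  exact h (by rw [f.injective h2]; exact hz)

lemma G_mem_iff {f : Equiv.Perm ℂ} (hf : f ∈ R.G) {z : ℂ} : f z ∈ R.S ↔ z ∈ R.S := by
  refine ⟨fun h => ?_, G_maps hf⟩
  by_contra h2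
  exact h2 (by rw [hf.1 z h2] at h; exact h)

lemma G_symm_maps {f : Equiv.Perm ℂ} (hf : f ∈ R.G) {z : ℂ} (hz : z ∈ R.S) :
    f⁻¹ z ∈ R.S := G_maps (R.G.inv_mem hf) hz

lemma G_continuousOn {f : Equiv.Perm ℂ} (hf : f ∈ R.G) : ContinuousOn f R.S :=
  fun z hz => ((hf.2 z hz).continuousAt).continuousWithinAt

open Classical in
/-- Extend a self map of the region by the identity. -/
def ext (S : Set ℂ) (f : ℂ → ℂ) (z : ℂ) : ℂ := if z ∈ S then f z else z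

open Classical in
lemma ext_of_mem {S : Set ℂ} {f : ℂ → ℂ} {z : ℂ} (hz : z ∈ S) : ext S f z = f z := by
  simp [ext, hz]

open Classical in
lemma ext_of_not_mem {S : Set ℂ} {f : ℂ → ℂ} {z : ℂ} (hz : z ∉ S) : ext S f z = z := by
  simp [ext, hz]

/-- A pair of inverse self maps of the region gives a permutation. -/
def mkPerm (S : Set ℂ) (f g : ℂ → ℂ) (hf : MapsTo f S S) (hg : MapsTo g S S)
    (hgf : ∀ z ∈ S, g (f z) = z) (hfg : ∀ z ∈ S, f (g z) = z) : Equiv.Perm ℂ where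
  toFun := ext S f
  invFun := ext S g
  left_inv := by
    intro z
    by_cases hz : z ∈ S
    · rw [ext_of_mem hz, ext_of_mem (hf hz), hgf z hz]
    · rw [ext_of_not_mem hz, ext_of_not_mem hz]
  right_inv := by
    intro z
    by_cases hz : z ∈ S
    · rw [ext_of_mem hz, ext_of_mem (hg hz), hfg z hz]
    · rw [ext_of_not_mem hz, ext_of_not_mem hz]

lemma mkPerm_apply {S : Set ℂ} {f g : ℂ → ℂ} {hf : MapsTo f S S} {hg : MapsTo g S S}
    {hgf : ∀ z ∈ S, g (f z) = z} {hfg : ∀ z ∈ S, f (g z) = z} {z : ℂ} (hz : z ∈ S) :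
    mkPerm S f g hf hg hgf hfg z = f z := ext_of_mem hz

lemma mkPerm_apply_not {S : Set ℂ} {f g : ℂ → ℂ} {hf : MapsTo f S S} {hg : MapsTo g S S}
    {hgf : ∀ z ∈ S, g (f z) = z} {hfg : ∀ z ∈ S, f (g z) = z} {z : ℂ} (hz : z ∉ S) :
    mkPerm S f g hf hg hgf hfg z = z := ext_of_not_mem hz

lemma mkPerm_mem_G {f g : ℂ → ℂ} {hf : MapsTo f R.S R.S} {hg : MapsTo g R.S R.S}
    {hgf : ∀ z ∈ R.S, g (f z) = z} {hfg : ∀ z ∈ R.S, f (g z) = z}
    (hap : ∀ z ∈ R.S, APAt R.ρ R.ρ f z) :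
    mkPerm R.S f g hf hg hgf hfg ∈ R.G := by
  refine ⟨fun z hz => mkPerm_apply_not hz, fun z hz => ?_⟩
  refine (hap z hz).congr ?_
  filter_upwards [R.isOpen.mem_nhds hz] with w hw
  exact mkPerm_apply hw

/-- A bijective self map of the region, area preserving at each point, gives an element of
the group. -/
lemma exists_mem_G {f : ℂ → ℂ} (hf : MapsTo f R.S R.S) (hi : InjOn f R.S)
    (hs : SurjOn f R.S R.S) (hap : ∀ z ∈ R.S, APAt R.ρ R.ρ f z) :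
    ∃ g ∈ R.G, ∀ z ∈ R.S, g z = f z := by
  have hb : BijOn f R.S R.S := ⟨hf, hi, hs⟩
  have hinv := hb.invOn_invFunOn
  refine ⟨mkPerm R.S f (Function.invFunOn f R.S) hf ?_ hinv.1 hinv.2, mkPerm_mem_G hap,
    fun z hz => mkPerm_apply hz⟩
  exact hs.mapsTo_invFunOn

end Pool.Agent.Helper186.Area
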