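import Mathlib
import Pool.Agent.Helper186.AreaCore

/-! Area preserving maps of the plane from generating functions. -/

open scoped Topology ContDiff NNReal
open Set Filter Complex

noncomputable section

namespace Pool.Agent.Helper186.Area

lemma clm_apply_eq (A : ℂ →L[ℝ] ℂ) (u : ℂ) : A u = (u.re : ℂ) * A 1 + (u.im : ℂ) * A I := by
  have h : u = u.re • (1:ℂ) + u.im • I := by
    apply Complex.ext <;> simp
  conv_lhs => rw [h]
  rw [map_add, map_smul, map_smul]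
  simp

lemma w0_clm (A : ℂ →L[ℝ] ℂ) (u v : ℂ) : w0 (A u) (A v) = w0 (A 1) (A I) * w0 u v := by
  rw [clm_apply_eq A u, clm_apply_eq A v]
  simp only [w0, add_re, mul_re, ofReal_re, ofReal_im, zero_mul, sub_zero, add_im, mul_im,
    add_zero]
  ring

/-- To be area preserving it is enough to check one pair of vectors. -/
lemma apAt_of {ρ₁ ρ₂ : ℂ → ℝ} {f : ℂ → ℂ} {z : ℂ} (hf : ContDiffAt ℝ ∞ f z)
    (h : ρ₂ (f z) * w0 (fderiv ℝ f z 1) (fderiv ℝ f z I) = ρ₁ z) : APAt ρ₁ ρ₂ f z := by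
  refine ⟨hf, fun u v => ?_⟩
  rw [w0_clm, ← mul_assoc, h]

lemma fderiv_one_bound {G : ℂ → ℝ} (hL : LipschitzWith (1/4) (fderiv ℝ G)) (e : ℂ) (he : ‖e‖ = 1)
    (z w : ℂ) : ‖(fderiv ℝ G z e) - (fderiv ℝ G w e)‖ ≤ 1 / 4 * ‖z - w‖ := by
  have h1 : (fderiv ℝ G z e) - (fderiv ℝ G w e) = (fderiv ℝ G z - fderiv ℝ G w) e := rfl
  rw [h1]
  refine ((fderiv ℝ G z - fderiv ℝ G w).le_opNorm e).trans ?_
  rw [he, mul_one]
  have h2 := hL.dist_le_mul z w
  rw [dist_eq_norm, dist_eq_norm] at h2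
  simpa using h2

theorem exists_gf {G : ℂ → ℝ} (hG : ContDiff ℝ ∞ G) (hL : LipschitzWith (1/4) (fderiv ℝ G)) :
    ∃ g : ℂ ≃ₜ ℂ, (∀ z, APAt 1 1 g z) ∧
      (∀ z, g (z + (fderiv ℝ G z 1 : ℂ) * I) = z + (fderiv ℝ G z I : ℂ)) ∧
      (∀ z, fderiv ℝ G z = 0 → g z = z) := by
  set K : ℂ → ℂ := fun z => z + (fderiv ℝ G z 1 : ℂ) * I with hK
  set L : ℂ → ℂ := fun z => z + (fderiv ℝ G z I : ℂ) with hLd
  have hdG : ContDiff ℝ ∞ (fderiv ℝ G) := hG.fderiv_right (m := ∞) (by simp)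
  have hd1 : ∀ e : ℂ, ContDiff ℝ ∞ (fun z => fderiv ℝ G z e) := fun e =>
    hdG.clm_apply contDiff_const
  have hoc : ∀ e : ℂ, ContDiff ℝ ∞ (fun z => (fderiv ℝ G z e : ℂ)) := fun e =>
    Complex.ofRealCLM.contDiff.comp (hd1 e)
  have hKs : ContDiff ℝ ∞ K := contDiff_id.add ((hoc 1).mul contDiff_const)
  have hLs : ContDiff ℝ ∞ L := contDiff_id.add (hoc I)
  have happ : ApproximatesLinearOn K ((ContinuousLinearEquiv.refl ℝ ℂ : ℂ ≃L[ℝ] ℂ) : ℂ →L[ℝ] ℂ)
      univ (1/4) := by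
    intro x _ y _
    have h1 : K x - K y - ((ContinuousLinearEquiv.refl ℝ ℂ : ℂ ≃L[ℝ] ℂ) : ℂ →L[ℝ] ℂ) (x - y)
        = (((fderiv ℝ G x 1 - fderiv ℝ G y 1 : ℝ)) : ℂ) * I := by
      simp only [hK, ContinuousLinearEquiv.coe_refl, ContinuousLinearMap.coe_id', id_eq,
        ofReal_sub]
      ring
    rw [h1, norm_mul, norm_I, mul_one, Complex.norm_real]
    have := fderiv_one_bound hL 1 (by simp) x y
    simpa using this
  have hc : Subsingleton ℂ ∨ (1/4 : ℝ≥0) <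
      ‖((ContinuousLinearEquiv.refl ℝ ℂ).symm : ℂ →L[ℝ] ℂ)‖₊⁻¹ := by
    right
    have h1 : ‖((ContinuousLinearEquiv.refl ℝ ℂ).symm : ℂ →L[ℝ] ℂ)‖₊ = 1 := by
      have : ((ContinuousLinearEquiv.refl ℝ ℂ).symm : ℂ →L[ℝ] ℂ) = ContinuousLinearMap.id ℝ ℂ := rfl
      rw [this]
      exact ContinuousLinearMap.nnnorm_id
    rw [h1, inv_one]
    rw [← NNReal.coe_lt_coe]
    norm_num
  let Kh : ℂ ≃ₜ ℂ := happ.toHomeomorph K hc
  have hKh : ∀ z, Kh z = K z := fun z => rfl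
  -- derivatives
  have hd2 : ∀ z e, HasFDerivAt (fun z => fderiv ℝ G z e)
      ((ContinuousLinearMap.apply ℝ ℝ e).comp (fderiv ℝ (fderiv ℝ G) z)) z := by
    intro z e
    exact (ContinuousLinearMap.apply ℝ ℝ e).hasFDerivAt.comp z
      (hdG.differentiable (by simp) z).hasFDerivAt
  have hsym : ∀ z, fderiv ℝ (fderiv ℝ G) z 1 I = fderiv ℝ (fderiv ℝ G) z I 1 := by
    intro z
    have := (hG.contDiffAt (x := z)).isSymmSndFDerivAt
      (by simp only [minSmoothness_of_isRCLikeNormedField]; exact ENat.LEInfty.out)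
    exact this.eq 1 I
  have hbd : ∀ z, |fderiv ℝ (fderiv ℝ G) z 1 I| ≤ 1 / 4 := by
    intro z
    have h1 : ‖fderiv ℝ (fderiv ℝ G) z‖ ≤ (1/4 : ℝ≥0) := norm_fderiv_le_of_lipschitz ℝ hL
    have h2 : ‖fderiv ℝ (fderiv ℝ G) z 1 I‖ ≤ ‖fderiv ℝ (fderiv ℝ G) z‖ * ‖(1:ℂ)‖ * ‖I‖ :=
      ContinuousLinearMap.le_opNorm₂ _ _ _
    rw [norm_one, norm_I, mul_one, mul_one] at h2
    have h3 : ((1/4 : ℝ≥0) : ℝ) = 1 / 4 := by norm_num
    rw [h3] at h1
    exact h2.trans h1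
  have hKd : ∀ z, HasFDerivAt K (ContinuousLinearMap.id ℝ ℂ +
      (((ContinuousLinearMap.apply ℝ ℝ (1:ℂ)).comp (fderiv ℝ (fderiv ℝ G) z)).smulRight I)) z := by
    intro z
    have h1 : K = fun z => z + (fderiv ℝ G z 1) • I := by
      funext w; simp [hK]
    rw [h1]
    exact (hasFDerivAt_id z).add ((hd2 z 1).smul_const I)
  have hLdv : ∀ z, HasFDerivAt L (ContinuousLinearMap.id ℝ ℂ +
      (((ContinuousLinearMap.apply ℝ ℝ I).comp (fderiv ℝ (fderiv ℝ G) z)).smulRight (1:ℂ))) z := by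
    intro z
    have h1 : L = fun z => z + (fderiv ℝ G z I) • (1:ℂ) := by
      funext w; simp [hLd]
    rw [h1]
    exact (hasFDerivAt_id z).add ((hd2 z I).smul_const (1:ℂ))
  let j : ℂ → ℝ := fun z => 1 + fderiv ℝ (fderiv ℝ G) z 1 I
  have hj : ∀ z, j z ≠ 0 := by
    intro z
    have := abs_le.1 (hbd z)
    have : 0 < j z := by simp only [j]; linarith
    exact this.ne'
  have hKap : ∀ z, APAt j 1 K z := by
    intro z
    refine apAt_of hKs.contDiffAt ?_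
    rw [(hKd z).fderiv]
    simp only [Pi.one_apply, add_apply, ContinuousLinearMap.id_apply,
      ContinuousLinearMap.smulRight_apply, ContinuousLinearMap.comp_apply,
      ContinuousLinearMap.apply_apply, w0, j]
    rw [hsym z]
    simp
  have hLap : ∀ z, APAt j 1 L z := by
    intro z
    refine apAt_of hLs.contDiffAt ?_
    rw [(hLdv z).fderiv]
    simp only [Pi.one_apply, add_apply, ContinuousLinearMap.id_apply,
      ContinuousLinearMap.smulRight_apply, ContinuousLinearMap.comp_apply,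
      ContinuousLinearMap.apply_apply, w0, j]
    simp
  have hKsymm : ∀ z, APAt 1 j Kh.symm z := by
    intro z
    have h1 := (hKap (Kh.symm z)).inverse (g := Kh.symm) (U := univ) (hj _) univ_mem
      (fun x _ => by rw [← hKh]; exact Kh.symm_apply_apply x)
    have h2 : K (Kh.symm z) = z := by rw [← hKh]; exact Kh.apply_symm_apply z
    rwa [h2] at h1
  -- the same for L
  have happL : ApproximatesLinearOn L ((ContinuousLinearEquiv.refl ℝ ℂ : ℂ ≃L[ℝ] ℂ) : ℂ →L[ℝ] ℂ)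
      univ (1/4) := by
    intro x _ y _
    have h1 : L x - L y - ((ContinuousLinearEquiv.refl ℝ ℂ : ℂ ≃L[ℝ] ℂ) : ℂ →L[ℝ] ℂ) (x - y)
        = (((fderiv ℝ G x I - fderiv ℝ G y I : ℝ)) : ℂ) := by
      simp only [hLd, ContinuousLinearEquiv.coe_refl, ContinuousLinearMap.coe_id', id_eq,
        ofReal_sub]
      ring
    rw [h1, Complex.norm_real]
    have := fderiv_one_bound hL I (by simp) x y
    simpa using this
  let Lh : ℂ ≃ₜ ℂ := happL.toHomeomorph L hc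
  have hLh : ∀ z, Lh z = L z := fun z => rfl
  refine ⟨Kh.symm.trans Lh, fun z => ?_, fun z => ?_, fun z hz => ?_⟩
  · exact (hLap _).comp (hKsymm z)
  · have h1 : Kh.symm (K z) = z := by rw [← hKh]; exact Kh.symm_apply_apply z
    change Lh (Kh.symm (K z)) = _
    rw [h1, hLh]
  · have h0 : K z = z := by simp [hK, hz]
    have h1 : Kh.symm z = z := by
      rw [Homeomorph.symm_apply_eq, hKh, h0]
    change Lh (Kh.symm z) = z
    rw [h1, hLh]
    simp [hLd, hz]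

end Pool.Agent.Helper186.Area
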