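import Mathlib
import Pool.Agent.Helper186.AreaGF

/-! Cutting off generating functions. -/

open scoped Topology ContDiff NNReal
open Set Filter Complex Metric

noncomputable section

namespace Pool.Agent.Helper186.Area

/-- A fixed bump function. -/
def bump : ContDiffBump (0 : ℂ) := ⟨1, 2, one_pos, one_lt_two⟩

lemma bump_smooth : ContDiff ℝ ∞ (bump : ℂ → ℝ) := bump.contDiff

lemma bump_lip : ∃ C : ℝ≥0, LipschitzWith C (bump : ℂ → ℝ) :=
  ContDiff.lipschitzWith_of_hasCompactSupport bump.hasCompactSupport bump_smooth (by simp)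

lemma bump_lip2 : ∃ C : ℝ≥0, LipschitzWith C (fderiv ℝ (bump : ℂ → ℝ)) :=
  ContDiff.lipschitzWith_of_hasCompactSupport (n := ∞) (bump.hasCompactSupport.fderiv (𝕜 := ℝ))
    (bump_smooth.fderiv_right (m := ∞) (by simp)) (by simp)

lemma bump_one {z : ℂ} (hz : ‖z‖ ≤ 1) : bump z = 1 :=
  bump.one_of_mem_closedBall (by simpa [bump] using hz)

lemma bump_zero {z : ℂ} (hz : 2 ≤ ‖z‖) : bump z = 0 :=
  bump.zero_of_le_dist (by simpa [bump] using hz)

lemma bump_abs (z : ℂ) : |bump z| ≤ 1 := by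
  rw [abs_of_nonneg bump.nonneg]; exact bump.le_one

/-- Rescaled bump. -/
def sbump (δ : ℝ) (z : ℂ) : ℝ := bump (δ⁻¹ • z)

lemma sbump_smooth (δ : ℝ) : ContDiff ℝ ∞ (sbump δ) :=
  bump_smooth.comp (contDiff_const_smul _)

lemma sbump_one {δ : ℝ} (hδ : 0 < δ) {z : ℂ} (hz : ‖z‖ ≤ δ) : sbump δ z = 1 := by
  refine bump_one ?_
  rw [norm_smul, norm_inv, Real.norm_of_nonneg hδ.le]
  rw [inv_mul_le_iff₀ hδ]; linarith

lemma sbump_zero {δ : ℝ} (hδ : 0 < δ) {z : ℂ} (hz : 2 * δ ≤ ‖z‖) : sbump δ z = 0 := by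
  refine bump_zero ?_
  rw [norm_smul, norm_inv, Real.norm_of_nonneg hδ.le]
  rw [le_inv_mul_iff₀ hδ]; linarith

lemma sbump_fderiv {δ : ℝ} (z : ℂ) : fderiv ℝ (sbump δ) z = δ⁻¹ • fderiv ℝ bump (δ⁻¹ • z) := by
  have h := fderiv_comp_smul (𝕜 := ℝ) (f := (bump : ℂ → ℝ)) (x := z) δ⁻¹
  exact h

lemma sbump_sub {δ : ℝ} (hδ : 0 < δ) {C : ℝ≥0} (hC : LipschitzWith C (bump : ℂ → ℝ)) (x y : ℂ) :
    |sbump δ x - sbump δ y| ≤ C * δ⁻¹ * ‖x - y‖ := by
  have := hC.dist_le_mul (δ⁻¹ • x) (δ⁻¹ • y)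
  rw [Real.dist_eq, dist_eq_norm, ← smul_sub, norm_smul, norm_inv, Real.norm_of_nonneg hδ.le] at this
  rw [mul_assoc]
  exact this

lemma sbump_fderiv_norm {δ : ℝ} (hδ : 0 < δ) {C : ℝ≥0} (hC : LipschitzWith C (bump : ℂ → ℝ))
    (x : ℂ) : ‖fderiv ℝ (sbump δ) x‖ ≤ C * δ⁻¹ := by
  rw [sbump_fderiv, norm_smul, norm_inv, Real.norm_of_nonneg hδ.le, mul_comm]
  exact mul_le_mul_of_nonneg_right (norm_fderiv_le_of_lipschitz ℝ hC) (by positivity)

lemma sbump_fderiv_sub {δ : ℝ} (hδ : 0 < δ) {C : ℝ≥0}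
    (hC : LipschitzWith C (fderiv ℝ (bump : ℂ → ℝ))) (x y : ℂ) :
    ‖fderiv ℝ (sbump δ) x - fderiv ℝ (sbump δ) y‖ ≤ C * (δ⁻¹ * δ⁻¹) * ‖x - y‖ := by
  rw [sbump_fderiv, sbump_fderiv, ← smul_sub, norm_smul, norm_inv, Real.norm_of_nonneg hδ.le]
  have := hC.dist_le_mul (δ⁻¹ • x) (δ⁻¹ • y)
  rw [dist_eq_norm, dist_eq_norm, ← smul_sub, norm_smul, norm_inv, Real.norm_of_nonneg hδ.le] at this
  calc δ⁻¹ * _ ≤ δ⁻¹ * (C * (δ⁻¹ * ‖x - y‖)) := mul_le_mul_of_nonneg_left this (by positivity)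
    _ = _ := by ring

/-- Cutting off a function with vanishing second order jet. -/
theorem exists_cut {G : ℂ → ℝ} (hG : ContDiff ℝ ∞ G) (h0 : G 0 = 0) (h1 : fderiv ℝ G 0 = 0)
    (h2 : fderiv ℝ (fderiv ℝ G) 0 = 0) {r : ℝ} (hr : 0 < r) :
    ∃ G' : ℂ → ℝ, ContDiff ℝ ∞ G' ∧ G' =ᶠ[𝓝 0] G ∧ LipschitzWith (1/4) (fderiv ℝ G') ∧
      ∀ z, r ≤ ‖z‖ → fderiv ℝ G' z = 0 := by
  obtain ⟨C₁, hC₁⟩ := bump_lip
  obtain ⟨C₂, hC₂⟩ := bump_lip2
  set D : ℝ := 1 + 3 * C₁ + 9 * C₂ + 3 * C₁ with hD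
  have hDpos : 0 < D := by positivity
  set η : ℝ := 1 / (4 * D) with hη
  have hηpos : 0 < η := by positivity
  have hdG : ContDiff ℝ ∞ (fderiv ℝ G) := hG.fderiv_right (m := ∞) (by simp)
  have hddG : Continuous (fun z => ‖fderiv ℝ (fderiv ℝ G) z‖) :=
    continuous_norm.comp (hdG.fderiv_right (m := ∞) (by simp)).continuous
  have hev : ∀ᶠ z in 𝓝 (0:ℂ), ‖fderiv ℝ (fderiv ℝ G) z‖ < η := by
    have := hddG.tendsto (0:ℂ)
    have h3 : ‖fderiv ℝ (fderiv ℝ G) 0‖ = 0 := by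
      rw [h2]; exact ContinuousLinearMap.opNorm_zero
    rw [h3] at this
    exact this.eventually (gt_mem_nhds hηpos)
  obtain ⟨ε, hε, hball⟩ := Metric.eventually_nhds_iff_ball.1 hev
  set δ : ℝ := min (r / 3) (ε / 3) with hδd
  have hδ : 0 < δ := by positivity
  have h3r : 2 * δ < r := by
    have : δ ≤ r / 3 := min_le_left _ _
    linarith
  have h3ε : 3 * δ ≤ ε := by
    have : δ ≤ ε / 3 := min_le_right _ _
    linarith
  -- estimates on the ball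
  have hb2 : ∀ z ∈ ball (0:ℂ) (3 * δ), ‖fderiv ℝ (fderiv ℝ G) z‖ ≤ η := fun z hz =>
    (hball z (ball_subset_ball h3ε hz)).le
  have hconv : Convex ℝ (ball (0:ℂ) (3 * δ)) := convex_ball _ _
  have h0m : (0:ℂ) ∈ ball (0:ℂ) (3 * δ) := mem_ball_self (by positivity)
  have hLipD : ∀ x ∈ ball (0:ℂ) (3 * δ), ∀ y ∈ ball (0:ℂ) (3 * δ),
      ‖fderiv ℝ G x - fderiv ℝ G y‖ ≤ η * ‖x - y‖ := fun x hx y hy =>
    hconv.norm_image_sub_le_of_norm_fderiv_le (fun z _ => hdG.differentiable (by simp) z) hb2 hy hx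
  have hDn : ∀ x ∈ ball (0:ℂ) (3 * δ), ‖fderiv ℝ G x‖ ≤ η * (3 * δ) := by
    intro x hx
    have := hLipD x hx 0 h0m
    rw [h1, sub_zero, sub_zero] at this
    refine this.trans (mul_le_mul_of_nonneg_left ?_ hηpos.le)
    exact (mem_ball_zero_iff.1 hx).le
  have hLipG : ∀ x ∈ ball (0:ℂ) (3 * δ), ∀ y ∈ ball (0:ℂ) (3 * δ),
      ‖G x - G y‖ ≤ η * (3 * δ) * ‖x - y‖ := fun x hx y hy =>
    hconv.norm_image_sub_le_of_norm_fderiv_le (fun z _ => hG.differentiable (by simp) z) hDn hy hx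
  have hGn : ∀ x ∈ ball (0:ℂ) (3 * δ), ‖G x‖ ≤ η * (3 * δ) * (3 * δ) := by
    intro x hx
    have := hLipG x hx 0 h0m
    rw [h0, sub_zero, sub_zero] at this
    refine this.trans (mul_le_mul_of_nonneg_left ?_ (by positivity))
    exact (mem_ball_zero_iff.1 hx).le
  set h : ℂ → ℝ := fun z => sbump δ z * G z with hh
  have hhs : ContDiff ℝ ∞ h := (sbump_smooth δ).mul hG
  have hfd : ∀ z, fderiv ℝ h z = sbump δ z • fderiv ℝ G z + G z • fderiv ℝ (sbump δ) z := fun z =>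
    fderiv_mul ((sbump_smooth δ).differentiable (by simp) z) (hG.differentiable (by simp) z)
  have hLiph : ∀ x ∈ ball (0:ℂ) (3 * δ), ∀ y ∈ ball (0:ℂ) (3 * δ),
      ‖fderiv ℝ h x - fderiv ℝ h y‖ ≤ 1 / 4 * ‖x - y‖ := by
    intro x hx y hy
    have e1 : fderiv ℝ h x - fderiv ℝ h y =
        (sbump δ x • (fderiv ℝ G x - fderiv ℝ G y) + (sbump δ x - sbump δ y) • fderiv ℝ G y) +
        (G x • (fderiv ℝ (sbump δ) x - fderiv ℝ (sbump δ) y) +
          (G x - G y) • fderiv ℝ (sbump δ) y) := by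
      rw [hfd, hfd]
      module
    have hn := norm_nonneg (x - y)
    have b1 : ‖sbump δ x • (fderiv ℝ G x - fderiv ℝ G y)‖ ≤ η * ‖x - y‖ := by
      rw [norm_smul, Real.norm_eq_abs]
      calc _ ≤ 1 * (η * ‖x - y‖) := mul_le_mul (bump_abs _) (hLipD x hx y hy)
            (norm_nonneg _) zero_le_one
        _ = _ := one_mul _
    have b2 : ‖(sbump δ x - sbump δ y) • fderiv ℝ G y‖ ≤ 3 * C₁ * η * ‖x - y‖ := by
      rw [norm_smul, Real.norm_eq_abs]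
      calc _ ≤ (C₁ * δ⁻¹ * ‖x - y‖) * (η * (3 * δ)) :=
            mul_le_mul (sbump_sub hδ hC₁ x y) (hDn y hy) (norm_nonneg _) (by positivity)
        _ = _ := by field_simp
    have b3 : ‖G x • (fderiv ℝ (sbump δ) x - fderiv ℝ (sbump δ) y)‖ ≤ 9 * C₂ * η * ‖x - y‖ := by
      rw [norm_smul]
      calc _ ≤ (η * (3 * δ) * (3 * δ)) * (C₂ * (δ⁻¹ * δ⁻¹) * ‖x - y‖) :=
            mul_le_mul (hGn x hx) (sbump_fderiv_sub hδ hC₂ x y) (norm_nonneg _) (by positivity)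
        _ = _ := by field_simp; ring
    have b4 : ‖(G x - G y) • fderiv ℝ (sbump δ) y‖ ≤ 3 * C₁ * η * ‖x - y‖ := by
      rw [norm_smul]
      calc _ ≤ (η * (3 * δ) * ‖x - y‖) * (C₁ * δ⁻¹) :=
            mul_le_mul (hLipG x hx y hy) (sbump_fderiv_norm hδ hC₁ y) (norm_nonneg _)
              (by positivity)
        _ = _ := by field_simp
    rw [e1]
    have e2 : D * η = 1 / 4 := by rw [hη]; field_simp
    calc _ ≤ (η * ‖x - y‖ + 3 * C₁ * η * ‖x - y‖) + (9 * C₂ * η * ‖x - y‖ + 3 * C₁ * η * ‖x - y‖) :=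
          (norm_add_le _ _).trans (add_le_add ((norm_add_le _ _).trans (add_le_add b1 b2))
            ((norm_add_le _ _).trans (add_le_add b3 b4)))
      _ = D * η * ‖x - y‖ := by rw [hD]; ring
      _ = _ := by rw [e2]
  have hzero : ∀ z, 2 * δ < ‖z‖ → fderiv ℝ h =ᶠ[𝓝 z] fun _ => 0 := by
    intro z hz
    have ho : IsOpen {w : ℂ | 2 * δ < ‖w‖} := isOpen_lt continuous_const continuous_norm
    have hh0 : ∀ w ∈ {w : ℂ | 2 * δ < ‖w‖}, h w = 0 := fun w hw => by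
      simp only [hh]; rw [sbump_zero hδ (le_of_lt hw), zero_mul]
    filter_upwards [ho.mem_nhds hz] with w hw
    have : h =ᶠ[𝓝 w] fun _ => 0 := by
      filter_upwards [ho.mem_nhds hw] with w' hw' using hh0 w' hw'
    rw [this.fderiv_eq]
    simp
  refine ⟨h, hhs, ?_, ?_, ?_⟩
  · filter_upwards [Metric.ball_mem_nhds (0:ℂ) hδ] with z hz
    simp only [hh]
    rw [sbump_one hδ (mem_ball_zero_iff.1 hz).le, one_mul]
  · have hdh : ContDiff ℝ ∞ (fderiv ℝ h) := hhs.fderiv_right (m := ∞) (by simp)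
    refine lipschitzWith_of_nnnorm_fderiv_le (𝕜 := ℝ) (hdh.differentiable (by simp)) ?_
    intro z
    rw [← NNReal.coe_le_coe, coe_nnnorm]
    rcases lt_or_ge ‖z‖ (3 * δ) with hz | hz
    · have : LipschitzOnWith (1/4) (fderiv ℝ h) (ball (0:ℂ) (3 * δ)) := by
        refine LipschitzOnWith.of_dist_le_mul fun x hx y hy => ?_
        rw [dist_eq_norm, dist_eq_norm]
        have := hLiph x hx y hy
        simpa using this
      exact norm_fderiv_le_of_lipschitzOn ℝ (isOpen_ball.mem_nhds (mem_ball_zero_iff.2 hz)) this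
    · have h4 : 2 * δ < ‖z‖ := by linarith
      rw [(hzero z h4).fderiv_eq]
      simp
  · intro z hz
    exact (hzero z (by linarith)).eq_of_nhds

/-- A small multiple of a compactly supported function has small second derivatives. -/
lemma exists_small {g : ℂ → ℝ} (hg : ContDiff ℝ ∞ g) (hc : HasCompactSupport g) :
    ∃ s₀ : ℝ, 0 < s₀ ∧ ∀ s : ℝ, |s| ≤ s₀ → ∀ x y,
      ‖fderiv ℝ (fun z => s * g z) x - fderiv ℝ (fun z => s * g z) y‖ ≤ 1 / 8 * ‖x - y‖ := by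
  obtain ⟨C, hC⟩ := ContDiff.lipschitzWith_of_hasCompactSupport (n := ∞) (hc.fderiv (𝕜 := ℝ))
    (hg.fderiv_right (m := ∞) (by simp)) (by simp)
  refine ⟨1 / (8 * (C + 1)), by positivity, fun s hs x y => ?_⟩
  have h1 : ∀ z, fderiv ℝ (fun z => s * g z) z = s • fderiv ℝ g z := fun z =>
    fderiv_const_mul (hg.differentiable (by simp) z) s
  rw [h1, h1, ← smul_sub, norm_smul, Real.norm_eq_abs]
  have h2 := hC.dist_le_mul x y
  rw [dist_eq_norm, dist_eq_norm] at h2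
  calc |s| * ‖fderiv ℝ g x - fderiv ℝ g y‖ ≤ 1 / (8 * (C + 1)) * (C * ‖x - y‖) :=
        mul_le_mul hs h2 (norm_nonneg _) (by positivity)
    _ = (1 / 8 * ‖x - y‖) * (C / (C + 1)) := by field_simp
    _ ≤ (1 / 8 * ‖x - y‖) * 1 := by
        refine mul_le_mul_of_nonneg_left ?_ (by positivity)
        rw [div_le_one (by positivity)]; linarith
    _ = _ := mul_one _

end Pool.Agent.Helper186.Area
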