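import Mathlib
import Pool.Agent.Helper186.AreaCut

/-! Germs of area preserving maps of the plane extend to compactly supported ones. -/

open scoped Topology ContDiff NNReal
open Set Filter Complex Metric

noncomputable section

namespace Pool.Agent.Helper186.Area

set_option linter.unusedSimpArgs false

/-- Area preserving homeomorphism of the plane supported in a ball. -/
def Loc (r : ℝ) (g : ℂ ≃ₜ ℂ) : Prop := (∀ z, APAt 1 1 g z) ∧ ∀ z, r ≤ ‖z‖ → g z = z

/-- The germ at `0` of `f` is that of an area preserving map supported in the ball. -/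
def GermR (r : ℝ) (f : ℂ → ℂ) : Prop := ∃ g, Loc r g ∧ (g : ℂ → ℂ) =ᶠ[𝓝 0] f

lemma GermR.comp {r : ℝ} {f₁ f₂ : ℂ → ℂ} (h₁ : GermR r f₁) (h₂ : GermR r f₂) (h0 : f₂ 0 = 0) :
    GermR r (f₁ ∘ f₂) := by
  obtain ⟨g₁, hg₁, e₁⟩ := h₁
  obtain ⟨g₂, hg₂, e₂⟩ := h₂
  refine ⟨g₂.trans g₁, ⟨fun z => (hg₁.1 _).comp (hg₂.1 z), fun z hz => ?_⟩, ?_⟩
  · change g₁ (g₂ z) = z
    rw [hg₂.2 z hz, hg₁.2 z hz]
  · have hg0 : g₂ 0 = 0 := by rw [e₂.eq_of_nhds, h0]
    have ht : Tendsto g₂ (𝓝 0) (𝓝 0) := by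
      have := g₂.continuous.tendsto 0
      rwa [hg0] at this
    filter_upwards [e₂, ht.eventually e₁] with z hz1 hz2
    change g₁ (g₂ z) = f₁ (f₂ z)
    rw [hz2, hz1]

lemma GermR.congr {r : ℝ} {f₁ f₂ : ℂ → ℂ} (h₁ : GermR r f₁) (h : f₂ =ᶠ[𝓝 0] f₁) :
    GermR r f₂ := by
  obtain ⟨g, hg, e⟩ := h₁
  exact ⟨g, hg, e.trans h.symm⟩

lemma germR_id {r : ℝ} : GermR r (fun z => z) :=
  ⟨Homeomorph.refl ℂ, ⟨fun _ => APAt.id, fun _ _ => rfl⟩, Filter.EventuallyEq.rfl⟩

lemma hasCompactSupport_sbump_mul {δ : ℝ} (hδ : 0 < δ) (f : ℂ → ℝ) :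
    HasCompactSupport (fun z => sbump δ z * f z) := by
  refine HasCompactSupport.intro (isCompact_closedBall (0:ℂ) (2 * δ)) fun z hz => ?_
  rw [sbump_zero hδ, zero_mul]
  have : ¬ ‖z‖ ≤ 2 * δ := by simpa using hz
  exact (not_le.1 this).le

lemma fderiv_zero_of_sbump {δ : ℝ} (hδ : 0 < δ) (f : ℂ → ℝ) (s : ℝ) {z : ℂ} (hz : 2 * δ < ‖z‖) :
    fderiv ℝ (fun z => s * (sbump δ z * f z)) z = 0 := by
  have ho : IsOpen {w : ℂ | 2 * δ < ‖w‖} := isOpen_lt continuous_const continuous_norm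
  have : (fun z => s * (sbump δ z * f z)) =ᶠ[𝓝 z] fun _ => 0 := by
    filter_upwards [ho.mem_nhds hz] with w hw
    rw [sbump_zero hδ (le_of_lt hw), zero_mul, mul_zero]
  rw [this.fderiv_eq]
  simp

lemma fderiv_near {δ : ℝ} (hδ : 0 < δ) (f : ℂ → ℝ) (s : ℝ) {z : ℂ} (hz : ‖z‖ < δ) :
    fderiv ℝ (fun z => s * (sbump δ z * f z)) z = fderiv ℝ (fun z => s * f z) z := by
  have ho : IsOpen {w : ℂ | ‖w‖ < δ} := isOpen_lt continuous_norm continuous_const
  have : (fun z => s * (sbump δ z * f z)) =ᶠ[𝓝 z] fun z => s * f z := by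
    filter_upwards [ho.mem_nhds hz] with w hw
    rw [sbump_one hδ (le_of_lt hw), one_mul]
  exact this.fderiv_eq

lemma fderiv_re (z : ℂ) : fderiv ℝ (fun z : ℂ => z.re) z = reCLM := reCLM.fderiv

lemma fderiv_im (z : ℂ) : fderiv ℝ (fun z : ℂ => z.im) z = imCLM := imCLM.fderiv

lemma contDiff_re : ContDiff ℝ ∞ (fun z : ℂ => z.re) := reCLM.contDiff

lemma contDiff_im : ContDiff ℝ ∞ (fun z : ℂ => z.im) := imCLM.contDiff

/-- Points close to the origin can be reached from it. -/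
theorem exists_translation {r : ℝ} (hr : 0 < r) :
    ∃ ε > 0, ∀ v : ℂ, ‖v‖ < ε → ∃ g, Loc r g ∧ g 0 = v := by
  set δ : ℝ := r / 3 with hδd
  have hδ : 0 < δ := by positivity
  have h2 : 2 * δ < r := by rw [hδd]; linarith
  obtain ⟨s₁, hs₁, H₁⟩ := exists_small ((sbump_smooth δ).mul contDiff_im)
    (hasCompactSupport_sbump_mul hδ _)
  obtain ⟨s₂, hs₂, H₂⟩ := exists_small ((sbump_smooth δ).mul contDiff_re)
    (hasCompactSupport_sbump_mul hδ _)
  refine ⟨min (min s₁ s₂) δ, by positivity, fun v hv => ?_⟩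
  have hv1 : ‖v‖ < s₁ := hv.trans_le ((min_le_left _ _).trans (min_le_left _ _))
  have hv2 : ‖v‖ < s₂ := hv.trans_le ((min_le_left _ _).trans (min_le_right _ _))
  have hv3 : ‖v‖ < δ := hv.trans_le (min_le_right _ _)
  have hre := (abs_re_le_norm v).trans hv1.le
  have him := (abs_im_le_norm v).trans hv2.le
  set g₁ : ℂ → ℝ := fun z => v.re * (sbump δ z * z.im) with hg₁
  set g₂ : ℂ → ℝ := fun z => (-v.im) * (sbump δ z * z.re) with hg₂
  have c₁ : ContDiff ℝ ∞ g₁ := contDiff_const.mul ((sbump_smooth δ).mul contDiff_im)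
  have c₂ : ContDiff ℝ ∞ g₂ := contDiff_const.mul ((sbump_smooth δ).mul contDiff_re)
  have hfd : ∀ z, fderiv ℝ (fun z => g₁ z + g₂ z) z = fderiv ℝ g₁ z + fderiv ℝ g₂ z := fun z =>
    fderiv_fun_add (c₁.differentiable (by simp) z) (c₂.differentiable (by simp) z)
  have hL : LipschitzWith (1/4) (fderiv ℝ (fun z => g₁ z + g₂ z)) := by
    refine LipschitzWith.of_dist_le_mul fun x y => ?_
    rw [dist_eq_norm, dist_eq_norm, hfd, hfd]
    have e1 := H₁ v.re hre x y
    have e2 := H₂ (-v.im) (by rwa [abs_neg]) x y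
    have e3 : fderiv ℝ g₁ x + fderiv ℝ g₂ x - (fderiv ℝ g₁ y + fderiv ℝ g₂ y) =
      (fderiv ℝ g₁ x - fderiv ℝ g₁ y) + (fderiv ℝ g₂ x - fderiv ℝ g₂ y) := by abel
    rw [e3]
    refine (norm_add_le _ _).trans ((add_le_add e1 e2).trans (le_of_eq ?_))
    norm_num
    ring
  obtain ⟨g, ha, hK, hz⟩ := exists_gf (c₁.add c₂) hL
  refine ⟨g, ⟨ha, fun z hz' => hz z ?_⟩, ?_⟩
  · rw [hfd, hg₁, hg₂, fderiv_zero_of_sbump hδ _ _ (h2.trans_le hz'),
      fderiv_zero_of_sbump hδ _ _ (h2.trans_le hz'), add_zero]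
  · have hn : ‖(v.im : ℂ) * I‖ < δ := by
      rw [norm_mul, norm_I, mul_one, Complex.norm_real]
      exact (abs_im_le_norm v).trans_lt hv3
    have hfv : fderiv ℝ (fun z => g₁ z + g₂ z) ((v.im : ℂ) * I) = v.re • imCLM - v.im • reCLM := by
      rw [hfd, hg₁, hg₂, fderiv_near hδ _ _ hn, fderiv_near hδ _ _ hn,
        fderiv_const_mul (contDiff_im.differentiable (by simp) _),
        fderiv_const_mul (contDiff_re.differentiable (by simp) _), fderiv_re, fderiv_im]
      module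
    have := hK ((v.im : ℂ) * I)
    rw [hfv] at this
    simp only [sub_apply, smul_apply, imCLM_apply,
      reCLM_apply, one_im, one_re, I_im, I_re, smul_eq_mul, mul_zero, mul_one, zero_sub,
      sub_zero, ofReal_neg] at this
    have e0 : (v.im : ℂ) * I + -(v.im : ℂ) * I = 0 := by ring
    rw [e0] at this
    rw [this]
    apply Complex.ext <;> simp

/-- Upper shear. -/
def shU (s : ℝ) (z : ℂ) : ℂ := z + ((s * z.im : ℝ) : ℂ)

/-- Lower shear. -/
def shL (s : ℝ) (z : ℂ) : ℂ := z + ((s * z.re : ℝ) : ℂ) * I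

lemma fderiv_sq_im (s : ℝ) (z : ℂ) :
    fderiv ℝ (fun z : ℂ => s * (z.im * z.im)) z = (2 * s * z.im) • imCLM := by
  have h1 : HasFDerivAt (fun z : ℂ => z.im) imCLM z := imCLM.hasFDerivAt
  have h2 : HasFDerivAt (fun z : ℂ => s * (z.im * z.im))
      (s • (z.im • imCLM + z.im • imCLM)) z := (h1.mul h1).const_mul s
  rw [h2.fderiv]
  module

lemma fderiv_sq_re (s : ℝ) (z : ℂ) :
    fderiv ℝ (fun z : ℂ => s * (z.re * z.re)) z = (2 * s * z.re) • reCLM := by
  have h1 : HasFDerivAt (fun z : ℂ => z.re) reCLM z := reCLM.hasFDerivAt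
  have h2 : HasFDerivAt (fun z : ℂ => s * (z.re * z.re))
      (s • (z.re • reCLM + z.re • reCLM)) z := (h1.mul h1).const_mul s
  rw [h2.fderiv]
  module

lemma germR_shU_small {r : ℝ} (hr : 0 < r) : ∃ s₀ > 0, ∀ s : ℝ, |s| ≤ s₀ → GermR r (shU s) := by
  set δ : ℝ := r / 3 with hδd
  have hδ : 0 < δ := by positivity
  have h2 : 2 * δ < r := by rw [hδd]; linarith
  obtain ⟨s₁, hs₁, H₁⟩ := exists_small ((sbump_smooth δ).mul (contDiff_im.mul contDiff_im))
    (hasCompactSupport_sbump_mul hδ _)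
  refine ⟨2 * s₁, by positivity, fun s hs => ?_⟩
  have hs' : |s / 2| ≤ s₁ := by
    rw [abs_div, abs_two]; linarith
  have cG : ContDiff ℝ ∞ (fun z : ℂ => (s/2) * (sbump δ z * (z.im * z.im))) :=
    contDiff_const.mul ((sbump_smooth δ).mul (contDiff_im.mul contDiff_im))
  have hL : LipschitzWith (1/4) (fderiv ℝ (fun z : ℂ => (s/2) * (sbump δ z * (z.im * z.im)))) := by
    refine LipschitzWith.of_dist_le_mul fun x y => ?_
    rw [dist_eq_norm, dist_eq_norm]
    refine (H₁ (s/2) hs' x y).trans ?_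
    have := norm_nonneg (x - y)
    norm_num
    linarith
  obtain ⟨g, ha, hK, hz⟩ := exists_gf cG hL
  refine ⟨g, ⟨ha, fun z hz' => hz z (fderiv_zero_of_sbump hδ _ _ (h2.trans_le hz'))⟩, ?_⟩
  filter_upwards [Metric.ball_mem_nhds (0:ℂ) hδ] with z hzδ
  have hn : ‖z‖ < δ := mem_ball_zero_iff.1 hzδ
  have := hK z
  rw [fderiv_near hδ _ _ hn, fderiv_sq_im] at this
  simp only [smul_apply, imCLM_apply, one_im, I_im, smul_eq_mul, mul_zero,
    mul_one, ofReal_zero, zero_mul, add_zero] at this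
  rw [this, shU]
  congr 2
  ring

lemma germR_shL_small {r : ℝ} (hr : 0 < r) : ∃ s₀ > 0, ∀ s : ℝ, |s| ≤ s₀ → GermR r (shL s) := by
  set δ : ℝ := r / 3 with hδd
  have hδ : 0 < δ := by positivity
  have h2 : 2 * δ < r := by rw [hδd]; linarith
  obtain ⟨s₁, hs₁, H₁⟩ := exists_small ((sbump_smooth δ).mul (contDiff_re.mul contDiff_re))
    (hasCompactSupport_sbump_mul hδ _)
  refine ⟨2 * s₁, by positivity, fun s hs => ?_⟩
  have hs' : |-s / 2| ≤ s₁ := by
    rw [abs_div, abs_two, abs_neg]; linarith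
  have cG : ContDiff ℝ ∞ (fun z : ℂ => (-s/2) * (sbump δ z * (z.re * z.re))) :=
    contDiff_const.mul ((sbump_smooth δ).mul (contDiff_re.mul contDiff_re))
  have hL : LipschitzWith (1/4)
      (fderiv ℝ (fun z : ℂ => (-s/2) * (sbump δ z * (z.re * z.re)))) := by
    refine LipschitzWith.of_dist_le_mul fun x y => ?_
    rw [dist_eq_norm, dist_eq_norm]
    refine (H₁ (-s/2) hs' x y).trans ?_
    have := norm_nonneg (x - y)
    norm_num
    linarith
  obtain ⟨g, ha, hK, hz⟩ := exists_gf cG hL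
  refine ⟨g, ⟨ha, fun z hz' => hz z (fderiv_zero_of_sbump hδ _ _ (h2.trans_le hz'))⟩, ?_⟩
  have hcont : Continuous (shL s) := by unfold shL; fun_prop
  have ht : ∀ᶠ z in 𝓝 (0:ℂ), ‖shL s z‖ < δ := by
    have h1 : Tendsto (fun z => ‖shL s z‖) (𝓝 0) (𝓝 ‖shL s 0‖) := hcont.norm.tendsto 0
    refine h1.eventually (gt_mem_nhds ?_)
    simp [shL, hδ]
  filter_upwards [ht] with z hn
  have := hK (shL s z)
  rw [fderiv_near hδ _ _ hn, fderiv_sq_re] at this
  simp only [smul_apply, reCLM_apply, one_re, I_re, smul_eq_mul, mul_zero,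
    mul_one, ofReal_zero, add_zero] at this
  have e1 : (shL s z).re = z.re := by simp [shL]
  rw [e1] at this
  have e2 : shL s z + ((2 * (-s / 2) * z.re : ℝ) : ℂ) * I = z := by
    rw [shL]; push_cast; ring
  rw [e2] at this
  exact this

lemma shU_add (s t : ℝ) : shU (s + t) = shU s ∘ shU t := by
  funext z
  simp only [shU, Function.comp_apply, add_im, ofReal_im, add_zero]
  push_cast
  ring

lemma shL_add (s t : ℝ) : shL (s + t) = shL s ∘ shL t := by
  funext z
  simp only [shL, Function.comp_apply, add_re, mul_re, ofReal_re, ofReal_im, I_re, I_im, mul_zero,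
    zero_mul, sub_zero, add_zero]
  push_cast
  ring

lemma shU_zero : shU 0 = fun z => z := by funext z; simp [shU]

lemma shL_zero : shL 0 = fun z => z := by funext z; simp [shL]

lemma exists_nat_div {s s₀ : ℝ} (hs₀ : 0 < s₀) : ∃ n : ℕ, ∃ t : ℝ, |t| ≤ s₀ ∧ s = n * t := by
  obtain ⟨n, hn⟩ := exists_nat_gt (|s| / s₀)
  have hn0 : (0:ℝ) < n := lt_of_le_of_lt (by positivity) hn
  refine ⟨n, s / n, ?_, by field_simp⟩
  rw [abs_div, abs_of_pos hn0, div_le_iff₀ hn0]
  rw [div_lt_iff₀ hs₀] at hn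
  linarith

lemma germR_shU {r : ℝ} (hr : 0 < r) (s : ℝ) : GermR r (shU s) := by
  obtain ⟨s₀, hs₀, H⟩ := germR_shU_small hr
  obtain ⟨n, t, ht, rfl⟩ := exists_nat_div (s := s) hs₀
  induction n with
  | zero => simp only [Nat.cast_zero, zero_mul]; rw [shU_zero]; exact germR_id
  | succ n ih =>
    have : ((n + 1 : ℕ) : ℝ) * t = n * t + t := by push_cast; ring
    rw [this, shU_add]
    exact ih.comp (H t ht) (by simp [shU])

lemma germR_shL {r : ℝ} (hr : 0 < r) (s : ℝ) : GermR r (shL s) := by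
  obtain ⟨s₀, hs₀, H⟩ := germR_shL_small hr
  obtain ⟨n, t, ht, rfl⟩ := exists_nat_div (s := s) hs₀
  induction n with
  | zero => simp only [Nat.cast_zero, zero_mul]; rw [shL_zero]; exact germR_id
  | succ n ih =>
    have : ((n + 1 : ℕ) : ℝ) * t = n * t + t := by push_cast; ring
    rw [this, shL_add]
    exact ih.comp (H t ht) (by simp [shL])

lemma germR_linear_aux {r : ℝ} (hr : 0 < r) (A : ℂ →L[ℝ] ℂ) (hA : w0 (A 1) (A I) = 1)
    (hc : (A 1).im ≠ 0) : GermR r A := by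
  have h1 : (A : ℂ → ℂ) = shU (((A 1).re - 1) / (A 1).im) ∘ (shL (A 1).im ∘
      shU (((A I).im - 1) / (A 1).im)) := by
    funext z
    rw [clm_apply_eq A z]
    unfold w0 at hA
    apply Complex.ext
    · simp only [shU, shL, Function.comp_apply, add_re, mul_re, ofReal_re, ofReal_im, I_re, I_im,
        mul_zero, zero_mul, sub_zero, add_zero, add_im, mul_im, mul_one, zero_add]
      field_simp
      linear_combination (-z.im) * hA
    · simp only [shU, shL, Function.comp_apply, add_re, mul_re, ofReal_re, ofReal_im, I_re, I_im,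
        mul_zero, zero_mul, sub_zero, add_zero, add_im, mul_im, mul_one, zero_add]
      field_simp
      ring
  rw [h1]
  exact (germR_shU hr _).comp ((germR_shL hr _).comp (germR_shU hr _) (by simp [shU]))
    (by simp [shU, shL])

lemma germR_linear {r : ℝ} (hr : 0 < r) (A : ℂ →L[ℝ] ℂ) (hA : w0 (A 1) (A I) = 1) :
    GermR r A := by
  by_cases hc : (A 1).im = 0
  · -- compose with a shear
    have hre : (A 1).re ≠ 0 := by
      intro h
      rw [w0, h, hc] at hA
      simp at hA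
    let B : ℂ →L[ℝ] ℂ := A + (reCLM.comp A).smulRight I
    have hB : ∀ z, B z = shL 1 (A z) := by
      intro z
      simp [B, shL]
    have hBm : w0 (B 1) (B I) = 1 := by
      rw [hB, hB, ← hA]
      simp only [w0, shL, add_re, mul_re, ofReal_re, ofReal_im, I_re, I_im,
        mul_zero, zero_mul, sub_zero, add_zero, add_im, mul_im, mul_one, zero_add, one_mul]
      ring
    have hBc : (B 1).im ≠ 0 := by
      rw [hB]
      simp only [shL, add_im, mul_im, ofReal_re, ofReal_im, I_re, I_im, mul_zero, mul_one,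
        one_mul, add_zero]
      rw [hc, zero_add]
      exact hre
    have h1 : (A : ℂ → ℂ) = shL (-1) ∘ B := by
      funext z
      rw [Function.comp_apply, hB, ← Function.comp_apply (f := shL (-1)), ← shL_add]
      rw [show (-1 + 1 : ℝ) = 0 by norm_num, shL_zero]
    rw [h1]
    exact (germR_shL hr _).comp (germR_linear_aux hr B hBm hBc) (map_zero B)
  · exact germR_linear_aux hr A hA hc

end Pool.Agent.Helper186.Area
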