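import Mathlib
import Pool.Agent.Helper186.AreaGerm

/-! Germs tangent to the identity. -/

open scoped Topology ContDiff NNReal
open Set Filter Complex Metric

noncomputable section

namespace Pool.Agent.Helper186.Area

set_option linter.unusedSimpArgs false

theorem germR_tangent {r : ℝ} (hr : 0 < r) {f : ℂ → ℂ} (hf : ∀ᶠ z in 𝓝 0, APAt 1 1 f z)
    (h0 : f 0 = 0) (hD : fderiv ℝ f 0 = ContinuousLinearMap.id ℝ ℂ) : GermR r f := by
  have hf0 : APAt 1 1 f 0 := hf.self_of_nhds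
  -- the mixed coordinates
  set κ : ℂ → ℂ := fun z => (z.re : ℂ) + ((f z).im : ℂ) * I with hκ
  have hκre : ∀ z, (κ z).re = z.re := fun z => by simp [hκ]
  have hκim : ∀ z, (κ z).im = (f z).im := fun z => by simp [hκ]
  have hκ0 : κ 0 = 0 := by simp [hκ, h0]
  have hκs : ∀ z, ContDiffAt ℝ ∞ f z → ContDiffAt ℝ ∞ κ z := by
    intro z hz
    have h1 : ContDiffAt ℝ ∞ (fun z : ℂ => (z.re : ℂ)) z :=
      (Complex.ofRealCLM.contDiff.comp contDiff_re).contDiffAt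
    have h2 : ContDiffAt ℝ ∞ (fun z : ℂ => ((f z).im : ℂ)) z :=
      (Complex.ofRealCLM.contDiff.comp contDiff_im).contDiffAt.comp z hz
    exact h1.add (h2.mul contDiffAt_const)
  have hκd : ∀ z, DifferentiableAt ℝ f z → HasFDerivAt κ
      (Complex.ofRealCLM.comp reCLM + ((Complex.ofRealCLM.comp (imCLM.comp
        (fderiv ℝ f z)))).smulRight I) z := by
    intro z hz
    have h1 : HasFDerivAt (fun z : ℂ => (z.re : ℂ)) (Complex.ofRealCLM.comp reCLM) z :=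
      (Complex.ofRealCLM.comp reCLM).hasFDerivAt
    have h2 : HasFDerivAt (fun z : ℂ => ((f z).im : ℂ))
        (Complex.ofRealCLM.comp (imCLM.comp (fderiv ℝ f z))) z :=
      (Complex.ofRealCLM.comp imCLM).hasFDerivAt.comp z hz.hasFDerivAt
    have h3 := h1.add (h2.mul_const I)
    refine h3.congr_fderiv ?_
    ext v
    simp
    ring
  let j : ℂ → ℝ := fun z => (fderiv ℝ f z I).im
  have hκap : ∀ z, APAt 1 1 f z → APAt j 1 κ z := by
    intro z hz
    refine apAt_of (hκs z hz.1) ?_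
    rw [(hκd z hz.differentiableAt).fderiv]
    simp [w0, j]
  have hdκ0 : HasFDerivAt κ ((ContinuousLinearEquiv.refl ℝ ℂ : ℂ ≃L[ℝ] ℂ) : ℂ →L[ℝ] ℂ) 0 := by
    refine (hκd 0 hf0.differentiableAt).congr_fderiv ?_
    rw [hD]
    ext v
    simp [Complex.re_add_im]
  have hn : (∞ : WithTop ℕ∞) ≠ 0 := by simp
  have hκs0 := hκs 0 hf0.1
  let e := hκs0.toOpenPartialHomeomorph κ hdκ0 hn
  have he0 : (0:ℂ) ∈ e.source := hκs0.mem_toOpenPartialHomeomorph_source hdκ0 hn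
  have hcoe : (e : ℂ → ℂ) = κ := hκs0.toOpenPartialHomeomorph_coe hdκ0 hn
  -- a good open set
  obtain ⟨V₁, hV₁, hV₁o, h0V₁⟩ := _root_.eventually_nhds_iff.1 hf
  have hjc : ContinuousOn j V₁ := by
    have h1 : ContinuousOn (fderiv ℝ f) V₁ := by
      have : ContDiffOn ℝ 1 f V₁ := fun z hz => ((hV₁ z hz).1.of_le (by simp)).contDiffWithinAt
      exact this.continuousOn_fderiv_of_isOpen hV₁o le_rfl
    exact (Complex.continuous_im.comp_continuousOn (h1.clm_apply continuousOn_const))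
  have hj0 : j 0 = 1 := by simp [j, hD]
  set V : Set ℂ := (V₁ ∩ j ⁻¹' (Ioi 0)) ∩ e.source with hV
  have hVo : IsOpen V := (hjc.isOpen_inter_preimage hV₁o isOpen_Ioi).inter e.open_source
  have h0V : (0:ℂ) ∈ V := ⟨⟨h0V₁, by simp [hj0]⟩, he0⟩
  have hVim : IsOpen (e '' V) := e.isOpen_image_of_subset_source hVo inter_subset_right
  have h0im : (0:ℂ) ∈ e '' V := ⟨0, h0V, by rw [hcoe, hκ0]⟩
  obtain ⟨r₀, hr₀, hball⟩ := Metric.isOpen_iff.1 hVim 0 h0im
  obtain ⟨k, hk⟩ : ∃ k : ℂ → ℂ, ∀ w, k w = e.symm w := ⟨_, fun _ => rfl⟩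
  have hkV : ∀ w ∈ ball (0:ℂ) r₀, k w ∈ V := by
    intro w hw
    obtain ⟨z, hz, rfl⟩ := hball hw
    rw [hk, e.left_inv hz.2]; exact hz
  have hκk : ∀ w ∈ ball (0:ℂ) r₀, κ (k w) = w := by
    intro w hw
    obtain ⟨z, hz, rfl⟩ := hball hw
    rw [hk, e.left_inv hz.2, hcoe]
  have hkκ : ∀ z ∈ V, k (κ z) = z := by
    intro z hz
    rw [hk, ← hcoe]; exact e.left_inv hz.2
  have hkap : ∀ w ∈ ball (0:ℂ) r₀, APAt 1 j k w := by
    intro w hw
    have h1 := hkV w hw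
    have h2 := (hκap _ (hV₁ _ h1.1.1)).inverse (g := k) (U := V) (ne_of_gt h1.1.2)
      (hVo.mem_nhds h1) hkκ
    rwa [hκk w hw] at h2
  have hk0 : k 0 = 0 := by
    have := hkκ 0 h0V
    rwa [hκ0] at this
  -- the composed map
  set F : ℂ → ℂ := fun w => f (k w) with hF
  have hFs : ∀ w ∈ ball (0:ℂ) r₀, ContDiffAt ℝ ∞ F w := fun w hw =>
    (hV₁ _ (hkV w hw).1.1).1.comp w (hkap w hw).1
  have hFd : ∀ w ∈ ball (0:ℂ) r₀, fderiv ℝ F w = (fderiv ℝ f (k w)).comp (fderiv ℝ k w) :=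
    fun w hw => fderiv_comp w (hV₁ _ (hkV w hw).1.1).differentiableAt (hkap w hw).differentiableAt
  have hkre : ∀ w ∈ ball (0:ℂ) r₀, (k w).re = w.re := fun w hw => by
    rw [← hκre, hκk w hw]
  have hFim : ∀ w ∈ ball (0:ℂ) r₀, (F w).im = w.im := fun w hw => by
    rw [hF, ← hκim, hκk w hw]
  have hbo : IsOpen (ball (0:ℂ) r₀) := isOpen_ball
  have dkre : ∀ w ∈ ball (0:ℂ) r₀, ∀ v, (fderiv ℝ k w v).re = v.re := by
    intro w hw v
    have h1 : (fun w => (k w).re) =ᶠ[𝓝 w] fun w => w.re := by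
      filter_upwards [hbo.mem_nhds hw] with w' hw' using hkre w' hw'
    have h2 : fderiv ℝ (fun w => (k w).re) w = reCLM.comp (fderiv ℝ k w) :=
      (reCLM.hasFDerivAt.comp w (hkap w hw).differentiableAt.hasFDerivAt).fderiv
    have h3 := h1.fderiv_eq (𝕜 := ℝ)
    rw [h2, fderiv_re] at h3
    exact DFunLike.congr_fun h3 v
  have dFim : ∀ w ∈ ball (0:ℂ) r₀, ∀ v, (fderiv ℝ F w v).im = v.im := by
    intro w hw v
    have h1 : (fun w => (F w).im) =ᶠ[𝓝 w] fun w => w.im := by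
      filter_upwards [hbo.mem_nhds hw] with w' hw' using hFim w' hw'
    have h2 : fderiv ℝ (fun w => (F w).im) w = imCLM.comp (fderiv ℝ F w) :=
      (imCLM.hasFDerivAt.comp w ((hFs w hw).differentiableAt (by simp)).hasFDerivAt).fderiv
    have h3 := h1.fderiv_eq (𝕜 := ℝ)
    rw [h2, fderiv_im] at h3
    exact DFunLike.congr_fun h3 v
  have hclosed : ∀ w ∈ ball (0:ℂ) r₀, (fderiv ℝ F w 1).re = (fderiv ℝ k w I).im := by
    intro w hw
    have h1 := (hV₁ _ (hkV w hw).1.1).2 (fderiv ℝ k w 1) (fderiv ℝ k w I)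
    have e1 : fderiv ℝ f (k w) (fderiv ℝ k w 1) = fderiv ℝ F w 1 := by rw [hFd w hw]; rfl
    have e2 : fderiv ℝ f (k w) (fderiv ℝ k w I) = fderiv ℝ F w I := by rw [hFd w hw]; rfl
    rw [e1, e2] at h1
    simp only [w0, dFim w hw, dkre w hw, one_im, one_re, I_im, I_re, Pi.one_apply] at h1
    linarith
  -- the closed one form
  set α : ℂ → (ℂ →L[ℝ] ℝ) := fun w =>
    ((k w).im - w.im) • reCLM + ((F w).re - w.re) • imCLM with hα
  have hks : ∀ w ∈ ball (0:ℂ) r₀, ContDiffAt ℝ ∞ (fun w => (k w).im - w.im) w := fun w hw =>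
    (contDiff_im.contDiffAt.comp w (hkap w hw).1).sub contDiff_im.contDiffAt
  have hFs' : ∀ w ∈ ball (0:ℂ) r₀, ContDiffAt ℝ ∞ (fun w => (F w).re - w.re) w := fun w hw =>
    (contDiff_re.contDiffAt.comp w (hFs w hw)).sub contDiff_re.contDiffAt
  have hαs : ∀ w ∈ ball (0:ℂ) r₀, ContDiffAt ℝ ∞ α w := fun w hw =>
    ((hks w hw).smul contDiffAt_const).add ((hFs' w hw).smul contDiffAt_const)
  have hαd : ∀ w ∈ ball (0:ℂ) r₀, ∀ x y, fderiv ℝ α w x y =
      ((fderiv ℝ k w x).im - x.im) * y.re + ((fderiv ℝ F w x).re - x.re) * y.im := by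
    intro w hw x y
    have h1 : HasFDerivAt (fun w => (k w).im - w.im) (imCLM.comp (fderiv ℝ k w) - imCLM) w :=
      (imCLM.hasFDerivAt.comp w (hkap w hw).differentiableAt.hasFDerivAt).sub imCLM.hasFDerivAt
    have h2 : HasFDerivAt (fun w => (F w).re - w.re) (reCLM.comp (fderiv ℝ F w) - reCLM) w :=
      (reCLM.hasFDerivAt.comp w ((hFs w hw).differentiableAt (by simp)).hasFDerivAt).sub
        reCLM.hasFDerivAt
    have h3 : HasFDerivAt α _ w := (h1.smul_const reCLM).add (h2.smul_const imCLM)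
    rw [h3.fderiv]
    simp
  have hαD : DifferentiableOn ℝ α (ball (0:ℂ) r₀) :=
    fun w hw => ((hαs w hw).differentiableAt (by simp)).differentiableWithinAt
  obtain ⟨G₀, hG₀⟩ := (convex_ball (0:ℂ) r₀).exists_forall_hasFDerivAt_of_fderiv_symmetric hbo
    hαD (by
      intro w hw x y
      rw [hαd w hw, hαd w hw, clm_apply_eq (fderiv ℝ k w) x, clm_apply_eq (fderiv ℝ k w) y,
        clm_apply_eq (fderiv ℝ F w) x, clm_apply_eq (fderiv ℝ F w) y]
      simp only [add_im, mul_im, ofReal_re, ofReal_im, zero_mul, add_zero, add_re, mul_re,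
        sub_zero]
      rw [hclosed w hw]
      ring)
  have h0b : (0:ℂ) ∈ ball (0:ℂ) r₀ := mem_ball_self hr₀
  set G₁ : ℂ → ℝ := fun w => G₀ w - G₀ 0 with hG₁
  have hG₁d : ∀ w ∈ ball (0:ℂ) r₀, HasFDerivAt G₁ (α w) w := fun w hw =>
    (hG₀ w hw).sub_const _
  have hG₁s : ∀ w ∈ ball (0:ℂ) r₀, ContDiffAt ℝ ∞ G₁ w := by
    have : ContDiffOn ℝ ∞ G₁ (ball (0:ℂ) r₀) := by
      rw [show (∞ : WithTop ℕ∞) = ∞ + 1 from rfl, contDiffOn_succ_iff_fderiv_of_isOpen hbo]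
      refine ⟨fun w hw => (hG₁d w hw).differentiableAt.differentiableWithinAt, by simp, ?_⟩
      intro w hw
      have : ContDiffWithinAt ℝ ∞ α (ball 0 r₀) w := (hαs w hw).contDiffWithinAt
      refine this.congr (fun w' hw' => (hG₁d w' hw').fderiv) (hG₁d w hw).fderiv
    exact fun w hw => this.contDiffAt (hbo.mem_nhds hw)
  set δ : ℝ := r₀ / 3 with hδd
  have hδ : 0 < δ := by positivity
  set G₂ : ℂ → ℝ := fun w => sbump δ w * G₁ w with hG₂
  have hG₂s : ContDiff ℝ ∞ G₂ := by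
    rw [contDiff_iff_contDiffAt]
    intro w
    rcases lt_or_ge ‖w‖ r₀ with hw | hw
    · exact (sbump_smooth δ).contDiffAt.mul (hG₁s w (mem_ball_zero_iff.2 hw))
    · have ho : IsOpen {w : ℂ | 2 * δ < ‖w‖} := isOpen_lt continuous_const continuous_norm
      have hw' : w ∈ {w : ℂ | 2 * δ < ‖w‖} := by
        change 2 * δ < ‖w‖
        rw [hδd]; linarith
      have : G₂ =ᶠ[𝓝 w] fun _ => 0 := by
        filter_upwards [ho.mem_nhds hw'] with w' hw'
        simp only [hG₂]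
        rw [sbump_zero hδ (le_of_lt hw'), zero_mul]
      exact contDiffAt_const.congr_of_eventuallyEq this
  have hnear : G₂ =ᶠ[𝓝 0] G₁ := by
    filter_upwards [Metric.ball_mem_nhds (0:ℂ) hδ] with z hz
    simp only [hG₂]
    rw [sbump_one hδ (mem_ball_zero_iff.1 hz).le, one_mul]
  have hG₁α : fderiv ℝ G₁ =ᶠ[𝓝 0] α := by
    filter_upwards [hbo.mem_nhds h0b] with w hw using (hG₁d w hw).fderiv
  have hG₂α : fderiv ℝ G₂ =ᶠ[𝓝 0] α := hnear.fderiv.trans hG₁α
  have hα0 : α 0 = 0 := by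
    simp [hα, hF, hk0, h0]
  have hdk0 : fderiv ℝ k 0 = ContinuousLinearMap.id ℝ ℂ := by
    have h1 : (κ ∘ k) =ᶠ[𝓝 0] _root_.id := by
      filter_upwards [hbo.mem_nhds h0b] with w hw using hκk w hw
    have hd : HasFDerivAt κ ((ContinuousLinearEquiv.refl ℝ ℂ : ℂ ≃L[ℝ] ℂ) : ℂ →L[ℝ] ℂ) (k 0) := by
      rw [hk0]; exact hdκ0
    have h2 := (hd.comp 0 (hkap 0 h0b).differentiableAt.hasFDerivAt).fderiv
    rw [h1.fderiv_eq, fderiv_id] at h2
    rw [h2]
    ext v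
    simp
  have hdF0 : fderiv ℝ F 0 = ContinuousLinearMap.id ℝ ℂ := by
    rw [hFd 0 h0b, hdk0, hk0, hD]
    rfl
  have hdα0 : fderiv ℝ α 0 = 0 := by
    refine ContinuousLinearMap.ext fun x => ContinuousLinearMap.ext fun y => ?_
    rw [hαd 0 h0b, hdk0, hdF0]
    simp
  obtain ⟨G', hG's, hG'e, hG'L, hG'z⟩ := exists_cut hG₂s (by simp [hG₂, hG₁])
    (by rw [hG₂α.eq_of_nhds, hα0]) (by rw [hG₂α.fderiv_eq, hdα0]) hr
  obtain ⟨g, ha, hK, hz⟩ := exists_gf hG's hG'L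
  refine ⟨g, ⟨ha, fun z hz' => hz z (hG'z z hz')⟩, ?_⟩
  have hG'α : fderiv ℝ G' =ᶠ[𝓝 0] α := hG'e.fderiv.trans hG₂α
  have key : ∀ᶠ w in 𝓝 (0:ℂ), g (k w) = f (k w) := by
    filter_upwards [hG'α, hbo.mem_nhds h0b] with w hw hwb
    have h1 := hK w
    rw [hw] at h1
    have e1 : w + ((α w 1 : ℝ) : ℂ) * I = k w := by
      apply Complex.ext
      · simp [hα, hkre w hwb]
      · simp [hα]
    have e2 : w + ((α w I : ℝ) : ℂ) = F w := by
      apply Complex.ext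
      · simp [hα]
      · simp [hα, hFim w hwb]
    rw [e1, e2] at h1
    exact h1
  have hκc : Tendsto κ (𝓝 0) (𝓝 0) := by
    have := hκs0.continuousAt.tendsto
    rwa [hκ0] at this
  filter_upwards [hκc.eventually key, hVo.mem_nhds h0V] with z hz1 hz2
  rwa [hkκ z hz2] at hz1

/-- Every germ of an area preserving map fixing the origin extends. -/
theorem germR_of_ap {r : ℝ} (hr : 0 < r) {f : ℂ → ℂ} (hf : ∀ᶠ z in 𝓝 0, APAt 1 1 f z)
    (h0 : f 0 = 0) : GermR r f := by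
  have hf0 : APAt 1 1 f 0 := hf.self_of_nhds
  obtain ⟨A, hA⟩ := hf0.exists_equiv (by simp)
  have hAw : ∀ u v, w0 (A u) (A v) = w0 u v := by
    intro u v
    have := hf0.2 u v
    rw [← hA] at this
    simpa using this
  have hAsw : ∀ u v, w0 (A.symm u) (A.symm v) = w0 u v := by
    intro u v
    rw [← hAw, A.apply_symm_apply, A.apply_symm_apply]
  have hAs : ∀ z, APAt 1 1 A.symm z := by
    intro z
    refine ⟨A.symm.contDiff.contDiffAt, fun u v => ?_⟩
    rw [A.symm.fderiv]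
    simp [hAsw]
  have h1 : GermR r (A.symm ∘ f) := by
    refine germR_tangent hr ?_ (by simp [h0]) ?_
    · filter_upwards [hf] with z hz using (hAs _).comp hz
    · have h2 := (A.symm.hasFDerivAt.comp (0:ℂ) hf0.differentiableAt.hasFDerivAt).fderiv
      refine h2.trans ?_
      rw [← hA]
      ext v
      simp
  have h2 : GermR r A := germR_linear hr (A : ℂ →L[ℝ] ℂ) (by
    have := hAw 1 I
    rw [w0_one_I] at this
    exact this)
  have h3 := h2.comp h1 (by simp [h0])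
  have h4 : (A ∘ (A.symm ∘ f) : ℂ → ℂ) = f := by
    funext z; simp
  rwa [h4] at h3

end Pool.Agent.Helper186.Area
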