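import Mathlib

/-! Smoothness of integrals depending on a parameter. -/

open scoped Topology ContDiff Manifold
open Set Metric

noncomputable section

namespace Pool.Agent.Helper186

set_option linter.unusedSectionVars false

section vec

variable {E : Type*} [NormedAddCommGroup E] [NormedSpace ℝ E] [FiniteDimensional ℝ E]

/-- Differentiation under the integral sign. -/
lemma hasFDerivAt_paramInt {k : ℝ × E → ℝ} {U : Set E} (hU : IsOpen U)
    (hk : ContDiffOn ℝ 1 k (univ ×ˢ U)) (T : ℝ) {y₀ : E} (hy₀ : y₀ ∈ U) :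
    HasFDerivAt (fun y => ∫ s in (0:ℝ)..T, k (s, y))
      (∫ s in (0:ℝ)..T, (fderiv ℝ k (s, y₀)).comp (ContinuousLinearMap.inr ℝ ℝ E)) y₀ := by
  have hopen : IsOpen ((univ : Set ℝ) ×ˢ U) := isOpen_univ.prod hU
  obtain ⟨δ, hδ, hδU⟩ := Metric.nhds_basis_closedBall.mem_iff.1 (hU.mem_nhds hy₀)
  have hcf : ContinuousOn (fderiv ℝ k) (univ ×ˢ U) := hk.continuousOn_fderiv_of_isOpen hopen le_rfl
  have hcF' : ContinuousOn (fun q : ℝ × E => (fderiv ℝ k q).comp
      (ContinuousLinearMap.inr ℝ ℝ E)) (univ ×ˢ U) :=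
    hcf.clm_comp continuousOn_const
  have hcomp : IsCompact (uIcc (0:ℝ) T ×ˢ closedBall y₀ δ) :=
    isCompact_uIcc.prod (isCompact_closedBall _ _)
  obtain ⟨C, hC⟩ := hcomp.exists_bound_of_continuousOn
    (hcF'.mono (prod_mono (subset_univ _) hδU))
  have hcont : ∀ y ∈ U, Continuous (fun s : ℝ => k (s, y)) := by
    intro y hy
    rw [← continuousOn_univ]
    exact hk.continuousOn.comp (by fun_prop) (fun s _ => ⟨mem_univ _, hy⟩)
  have hcont' : ∀ y ∈ U, Continuous (fun s : ℝ => (fderiv ℝ k (s, y)).comp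
      (ContinuousLinearMap.inr ℝ ℝ E)) := by
    intro y hy
    rw [← continuousOn_univ]
    exact hcF'.comp (by fun_prop) (fun s _ => ⟨mem_univ _, hy⟩)
  refine intervalIntegral.hasFDerivAt_integral_of_dominated_of_fderiv_le
    (F := fun y s => k (s, y))
    (F' := fun y s => (fderiv ℝ k (s, y)).comp (ContinuousLinearMap.inr ℝ ℝ E))
    (bound := fun _ => C) (closedBall_mem_nhds y₀ hδ) ?_ ?_ ?_ ?_ ?_ ?_
  · filter_upwards [hU.mem_nhds hy₀] with y hy
    exact (hcont y hy).aestronglyMeasurable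
  · exact (hcont y₀ hy₀).intervalIntegrable _ _
  · exact (hcont' y₀ hy₀).aestronglyMeasurable
  · refine Filter.Eventually.of_forall fun t ht y hy => ?_
    exact hC (t, y) ⟨uIoc_subset_uIcc ht, hy⟩
  · exact continuous_const.intervalIntegrable _ _
  · refine Filter.Eventually.of_forall fun t ht y hy => ?_
    have hd : DifferentiableAt ℝ k (t, y) :=
      (hk.contDiffAt (hopen.mem_nhds ⟨mem_univ _, hδU hy⟩)).differentiableAt (by simp)
    exact hd.hasFDerivAt.comp y (hasFDerivAt_prodMk_right t y)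

lemma contDiffOn_paramInt_nat {U : Set E} (hU : IsOpen U) (T : ℝ) (n : ℕ) :
    ∀ k : ℝ × E → ℝ, ContDiffOn ℝ ∞ k (univ ×ˢ U) →
      ContDiffOn ℝ n (fun y => ∫ s in (0:ℝ)..T, k (s, y)) U := by
  have hopen : IsOpen ((univ : Set ℝ) ×ˢ U) := isOpen_univ.prod hU
  induction n with
  | zero =>
    intro k hk
    rw [Nat.cast_zero, contDiffOn_zero]
    intro y hy
    exact (hasFDerivAt_paramInt hU (hk.of_le (by simp)) T hy).continuousAt.continuousWithinAt
  | succ n ih =>
    intro k hk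
    have h1 : ContDiffOn ℝ ((n : ℕ∞ω) + 1) (fun y => ∫ s in (0:ℝ)..T, k (s, y)) U := by
      apply contDiffOn_succ_of_fderiv_apply
      · intro y hy
        exact (hasFDerivAt_paramInt hU (hk.of_le (by simp)) T
          hy).differentiableAt.differentiableWithinAt
      · simp
      · intro v
        have h2 : ContDiffOn ℝ ∞ (fun q : ℝ × E => fderiv ℝ k q ((0:ℝ), v)) (univ ×ˢ U) := by
          have := hk.fderiv_of_isOpen hopen (m := ∞) (by simp)
          exact this.clm_apply contDiffOn_const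
        refine (ih _ h2).congr ?_
        intro y hy
        rw [fderivWithin_of_isOpen hU hy,
          (hasFDerivAt_paramInt hU (hk.of_le (by simp)) T hy).fderiv]
        have hint : IntervalIntegrable (fun s => (fderiv ℝ k (s, y)).comp
            (ContinuousLinearMap.inr ℝ ℝ E)) MeasureTheory.volume 0 T := by
          apply Continuous.intervalIntegrable
          rw [← continuousOn_univ]
          have hcf : ContinuousOn (fderiv ℝ k) (univ ×ˢ U) :=
            hk.continuousOn_fderiv_of_isOpen hopen (by simp)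
          exact (hcf.clm_comp continuousOn_const).comp (by fun_prop)
            (fun s _ => ⟨mem_univ _, hy⟩)
        rw [ContinuousLinearMap.intervalIntegral_apply hint]
        rfl
    simpa using h1

lemma contDiffOn_paramInt {U : Set E} (hU : IsOpen U) (T : ℝ)
    {k : ℝ × E → ℝ} (hk : ContDiffOn ℝ ∞ k (univ ×ˢ U)) :
    ContDiffOn ℝ ∞ (fun y => ∫ s in (0:ℝ)..T, k (s, y)) U :=
  contDiffOn_infty.2 fun n => contDiffOn_paramInt_nat hU T n k hk

end vec

section manifold

variable {E : Type*} [NormedAddCommGroup E] [NormedSpace ℝ E] [FiniteDimensional ℝ E]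
  {H : Type*} [TopologicalSpace H] {I : ModelWithCorners ℝ E H} [I.Boundaryless]
  {M : Type*} [TopologicalSpace M] [ChartedSpace H M] [IsManifold I ∞ M]
  {G : Type*} [NormedAddCommGroup G] [NormedSpace ℝ G]

/-- The manifold derivative of a vector valued function, in the preferred chart. -/
lemma mfderiv_eq_fderiv_chart {g : M → G} {x₀ : M} (hg : MDifferentiableAt I 𝓘(ℝ, G) g x₀)
    (u : TangentSpace I x₀) :
    mfderiv I 𝓘(ℝ, G) g x₀ u =
      fderiv ℝ (g ∘ (extChartAt I x₀).symm) (extChartAt I x₀ x₀) (show E from u) := by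
  rw [hg.mfderiv]
  simp only [writtenInExtChartAt, extChartAt_model_space_eq_id, PartialEquiv.refl_coe,
    I.range_eq_univ, fderivWithin_univ]
  rfl

lemma contDiffOn_chart_param {k : ℝ × M → G} (hk : ContMDiff (𝓘(ℝ, ℝ).prod I) 𝓘(ℝ, G) ∞ k)
    (x₀ : M) : ContDiffOn ℝ ∞ (fun q : ℝ × E => k (q.1, (extChartAt I x₀).symm q.2))
      (univ ×ˢ (extChartAt I x₀).target) := by
  have h1 : ContMDiffOn 𝓘(ℝ, ℝ × E) (𝓘(ℝ, ℝ).prod I) ∞
      (fun q : ℝ × E => (q.1, (extChartAt I x₀).symm q.2)) (univ ×ˢ (extChartAt I x₀).target) := by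
    apply ContMDiffOn.prodMk
    · exact contDiff_fst.contMDiff.contMDiffOn
    · exact (contMDiffOn_extChartAt_symm x₀).comp contDiff_snd.contMDiff.contMDiffOn
        (fun q hq => hq.2)
  rw [← contMDiffOn_iff_contDiffOn]
  exact hk.comp_contMDiffOn h1

theorem contMDiff_paramInt {k : ℝ × M → ℝ} (hk : ContMDiff (𝓘(ℝ, ℝ).prod I) 𝓘(ℝ, ℝ) ∞ k)
    (T : ℝ) : ContMDiff I 𝓘(ℝ, ℝ) ∞ (fun x => ∫ s in (0:ℝ)..T, k (s, x)) := by
  intro x₀
  have h1 := contDiffOn_paramInt (isOpen_extChartAt_target x₀) T (contDiffOn_chart_param hk x₀)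
  have h2 : ContMDiffAt I 𝓘(ℝ, ℝ) ∞ ((fun y => ∫ s in (0:ℝ)..T,
      k (s, (extChartAt I x₀).symm y)) ∘ extChartAt I x₀) x₀ :=
    (h1.contDiffAt (extChartAt_target_mem_nhds x₀)).contMDiffAt.comp x₀ contMDiffAt_extChartAt
  refine h2.congr_of_eventuallyEq ?_
  filter_upwards [extChartAt_source_mem_nhds (I := I) x₀] with x hx
  simp only [Function.comp]
  rw [(extChartAt I x₀).left_inv hx]

lemma mfderiv_slice_eq {k : ℝ × M → G} (hk : ContMDiff (𝓘(ℝ, ℝ).prod I) 𝓘(ℝ, G) ∞ k)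
    (s : ℝ) (x₀ : M) (u : TangentSpace I x₀) :
    mfderiv I 𝓘(ℝ, G) (fun x => k (s, x)) x₀ u =
      fderiv ℝ (fun q : ℝ × E => k (q.1, (extChartAt I x₀).symm q.2)) (s, extChartAt I x₀ x₀)
        ((0:ℝ), (show E from u)) := by
  have hkc := contDiffOn_chart_param hk x₀
  have hopen : IsOpen ((univ : Set ℝ) ×ˢ (extChartAt I x₀).target) :=
    isOpen_univ.prod (isOpen_extChartAt_target x₀)
  have hmem : (s, extChartAt I x₀ x₀) ∈ (univ : Set ℝ) ×ˢ (extChartAt I x₀).target :=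
    ⟨mem_univ _, mem_extChartAt_target x₀⟩
  have h4 : MDifferentiableAt I 𝓘(ℝ, G) (fun x => k (s, x)) x₀ := by
    have : ContMDiff I 𝓘(ℝ, G) ∞ (fun x => k (s, x)) :=
      hk.comp (contMDiff_const.prodMk contMDiff_id)
    exact this.mdifferentiableAt (by simp)
  have h5 := mfderiv_eq_fderiv_chart h4 u
  have h6 : HasFDerivAt (fun q : ℝ × E => k (q.1, (extChartAt I x₀).symm q.2))
      (fderiv ℝ (fun q : ℝ × E => k (q.1, (extChartAt I x₀).symm q.2)) (s, extChartAt I x₀ x₀))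
      (s, extChartAt I x₀ x₀) :=
    ((hkc.contDiffAt (hopen.mem_nhds hmem)).differentiableAt (by simp)).hasFDerivAt
  have h7 := (h6.comp (extChartAt I x₀ x₀) (hasFDerivAt_prodMk_right s _)).fderiv
  have h8 : ((fun x => k (s, x)) ∘ (extChartAt I x₀).symm) =
      (fun q : ℝ × E => k (q.1, (extChartAt I x₀).symm q.2)) ∘ (fun y => (s, y)) := rfl
  rw [h8, h7] at h5
  exact h5

lemma continuous_mfderiv_slice {k : ℝ × M → G}
    (hk : ContMDiff (𝓘(ℝ, ℝ).prod I) 𝓘(ℝ, G) ∞ k) (x₀ : M) (u : TangentSpace I x₀) :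
    Continuous (fun s : ℝ => (show G from mfderiv I 𝓘(ℝ, G) (fun x => k (s, x)) x₀ u)) := by
  have hkc := contDiffOn_chart_param hk x₀
  have hopen : IsOpen ((univ : Set ℝ) ×ˢ (extChartAt I x₀).target) :=
    isOpen_univ.prod (isOpen_extChartAt_target x₀)
  have h1 : (fun s : ℝ => (show G from mfderiv I 𝓘(ℝ, G) (fun x => k (s, x)) x₀ u)) =
      fun s => fderiv ℝ (fun q : ℝ × E => k (q.1, (extChartAt I x₀).symm q.2))
        (s, extChartAt I x₀ x₀) ((0:ℝ), (show E from u)) := by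
    ext1 s
    exact mfderiv_slice_eq hk s x₀ u
  rw [h1, ← continuousOn_univ]
  have hcf := hkc.continuousOn_fderiv_of_isOpen hopen (by simp)
  exact (hcf.clm_apply continuousOn_const).comp (by fun_prop)
    (fun s _ => ⟨mem_univ _, mem_extChartAt_target x₀⟩)

theorem mfderiv_paramInt {k : ℝ × M → ℝ} (hk : ContMDiff (𝓘(ℝ, ℝ).prod I) 𝓘(ℝ, ℝ) ∞ k)
    (T : ℝ) (x₀ : M) (u : TangentSpace I x₀) :
    mfderiv I 𝓘(ℝ, ℝ) (fun x => ∫ s in (0:ℝ)..T, k (s, x)) x₀ u =
      ∫ s in (0:ℝ)..T, (show ℝ from mfderiv I 𝓘(ℝ, ℝ) (fun x => k (s, x)) x₀ u) := by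
  have hkc := contDiffOn_chart_param hk x₀
  have hopen : IsOpen ((univ : Set ℝ) ×ˢ (extChartAt I x₀).target) :=
    isOpen_univ.prod (isOpen_extChartAt_target x₀)
  have hmem : ∀ s : ℝ, (s, extChartAt I x₀ x₀) ∈ (univ : Set ℝ) ×ˢ (extChartAt I x₀).target :=
    fun s => ⟨mem_univ _, mem_extChartAt_target x₀⟩
  have h1 := mfderiv_eq_fderiv_chart
    ((contMDiff_paramInt hk T).mdifferentiableAt (by simp) (x := x₀)) u
  rw [h1]
  have h2 := (hasFDerivAt_paramInt (isOpen_extChartAt_target x₀) (hkc.of_le (by simp)) T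
    (mem_extChartAt_target x₀)).fderiv
  have h3 : ((fun x => ∫ s in (0:ℝ)..T, k (s, x)) ∘ (extChartAt I x₀).symm) =
      fun y => ∫ s in (0:ℝ)..T, k (s, (extChartAt I x₀).symm y) := rfl
  rw [h3, h2]
  have hint : IntervalIntegrable (fun s => (fderiv ℝ (fun q : ℝ × E =>
      k (q.1, (extChartAt I x₀).symm q.2)) (s, extChartAt I x₀ x₀)).comp
      (ContinuousLinearMap.inr ℝ ℝ E)) MeasureTheory.volume 0 T := by
    apply Continuous.intervalIntegrable
    rw [← continuousOn_univ]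
    have hcf := hkc.continuousOn_fderiv_of_isOpen hopen (by simp)
    exact (hcf.clm_comp continuousOn_const).comp (by fun_prop) (fun s _ => hmem s)
  rw [ContinuousLinearMap.intervalIntegral_apply hint]
  refine intervalIntegral.integral_congr (E := ℝ) ?_
  intro s _
  exact (mfderiv_slice_eq hk s x₀ u).symm

end manifold

end Pool.Agent.Helper186
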