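import Mathlib
import Pool.Agent.Helper186.AreaTan
import Pool.Agent.Helper186.ParamInt

/-! Area coordinates, transitivity and extension of germs in a region. -/

open scoped Topology ContDiff NNReal
open Set Filter Complex Metric

noncomputable section

namespace Pool.Agent.Helper186.Area

set_option linter.unusedSimpArgs false

/-- A map of the plane with prescribed positive Jacobian. -/
theorem exists_jacobian {ρ : ℂ → ℝ} (hρ : ContDiff ℝ ∞ ρ) :
    ∃ κ : ℂ → ℂ, κ 0 = 0 ∧ ∀ z, APAt ρ 1 κ z := by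
  set k : ℝ × ℂ → ℝ := fun q => ρ ((q.1 * q.2.re : ℝ) + (q.2.im : ℂ) * I) * q.2.re with hk
  have hks : ContDiff ℝ ∞ k := by
    have h1 : ContDiff ℝ ∞ (fun q : ℝ × ℂ => ((q.1 * q.2.re : ℝ) : ℂ) + (q.2.im : ℂ) * I) := by
      refine ContDiff.add ?_ (ContDiff.mul ?_ contDiff_const)
      · exact Complex.ofRealCLM.contDiff.comp (contDiff_fst.mul (contDiff_re.comp contDiff_snd))
      · exact Complex.ofRealCLM.contDiff.comp (contDiff_im.comp contDiff_snd)
    exact (hρ.comp h1).mul (contDiff_re.comp contDiff_snd)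
  set U : ℂ → ℝ := fun z => ∫ s in (0:ℝ)..1, k (s, z) with hU
  have hUs : ContDiff ℝ ∞ U := by
    rw [← contDiffOn_univ]
    exact contDiffOn_paramInt isOpen_univ 1 hks.contDiffOn
  have hU1 : ∀ z, fderiv ℝ U z 1 = ρ z := by
    intro z
    have hform : ∀ t : ℝ, U (z + (t : ℂ)) =
        ∫ x in (0:ℝ)..(z.re + t), ρ ((x : ℂ) + (z.im : ℂ) * I) := by
      intro t
      have h2 := intervalIntegral.mul_integral_comp_mul_right
        (f := fun x : ℝ => ρ ((x : ℂ) + (z.im : ℂ) * I)) (a := 0) (b := 1) (z.re + t)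
      rw [zero_mul, one_mul] at h2
      rw [← h2, hU, ← intervalIntegral.integral_const_mul]
      refine intervalIntegral.integral_congr fun s _ => ?_
      simp only [hk, add_re, ofReal_re, add_im, ofReal_im, add_zero]
      ring
    have hc : Continuous (fun x : ℝ => ρ ((x : ℂ) + (z.im : ℂ) * I)) :=
      hρ.continuous.comp (by fun_prop)
    have h3 : HasDerivAt (fun u => ∫ x in (0:ℝ)..u, ρ ((x : ℂ) + (z.im : ℂ) * I))
        (ρ ((z.re : ℂ) + (z.im : ℂ) * I)) z.re := (hc.integral_hasStrictDerivAt 0 z.re).hasDerivAt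
    have h4 : HasDerivAt (fun t : ℝ => U (z + (t : ℂ))) (ρ z) 0 := by
      have h5 : (fun t : ℝ => U (z + (t : ℂ))) = fun t =>
        ∫ x in (0:ℝ)..(z.re + t), ρ ((x : ℂ) + (z.im : ℂ) * I) := funext hform
      rw [h5]
      rw [Complex.re_add_im] at h3
      have h6 : HasDerivAt (fun u => ∫ x in (0:ℝ)..u, ρ ((x : ℂ) + (z.im : ℂ) * I))
        (ρ z) (z.re + 0) := by rw [add_zero]; exact h3
      have h7 := h6.comp (0:ℝ) ((hasDerivAt_id (0:ℝ)).const_add z.re)
      rw [mul_one] at h7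
      exact h7
    have h8 : HasDerivAt (fun t : ℝ => U (z + (t : ℂ))) (fderiv ℝ U z 1) 0 := by
      have h9 : HasFDerivAt U (fderiv ℝ U z) (z + ((0:ℝ) : ℂ)) := by
        rw [ofReal_zero, add_zero]
        exact (hUs.differentiable (by simp) z).hasFDerivAt
      have h10 : HasDerivAt (fun t : ℝ => z + (t : ℂ)) 1 0 :=
        (Complex.ofRealCLM.hasDerivAt (x := (0:ℝ))).const_add z
      exact h9.comp_hasDerivAt (0:ℝ) h10
    exact h8.unique h4
  refine ⟨fun z => (U z : ℂ) + (z.im : ℂ) * I, ?_, fun z => ?_⟩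
  · have : U 0 = 0 := by simp [hU, hk]
    simp [this]
  · have hc1 : ContDiff ℝ ∞ (fun z => ((U z : ℝ) : ℂ)) := Complex.ofRealCLM.contDiff.comp hUs
    have hc2 : ContDiff ℝ ∞ (fun z : ℂ => (z.im : ℂ)) := Complex.ofRealCLM.contDiff.comp contDiff_im
    refine apAt_of (hc1.add (hc2.mul contDiff_const)).contDiffAt ?_
    have h1 : HasFDerivAt (fun z => ((U z : ℝ) : ℂ)) (Complex.ofRealCLM.comp (fderiv ℝ U z)) z :=
      Complex.ofRealCLM.hasFDerivAt.comp z (hUs.differentiable (by simp) z).hasFDerivAt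
    have h2 : HasFDerivAt (fun z : ℂ => (z.im : ℂ)) (Complex.ofRealCLM.comp imCLM) z :=
      (Complex.ofRealCLM.comp imCLM).hasFDerivAt
    have h3 : HasFDerivAt (fun z => ((U z : ℝ) : ℂ) + (z.im : ℂ) * I) _ z :=
      h1.add (h2.mul_const I)
    rw [h3.fderiv]
    simp [w0, hU1]

variable {R : Region}

/-- Local area coordinates. -/
theorem exists_chart {Y : Set ℂ} (hY : IsOpen Y) (hYS : Y ⊆ R.S) {p : ℂ} (hp : p ∈ Y) :
    ∃ e : OpenPartialHomeomorph ℂ ℂ, p ∈ e.source ∧ e.source ⊆ Y ∧ e p = 0 ∧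
      (∀ z ∈ e.source, APAt R.ρ 1 e z) ∧ ∀ w ∈ e.target, APAt 1 R.ρ e.symm w := by
  obtain ⟨r₀, hr₀, hball⟩ := Metric.isOpen_iff.1 hY p hp
  set δ : ℝ := r₀ / 3 with hδd
  have hδ : 0 < δ := by positivity
  set ρ' : ℂ → ℝ := fun z => sbump δ z * R.ρ (p + z) with hρ'
  have hρs : ContDiff ℝ ∞ ρ' := by
    rw [contDiff_iff_contDiffAt]
    intro w
    rcases lt_or_ge ‖w‖ r₀ with hw | hw
    · refine (sbump_smooth δ).contDiffAt.mul ?_
      have h1 : ContDiffAt ℝ ∞ R.ρ (p + w) := R.smooth _ (hYS (hball (by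
        rw [mem_ball, dist_eq_norm]; simpa using hw)))
      exact h1.comp w (contDiffAt_const.add contDiffAt_id)
    · have ho : IsOpen {w : ℂ | 2 * δ < ‖w‖} := isOpen_lt continuous_const continuous_norm
      have hw' : w ∈ {w : ℂ | 2 * δ < ‖w‖} := by
        change 2 * δ < ‖w‖
        rw [hδd]; linarith
      have : ρ' =ᶠ[𝓝 w] fun _ => 0 := by
        filter_upwards [ho.mem_nhds hw'] with w' hw'
        simp only [hρ']
        rw [sbump_zero hδ (le_of_lt hw'), zero_mul]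
      exact contDiffAt_const.congr_of_eventuallyEq this
  obtain ⟨κ₀, hκ₀, hκap₀⟩ := exists_jacobian hρs
  set κ : ℂ → ℂ := fun z => κ₀ (z - p) with hκ
  set W : Set ℂ := ball p δ with hW
  have hWY : W ⊆ Y := fun z hz => hball (ball_subset_ball (by rw [hδd]; linarith) hz)
  have hκap : ∀ z ∈ W, APAt R.ρ 1 κ z := by
    intro z hz
    have h1 := hκap₀ (z - p)
    have h2 : HasFDerivAt κ (fderiv ℝ κ₀ (z - p)) z := by
      have h3 : HasFDerivAt (fun z : ℂ => z - p) (ContinuousLinearMap.id ℝ ℂ) z :=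
        (hasFDerivAt_id z).sub_const p
      have := h1.differentiableAt.hasFDerivAt.comp z h3
      rwa [ContinuousLinearMap.comp_id] at this
    refine ⟨h1.1.comp z (contDiffAt_id.sub contDiffAt_const), fun u v => ?_⟩
    rw [h2.fderiv, hκ]
    have h4 := h1.2 u v
    rw [h4, hρ']
    simp only
    have hzn : ‖z - p‖ ≤ δ := by
      rw [hW, mem_ball, dist_eq_norm] at hz; exact hz.le
    rw [sbump_one hδ hzn, one_mul, add_sub_cancel]
  have hpW : p ∈ W := mem_ball_self hδ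
  have hap := hκap p hpW
  obtain ⟨A, hA⟩ := hap.exists_equiv (R.pos p (hYS hp)).ne'
  have hd : HasFDerivAt κ (A : ℂ →L[ℝ] ℂ) p := by
    rw [hA]; exact hap.differentiableAt.hasFDerivAt
  have hn : (∞ : WithTop ℕ∞) ≠ 0 := by simp
  let e := hap.1.toOpenPartialHomeomorph κ hd hn
  have hpe : p ∈ e.source := hap.1.mem_toOpenPartialHomeomorph_source hd hn
  have hcoe : (e : ℂ → ℂ) = κ := hap.1.toOpenPartialHomeomorph_coe hd hn
  let e' := e.restrOpen W isOpen_ball
  have hsrc : e'.source = e.source ∩ W := rfl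
  have hcoe' : (e' : ℂ → ℂ) = κ := by rw [← hcoe]; rfl
  refine ⟨e', ⟨hpe, hpW⟩, fun z hz => hWY hz.2, ?_, fun z hz => ?_, fun w hw => ?_⟩
  · rw [hcoe']; simp [hκ, hκ₀]
  · rw [hcoe']; exact hκap z hz.2
  · have hz : e'.symm w ∈ e'.source := e'.map_target hw
    have h1 := (hκap _ hz.2).inverse (g := e'.symm) (U := e'.source)
      (R.pos _ (hYS (hWY hz.2))).ne' (e'.open_source.mem_nhds hz)
      (fun x hx => by rw [← hcoe']; exact e'.left_inv hx)
    rw [← hcoe', e'.right_inv hw] at h1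
    exact h1

lemma Loc.maps {r : ℝ} {g : ℂ ≃ₜ ℂ} (hg : Loc r g) {w : ℂ} (hw : ‖w‖ < r) : ‖g w‖ < r := by
  by_contra h
  have h1 := hg.2 _ (not_lt.1 h)
  have h2 := g.injective h1
  rw [h2] at h
  exact h hw

lemma Loc.symm {r : ℝ} {g : ℂ ≃ₜ ℂ} (hg : Loc r g) : Loc r g.symm := by
  refine ⟨fun z => ?_, fun z hz => ?_⟩
  · have h1 := (hg.1 (g.symm z)).inverse (g := g.symm) (U := univ) (by simp) univ_mem
      (fun x _ => g.symm_apply_apply x)
    rwa [g.apply_symm_apply] at h1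
  · rw [Homeomorph.symm_apply_eq, hg.2 z hz]

open Classical in
/-- Transfer of a compactly supported map of the plane to the region. -/
theorem exists_transfer {e : OpenPartialHomeomorph ℂ ℂ} (heS : e.source ⊆ R.S)
    (hap : ∀ z ∈ e.source, APAt R.ρ 1 e z) (hap' : ∀ w ∈ e.target, APAt 1 R.ρ e.symm w)
    {r : ℝ} (hr : closedBall 0 r ⊆ e.target) {g : ℂ ≃ₜ ℂ} (hg : Loc r g) :
    ∃ G ∈ R.G, (∀ z, z ∉ e.source → G z = z) ∧ ∀ z ∈ e.source, G z = e.symm (g (e z)) := by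
  have hmaps : ∀ g : ℂ ≃ₜ ℂ, Loc r g → ∀ w ∈ e.target, g w ∈ e.target := by
    intro g hg w hw
    rcases lt_or_ge ‖w‖ r with h | h
    · exact hr (mem_closedBall_zero_iff.2 (hg.maps h).le)
    · rw [hg.2 w h]; exact hw
  set F : (ℂ ≃ₜ ℂ) → ℂ → ℂ := fun g z => if z ∈ e.source then e.symm (g (e z)) else z with hF
  have hF1 : ∀ g z, z ∈ e.source → F g z = e.symm (g (e z)) := fun g z hz => by simp [hF, hz]
  have hF2 : ∀ g z, z ∉ e.source → F g z = z := fun g z hz => by simp [hF, hz]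
  have hF3 : ∀ g, Loc r g → ∀ z ∈ e.source, F g z ∈ e.source := fun g hg z hz => by
    rw [hF1 g z hz]; exact e.map_target (hmaps g hg _ (e.map_source hz))
  have hinv : ∀ g : ℂ ≃ₜ ℂ, Loc r g → ∀ z, F g.symm (F g z) = z := by
    intro g hg z
    by_cases hz : z ∈ e.source
    · rw [hF1 g.symm _ (hF3 g hg z hz), hF1 g z hz,
        e.right_inv (hmaps g hg _ (e.map_source hz)), g.symm_apply_apply, e.left_inv hz]
    · rw [hF2 g z hz, hF2 _ z hz]
  let G : Equiv.Perm ℂ := ⟨F g, F g.symm, hinv g hg, fun z => by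
    have := hinv g.symm hg.symm z
    rwa [Homeomorph.symm_symm] at this⟩
  have hGF : ∀ z, G z = F g z := fun z => rfl
  refine ⟨G, ⟨fun z hz => ?_, fun z hz => ?_⟩, fun z hz => hF2 g z hz, fun z hz => hF1 g z hz⟩
  · exact hF2 g z (fun h => hz (heS h))
  · by_cases hze : z ∈ e.source
    · have h1 : APAt R.ρ R.ρ (e.symm ∘ (g ∘ e)) z :=
        APAt.comp (g := e.symm) (f := g ∘ e) (hap' _ (hmaps g hg _ (e.map_source hze)))
          (APAt.comp (g := g) (f := e) (hg.1 _) (hap z hze))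
      refine h1.congr ?_
      filter_upwards [e.open_source.mem_nhds hze] with w hw using hF1 g w hw
    · -- identity near z
      have hK : IsCompact (e.symm '' closedBall 0 r) :=
        (isCompact_closedBall (0:ℂ) r).image_of_continuousOn (e.continuousOn_symm.mono hr)
      have hzK : z ∉ e.symm '' closedBall 0 r := by
        rintro ⟨w, hw, rfl⟩
        exact hze (e.map_target (hr hw))
      refine APAt.id.congr ?_
      filter_upwards [hK.isClosed.isOpen_compl.mem_nhds hzK] with w hw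
      change F g w = w
      by_cases hwe : w ∈ e.source
      · rw [hF1 g w hwe, hg.2, e.left_inv hwe]
        by_contra h
        exact hw ⟨e w, mem_closedBall_zero_iff.2 (not_le.1 h).le, e.left_inv hwe⟩
      · exact hF2 g w hwe

/-- Elements supported in `Y`. -/
def SuppIn (Y : Set ℂ) (g : Equiv.Perm ℂ) : Prop := ∀ z, z ∉ Y → g z = z

lemma SuppIn.mul {Y : Set ℂ} {g h : Equiv.Perm ℂ} (hg : SuppIn Y g) (hh : SuppIn Y h) :
    SuppIn Y (g * h) := fun z hz => by
  rw [Equiv.Perm.mul_apply, hh z hz, hg z hz]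

lemma SuppIn.inv {Y : Set ℂ} {g : Equiv.Perm ℂ} (hg : SuppIn Y g) : SuppIn Y g⁻¹ :=
  fun z hz => by
    have := hg z hz
    calc g⁻¹ z = g⁻¹ (g z) := by rw [this]
      _ = z := inv_app g z

theorem exists_move_near {Y : Set ℂ} (hY : IsOpen Y) (hYS : Y ⊆ R.S) {p : ℂ} (hp : p ∈ Y) :
    ∀ᶠ q in 𝓝 p, ∃ g ∈ R.G, SuppIn Y g ∧ g p = q := by
  obtain ⟨e, hpe, heY, he0, hap, hap'⟩ := exists_chart hY hYS hp
  have h0t : (0:ℂ) ∈ e.target := by rw [← he0]; exact e.map_source hpe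
  obtain ⟨r, hr, hrt⟩ := Metric.nhds_basis_closedBall.mem_iff.1 (e.open_target.mem_nhds h0t)
  obtain ⟨ε, hε, H⟩ := exists_translation hr
  have hc : Tendsto e (𝓝 p) (𝓝 0) := by
    have := (e.continuousAt hpe).tendsto
    rwa [he0] at this
  filter_upwards [hc.eventually (Metric.ball_mem_nhds (0:ℂ) hε), e.open_source.mem_nhds hpe]
    with q hq hqe
  obtain ⟨g, hg, hg0⟩ := H (e q) (mem_ball_zero_iff.1 hq)
  obtain ⟨G, hG, hG1, hG2⟩ := exists_transfer (heY.trans hYS) hap hap' hrt hg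
  refine ⟨G, hG, fun z hz => hG1 z (fun h => hz (heY h)), ?_⟩
  rw [hG2 p hpe, he0, hg0, e.left_inv hqe]

/-- Transitivity on a connected open set. -/
theorem exists_move {Y : Set ℂ} (hY : IsOpen Y) (hYS : Y ⊆ R.S) (hc : IsPreconnected Y)
    {p q : ℂ} (hp : p ∈ Y) (hq : q ∈ Y) : ∃ g ∈ R.G, SuppIn Y g ∧ g p = q := by
  refine hc.induction₂ (fun p q => ∃ g ∈ R.G, SuppIn Y g ∧ g p = q) ?_ ?_ ?_ hp hq
  · intro x hx
    exact (exists_move_near hY hYS hx).filter_mono nhdsWithin_le_nhds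
  · rintro x y z _ _ _ ⟨g, hg, hgs, rfl⟩ ⟨h, hh, hhs, rfl⟩
    exact ⟨h * g, R.G.mul_mem hh hg, hhs.mul hgs, rfl⟩
  · rintro x y _ _ ⟨g, hg, hgs, rfl⟩
    exact ⟨g⁻¹, R.G.inv_mem hg, hgs.inv, inv_app g x⟩

/-- Extension of a germ by an element supported in a given connected open set. -/
theorem exists_germ_extension {Y : Set ℂ} (hY : IsOpen Y) (hYS : Y ⊆ R.S)
    (hc : IsPreconnected Y) {φ : Equiv.Perm ℂ} (hφ : φ ∈ R.G) {p : ℂ} (hp : p ∈ Y)
    (hq : φ p ∈ Y) : ∃ ψ ∈ R.G, SuppIn Y ψ ∧ (ψ : ℂ → ℂ) =ᶠ[𝓝 p] φ := by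
  obtain ⟨τ, hτ, hτs, hτp⟩ := exists_move hY hYS hc hq hp
  obtain ⟨e, hpe, heY, he0, hap, hap'⟩ := exists_chart hY hYS hp
  have h0t : (0:ℂ) ∈ e.target := by rw [← he0]; exact e.map_source hpe
  obtain ⟨r, hr, hrt⟩ := Metric.nhds_basis_closedBall.mem_iff.1 (e.open_target.mem_nhds h0t)
  set θ : Equiv.Perm ℂ := τ * φ with hθ
  have hθG : θ ∈ R.G := R.G.mul_mem hτ hφ
  have hθp : θ p = p := hτp
  have hes0 : e.symm 0 = p := by rw [← he0]; exact e.left_inv hpe
  have hθc : ContinuousAt θ p := (hθG.2 p (hYS hp)).continuousAt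
  have hev : ∀ᶠ w in 𝓝 (0:ℂ), θ (e.symm w) ∈ e.source := by
    have h1 : ContinuousAt (fun w => θ (e.symm w)) 0 := by
      refine ContinuousAt.comp (g := θ) ?_ (e.symm.continuousAt h0t)
      rw [hes0]; exact hθc
    refine h1.eventually (e.open_source.mem_nhds ?_)
    simp only [hes0, hθp]; exact hpe
  obtain ⟨g, hg, hge⟩ := germR_of_ap hr (f := fun w => e (θ (e.symm w))) (by
    filter_upwards [hev, e.open_target.mem_nhds h0t] with w hw hwt
    have h1 := hap' w hwt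
    have h2 := hθG.2 (e.symm w) (hYS (heY (e.map_target hwt)))
    have h3 := hap _ hw
    exact APAt.comp (g := e) (f := θ ∘ e.symm) h3 (APAt.comp (g := θ) (f := e.symm) h2 h1)) (by simp only [hes0, hθp, he0])
  obtain ⟨G, hG, hG1, hG2⟩ := exists_transfer (heY.trans hYS) hap hap' hrt hg
  refine ⟨τ⁻¹ * G, R.G.mul_mem (R.G.inv_mem hτ) hG,
    hτs.inv.mul (fun z hz => hG1 z (fun h => hz (heY h))), ?_⟩
  have hc0 : Tendsto e (𝓝 p) (𝓝 0) := by
    have := (e.continuousAt hpe).tendsto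
    rwa [he0] at this
  filter_upwards [hc0.eventually hge, hc0.eventually hev, e.open_source.mem_nhds hpe]
    with z hz1 hz2 hz3
  rw [Equiv.Perm.mul_apply, hG2 z hz3, hz1, e.left_inv hz3]
  rw [e.left_inv hz3] at hz2
  rw [e.left_inv hz2, hθ, Equiv.Perm.mul_apply, inv_app]

end Pool.Agent.Helper186.Area
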