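import Mathlib
import Pool.Agent.Helper186.AreaLocal

/-! The surface: complement of the limit set of a free product of cyclic groups, and its
invariant area density. -/

open scoped Topology ContDiff NNReal
open Set Filter Complex Metric

noncomputable section

namespace Pool.Agent.Helper186.Area

set_option linter.unusedSimpArgs false

/-- The period. -/
def tau : ℂ := 10 + 10 * I

lemma tau_re : tau.re = 10 := by simp [tau]
lemma tau_im : tau.im = 10 := by simp [tau]

lemma tau_norm : 14 ≤ ‖tau‖ := by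
  have h1 : ‖tau‖ * ‖tau‖ = 200 := by
    rw [Complex.norm_mul_self_eq_normSq, Complex.normSq_apply, tau_re, tau_im]; norm_num
  nlinarith [norm_nonneg tau]

def idx (z : ℂ) : ℤ := round (z.re / 10)
def cen (z : ℂ) : ℂ := (idx z : ℂ) * tau
def red (z : ℂ) : ℂ := z - cen z
def F (z : ℂ) : ℂ := I * (red z)⁻¹

/-- The orbit of `z` escapes from the unit discs. -/
def Esc (z : ℂ) : Prop := ∃ k : ℕ, 1 ≤ ‖red (F^[k] z)‖

lemma idx_of_near {z : ℂ} {k : ℤ} (h : ‖z - k * tau‖ < 5) : idx z = k := by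
  have h1 : |(z - k * tau).re| < 5 := (abs_re_le_norm _).trans_lt h
  have h2 : (z - k * tau).re = z.re - k * 10 := by simp [tau_re, tau_im]
  rw [h2, abs_lt] at h1
  rw [idx, round_eq_iff]
  constructor <;> linarith [h1.1, h1.2]

lemma red_of_near {z : ℂ} {k : ℤ} (h : ‖z - k * tau‖ < 5) : red z = z - k * tau := by
  rw [red, cen, idx_of_near h]

lemma red_of_small {z : ℂ} (h : ‖z‖ < 5) : red z = z := by
  have := red_of_near (z := z) (k := 0) (by simpa using h)
  simpa using this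

lemma idx_add (z : ℂ) (n : ℤ) : idx (z + n * tau) = idx z + n := by
  have h2 : (z + n * tau).re = z.re + n * 10 := by simp [tau_re, tau_im]
  rw [idx, h2, idx, ← round_add_intCast]
  congr 1
  ring

lemma cen_add (z : ℂ) (n : ℤ) : cen (z + n * tau) = cen z + n * tau := by
  rw [cen, idx_add, cen]; push_cast; ring

lemma red_add (z : ℂ) (n : ℤ) : red (z + n * tau) = red z := by
  rw [red, cen_add, red]; ring

lemma F_add (z : ℂ) (n : ℤ) : F (z + n * tau) = F z := by rw [F, red_add, F]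

lemma esc_of_le {z : ℂ} (h : 1 ≤ ‖red z‖) : Esc z := ⟨0, h⟩

lemma esc_F {z : ℂ} (h : Esc (F z)) : Esc z := by
  obtain ⟨k, hk⟩ := h
  exact ⟨k + 1, hk⟩

lemma esc_of_esc {z : ℂ} (h : Esc z) (hz : ‖red z‖ < 1) : Esc (F z) := by
  obtain ⟨k, hk⟩ := h
  cases k with
  | zero => exact absurd hk (not_le.2 hz)
  | succ k => exact ⟨k, hk⟩

lemma esc_iff {z : ℂ} (hz : ‖red z‖ < 1) : Esc z ↔ Esc (F z) :=
  ⟨fun h => esc_of_esc h hz, esc_F⟩

lemma esc_induction {P : ℂ → Prop} (h0 : ∀ z, 1 ≤ ‖red z‖ → P z)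
    (h1 : ∀ z, ‖red z‖ < 1 → Esc (F z) → P (F z) → P z) : ∀ z, Esc z → P z := by
  rintro z ⟨k, hk⟩
  induction k generalizing z with
  | zero => exact h0 z hk
  | succ k ih =>
    rcases lt_or_ge ‖red z‖ 1 with h | h
    · exact h1 z h ⟨k, hk⟩ (ih (F z) hk)
    · exact h0 z h

lemma not_esc_zero : ¬ Esc 0 := by
  have h1 : red 0 = 0 := red_of_small (by simp)
  have h2 : F 0 = 0 := by simp [F, h1]
  rintro ⟨k, hk⟩
  have h3 : F^[k] 0 = 0 := Function.iterate_fixed h2 k
  rw [h3, h1, norm_zero] at hk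
  linarith

lemma red_ne_zero {z : ℂ} (h : Esc z) : red z ≠ 0 := by
  intro h0
  have h1 : ‖red z‖ < 1 := by rw [h0]; simp
  have h2 := esc_of_esc h h1
  rw [F, h0, inv_zero, mul_zero] at h2
  exact not_esc_zero h2

lemma not_esc_center (n : ℤ) : ¬ Esc (n * tau) := by
  intro h
  refine red_ne_zero h ?_
  have := red_add 0 n
  rw [zero_add] at this
  rw [this]; exact red_of_small (by simp)

lemma esc_add (z : ℂ) (n : ℤ) : Esc (z + n * tau) ↔ Esc z := by
  rcases lt_or_ge ‖red z‖ 1 with h | h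
  · rw [esc_iff h, esc_iff (by rw [red_add]; exact h), F_add]
  · exact ⟨fun _ => esc_of_le h, fun _ => esc_of_le (by rw [red_add]; exact h)⟩

/-- The inversion. -/
def iota (z : ℂ) : ℂ := I * z⁻¹

lemma iota_iota (z : ℂ) : iota (iota z) = z := by
  rw [iota, iota, mul_inv, inv_inv, ← mul_assoc, mul_inv_cancel₀ I_ne_zero, one_mul]

lemma norm_iota (z : ℂ) : ‖iota z‖ = ‖z‖⁻¹ := by
  rw [iota, norm_mul, norm_I, one_mul, norm_inv]

lemma F_eq (z : ℂ) : F z = iota (red z) := rfl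

lemma F_of_small {z : ℂ} (h : ‖z‖ < 5) : F z = iota z := by rw [F_eq, red_of_small h]

lemma esc_iota (z : ℂ) : Esc (iota z) ↔ Esc z := by
  rcases lt_trichotomy ‖z‖ 1 with h | h | h
  · have h5 : ‖z‖ < 5 := by linarith
    rw [esc_iff (z := z) (by rw [red_of_small h5]; exact h), F_of_small h5]
  · have h1 : ‖iota z‖ = 1 := by rw [norm_iota, h, inv_one]
    constructor
    · intro _
      exact esc_of_le (by rw [red_of_small (by linarith), h])
    · intro _
      exact esc_of_le (by rw [red_of_small (by linarith), h1])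
  · have h1 : ‖iota z‖ < 1 := by rw [norm_iota]; exact inv_lt_one_of_one_lt₀ h
    have h5 : ‖iota z‖ < 5 := by linarith
    rw [esc_iff (z := iota z) (by rw [red_of_small h5]; exact h1), F_of_small h5, iota_iota]

lemma red_lower (z z' : ℂ) : min ‖red z‖ 5 - ‖z' - z‖ ≤ ‖red z'‖ := by
  have h1 : min ‖red z‖ 5 ≤ ‖z - idx z' * tau‖ := by
    by_cases h : idx z = idx z'
    · rw [← h]; exact min_le_left _ _
    · by_contra h2
      have h3 : ‖z - idx z' * tau‖ < 5 := (not_le.1 h2).trans_le (min_le_right _ _)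
      exact h (idx_of_near h3)
  have h2 : z - idx z' * tau = red z' - (z' - z) := by rw [red, cen]; ring
  rw [h2] at h1
  have := norm_sub_le (red z') (z' - z)
  linarith

lemma eventually_red_gt {z : ℂ} {a : ℝ} (ha : a < 5) (h : a < ‖red z‖) :
    ∀ᶠ z' in 𝓝 z, a < ‖red z'‖ := by
  have h1 : 0 < min ‖red z‖ 5 - a := by
    have : a < min ‖red z‖ 5 := lt_min h ha
    linarith
  filter_upwards [Metric.ball_mem_nhds z h1] with z' hz'
  have h2 := red_lower z z'
  rw [mem_ball, dist_eq_norm] at hz'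
  linarith

lemma eventually_red_eq {z : ℂ} (h : ‖red z‖ < 5) :
    ∀ᶠ z' in 𝓝 z, red z' = z' - cen z := by
  have hc : Continuous (fun z' : ℂ => ‖z' - cen z‖) := by fun_prop
  have h1 : ∀ᶠ z' in 𝓝 z, ‖z' - cen z‖ < 5 := hc.continuousAt.eventually (gt_mem_nhds h)
  filter_upwards [h1] with z' hz'
  exact red_of_near hz'

/-- Radial profile. -/
def beta (t : ℝ) : ℝ := Real.smoothTransition ((t - 1 / 2) * (2 / 3))

lemma beta_smooth : ContDiff ℝ ∞ beta :=
  Real.smoothTransition.contDiff.comp ((contDiff_id.sub contDiff_const).mul contDiff_const)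

lemma beta_one {t : ℝ} (h : 2 ≤ t) : beta t = 1 :=
  Real.smoothTransition.one_of_one_le (by linarith)

lemma beta_zero {t : ℝ} (h : t ≤ 1 / 2) : beta t = 0 :=
  Real.smoothTransition.zero_of_nonpos (by linarith)

lemma beta_pos {t : ℝ} (h : 1 / 2 < t) : 0 < beta t :=
  Real.smoothTransition.pos_of_pos (by linarith)

lemma beta_nonneg (t : ℝ) : 0 ≤ beta t := Real.smoothTransition.nonneg _

def rho0 (t : ℝ) : ℝ := beta t + beta t⁻¹ * t⁻¹ ^ 4

lemma rho0_inv {t : ℝ} (h : 0 < t) : rho0 t⁻¹ = t ^ 4 * rho0 t := by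
  rw [rho0, rho0, inv_inv]
  field_simp
  ring

lemma rho0_one {t : ℝ} (h : 2 ≤ t) : rho0 t = 1 := by
  have : t⁻¹ ≤ 1 / 2 := by rw [one_div]; exact inv_anti₀ (by norm_num) h
  rw [rho0, beta_one h, beta_zero this, zero_mul, add_zero]

lemma rho0_pos {t : ℝ} (h : 0 < t) : 0 < rho0 t := by
  rw [rho0]
  rcases le_or_gt 1 t with h1 | h1
  · have := beta_pos (t := t) (by linarith)
    have h2 := beta_nonneg t⁻¹
    positivity
  · have h3 : 1 < t⁻¹ := (one_lt_inv₀ h).2 h1
    have := beta_pos (t := t⁻¹) (by linarith)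
    have h2 := beta_nonneg t
    positivity

lemma rho0_smooth {t : ℝ} (h : 0 < t) : ContDiffAt ℝ ∞ rho0 t := by
  have h1 : ContDiffAt ℝ ∞ (fun t : ℝ => t⁻¹) t := contDiffAt_inv ℝ h.ne'
  exact beta_smooth.contDiffAt.add ((beta_smooth.contDiffAt.comp t h1).mul (h1.pow 4))

/-- Truncated densities. -/
def dens : ℕ → ℂ → ℝ
  | 0, z => rho0 ‖red z‖
  | k + 1, z => ‖red z‖⁻¹ ^ 4 * dens k (F z)

open Classical in
def rho (z : ℂ) : ℝ := if h : Esc z then dens (Nat.find h) z else 1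

open Classical in
lemma rho_of_le {z : ℂ} (h : 1 ≤ ‖red z‖) : rho z = rho0 ‖red z‖ := by
  have h1 : Esc z := esc_of_le h
  rw [rho, dif_pos h1]
  have h2 : Nat.find h1 = 0 := by
    rw [Nat.find_eq_zero]
    exact h
  rw [h2, dens]

open Classical in
lemma rho_step {z : ℂ} (h : ‖red z‖ < 1) (hz : Esc z) :
    rho z = ‖red z‖⁻¹ ^ 4 * rho (F z) := by
  have h1 := esc_of_esc hz h
  rw [rho, dif_pos hz, rho, dif_pos h1]
  have h2 : Nat.find hz = Nat.find h1 + 1 := Nat.find_comp_succ hz h1 (not_le.2 h)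
  rw [h2, dens]

lemma esc_of_half {z : ℂ} (h : 1 / 2 < ‖red z‖) : Esc z := by
  rcases le_or_gt 1 ‖red z‖ with h1 | h1
  · exact esc_of_le h1
  · refine esc_F (esc_of_le ?_)
    have h0 : 0 < ‖red z‖ := by linarith
    have h2 : ‖F z‖ = ‖red z‖⁻¹ := by rw [F_eq, norm_iota]
    have h3 : ‖red z‖⁻¹ < 5 := by
      rw [inv_lt_comm₀ h0 (by norm_num)]; linarith
    rw [red_of_small (by rw [h2]; exact h3), h2]
    exact ((one_lt_inv₀ h0).2 h1).le

lemma rho_of_half {z : ℂ} (h : 1 / 2 < ‖red z‖) : rho z = rho0 ‖red z‖ := by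
  rcases le_or_gt 1 ‖red z‖ with h1 | h1
  · exact rho_of_le h1
  · have h0 : 0 < ‖red z‖ := by linarith
    have h2 : ‖F z‖ = ‖red z‖⁻¹ := by rw [F_eq, norm_iota]
    have h3 : ‖red z‖⁻¹ < 5 := by
      rw [inv_lt_comm₀ h0 (by norm_num)]; linarith
    have h4 : red (F z) = F z := red_of_small (by rw [h2]; exact h3)
    have h5 : 1 ≤ ‖red (F z)‖ := by rw [h4, h2]; exact ((one_lt_inv₀ h0).2 h1).le
    rw [rho_step h1 (esc_of_half h), rho_of_le h5, h4, h2, rho0_inv h0]
    field_simp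

lemma rho_one {z : ℂ} (h : 2 ≤ ‖red z‖) : rho z = 1 := by
  rw [rho_of_le (by linarith), rho0_one h]

lemma rho_pos : ∀ z, Esc z → 0 < rho z := by
  refine esc_induction (fun z h => ?_) (fun z h hF ih => ?_)
  · rw [rho_of_le h]; exact rho0_pos (by linarith)
  · rw [rho_step h (esc_F hF)]
    have : 0 < ‖red z‖ := norm_pos_iff.2 (red_ne_zero (esc_F hF))
    positivity

lemma local_form : ∀ z, Esc z → (∀ᶠ z' in 𝓝 z, Esc z') ∧ ContDiffAt ℝ ∞ rho z := by
  refine esc_induction (fun z h => ?_) (fun z h hF ih => ?_)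
  · have hev := eventually_red_gt (z := z) (a := 1/2) (by norm_num) (by linarith)
    refine ⟨hev.mono fun z' h' => esc_of_half h', ?_⟩
    rcases lt_or_ge ‖red z‖ 5 with h5 | h5
    · have he := eventually_red_eq h5
      have hne : z - cen z ≠ 0 := by
        intro h0
        have : red z = 0 := h0
        rw [this, norm_zero] at h
        linarith
      have hsm : ContDiffAt ℝ ∞ (fun z' : ℂ => rho0 ‖z' - cen z‖) z := by
        have h1 : ContDiffAt ℝ ∞ (fun z' : ℂ => ‖z' - cen z‖) z :=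
          (contDiffAt_id.sub contDiffAt_const).norm ℝ hne
        exact (rho0_smooth (norm_pos_iff.2 hne)).comp z h1
      refine hsm.congr_of_eventuallyEq ?_
      filter_upwards [hev, he] with z' h1 h2
      rw [rho_of_half h1, h2]
    · have hev2 := eventually_red_gt (z := z) (a := 2) (by norm_num) (by linarith)
      refine (contDiffAt_const (c := (1:ℝ))).congr_of_eventuallyEq ?_
      filter_upwards [hev2] with z' h'
      exact rho_one h'.le
  · have hEz := esc_F hF
    have hr0 := red_ne_zero hEz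
    have hne : z - cen z ≠ 0 := hr0
    have he := eventually_red_eq (z := z) (by linarith)
    have hFc : ContDiffAt ℝ ∞ (fun z' : ℂ => I * (z' - cen z)⁻¹) z :=
      contDiffAt_const.mul ((contDiffAt_id.sub contDiffAt_const).inv hne)
    have hc1 : Continuous (fun z' : ℂ => ‖z' - cen z‖) := by fun_prop
    have hlt : ∀ᶠ z' in 𝓝 z, ‖z' - cen z‖ < 1 := hc1.continuousAt.eventually (gt_mem_nhds h)
    have hFz : F z = I * (z - cen z)⁻¹ := rfl
    rw [hFz] at ih
    have hE : ∀ᶠ z' in 𝓝 z, Esc (I * (z' - cen z)⁻¹) := hFc.continuousAt.eventually ih.1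
    have hEE : ∀ᶠ z' in 𝓝 z, Esc z' := by
      filter_upwards [he, hE] with z' h1 h2
      refine esc_F ?_
      rw [F, h1]; exact h2
    refine ⟨hEE, ?_⟩
    have hsm : ContDiffAt ℝ ∞ (fun z' : ℂ => ‖z' - cen z‖⁻¹ ^ 4 * rho (I * (z' - cen z)⁻¹)) z := by
      have h1 : ContDiffAt ℝ ∞ (fun z' : ℂ => ‖z' - cen z‖) z :=
        (contDiffAt_id.sub contDiffAt_const).norm ℝ hne
      refine ((h1.inv (norm_ne_zero_iff.2 hne)).pow 4).mul ?_
      exact ih.2.comp z hFc
    refine hsm.congr_of_eventuallyEq ?_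
    filter_upwards [he, hEE, hlt] with z' h1 h2 h3
    rw [rho_step (by rw [h1]; exact h3) h2, F, h1]

/-- The surface with its area density. -/
def surf : Region where
  S := {z | Esc z}
  ρ := rho
  isOpen := isOpen_iff_mem_nhds.2 fun z hz => (local_form z hz).1
  pos := rho_pos
  smooth := fun z hz => (local_form z hz).2

lemma mem_surf {z : ℂ} : z ∈ surf.S ↔ Esc z := Iff.rfl

lemma rho_add (z : ℂ) (n : ℤ) (hz : Esc z) : rho (z + n * tau) = rho z := by
  rcases lt_or_ge ‖red z‖ 1 with h | h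
  · rw [rho_step (by rw [red_add]; exact h) ((esc_add z n).2 hz), rho_step h hz, red_add, F_add]
  · rw [rho_of_le (by rw [red_add]; exact h), rho_of_le h, red_add]

lemma rho_iota (z : ℂ) (hz : Esc z) : rho (iota z) = ‖z‖ ^ 4 * rho z := by
  have hz0 : z ≠ 0 := by rintro rfl; exact not_esc_zero hz
  have hn : 0 < ‖z‖ := norm_pos_iff.2 hz0
  rcases lt_trichotomy ‖z‖ 1 with h | h | h
  · have h5 : ‖z‖ < 5 := by linarith
    rw [rho_step (z := z) (by rw [red_of_small h5]; exact h) hz, F_of_small h5, red_of_small h5]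
    field_simp
  · have h1 : ‖iota z‖ = 1 := by rw [norm_iota, h, inv_one]
    have e1 : red z = z := red_of_small (by linarith)
    have e2 : red (iota z) = iota z := red_of_small (by linarith)
    rw [rho_of_half (z := z) (by rw [e1, h]; norm_num),
      rho_of_half (z := iota z) (by rw [e2, h1]; norm_num), e1, e2, h, h1]
    norm_num
  · have h1 : ‖iota z‖ < 1 := by rw [norm_iota]; exact inv_lt_one_of_one_lt₀ h
    have h5 : ‖iota z‖ < 5 := by linarith
    rw [rho_step (z := iota z) (by rw [red_of_small h5]; exact h1) ((esc_iota z).2 hz),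
      F_of_small h5, iota_iota, red_of_small h5, norm_iota, inv_inv]

lemma apAt_add (z : ℂ) (n : ℤ) (hz : Esc z) : APAt rho rho (fun z => z + n * tau) z := by
  refine ⟨contDiffAt_id.add contDiffAt_const, fun u v => ?_⟩
  rw [rho_add z n hz]
  have : fderiv ℝ (fun z : ℂ => z + n * tau) z = ContinuousLinearMap.id ℝ ℂ :=
    ((hasFDerivAt_id z).add_const _).fderiv
  rw [this]
  rfl

lemma w0_mul (a u v : ℂ) : w0 (a * u) (a * v) = ‖a‖ ^ 2 * w0 u v := by
  rw [Complex.sq_norm, Complex.normSq_apply]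
  simp only [w0, mul_re, mul_im]
  ring

lemma apAt_iota (z : ℂ) (hz : Esc z) : APAt rho rho iota z := by
  have hz0 : z ≠ 0 := by rintro rfl; exact not_esc_zero hz
  have hn : 0 < ‖z‖ := norm_pos_iff.2 hz0
  refine ⟨contDiffAt_const.mul (contDiffAt_id.inv hz0), fun u v => ?_⟩
  have h1 : HasDerivAt iota (I * (-(z ^ 2)⁻¹)) z := (hasDerivAt_inv hz0).const_mul I
  have h2 := h1.hasFDerivAt.restrictScalars ℝ
  have h3 : ∀ v, fderiv ℝ iota z v = (I * (-(z ^ 2)⁻¹)) * v := by
    intro v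
    rw [h2.fderiv]
    simp
    ring
  rw [h3, h3, w0_mul, rho_iota z hz, norm_mul, norm_I, one_mul, norm_neg, norm_inv, norm_pow]
  field_simp

/-- Translation as an element of the group. -/
def Tr (n : ℤ) : Equiv.Perm ℂ := mkPerm surf.S (fun z => z + n * tau) (fun z => z + (-n : ℤ) * tau)
  (fun z hz => (esc_add z n).2 hz) (fun z hz => (esc_add z (-n)).2 hz)
  (fun z _ => by push_cast; ring) (fun z _ => by push_cast; ring)

lemma Tr_mem (n : ℤ) : Tr n ∈ surf.G := mkPerm_mem_G (R := surf) fun z hz => apAt_add z n hz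

lemma Tr_apply {n : ℤ} {z : ℂ} (hz : Esc z) : Tr n z = z + n * tau := mkPerm_apply hz

/-- Inversion as an element of the group. -/
def Io : Equiv.Perm ℂ := mkPerm surf.S iota iota
  (fun z hz => (esc_iota z).2 hz) (fun z hz => (esc_iota z).2 hz)
  (fun z _ => iota_iota z) (fun z _ => iota_iota z)

lemma Io_mem : Io ∈ surf.G := mkPerm_mem_G (R := surf) fun z hz => apAt_iota z hz

lemma Io_apply {z : ℂ} (hz : Esc z) : Io z = iota z := mkPerm_apply hz

/-- Signed distance from the line containing the limit set. -/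
def ht (z : ℂ) : ℝ := z.im - z.re

lemma ht_red (z : ℂ) : ht (red z) = ht z := by
  simp [ht, red, cen, tau_re, tau_im]

lemma ht_le (z : ℂ) : |ht z| ≤ 2 * ‖z‖ := by
  have h1 := abs_re_le_norm z
  have h2 := abs_im_le_norm z
  have h3 : |ht z| ≤ |z.im| + |z.re| := abs_sub _ _
  linarith

lemma ht_iota {z : ℂ} (hz : z ≠ 0) : |ht (iota z)| = |ht z| * (‖z‖⁻¹) ^ 2 := by
  have h0 : normSq z ≠ 0 := by simpa using hz
  have h1 : ht (iota z) = -(ht z) * (normSq z)⁻¹ := by
    simp only [ht, iota, mul_im, mul_re, I_re, I_im, inv_re, inv_im, zero_mul, one_mul, zero_add,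
      zero_sub]
    field_simp
    ring
  rw [h1, abs_mul, abs_neg, abs_of_nonneg (inv_nonneg.2 (normSq_nonneg z)), inv_pow,
    Complex.sq_norm]

lemma grow {z : ℂ} (h : ht z ≠ 0) (h1 : ‖red z‖ < 1) (h2 : ‖red (F z)‖ < 1) :
    2 * |ht z| ≤ |ht (F z)| := by
  have hr : red z ≠ 0 := by
    intro h0
    rw [← ht_red, h0] at h
    simp [ht] at h
  have hn : 0 < ‖red z‖ := norm_pos_iff.2 hr
  have hF : ‖F z‖ = ‖red z‖⁻¹ := by rw [F_eq, norm_iota]
  have hF1 : 1 < ‖F z‖ := by rw [hF]; exact (one_lt_inv₀ hn).2 h1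
  have hi : idx (F z) ≠ 0 := by
    intro h0
    have : red (F z) = F z := by rw [red, cen, h0]; simp
    rw [this] at h2
    linarith
  have hc : 14 ≤ ‖cen (F z)‖ := by
    rw [cen, norm_mul, Complex.norm_intCast]
    have h3 : (1:ℝ) ≤ |(idx (F z) : ℝ)| := by
      rw [← Int.cast_abs]
      exact_mod_cast Int.one_le_abs hi
    have := tau_norm
    nlinarith [norm_nonneg tau]
  have h13 : 2 ≤ ‖F z‖ := by
    have : cen (F z) = F z - red (F z) := by rw [red]; ring
    rw [this] at hc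
    have := norm_sub_le (F z) (red (F z))
    linarith
  rw [F_eq, ht_iota hr, ht_red, ← hF]
  have h4 : (2:ℝ) ≤ ‖F z‖ ^ 2 := by nlinarith
  calc 2 * |ht z| = |ht z| * 2 := by ring
    _ ≤ |ht z| * ‖F z‖ ^ 2 := mul_le_mul_of_nonneg_left h4 (abs_nonneg _)

lemma esc_of_ht {z : ℂ} (h : ht z ≠ 0) : Esc z := by
  by_contra hE
  have hall : ∀ k : ℕ, ‖red (F^[k] z)‖ < 1 := fun k => by
    by_contra hk
    exact hE ⟨k, not_lt.1 hk⟩
  have hg : ∀ k : ℕ, 2 ^ k * |ht z| ≤ |ht (F^[k] z)| := by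
    intro k
    induction k with
    | zero => simp
    | succ k ih =>
      have hpos : 0 < |ht (F^[k] z)| := by
        have : 0 < |ht z| := abs_pos.2 h
        exact lt_of_lt_of_le (by positivity) ih
      have h1 := grow (z := F^[k] z) (abs_pos.1 hpos) (hall k) (by
        have := hall (k + 1)
        rwa [Function.iterate_succ_apply'] at this)
      rw [Function.iterate_succ_apply', pow_succ]
      linarith
  obtain ⟨k, hk⟩ := pow_unbounded_of_one_lt (2 / |ht z|) one_lt_two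
  have h0 : 0 < |ht z| := abs_pos.2 h
  rw [div_lt_iff₀ h0] at hk
  have h2 := hg k
  have h3 : |ht (F^[k] z)| ≤ 2 := by
    rw [← ht_red]
    have := ht_le (red (F^[k] z))
    have := (hall k).le
    linarith
  linarith

lemma esc_three : Esc (3 + 3 * I) := by
  have h1 : ‖(3 + 3 * I : ℂ)‖ * ‖(3 + 3 * I : ℂ)‖ = 18 := by
    rw [Complex.norm_mul_self_eq_normSq, Complex.normSq_apply]; norm_num
  have h2 : ‖(3 + 3 * I : ℂ)‖ < 5 := by nlinarith [norm_nonneg (3 + 3 * I : ℂ)]
  refine esc_of_le ?_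
  rw [red_of_small h2]
  nlinarith [norm_nonneg (3 + 3 * I : ℂ)]

lemma isConn_aux (P : ℝ → Prop) (hP : ∀ a b, P a → a ≤ b → P b) (hP2 : P 2) :
    IsPreconnected {z : ℂ | Esc z ∧ P ‖z‖} ∧ (3 + 3 * I : ℂ) ∈ {z : ℂ | Esc z ∧ P ‖z‖} := by
  set X : Set ℂ := {z : ℂ | Esc z ∧ P ‖z‖} with hX
  set Hp : Set ℂ := {z | 4 < ht z} with hHp
  set Hm : Set ℂ := {z | ht z < -4} with hHm
  have hlin : IsLinearMap ℝ ht := ⟨fun x y => by simp [ht]; ring, fun c x => by simp [ht]; ring⟩
  have cHp : Convex ℝ Hp := convex_halfSpace_gt hlin 4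
  have cHm : Convex ℝ Hm := convex_halfSpace_lt hlin (-4)
  have hHpX : Hp ⊆ X := by
    intro z hz
    have hz' : 4 < ht z := hz
    refine ⟨esc_of_ht (by linarith), hP 2 _ hP2 ?_⟩
    have := ht_le z
    rw [abs_of_pos (by linarith)] at this
    linarith
  have hHmX : Hm ⊆ X := by
    intro z hz
    have hz' : ht z < -4 := hz
    refine ⟨esc_of_ht (by linarith), hP 2 _ hP2 ?_⟩
    have := ht_le z
    rw [abs_of_neg (by linarith)] at this
    linarith
  -- perpendicular lines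
  set ln : ℂ → ℝ → ℂ := fun y t => y + (t : ℂ) * (-1 + I) with hln
  have hlnc : ∀ y, Continuous (ln y) := fun y => by rw [hln]; fun_prop
  have hlnh : ∀ y t, ht (ln y t) = ht y + 2 * t := by
    intro y t; simp [hln, ht]; ring
  have hlnn : ∀ y t, ‖ln y t‖ ^ 2 = ‖y‖ ^ 2 + 2 * t * ht y + 2 * t ^ 2 := by
    intro y t
    rw [Complex.sq_norm, Complex.sq_norm, Complex.normSq_apply, Complex.normSq_apply]
    simp [hln, ht]; ring
  have h18 : ‖(3 + 3 * I : ℂ)‖ ^ 2 = 18 := by
    rw [Complex.sq_norm, Complex.normSq_apply]; norm_num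
  have hx0 : ∀ t, ln (3 + 3 * I) t ∈ X := by
    intro t
    have h1 : ht (3 + 3 * I) = 0 := by simp [ht]
    refine ⟨?_, hP 2 _ hP2 ?_⟩
    · by_cases ht0 : t = 0
      · rw [ht0]; simp only [hln, ofReal_zero, zero_mul, add_zero]; exact esc_three
      · refine esc_of_ht ?_
        rw [hlnh, h1, zero_add]
        exact mul_ne_zero two_ne_zero ht0
    · have := hlnn (3 + 3 * I) t
      rw [h1, h18] at this
      nlinarith [norm_nonneg (ln (3 + 3 * I) t), sq_nonneg t]
  have hxX : (3 + 3 * I : ℂ) ∈ X := by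
    have := hx0 0
    simpa [hln] using this
  refine ⟨?_, hxX⟩
  have hL : IsPreconnected (range (ln (3 + 3 * I))) := isPreconnected_range (hlnc _)
  have hB1 : IsPreconnected (Hp ∪ range (ln (3 + 3 * I))) := by
    refine IsPreconnected.union (ln (3 + 3 * I) 3) ?_ ⟨3, rfl⟩ cHp.isPreconnected hL
    change 4 < ht _
    rw [hlnh]; simp [ht]; norm_num
  have hB : IsPreconnected (Hp ∪ range (ln (3 + 3 * I)) ∪ Hm) := by
    refine IsPreconnected.union (ln (3 + 3 * I) (-3)) (Or.inr ⟨-3, rfl⟩) ?_ hB1 cHm.isPreconnected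
    change ht _ < -4
    rw [hlnh]; simp [ht]; norm_num
  have hBX : Hp ∪ range (ln (3 + 3 * I)) ∪ Hm ⊆ X := by
    rintro z ((hz | ⟨t, rfl⟩) | hz)
    · exact hHpX hz
    · exact hx0 t
    · exact hHmX hz
  refine isPreconnected_of_forall (3 + 3 * I : ℂ) fun y hy => ?_
  have hray : ∀ s : ℝ, s ≠ 0 → 0 ≤ s * ht y → ∀ t, 0 ≤ t → ln y (s * t) ∈ X := by
    intro s hs hsy t ht0
    refine ⟨?_, hP _ _ hy.2 ?_⟩
    · rcases eq_or_lt_of_le ht0 with h | h
      · rw [← h, mul_zero]; simp only [hln, ofReal_zero, zero_mul, add_zero]; exact hy.1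
      · refine esc_of_ht ?_
        rw [hlnh]
        intro h0
        have h1 : s * (ht y + 2 * (s * t)) = 0 := by rw [h0, mul_zero]
        have h2 : 0 < s * s * t := mul_pos (mul_self_pos.2 hs) h
        nlinarith
    · have h1 := hlnn y (s * t)
      have h2 : 0 ≤ 2 * (s * t) * ht y := by
        have : 2 * (s * t) * ht y = 2 * t * (s * ht y) := by ring
        rw [this]; positivity
      have h3 : ‖y‖ ^ 2 ≤ ‖ln y (s * t)‖ ^ 2 := by rw [h1]; nlinarith [sq_nonneg (s * t)]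
      exact (sq_le_sq₀ (norm_nonneg _) (norm_nonneg _)).1 h3
  have hRc : ∀ s : ℝ, IsPreconnected ((fun t => ln y (s * t)) '' Ici 0) := fun s =>
    isPreconnected_Ici.image _ (((hlnc y).comp (continuous_const.mul continuous_id)).continuousOn)
  rcases le_or_gt 0 (ht y) with hy0 | hy0
  · refine ⟨(Hp ∪ range (ln (3 + 3 * I)) ∪ Hm) ∪ ((fun t => ln y (1 * t)) '' Ici 0), ?_, ?_, ?_, ?_⟩
    · refine union_subset hBX ?_
      rintro _ ⟨t, ht0, rfl⟩
      exact hray 1 one_ne_zero (by linarith) t ht0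
    · exact Or.inl (Or.inl (Or.inr ⟨0, by simp [hln]⟩))
    · exact Or.inr ⟨0, self_mem_Ici, by simp [hln]⟩
    · refine IsPreconnected.union (ln y (1 * 3)) (Or.inl (Or.inl ?_)) ⟨3, by simp, rfl⟩ hB (hRc 1)
      change 4 < ht _
      rw [hlnh]; linarith
  · refine ⟨(Hp ∪ range (ln (3 + 3 * I)) ∪ Hm) ∪ ((fun t => ln y (-1 * t)) '' Ici 0),
      ?_, ?_, ?_, ?_⟩
    · refine union_subset hBX ?_
      rintro _ ⟨t, ht0, rfl⟩
      exact hray (-1) (by norm_num) (by linarith) t ht0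
    · exact Or.inl (Or.inl (Or.inr ⟨0, by simp [hln]⟩))
    · exact Or.inr ⟨0, self_mem_Ici, by simp [hln]⟩
    · refine IsPreconnected.union (ln y (-1 * 3)) (Or.inr ?_) ⟨3, by simp, rfl⟩ hB (hRc (-1))
      change ht _ < -4
      rw [hlnh]; linarith

lemma isConn_surf : IsPreconnected surf.S := by
  have h1 := (isConn_aux (fun _ => True) (fun _ _ _ _ => trivial) trivial).1
  have h2 : {z : ℂ | Esc z ∧ True} = surf.S := by ext z; simp [mem_surf]
  rwa [h2] at h1

lemma isConn_gt : IsPreconnected {z : ℂ | Esc z ∧ 1 < ‖z‖} :=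
  (isConn_aux (fun a => 1 < a) (fun _ _ h1 h2 => h1.trans_le h2) (by norm_num)).1

lemma isConn_ge : IsPreconnected {z : ℂ | Esc z ∧ 1 ≤ ‖z‖} :=
  (isConn_aux (fun a => 1 ≤ a) (fun _ _ h1 h2 => h1.trans h2) (by norm_num)).1

end Pool.Agent.Helper186.Area
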