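import Mathlib
import Pool.Agent.Helper186.AreaSurf

/-! An area preserving map of the plane which shrinks one hole and shifts a sequence of holes. -/

open scoped Topology ContDiff NNReal
open Set Filter Complex Metric

noncomputable section

namespace Pool.Agent.Helper186.Area

set_option linter.unusedSimpArgs false

/-- `θ` maps the complement of `X` to the complement of `D`, preserving area. -/
structure HM (X D : Set ℂ) (θ θ' : ℂ → ℂ) : Prop where
  maps : ∀ z, z ∉ X → θ z ∉ D
  maps' : ∀ w, w ∉ D → θ' w ∉ X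
  left : ∀ z, z ∉ X → θ' (θ z) = z
  right : ∀ w, w ∉ D → θ (θ' w) = w
  ap : ∀ z, z ∉ X → APAt 1 1 θ z
  closedX : IsClosed X
  closed : ∀ Q : Set ℂ, IsClosed Q → Disjoint Q D → IsClosed {z | z ∉ X ∧ θ z ∈ Q}

lemma HM.comp {X₁ D₁ X₂ D₂ : Set ℂ} {θ₁ θ₁' θ₂ θ₂' : ℂ → ℂ} (h₁ : HM X₁ D₁ θ₁ θ₁')
    (h₂ : HM X₂ D₂ θ₂ θ₂') (h : D₁ ⊆ X₂) :
    HM {z | z ∈ X₁ ∨ θ₁ z ∈ X₂} D₂ (θ₂ ∘ θ₁) (θ₁' ∘ θ₂') where
  maps z hz := by
    rw [mem_ofPred_eq, not_or] at hz
    exact h₂.maps _ hz.2
  maps' w hw := by
    have h1 := h₂.maps' w hw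
    have h2 : θ₂' w ∉ D₁ := fun h3 => h1 (h h3)
    rw [mem_ofPred_eq, not_or]
    refine ⟨h₁.maps' _ h2, ?_⟩
    rw [Function.comp_apply, h₁.right _ h2]
    exact h1
  left z hz := by
    rw [mem_ofPred_eq, not_or] at hz
    simp only [Function.comp_apply]
    rw [h₂.left _ hz.2, h₁.left _ hz.1]
  right w hw := by
    have h1 := h₂.maps' w hw
    have h2 : θ₂' w ∉ D₁ := fun h3 => h1 (h h3)
    simp only [Function.comp_apply]
    rw [h₁.right _ h2, h₂.right _ hw]
  ap z hz := by
    rw [mem_ofPred_eq, not_or] at hz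
    exact (h₂.ap _ hz.2).comp (h₁.ap _ hz.1)
  closedX := by
    rw [← isOpen_compl_iff]
    have hc : ContinuousOn θ₁ X₁ᶜ := fun z hz => (h₁.ap z hz).continuousAt.continuousWithinAt
    have := hc.isOpen_inter_preimage h₁.closedX.isOpen_compl h₂.closedX.isOpen_compl
    convert this using 1
    ext z
    simp only [mem_compl_iff, mem_ofPred_eq, not_or, mem_inter_iff, mem_preimage]
  closed Q hQ hd := by
    have h1 := h₂.closed Q hQ hd
    have h2 := h₁.closed _ h1 (by
      rw [Set.disjoint_left]
      exact fun z hz hz' => hz.1 (h hz'))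
    convert h2 using 1
    ext z
    simp only [mem_ofPred_eq, not_or, Function.comp_apply]
    tauto

lemma HM.conj {X D : Set ℂ} {θ θ' : ℂ → ℂ} (h : HM X D θ θ') (A : ℂ ≃ₜ ℂ)
    (hA : ∀ z, APAt 1 1 A z) (hA' : ∀ z, APAt 1 1 A.symm z) :
    HM (A.symm ⁻¹' X) (A.symm ⁻¹' D) (fun z => A (θ (A.symm z))) (fun z => A (θ' (A.symm z))) where
  maps z hz := by
    simp only [mem_preimage, A.symm_apply_apply]
    exact h.maps _ hz
  maps' w hw := by
    simp only [mem_preimage, A.symm_apply_apply]
    exact h.maps' _ hw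
  left z hz := by
    simp only [A.symm_apply_apply]
    rw [h.left _ hz, A.apply_symm_apply]
  right w hw := by
    simp only [A.symm_apply_apply]
    rw [h.right _ hw, A.apply_symm_apply]
  ap z hz := APAt.comp (g := A) (f := fun z => θ (A.symm z)) (hA _)
    (APAt.comp (g := θ) (f := A.symm) (h.ap _ hz) (hA' z))
  closedX := h.closedX.preimage A.symm.continuous
  closed Q hQ hd := by
    have h1 := h.closed (A ⁻¹' Q) (hQ.preimage A.continuous) (by
      rw [Set.disjoint_left] at hd ⊢
      intro z hz hz'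
      refine hd (a := A z) hz ?_
      rw [mem_preimage, A.symm_apply_apply]; exact hz')
    exact h1.preimage A.symm.continuous

lemma HM.of_homeo {X : Set ℂ} (hX : IsClosed X) (A : ℂ ≃ₜ ℂ) (hA : ∀ z, APAt 1 1 A z) :
    HM X (A.symm ⁻¹' X) A A.symm where
  maps z hz := by rw [mem_preimage, A.symm_apply_apply]; exact hz
  maps' w hw := hw
  left z _ := A.symm_apply_apply z
  right w _ := A.apply_symm_apply w
  ap z _ := hA z
  closedX := hX
  closed Q hQ hd := by
    convert hQ.preimage A.continuous using 1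
    ext z
    simp only [mem_ofPred_eq, mem_preimage, and_iff_right_iff_imp]
    intro hz hzX
    rw [Set.disjoint_left] at hd
    exact hd hz (by rw [mem_preimage, A.symm_apply_apply]; exact hzX)

/-- Vertical shear by a smooth function. -/
lemma apAt_vshear {b : ℝ → ℝ} (hb : ContDiff ℝ ∞ b) (z : ℂ) :
    APAt 1 1 (fun z : ℂ => z + (b z.re : ℂ) * I) z := by
  have hs : ContDiff ℝ ∞ (fun z : ℂ => b z.re) := hb.comp contDiff_re
  have h1 : ContDiff ℝ ∞ (fun z : ℂ => ((b z.re : ℝ) : ℂ)) := Complex.ofRealCLM.contDiff.comp hs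
  refine apAt_of (contDiff_id.add (h1.mul contDiff_const)).contDiffAt ?_
  have h2 : HasFDerivAt (fun z : ℂ => b z.re) ((deriv b z.re) • reCLM) z := by
    have := ((hb.differentiable (by simp) z.re).hasDerivAt).comp_hasFDerivAt z
      (reCLM.hasFDerivAt (x := z))
    exact this
  have h3 : HasFDerivAt (fun z : ℂ => z + (b z.re : ℂ) * I) _ z :=
    (hasFDerivAt_id z).add ((Complex.ofRealCLM.hasFDerivAt.comp z h2).mul_const I)
  rw [h3.fderiv]
  simp [w0]

lemma apAt_hshear {b : ℝ → ℝ} (hb : ContDiff ℝ ∞ b) (z : ℂ) :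
    APAt 1 1 (fun z : ℂ => z + (b z.im : ℂ)) z := by
  have hs : ContDiff ℝ ∞ (fun z : ℂ => b z.im) := hb.comp contDiff_im
  have h1 : ContDiff ℝ ∞ (fun z : ℂ => ((b z.im : ℝ) : ℂ)) := Complex.ofRealCLM.contDiff.comp hs
  refine apAt_of (contDiff_id.add h1).contDiffAt ?_
  have h2 : HasFDerivAt (fun z : ℂ => b z.im) ((deriv b z.im) • imCLM) z := by
    have := ((hb.differentiable (by simp) z.im).hasDerivAt).comp_hasFDerivAt z
      (imCLM.hasFDerivAt (x := z))
    exact this
  have h3 : HasFDerivAt (fun z : ℂ => z + (b z.im : ℂ)) _ z :=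
    (hasFDerivAt_id z).add (Complex.ofRealCLM.hasFDerivAt.comp z h2)
  rw [h3.fderiv]
  simp [w0]

def vshear (b : ℝ → ℝ) (hb : ContDiff ℝ ∞ b) : ℂ ≃ₜ ℂ where
  toFun z := z + (b z.re : ℂ) * I
  invFun z := z - (b z.re : ℂ) * I
  left_inv z := by simp
  right_inv z := by simp
  continuous_toFun := by
    have := hb.continuous
    fun_prop
  continuous_invFun := by
    have := hb.continuous
    fun_prop

def hshear (b : ℝ → ℝ) (hb : ContDiff ℝ ∞ b) : ℂ ≃ₜ ℂ where
  toFun z := z + (b z.im : ℂ)
  invFun z := z - (b z.im : ℂ)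
  left_inv z := by simp
  right_inv z := by simp
  continuous_toFun := by
    have := hb.continuous
    fun_prop
  continuous_invFun := by
    have := hb.continuous
    fun_prop

/-- Squeezing a hole vertically. -/
theorem hm_base {σ : ℝ → ℝ} (hσ : ContDiff ℝ ∞ σ) (hσ0 : ∀ t, 0 ≤ σ t) {w δ : ℝ}
    (hw : ∀ t, w ≤ |t| → σ t = 0) (hδ : 0 < δ) :
    HM {z | |z.re| ≤ w ∧ |z.im| ≤ σ z.re + δ} {z | |z.re| ≤ w ∧ |z.im| ≤ δ}
      (fun z => z - (Real.sign z.im * σ z.re : ℝ) * I)
      (fun z => z + (Real.sign z.im * σ z.re : ℝ) * I) where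
  maps z hz := by
    rintro ⟨h1, h2⟩
    simp only [sub_re, mul_re, ofReal_re, ofReal_im, I_re, I_im, mul_zero, zero_mul, sub_zero,
      sub_im, mul_im, mul_one, add_zero] at h1 h2
    refine hz ⟨h1, ?_⟩
    rcases lt_trichotomy z.im 0 with h | h | h
    · rw [Real.sign_of_neg h] at h2
      rw [abs_le] at h2 ⊢
      have := hσ0 z.re
      constructor <;> linarith [h2.1, h2.2]
    · rw [h, abs_zero]
      have := hσ0 z.re
      linarith
    · rw [Real.sign_of_pos h] at h2
      rw [abs_le] at h2 ⊢
      have := hσ0 z.re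
      constructor <;> linarith [h2.1, h2.2]
  maps' z hz := by
    rintro ⟨h1, h2⟩
    simp only [add_re, mul_re, ofReal_re, ofReal_im, I_re, I_im, mul_zero, zero_mul, sub_zero,
      add_im, mul_im, mul_one, add_zero] at h1 h2
    refine hz ⟨h1, ?_⟩
    rcases lt_trichotomy z.im 0 with h | h | h
    · rw [Real.sign_of_neg h] at h2
      rw [abs_le] at h2 ⊢
      have := hσ0 z.re
      constructor <;> linarith [h2.1, h2.2]
    · rw [h, abs_zero]; exact hδ.le
    · rw [Real.sign_of_pos h] at h2
      rw [abs_le] at h2 ⊢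
      have := hσ0 z.re
      constructor <;> linarith [h2.1, h2.2]
  left z hz := by
    have hre : (z - (Real.sign z.im * σ z.re : ℝ) * I).re = z.re := by simp
    have him : (z - (Real.sign z.im * σ z.re : ℝ) * I).im = z.im - Real.sign z.im * σ z.re := by
      simp
    rw [hre, him]
    by_cases h0 : σ z.re = 0
    · rw [h0]; simp
    · have hre2 : |z.re| ≤ w := by
        by_contra h
        exact h0 (hw _ (not_le.1 h).le)
      have h2 : ¬ |z.im| ≤ σ z.re + δ := fun h => hz ⟨hre2, h⟩
      have hs := hσ0 z.re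
      rcases lt_trichotomy z.im 0 with h | h | h
      · rw [abs_of_neg h] at h2
        rw [Real.sign_of_neg h, Real.sign_of_neg (by linarith)]
        simp
      · rw [h, abs_zero] at h2
        exact absurd (by linarith) h2
      · rw [abs_of_pos h] at h2
        rw [Real.sign_of_pos h, Real.sign_of_pos (by linarith)]
        simp
  right z hz := by
    have hre : (z + (Real.sign z.im * σ z.re : ℝ) * I).re = z.re := by simp
    have him : (z + (Real.sign z.im * σ z.re : ℝ) * I).im = z.im + Real.sign z.im * σ z.re := by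
      simp
    rw [hre, him]
    have hs := hσ0 z.re
    rcases lt_trichotomy z.im 0 with h | h | h
    · rw [Real.sign_of_neg h, Real.sign_of_neg (by linarith)]
      simp
    · have h0 : σ z.re = 0 := by
        by_contra h0
        have hre2 : |z.re| ≤ w := by
          by_contra h'
          exact h0 (hw _ (not_le.1 h').le)
        exact hz ⟨hre2, by rw [h, abs_zero]; exact hδ.le⟩
      rw [h0]; simp
    · rw [Real.sign_of_pos h, Real.sign_of_pos (by linarith)]
      simp
  ap z hz := by
    by_cases hre : |z.re| ≤ w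
    · have h2 : ¬ |z.im| ≤ σ z.re + δ := fun h => hz ⟨hre, h⟩
      have hs := hσ0 z.re
      have him : z.im ≠ 0 := by
        intro h
        rw [h, abs_zero] at h2
        exact h2 (by linarith)
      rcases lt_or_gt_of_ne him with h | h
      · refine (apAt_vshear hσ z).congr ?_
        have : ∀ᶠ z' : ℂ in 𝓝 z, z'.im < 0 :=
          Complex.continuous_im.continuousAt.eventually (gt_mem_nhds h)
        filter_upwards [this] with z' hz'
        rw [Real.sign_of_neg hz']
        push_cast; ring
      · refine (apAt_vshear hσ.neg z).congr ?_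
        have : ∀ᶠ z' : ℂ in 𝓝 z, 0 < z'.im :=
          Complex.continuous_im.continuousAt.eventually (lt_mem_nhds h)
        filter_upwards [this] with z' hz'
        rw [Real.sign_of_pos hz']
        push_cast; ring
    · refine APAt.id.congr ?_
      have hc : Continuous (fun z' : ℂ => |z'.re|) := Complex.continuous_re.abs
      have : ∀ᶠ z' : ℂ in 𝓝 z, w < |z'.re| :=
        hc.continuousAt.eventually (lt_mem_nhds (not_le.1 hre))
      filter_upwards [this] with z' hz'
      rw [hw _ hz'.le]
      simp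
  closedX := by
    have h1 : Continuous (fun z : ℂ => |z.re|) := Complex.continuous_re.abs
    have h2 : Continuous (fun z : ℂ => |z.im|) := Complex.continuous_im.abs
    have h3 : Continuous (fun z : ℂ => σ z.re + δ) :=
      (hσ.continuous.comp Complex.continuous_re).add continuous_const
    exact (isClosed_le h1 continuous_const).inter (isClosed_le h2 h3)
  closed Q hQ hd := by
    rw [Set.disjoint_left] at hd
    have hσc : Continuous (fun z : ℂ => σ z.re) := hσ.continuous.comp Complex.continuous_re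
    have hset : {z : ℂ | z ∉ {z : ℂ | |z.re| ≤ w ∧ |z.im| ≤ σ z.re + δ} ∧
        z - (Real.sign z.im * σ z.re : ℝ) * I ∈ Q} =
        {z : ℂ | 0 ≤ z.im ∧ σ z.re ≤ z.im ∧ z - (σ z.re : ℂ) * I ∈ Q} ∪
        {z : ℂ | z.im ≤ 0 ∧ z.im ≤ - σ z.re ∧ z + (σ z.re : ℂ) * I ∈ Q} := by
      ext z
      simp only [mem_ofPred_eq, mem_union]
      have hs := hσ0 z.re
      constructor
      · rintro ⟨h1, h2⟩
        by_cases h0 : σ z.re = 0
        · rw [h0, mul_zero] at h2
          rw [h0]
          rcases le_total 0 z.im with h | h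
          · left; refine ⟨h, h, ?_⟩; simpa using h2
          · right; refine ⟨h, by simpa using h, ?_⟩; simpa using h2
        · have hre2 : |z.re| ≤ w := by
            by_contra h'
            exact h0 (hw _ (not_le.1 h').le)
          have h3 : ¬ |z.im| ≤ σ z.re + δ := fun h => h1 ⟨hre2, h⟩
          rcases lt_trichotomy z.im 0 with h | h | h
          · right
            rw [abs_of_neg h] at h3
            rw [Real.sign_of_neg h] at h2
            refine ⟨h.le, by linarith, ?_⟩
            convert h2 using 1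
            push_cast; ring
          · rw [h, abs_zero] at h3
            exact absurd (by linarith) h3
          · left
            rw [abs_of_pos h] at h3
            rw [Real.sign_of_pos h] at h2
            refine ⟨h.le, by linarith, ?_⟩
            convert h2 using 1
            push_cast; ring
      · rintro (⟨h1, h2, h3⟩ | ⟨h1, h2, h3⟩)
        · have h4 := hd h3
          simp only [mem_ofPred_eq, sub_re, mul_re, ofReal_re, ofReal_im, I_re, I_im, mul_zero,
            zero_mul, sub_zero, sub_im, mul_im, mul_one, add_zero] at h4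
          refine ⟨fun h5 => h4 ⟨h5.1, ?_⟩, ?_⟩
          · have h6 := h5.2
            rw [abs_of_nonneg h1] at h6
            rw [abs_of_nonneg (by linarith)]; linarith
          · rcases eq_or_lt_of_le h1 with h | h
            · have h0 : σ z.re = 0 := by linarith
              rw [h0] at h3 ⊢
              simpa using h3
            · rw [Real.sign_of_pos h, one_mul]; exact h3
        · have h4 := hd h3
          simp only [mem_ofPred_eq, add_re, mul_re, ofReal_re, ofReal_im, I_re, I_im, mul_zero,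
            zero_mul, sub_zero, add_im, mul_im, mul_one, add_zero] at h4
          refine ⟨fun h5 => h4 ⟨h5.1, ?_⟩, ?_⟩
          · have h6 := h5.2
            rw [abs_of_nonpos h1] at h6
            rw [abs_of_nonpos (by linarith)]; linarith
          · rcases eq_or_lt_of_le h1 with h | h
            · have h0 : σ z.re = 0 := by linarith
              rw [h0] at h3 ⊢
              simpa using h3
            · rw [Real.sign_of_neg h]
              convert h3 using 1
              push_cast; ring
    rw [hset]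
    refine IsClosed.union ?_ ?_
    · refine (isClosed_le continuous_const Complex.continuous_im).inter
        ((isClosed_le hσc Complex.continuous_im).inter ?_)
      exact hQ.preimage (continuous_id.sub
        ((Complex.continuous_ofReal.comp hσc).mul continuous_const))
    · refine (isClosed_le Complex.continuous_im continuous_const).inter
        ((isClosed_le Complex.continuous_im hσc.neg).inter ?_)
      exact hQ.preimage (continuous_id.add
        ((Complex.continuous_ofReal.comp hσc).mul continuous_const))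

/-- Translation to the point `tau`. -/
def A1 : ℂ ≃ₜ ℂ := Homeomorph.addRight tau

/-- Translation to the point `tau` after a quarter turn. -/
def A2 : ℂ ≃ₜ ℂ := (Homeomorph.mulLeft₀ I I_ne_zero).trans (Homeomorph.addRight tau)

lemma A1_apply (z : ℂ) : A1 z = z + tau := rfl
lemma A1_symm (z : ℂ) : A1.symm z = z - tau := by rw [Homeomorph.symm_apply_eq, A1_apply]; ring
lemma A2_apply (z : ℂ) : A2 z = I * z + tau := rfl
lemma A2_symm (z : ℂ) : A2.symm z = -I * (z - tau) := by
  rw [Homeomorph.symm_apply_eq, A2_apply]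
  ring_nf
  rw [I_sq]; ring

lemma apAt_affine (a b : ℂ) (ha : ‖a‖ = 1) (z : ℂ) : APAt 1 1 (fun z => a * z + b) z := by
  refine ⟨(contDiffAt_const.mul contDiffAt_id).add contDiffAt_const, fun u v => ?_⟩
  have h1 : HasDerivAt (fun z : ℂ => a * z + b) a z := by
    simpa using ((hasDerivAt_id z).const_mul a).add_const b
  have h2 := h1.hasFDerivAt.restrictScalars ℝ
  have h3 : ∀ v, fderiv ℝ (fun z : ℂ => a * z + b) z v = a * v := by
    intro v
    rw [h2.fderiv]
    simp
    ring
  rw [h3, h3, w0_mul, ha]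
  simp

lemma apAt_A1 (z : ℂ) : APAt 1 1 A1 z :=
  (apAt_affine 1 tau (by simp) z).congr (Eventually.of_forall fun z => by simp [A1_apply])
lemma apAt_A1s (z : ℂ) : APAt 1 1 A1.symm z :=
  (apAt_affine 1 (-tau) (by simp) z).congr
    (Eventually.of_forall fun z => by simp only [A1_symm]; ring)
lemma apAt_A2 (z : ℂ) : APAt 1 1 A2 z :=
  (apAt_affine I tau (by simp) z).congr (Eventually.of_forall fun z => by simp [A2_apply])
lemma apAt_A2s (z : ℂ) : APAt 1 1 A2.symm z :=
  (apAt_affine (-I) (I * tau) (by simp) z).congr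
    (Eventually.of_forall fun z => by simp only [A2_symm]; ring)

/-- Bump profile. -/
def prof (a : ℝ) (ha : 0 < a) (b : ℝ) (hab : a < b) : ℝ → ℝ :=
  fun t => 3 * (⟨a, b, ha, hab⟩ : ContDiffBump (0 : ℝ)) t

lemma prof_smooth {a : ℝ} (ha : 0 < a) {b : ℝ} (hab : a < b) : ContDiff ℝ ∞ (prof a ha b hab) :=
  contDiff_const.mul (ContDiffBump.contDiff _)

lemma prof_nonneg {a : ℝ} (ha : 0 < a) {b : ℝ} (hab : a < b) (t : ℝ) : 0 ≤ prof a ha b hab t := by
  have := (⟨a, b, ha, hab⟩ : ContDiffBump (0 : ℝ)).nonneg (x := t)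
  unfold prof
  positivity

lemma prof_in {a : ℝ} (ha : 0 < a) {b : ℝ} (hab : a < b) {t : ℝ} (ht : |t| ≤ a) :
    prof a ha b hab t = 3 := by
  unfold prof
  rw [ContDiffBump.one_of_mem_closedBall]
  · norm_num
  · simpa using ht

lemma prof_out {a : ℝ} (ha : 0 < a) {b : ℝ} (hab : a < b) {t : ℝ} (ht : b ≤ |t|) :
    prof a ha b hab t = 0 := by
  unfold prof
  rw [ContDiffBump.zero_of_le_dist]
  · norm_num
  · simpa using ht

/-- Step functions. -/
def st1 (y : ℝ) : ℝ := -10 * Real.smoothTransition ((y - 13) / 4)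
def st2 (y : ℝ) : ℝ := -10 * Real.smoothTransition ((y - 3) / 4)

lemma st1_smooth : ContDiff ℝ ∞ st1 :=
  contDiff_const.mul (Real.smoothTransition.contDiff.comp
    ((contDiff_id.sub contDiff_const).div_const _))
lemma st2_smooth : ContDiff ℝ ∞ st2 :=
  contDiff_const.mul (Real.smoothTransition.contDiff.comp
    ((contDiff_id.sub contDiff_const).div_const _))

lemma st1_low {y : ℝ} (h : y ≤ 13) : st1 y = 0 := by
  rw [st1, Real.smoothTransition.zero_of_nonpos (by linarith), mul_zero]
lemma st1_high {y : ℝ} (h : 17 ≤ y) : st1 y = -10 := by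
  rw [st1, Real.smoothTransition.one_of_one_le (by linarith), mul_one]
lemma st2_low {y : ℝ} (h : y ≤ 3) : st2 y = 0 := by
  rw [st2, Real.smoothTransition.zero_of_nonpos (by linarith), mul_zero]
lemma st2_high {y : ℝ} (h : 7 ≤ y) : st2 y = -10 := by
  rw [st2, Real.smoothTransition.one_of_one_le (by linarith), mul_one]

/-- The shift. -/
def shift : ℂ ≃ₜ ℂ := (hshear st1 st1_smooth).trans (vshear st2 st2_smooth)

lemma shift_apply (z : ℂ) : shift z = z + (st1 z.im : ℂ) + (st2 (z.re + st1 z.im) : ℂ) * I := by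
  change (z + (st1 z.im : ℂ)) + (st2 (z + (st1 z.im : ℂ)).re : ℂ) * I = _
  simp

lemma apAt_shift (z : ℂ) : APAt 1 1 shift z :=
  APAt.comp (g := vshear st2 st2_smooth) (f := hshear st1 st1_smooth)
    (apAt_vshear st2_smooth _) (apAt_hshear st1_smooth z)

theorem exists_theta {δ : ℝ} (hδ : 0 < δ) (hδ1 : δ ≤ 1) :
    ∃ (X D : Set ℂ) (θ θ' : ℂ → ℂ), HM X D θ θ' ∧ (∀ z, ‖z - tau‖ ≤ 2 → z ∈ X) ∧
      (∀ k : ℤ, k ≠ 1 → ∀ z, ‖z - k * tau‖ ≤ 2 → z ∉ X) ∧ (∀ z ∈ D, ‖z - 10‖ ≤ 3 * δ) ∧
      (∀ k : ℤ, k ≤ 0 → ∀ z, ‖z - k * tau‖ ≤ 2 → θ z = z) ∧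
      (∀ k : ℤ, 2 ≤ k → ∀ z, ‖z - k * tau‖ ≤ 2 → θ z = z - tau) := by
  set σ₁ := prof 2 (by norm_num) 3 (by norm_num) with hσ₁
  set σ₂ := prof δ hδ (2 * δ) (by linarith) with hσ₂
  have H1 := (hm_base (σ := σ₁) (prof_smooth _ _) (prof_nonneg _ _) (w := 3)
    (fun t ht => prof_out _ _ ht) hδ).conj A1 apAt_A1 apAt_A1s
  have H2 := (hm_base (σ := σ₂) (prof_smooth _ _) (prof_nonneg _ _) (w := 2 * δ)
    (fun t ht => prof_out _ _ ht) hδ).conj A2 apAt_A2 apAt_A2s
  have H12 := H1.comp H2 (by
    intro z hz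
    simp only [mem_preimage, mem_ofPred_eq, A1_symm, A2_symm] at hz ⊢
    have e1 : (-I * (z - tau)).re = (z - tau).im := by simp
    have e2 : (-I * (z - tau)).im = -(z - tau).re := by simp
    rw [e1, e2, abs_neg]
    refine ⟨by linarith [hz.2], ?_⟩
    rw [hσ₂, prof_in _ _ hz.2]
    linarith [hz.1])
  have hD2c : IsClosed (A2.symm ⁻¹' {z : ℂ | |z.re| ≤ 2 * δ ∧ |z.im| ≤ δ}) := by
    refine IsClosed.preimage A2.symm.continuous ?_
    exact (isClosed_le Complex.continuous_re.abs continuous_const).inter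
      (isClosed_le Complex.continuous_im.abs continuous_const)
  have H3 := H12.comp (HM.of_homeo hD2c shift apAt_shift) subset_rfl
  -- behaviour far from the first hole
  have far : ∀ k : ℤ, k ≠ 1 → ∀ z : ℂ, ‖z - k * tau‖ ≤ 2 →
      8 ≤ |(z - tau).re| ∧ 8 ≤ |(z - tau).im| := by
    intro k hk z hz
    have h1 : |(z - k * tau).re| ≤ 2 := (abs_re_le_norm _).trans hz
    have h2 : |(z - k * tau).im| ≤ 2 := (abs_im_le_norm _).trans hz
    have e1 : (z - k * tau).re = z.re - k * 10 := by simp [tau_re, tau_im]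
    have e2 : (z - k * tau).im = z.im - k * 10 := by simp [tau_re, tau_im]
    have e3 : (z - tau).re = z.re - 10 := by simp [tau_re]
    have e4 : (z - tau).im = z.im - 10 := by simp [tau_im]
    rw [e1, abs_le] at h1
    rw [e2, abs_le] at h2
    rw [e3, e4]
    rcases lt_or_gt_of_ne hk with h | h
    · have h5 : (k : ℝ) ≤ 0 := by exact_mod_cast Int.lt_add_one_iff.1 h
      constructor
      · rw [le_abs]; right; linarith [h1.2]
      · rw [le_abs]; right; linarith [h2.2]
    · have h5 : (2 : ℝ) ≤ k := by exact_mod_cast h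
      constructor
      · rw [le_abs]; left; linarith [h1.1]
      · rw [le_abs]; left; linarith [h2.1]
  have f1 : ∀ z : ℂ, 3 ≤ |(z - tau).re| →
      A1 (A1.symm z - (Real.sign (A1.symm z).im * σ₁ (A1.symm z).re : ℝ) * I) = z := by
    intro z hz
    have : σ₁ (A1.symm z).re = 0 := by
      rw [A1_symm, hσ₁]; exact prof_out _ _ hz
    rw [this, mul_zero, ofReal_zero, zero_mul, sub_zero, A1.apply_symm_apply]
  have f2 : ∀ z : ℂ, 2 * δ ≤ |(z - tau).im| →
      A2 (A2.symm z - (Real.sign (A2.symm z).im * σ₂ (A2.symm z).re : ℝ) * I) = z := by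
    intro z hz
    have : σ₂ (A2.symm z).re = 0 := by
      rw [A2_symm, hσ₂]
      have e1 : (-I * (z - tau)).re = (z - tau).im := by simp
      rw [e1]
      exact prof_out _ _ hz
    rw [this, mul_zero, ofReal_zero, zero_mul, sub_zero, A2.apply_symm_apply]
  refine ⟨_, _, _, _, H3, ?_, ?_, ?_, ?_, ?_⟩
  · intro z hz
    left; left
    simp only [mem_preimage, mem_ofPred_eq, A1_symm]
    have h1 : |(z - tau).re| ≤ 2 := (abs_re_le_norm _).trans hz
    have h2 : |(z - tau).im| ≤ 2 := (abs_im_le_norm _).trans hz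
    refine ⟨by linarith, ?_⟩
    rw [hσ₁, prof_in _ _ h1]
    linarith
  · intro k hk z hz
    obtain ⟨h1, h2⟩ := far k hk z hz
    have e1 : (-I * (z - tau)).re = (z - tau).im := by simp
    simp only [mem_ofPred_eq, not_or, Function.comp_apply]
    rw [f1 z (by linarith)]
    refine ⟨⟨?_, ?_⟩, ?_⟩
    · intro h
      simp only [mem_preimage, mem_ofPred_eq, A1_symm] at h
      linarith [h.1]
    · intro h
      simp only [mem_preimage, mem_ofPred_eq, A2_symm] at h
      rw [e1] at h
      linarith [h.1]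
    · rw [f2 z (by linarith)]
      intro h
      simp only [mem_preimage, mem_ofPred_eq, A2_symm] at h
      rw [e1] at h
      linarith [h.1]
  · intro w hw
    obtain ⟨z, rfl⟩ : ∃ z, w = shift z := ⟨shift.symm w, (shift.apply_symm_apply w).symm⟩
    simp only [mem_preimage, shift.symm_apply_apply, mem_ofPred_eq, A2_symm] at hw
    have e1 : (-I * (z - tau)).re = (z - tau).im := by simp
    have e2 : (-I * (z - tau)).im = -(z - tau).re := by simp
    rw [e1, e2, abs_neg] at hw
    have e3 : (z - tau).re = z.re - 10 := by simp [tau_re]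
    have e4 : (z - tau).im = z.im - 10 := by simp [tau_im]
    have hb1 : z.im ≤ 13 := by
      have := (abs_le.1 hw.1).2
      rw [e4] at this
      linarith
    have hb2 : 7 ≤ z.re := by
      have := (abs_le.1 hw.2).1
      rw [e3] at this
      linarith
    rw [shift_apply, st1_low hb1, add_zero, st2_high hb2]
    have e5 : z + ((0:ℝ) : ℂ) + ((-10 : ℝ) : ℂ) * I - 10 = z - tau := by
      rw [tau]; push_cast; ring
    rw [e5]
    refine (Complex.norm_le_abs_re_add_abs_im _).trans ?_
    linarith [hw.1, hw.2]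
  · intro k hk z hz
    obtain ⟨h1, h2⟩ := far k (by omega) z hz
    simp only [Function.comp_apply]
    rw [f1 z (by linarith), f2 z (by linarith)]
    have h3 : |(z - k * tau).re| ≤ 2 := (abs_re_le_norm _).trans hz
    have h4 : |(z - k * tau).im| ≤ 2 := (abs_im_le_norm _).trans hz
    have e1 : (z - k * tau).re = z.re - k * 10 := by simp [tau_re, tau_im]
    have e2 : (z - k * tau).im = z.im - k * 10 := by simp [tau_re, tau_im]
    rw [e1, abs_le] at h3
    rw [e2, abs_le] at h4
    have h5 : (k : ℝ) ≤ 0 := by exact_mod_cast hk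
    rw [shift_apply, st1_low (by linarith [h4.2]), add_zero, st2_low (by linarith [h3.2])]
    simp
  · intro k hk z hz
    obtain ⟨h1, h2⟩ := far k (by omega) z hz
    simp only [Function.comp_apply]
    rw [f1 z (by linarith), f2 z (by linarith)]
    have h3 : |(z - k * tau).re| ≤ 2 := (abs_re_le_norm _).trans hz
    have h4 : |(z - k * tau).im| ≤ 2 := (abs_im_le_norm _).trans hz
    have e1 : (z - k * tau).re = z.re - k * 10 := by simp [tau_re, tau_im]
    have e2 : (z - k * tau).im = z.im - k * 10 := by simp [tau_re, tau_im]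
    rw [e1, abs_le] at h3
    rw [e2, abs_le] at h4
    have h5 : (2 : ℝ) ≤ k := by exact_mod_cast hk
    rw [shift_apply, st1_high (by linarith [h4.1]), st2_high (by linarith [h3.1])]
    rw [tau]
    push_cast
    ring

end Pool.Agent.Helper186.Area
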