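import Mathlib
import Pool.Agent.Helper186.AreaTheta

/-! Every area preserving diffeomorphism of the surface is a product of two commutators. -/

open scoped Topology ContDiff NNReal commutatorElement
open Set Filter Complex Metric

noncomputable section

namespace Pool.Agent.Helper186.Area

set_option linter.unusedSimpArgs false

lemma red_gt_two {z : ℂ} (h : ∀ k : ℤ, 2 < ‖z - k * tau‖) : 2 < ‖red z‖ := h (idx z)

lemma norm_ten_sub (k : ℤ) : 10 ≤ ‖(10 : ℂ) - k * tau‖ := by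
  by_cases hk : k = 0
  · subst hk; simp
  · have h1 : ((10 : ℂ) - k * tau).im = -(k * 10) := by simp [tau_re, tau_im]
    refine le_trans ?_ (abs_im_le_norm _)
    rw [h1, abs_neg, abs_mul]
    have h3 : (1:ℝ) ≤ |(k : ℝ)| := by
      rw [← Int.cast_abs]
      exact_mod_cast Int.one_le_abs hk
    norm_num
    linarith

/-- Data of the hole shrinking map on the surface. -/
structure SD (X D : Set ℂ) (θ θ' : ℂ → ℂ) : Prop extends HM X D θ θ' where
  inX : ∀ z, ‖z - tau‖ ≤ 2 → z ∈ X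
  small : ∀ z, ‖z‖ ≤ 2 → z ∉ X ∧ θ z = z
  esc : ∀ z, z ∉ X → (Esc (θ z) ↔ Esc z)
  apS : ∀ z, z ∉ X → Esc z → APAt rho rho θ z
  escD : ∀ z ∈ D, Esc z

theorem exists_sd {η : ℝ} (hη : 0 < η) :
    ∃ (X D : Set ℂ) (θ θ' : ℂ → ℂ), SD X D θ θ' ∧ ∀ z ∈ D, ‖z - 10‖ < η := by
  set δ : ℝ := min 1 (η / 6) with hδd
  have hδ : 0 < δ := by positivity
  obtain ⟨X, D, θ, θ', H, h1, h2, h3, h4, h5⟩ := exists_theta hδ (min_le_left _ _)
  have hD : ∀ z ∈ D, ‖z - 10‖ < η ∧ ‖z - 10‖ ≤ 3 := by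
    intro z hz
    have := h3 z hz
    have h6 : δ ≤ η / 6 := min_le_right _ _
    have h7 : δ ≤ 1 := min_le_left _ _
    constructor <;> linarith
  -- the two cases
  have key : ∀ z, z ∉ X → (θ z = z) ∨ (∃ k : ℤ, θ z = z + (k : ℂ) * tau) ∨
      (2 < ‖red z‖ ∧ 2 < ‖red (θ z)‖) := by
    intro z hz
    by_cases hA : ∃ k : ℤ, ‖z - k * tau‖ ≤ 2
    · obtain ⟨k, hk⟩ := hA
      rcases lt_trichotomy k 1 with h | h | h
      · left; exact h4 k (by omega) z hk
      · subst h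
        exact absurd (h1 z (by simpa using hk)) hz
      · right; left
        refine ⟨-1, ?_⟩
        rw [h5 k (by omega) z hk]; push_cast; ring
    · right; right
      have hA' : ∀ k : ℤ, 2 < ‖z - k * tau‖ := fun k => by
        by_contra h
        exact hA ⟨k, not_lt.1 h⟩
      refine ⟨red_gt_two hA', red_gt_two fun k => ?_⟩
      by_contra h
      have h' := not_lt.1 h
      rcases le_or_gt k 0 with hk | hk
      · have e1 := h4 k hk (θ z) h'
        have e2 := h2 k (by omega) (θ z) h'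
        have e3 : θ z = z := by
          have := H.left (θ z) e2
          rw [e1, H.left z hz] at this
          exact this.symm
        rw [e3] at h'
        exact absurd h' (not_le.2 (hA' k))
      · have hn : ‖(θ z + tau) - ((k + 1 : ℤ) : ℂ) * tau‖ ≤ 2 := by
          have : (θ z + tau) - ((k + 1 : ℤ) : ℂ) * tau = θ z - k * tau := by push_cast; ring
          rw [this]; exact h'
        have e1 := h5 (k + 1) (by omega) (θ z + tau) hn
        have e2 := h2 (k + 1) (by omega) (θ z + tau) hn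
        have e3 : θ z + tau = z := by
          have := H.left (θ z + tau) e2
          rw [e1, add_sub_cancel_right, H.left z hz] at this
          exact this.symm
        rw [e3] at hn
        exact absurd hn (not_le.2 (hA' _))
  refine ⟨X, D, θ, θ', ⟨H, h1, ?_, ?_, ?_, ?_⟩, fun z hz => (hD z hz).1⟩
  · intro z hz
    have hz' : ‖z - (0 : ℤ) * tau‖ ≤ 2 := by simpa using hz
    exact ⟨h2 0 (by norm_num) z hz', h4 0 le_rfl z hz'⟩
  · intro z hz
    rcases key z hz with h | ⟨k, h⟩ | ⟨h, h'⟩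
    · rw [h]
    · rw [h]; exact esc_add z k
    · exact ⟨fun _ => esc_of_le (by linarith), fun _ => esc_of_le (by linarith)⟩
  · intro z hz hE
    have hr : rho (θ z) = rho z := by
      rcases key z hz with h | ⟨k, h⟩ | ⟨h, h'⟩
      · rw [h]
      · rw [h]; exact rho_add z k hE
      · rw [rho_one h.le, rho_one h'.le]
    refine ⟨(H.ap z hz).1, fun u v => ?_⟩
    have := (H.ap z hz).2 u v
    simp only [Pi.one_apply, one_mul] at this
    rw [this, hr]
  · intro z hz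
    have h6 := (hD z hz).2
    refine esc_of_le ?_
    have h7 := norm_ten_sub (idx z)
    have h8 : (10 : ℂ) - idx z * tau = red z - (z - 10) := by rw [red, cen]; ring
    rw [h8] at h7
    have := norm_sub_le (red z) (z - 10)
    linarith

lemma SD.small' {X D : Set ℂ} {θ θ' : ℂ → ℂ} (h : SD X D θ θ') {w : ℂ} (hw : ‖w‖ ≤ 2) :
    w ∉ D ∧ θ' w = w := by
  obtain ⟨h1, h2⟩ := h.small w hw
  constructor
  · have := h.maps w h1
    rwa [h2] at this
  · have := h.left w h1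
    rwa [h2] at this

lemma SD.esc' {X D : Set ℂ} {θ θ' : ℂ → ℂ} (h : SD X D θ θ') {w : ℂ} (hw : w ∉ D) :
    Esc (θ' w) ↔ Esc w := by
  have := h.esc (θ' w) (h.maps' w hw)
  rw [h.right w hw] at this
  exact this.symm

lemma SD.apS' {X D : Set ℂ} {θ θ' : ℂ → ℂ} (h : SD X D θ θ') {w : ℂ} (hw : w ∉ D) (hE : Esc w) :
    APAt rho rho θ' w := by
  have h1 := h.apS (θ' w) (h.maps' w hw) ((h.esc' hw).2 hE)
  have h2 := h1.inverse (g := θ') (U := Xᶜ) (rho_pos _ ((h.esc' hw).2 hE)).ne'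
    (h.closedX.isOpen_compl.mem_nhds (h.maps' w hw)) (fun x hx => h.left x hx)
  rwa [h.right w hw] at h2

open Classical in
/-- Lifting an element fixing a neighbourhood of the small hole. -/
theorem exists_lift {X D : Set ℂ} {θ θ' : ℂ → ℂ} (h : SD X D θ θ') {P : Equiv.Perm ℂ}
    (hP : P ∈ surf.G) {N : Set ℂ} (hN : IsOpen N) (hDN : D ⊆ N) (hPN : ∀ v ∈ N, P v = v) :
    ∃ k ∈ surf.G, (∀ u ∈ X, k u = u) ∧ ∀ u, u ∉ X → Esc u → k u = θ' (P (θ u)) := by
  set f : Equiv.Perm ℂ → ℂ → ℂ := fun P u => if u ∈ X then u else θ' (P (θ u)) with hf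
  have f1 : ∀ P u, u ∈ X → f P u = u := fun P u hu => by simp [hf, hu]
  have f2 : ∀ P u, u ∉ X → f P u = θ' (P (θ u)) := fun P u hu => by simp [hf, hu]
  have hD : ∀ Q : Equiv.Perm ℂ, (∀ v ∈ N, Q v = v) → ∀ v, v ∉ D → Q v ∉ D := by
    intro Q hQ v hv hQv
    have h1 := hQ _ (hDN hQv)
    have h2 := Q.injective h1
    rw [h2] at hQv
    exact hv hQv
  have hPN' : ∀ v ∈ N, P⁻¹ v = v := fun v hv => by
    have h1 := hPN v hv
    calc P⁻¹ v = P⁻¹ (P v) := by rw [h1]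
      _ = v := inv_app P v
  have hmaps : ∀ Q ∈ surf.G, (∀ v ∈ N, Q v = v) → MapsTo (f Q) surf.S surf.S := by
    intro Q hQ hQN u hu
    by_cases hX : u ∈ X
    · rw [f1 Q u hX]; exact hu
    · rw [f2 Q u hX]
      have h1 : Esc (θ u) := (h.esc u hX).2 hu
      have h2 : Esc (Q (θ u)) := G_maps (R := surf) hQ h1
      exact (h.esc' (hD Q hQN _ (h.maps u hX))).2 h2
  have hinv : ∀ Q : Equiv.Perm ℂ, (∀ v ∈ N, Q v = v) → (∀ v ∈ N, Q⁻¹ v = v) →
      ∀ u ∈ surf.S, f Q⁻¹ (f Q u) = u := by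
    intro Q hQN hQN' u hu
    by_cases hX : u ∈ X
    · rw [f1 Q u hX, f1 _ u hX]
    · rw [f2 Q u hX]
      have h1 := hD Q hQN _ (h.maps u hX)
      rw [f2 _ _ (h.maps' _ h1), h.right _ h1, inv_app, h.left u hX]
  have hap : ∀ u ∈ surf.S, APAt surf.ρ surf.ρ (f P) u := by
    intro u hu
    by_cases hX : u ∈ X
    · have hc := h.closed Nᶜ hN.isClosed_compl (by
        rw [Set.disjoint_left]
        exact fun z hz hz' => hz (hDN hz'))
      have hu' : u ∉ {z | z ∉ X ∧ θ z ∈ Nᶜ} := fun h' => h'.1 hX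
      refine APAt.id.congr ?_
      filter_upwards [hc.isOpen_compl.mem_nhds hu'] with v hv
      by_cases hvX : v ∈ X
      · exact f1 P v hvX
      · have : θ v ∈ N := by
          by_contra h'
          exact hv ⟨hvX, h'⟩
        rw [f2 P v hvX, hPN _ this, h.left v hvX]
    · have h1 : Esc (θ u) := (h.esc u hX).2 hu
      have h2 : Esc (P (θ u)) := G_maps (R := surf) hP h1
      have h3 := h.apS' (hD P hPN _ (h.maps u hX)) h2
      have h4 := hP.2 (θ u) h1
      have h5 := h.apS u hX hu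
      have h6 : APAt rho rho (θ' ∘ (P ∘ θ)) u := APAt.comp (g := θ') (f := P ∘ θ) h3
        (APAt.comp (g := P) (f := θ) h4 h5)
      refine h6.congr ?_
      filter_upwards [h.closedX.isOpen_compl.mem_nhds hX] with v hv using f2 P v hv
  refine ⟨mkPerm surf.S (f P) (f P⁻¹) (hmaps P hP hPN) (hmaps P⁻¹ (surf.G.inv_mem hP) hPN')
    (hinv P hPN hPN') (fun u hu => ?_), mkPerm_mem_G hap, fun u hu => ?_, fun u hu hE => ?_⟩
  · have := hinv P⁻¹ hPN' (by rw [inv_inv]; exact hPN) u hu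
    rwa [inv_inv] at this
  · by_cases hS : u ∈ surf.S
    · rw [mkPerm_apply hS, f1 P u hu]
    · rw [mkPerm_apply_not hS]
  · rw [mkPerm_apply (show u ∈ surf.S from hE), f2 P u hu]

/-- Inversion followed by translation. -/
def gam (n : ℤ) : Equiv.Perm ℂ := Tr n * Io

lemma gam_mem (n : ℤ) : gam n ∈ surf.G := surf.G.mul_mem (Tr_mem n) Io_mem

lemma gam_apply {n : ℤ} {z : ℂ} (hz : Esc z) : gam n z = iota z + n * tau := by
  rw [gam, Equiv.Perm.mul_apply, Io_apply hz, Tr_apply ((esc_iota z).2 hz)]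

lemma esc_gam {n : ℤ} {z : ℂ} : Esc (gam n z) ↔ Esc z := G_mem_iff (R := surf) (gam_mem n)

lemma gam_norm {n : ℤ} {z : ℂ} (hz : Esc z) : ‖gam n z - n * tau‖ = ‖z‖⁻¹ := by
  rw [gam_apply hz, add_sub_cancel_right, norm_iota]

lemma esc_norm_pos {z : ℂ} (hz : Esc z) : 0 < ‖z‖ := by
  refine norm_pos_iff.2 ?_
  rintro rfl
  exact not_esc_zero hz

lemma esc_ten : Esc 10 := by
  refine esc_of_le ?_
  have h7 := norm_ten_sub (idx 10)
  have h8 : (10 : ℂ) - idx 10 * tau = red 10 := rfl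
  rw [h8] at h7
  linarith

/-- Points outside the `n`-th disc have small preimage. -/
lemma gam_inv_small {n : ℤ} {z : ℂ} (hz : Esc z) (h : 1 < ‖z - n * tau‖) :
    Esc ((gam n)⁻¹ z) ∧ ‖(gam n)⁻¹ z‖ < 1 := by
  have h1 : Esc ((gam n)⁻¹ z) := G_maps (R := surf) (surf.G.inv_mem (gam_mem n)) hz
  refine ⟨h1, ?_⟩
  have h2 := gam_norm (n := n) h1
  rw [app_inv] at h2
  rw [h2] at h
  exact (one_lt_inv₀ (esc_norm_pos h1)).1 h

lemma tau_mul_norm (n : ℤ) (hn : n ≠ 0) : 14 ≤ ‖(n : ℂ) * tau‖ := by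
  rw [norm_mul, Complex.norm_intCast]
  have h3 : (1:ℝ) ≤ |(n : ℝ)| := by
    rw [← Int.cast_abs]
    exact_mod_cast Int.one_le_abs hn
  have := tau_norm
  nlinarith [norm_nonneg tau]

lemma disc_sep {n j : ℤ} (hnj : n ≠ j) {z : ℂ} (h : ‖z - n * tau‖ ≤ 1) : 1 < ‖z - j * tau‖ := by
  have h1 := tau_mul_norm (n - j) (sub_ne_zero.2 hnj)
  have h2 : ((n - j : ℤ) : ℂ) * tau = (z - j * tau) - (z - n * tau) := by push_cast; ring
  rw [h2] at h1
  have := norm_sub_le (z - j * tau) (z - n * tau)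
  linarith

/-- Choice of two discs. -/
theorem exists_discs {φ : Equiv.Perm ℂ} (hφ : φ ∈ surf.G) :
    ∃ n j : ℤ, n ≠ j ∧ ∀ z, Esc z → ‖z - n * tau‖ ≤ 1 → 1 < ‖φ z - j * tau‖ := by
  have hcirc : ∀ j : ℤ, sphere ((j : ℂ) * tau) 1 ⊆ surf.S := by
    intro j z hz
    rw [mem_sphere, dist_eq_norm] at hz
    refine esc_of_le ?_
    rw [red_of_near (k := j) (by rw [hz]; norm_num), hz]
  have hK : ∀ j : ℤ, ∃ M : ℝ, ∀ z, ‖φ z - j * tau‖ = 1 → ‖z‖ ≤ M := by
    intro j
    have h1 : IsCompact ((φ⁻¹ : Equiv.Perm ℂ) '' sphere ((j : ℂ) * tau) 1) :=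
      (isCompact_sphere _ _).image_of_continuousOn
        ((G_continuousOn (R := surf) (surf.G.inv_mem hφ)).mono (hcirc j))
    obtain ⟨M, hM⟩ := h1.isBounded.exists_norm_le
    refine ⟨M, fun z hz => hM z ⟨φ z, ?_, inv_app φ z⟩⟩
    rw [mem_sphere, dist_eq_norm]; exact hz
  obtain ⟨M₁, hM₁⟩ := hK 1
  obtain ⟨M₂, hM₂⟩ := hK 2
  obtain ⟨n₀, hn₀⟩ := exists_nat_gt (max M₁ M₂ + 3)
  set n : ℤ := (n₀ : ℤ) + 3 with hn
  have hbig : max M₁ M₂ < ‖(n : ℂ) * tau‖ - 1 := by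
    rw [norm_mul, Complex.norm_intCast, hn]
    push_cast
    have h0 : (0:ℝ) ≤ n₀ := Nat.cast_nonneg _
    rw [abs_of_nonneg (by linarith)]
    have := tau_norm
    nlinarith
  have hout : ∀ z, ‖z - n * tau‖ ≤ 1 → max M₁ M₂ < ‖z‖ := by
    intro z hz
    have h2 : (n : ℂ) * tau = z - (z - n * tau) := by ring
    have h3 := norm_sub_le z (z - n * tau)
    rw [← h2] at h3
    linarith
  -- the connected piece
  set Sn : Set ℂ := {z | Esc z ∧ ‖z - n * tau‖ ≤ 1} with hSn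
  have hSnc : IsPreconnected Sn := by
    have h1 : Sn = gam n '' {z : ℂ | Esc z ∧ 1 ≤ ‖z‖} := by
      ext z
      constructor
      · rintro ⟨h2, h3⟩
        have h4 : Esc ((gam n)⁻¹ z) := G_maps (R := surf) (surf.G.inv_mem (gam_mem n)) h2
        refine ⟨(gam n)⁻¹ z, ⟨h4, ?_⟩, app_inv _ z⟩
        have h5 := gam_norm (n := n) h4
        rw [app_inv] at h5
        rw [h5] at h3
        exact (inv_le_one₀ (esc_norm_pos h4)).1 h3
      · rintro ⟨w, ⟨h2, h3⟩, rfl⟩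
        refine ⟨esc_gam.2 h2, ?_⟩
        rw [gam_norm h2]
        exact inv_le_one_of_one_le₀ h3
    rw [h1]
    refine isConn_ge.image _ ?_
    exact (G_continuousOn (R := surf) (gam_mem n)).mono (fun z hz => hz.1)
  have himg : IsPreconnected (φ '' Sn) :=
    hSnc.image _ ((G_continuousOn (R := surf) hφ).mono (fun z hz => hz.1))
  have h10 : Esc (gam n 10) := esc_gam.2 esc_ten
  have hp : gam n 10 ∈ Sn := by
    refine ⟨h10, ?_⟩
    rw [gam_norm esc_ten]
    norm_num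
  have hne : ∀ j : ℤ, (j = 1 ∨ j = 2) → ∀ z ∈ Sn, ‖φ z - j * tau‖ ≠ 1 := by
    rintro j hj z hz h1
    have h2 := hout z hz.2
    rcases hj with rfl | rfl
    · have := hM₁ z h1
      exact absurd (h2.trans_le this) (not_lt.2 (le_max_left _ _))
    · have := hM₂ z h1
      exact absurd (h2.trans_le this) (not_lt.2 (le_max_right _ _))
  have hdich : ∀ j : ℤ, (j = 1 ∨ j = 2) → (1 < ‖φ (gam n 10) - j * tau‖) →
      ∀ z ∈ Sn, 1 < ‖φ z - j * tau‖ := by
    intro j hj h1 z hz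
    by_contra h2
    have h3 : ‖φ z - j * tau‖ < 1 := lt_of_le_of_ne (not_lt.1 h2) (hne j hj z hz)
    have hc : Continuous (fun w : ℂ => ‖w - j * tau‖) := by fun_prop
    have h4 := himg.image _ hc.continuousOn
    have h5 := h4.ordConnected.out ⟨φ z, ⟨z, hz, rfl⟩, rfl⟩ ⟨φ (gam n 10), ⟨_, hp, rfl⟩, rfl⟩
    obtain ⟨_, ⟨z', hz', rfl⟩, h6⟩ := h5 (show (1:ℝ) ∈ Icc _ _ from ⟨h3.le, h1.le⟩)
    exact hne j hj z' hz' h6
  by_cases h1 : 1 < ‖φ (gam n 10) - (1 : ℤ) * tau‖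
  · exact ⟨n, 1, by omega, fun z hz hz' => hdich 1 (Or.inl rfl) h1 z ⟨hz, hz'⟩⟩
  · have h2 : 1 < ‖φ (gam n 10) - (2 : ℤ) * tau‖ := disc_sep (by norm_num) (not_lt.1 h1)
    exact ⟨n, 2, by omega, fun z hz hz' => hdich 2 (Or.inr rfl) h2 z ⟨hz, hz'⟩⟩

/-- The unit disc. -/
def K0 : Set ℂ := {z | ‖z‖ < 1}

lemma suppIn_conj {g a : Equiv.Perm ℂ} (hg : g ∈ surf.G) (ha : a ∈ surf.G)
    (h : ∀ z, Esc z → 1 ≤ ‖z‖ → g (a z) = a z) : SuppIn K0 (a⁻¹ * g * a) := by
  intro z hz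
  have hz1 : 1 ≤ ‖z‖ := not_lt.1 hz
  rw [Equiv.Perm.mul_apply, Equiv.Perm.mul_apply]
  by_cases hE : Esc z
  · rw [h z hE hz1, inv_app]
  · have h1 : a z = z := ha.1 z hE
    have h2 : g z = z := hg.1 z hE
    rw [h1, h2]
    exact (surf.G.inv_mem ha).1 z hE

/-- Decomposition into two elements which are conjugate to elements supported in the disc. -/
theorem exists_decomp {φ : Equiv.Perm ℂ} (hφ : φ ∈ surf.G) :
    ∃ g ∈ surf.G, ∃ a ∈ surf.G, ∃ b ∈ surf.G, SuppIn K0 (a⁻¹ * g * a) ∧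
      SuppIn K0 (b⁻¹ * (g⁻¹ * φ) * b) := by
  obtain ⟨n, j, hnj, hsep⟩ := exists_discs hφ
  set Y : Set ℂ := {z | Esc z ∧ 1 < ‖z - j * tau‖} with hY
  have hYc0 : Continuous (fun z : ℂ => ‖z - j * tau‖) := by fun_prop
  have hYo : IsOpen Y := surf.isOpen.inter (isOpen_lt continuous_const hYc0)
  have hYS : Y ⊆ surf.S := fun z hz => hz.1
  have hYc : IsPreconnected Y := by
    have h1 : Y = Tr j '' {z : ℂ | Esc z ∧ 1 < ‖z‖} := by
      ext z
      constructor
      · rintro ⟨h2, h3⟩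
        have h4 : Esc (z + (-j : ℤ) * tau) := (esc_add z (-j)).2 h2
        refine ⟨z + (-j : ℤ) * tau, ⟨h4, ?_⟩, ?_⟩
        · convert h3 using 2
          push_cast; ring
        · rw [Tr_apply h4]; push_cast; ring
      · rintro ⟨w, ⟨h2, h3⟩, rfl⟩
        refine ⟨G_maps (R := surf) (Tr_mem j) h2, ?_⟩
        rw [Tr_apply h2, add_sub_cancel_right]; exact h3
    rw [h1]
    exact isConn_gt.image _ ((G_continuousOn (R := surf) (Tr_mem j)).mono (fun z hz => hz.1))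
  set γ : Equiv.Perm ℂ := gam n with hγ
  have hγG : γ ∈ surf.G := gam_mem n
  set p : ℂ := γ 10 with hp
  have hpE : Esc p := esc_gam.2 esc_ten
  have hpn : ‖p - n * tau‖ ≤ 1 := by
    rw [hp, hγ, gam_norm esc_ten]; norm_num
  have hpY : p ∈ Y := ⟨hpE, disc_sep hnj hpn⟩
  have hφpY : φ p ∈ Y := ⟨G_maps (R := surf) hφ hpE, hsep p hpE hpn⟩
  obtain ⟨ψ, hψ, hψs, hψe⟩ := exists_germ_extension hYo hYS hYc hφ hpY hφpY
  obtain ⟨N, hN, hNo, hpN⟩ := _root_.eventually_nhds_iff.1 hψe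
  -- a neighbourhood of the point 10
  set N' : Set ℂ := surf.S ∩ γ ⁻¹' N with hN'
  have hN'o : IsOpen N' := (G_continuousOn (R := surf) hγG).isOpen_inter_preimage surf.isOpen hNo
  have h10 : (10 : ℂ) ∈ N' := ⟨esc_ten, hpN⟩
  obtain ⟨η, hη, hball⟩ := Metric.isOpen_iff.1 hN'o 10 h10
  obtain ⟨X, D, θ, θ', H, hD⟩ := exists_sd hη
  have hDN : D ⊆ N' := fun z hz => hball (by rw [mem_ball, dist_eq_norm]; exact hD z hz)
  set P : Equiv.Perm ℂ := γ⁻¹ * φ⁻¹ * ψ * γ with hP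
  have hPG : P ∈ surf.G := surf.G.mul_mem (surf.G.mul_mem (surf.G.mul_mem (surf.G.inv_mem hγG)
    (surf.G.inv_mem hφ)) hψ) hγG
  have hPa : ∀ v, P v = γ⁻¹ (φ⁻¹ (ψ (γ v))) := fun v => rfl
  have hPN : ∀ v ∈ N', P v = v := by
    intro v hv
    rw [hPa, hN (γ v) hv.2, inv_app, inv_app]
  obtain ⟨k, hk, hk1, hk2⟩ := exists_lift H hPG hN'o hDN hPN
  set g : Equiv.Perm ℂ := φ * γ * k * γ⁻¹ with hg
  have hgG : g ∈ surf.G := surf.G.mul_mem (surf.G.mul_mem (surf.G.mul_mem hφ hγG) hk)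
    (surf.G.inv_mem hγG)
  have hga : ∀ z, g z = φ (γ (k (γ⁻¹ z))) := fun z => rfl
  refine ⟨g, hgG, gam j, gam_mem j, γ * gam 1, surf.G.mul_mem hγG (gam_mem 1), ?_, ?_⟩
  · refine suppIn_conj hgG (gam_mem j) fun z hz hz1 => ?_
    set w := gam j z with hw
    have hwE : Esc w := esc_gam.2 hz
    have hwj : ‖w - j * tau‖ ≤ 1 := by
      rw [hw, gam_norm hz]; exact inv_le_one_of_one_le₀ hz1
    have hwn : 1 < ‖w - n * tau‖ := disc_sep hnj.symm hwj
    obtain ⟨h1, h2⟩ := gam_inv_small hwE hwn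
    rw [← hγ] at h1 h2
    obtain ⟨h3, h4⟩ := H.small (γ⁻¹ w) (by linarith)
    rw [hga, hk2 _ h3 h1, h4, hPa, app_inv, hψs w (fun h => absurd hwj (not_le.2 h.2))]
    have h5 : Esc (φ⁻¹ w) := G_maps (R := surf) (surf.G.inv_mem hφ) hwE
    have h6 : 1 < ‖φ⁻¹ w - n * tau‖ := by
      by_contra h
      have := hsep _ h5 (not_lt.1 h)
      rw [app_inv] at this
      exact absurd hwj (not_le.2 this)
    obtain ⟨h7, h8⟩ := gam_inv_small h5 h6
    rw [← hγ] at h7 h8
    rw [(H.small' (w := γ⁻¹ (φ⁻¹ w)) (by linarith)).2, app_inv, app_inv]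
  · refine suppIn_conj (surf.G.mul_mem (surf.G.inv_mem hgG) hφ) (surf.G.mul_mem hγG (gam_mem 1))
      fun z hz hz1 => ?_
    rw [Equiv.Perm.mul_apply, Equiv.Perm.mul_apply]
    have h1 : gam 1 z ∈ X := by
      refine H.inX _ ?_
      have h2 := gam_norm (n := 1) hz
      have h3 : ‖z‖⁻¹ ≤ 1 := inv_le_one_of_one_le₀ hz1
      simp only [Int.cast_one, one_mul] at h2
      linarith
    have h4 : g (γ (gam 1 z)) = φ (γ (gam 1 z)) := by
      rw [hga, inv_app, hk1 _ h1]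
    rw [← h4, inv_app]

open Classical in
/-- The swindle. -/
theorem swindle {g : Equiv.Perm ℂ} (hg : g ∈ surf.G) (hs : SuppIn K0 g) :
    ∃ Ψ ∈ surf.G, g = ⁅Ψ, Tr 1⁆ := by
  set f : Equiv.Perm ℂ → ℂ → ℂ := fun g z => if 0 ≤ idx z then g (red z) + cen z else z with hf
  have f1 : ∀ g z, 0 ≤ idx z → f g z = g (red z) + cen z := fun g z hz => by simp [hf, hz]
  have f2 : ∀ g z, ¬ 0 ≤ idx z → f g z = z := fun g z hz => by simp only [hf, if_neg hz]
  have hrc : ∀ z, red z + cen z = z := fun z => by rw [red]; ring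
  have hsmall : ∀ g : Equiv.Perm ℂ, SuppIn K0 g → ∀ w, ‖w‖ < 1 → ‖g w‖ < 1 := by
    intro g hs w hw
    by_contra h
    have h1 := hs (g w) h
    have h2 := g.injective h1
    rw [h2] at h
    exact h hw
  have hidx : ∀ g : Equiv.Perm ℂ, SuppIn K0 g → ∀ z, idx (g (red z) + cen z) = idx z ∧
      red (g (red z) + cen z) = g (red z) := by
    intro g hs z
    by_cases h : ‖red z‖ < 1
    · have h1 := hsmall g hs _ h
      have h2 : ‖(g (red z) + cen z) - (idx z : ℂ) * tau‖ < 5 := by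
        rw [← cen, add_sub_cancel_right]; linarith
      refine ⟨idx_of_near h2, ?_⟩
      rw [red_of_near h2, ← cen, add_sub_cancel_right]
    · rw [hs _ h, hrc]; exact ⟨rfl, rfl⟩
  have hEr : ∀ z, Esc (red z) ↔ Esc z := by
    intro z
    have := esc_add z (-idx z)
    have h2 : z + ((-idx z : ℤ) : ℂ) * tau = red z := by rw [red, cen]; push_cast; ring
    rwa [h2] at this
  have hmaps : ∀ g ∈ surf.G, SuppIn K0 g → MapsTo (f g) surf.S surf.S := by
    intro g hg hs z hz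
    by_cases h : 0 ≤ idx z
    · rw [f1 g z h]
      have h1 : Esc (g (red z)) := G_maps (R := surf) hg ((hEr z).2 hz)
      have h2 := esc_add (g (red z)) (idx z)
      exact h2.2 h1
    · rw [f2 g z h]; exact hz
  have hinv : ∀ g : Equiv.Perm ℂ, SuppIn K0 g → SuppIn K0 g⁻¹ → ∀ z, f g⁻¹ (f g z) = z := by
    intro g hs hs' z
    by_cases h : 0 ≤ idx z
    · rw [f1 g z h]
      obtain ⟨h1, h2⟩ := hidx g hs z
      rw [f1 _ _ (by rw [h1]; exact h), h2, inv_app, cen, h1, ← cen, hrc]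
    · rw [f2 g z h, f2 _ z h]
  have hs' : SuppIn K0 g⁻¹ := hs.inv
  have hap : ∀ z ∈ surf.S, APAt surf.ρ surf.ρ (f g) z := by
    intro z hz
    rcases lt_or_ge ‖red z‖ 5 with h5 | h5
    · have he : ∀ᶠ z' in 𝓝 z, ‖z' - (idx z : ℂ) * tau‖ < 5 := by
        have hc : Continuous (fun z' : ℂ => ‖z' - (idx z : ℂ) * tau‖) := by fun_prop
        exact hc.continuousAt.eventually (gt_mem_nhds h5)
      by_cases h : 0 ≤ idx z
      · have hE1 : Esc (z + ((-idx z : ℤ) : ℂ) * tau) := (esc_add z (-idx z)).2 hz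
        have h1 := apAt_add z (-idx z) hz
        have h2 := hg.2 _ hE1
        have hE2 : Esc (g (z + ((-idx z : ℤ) : ℂ) * tau)) := G_maps (R := surf) hg hE1
        have h3 := apAt_add _ (idx z) hE2
        have h4 : APAt rho rho ((fun w => w + (idx z : ℂ) * tau) ∘
            (g ∘ fun w => w + ((-idx z : ℤ) : ℂ) * tau)) z :=
          APAt.comp (g := fun w => w + (idx z : ℂ) * tau)
            (f := g ∘ fun w => w + ((-idx z : ℤ) : ℂ) * tau) h3
            (APAt.comp (g := g) (f := fun w => w + ((-idx z : ℤ) : ℂ) * tau) h2 h1)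
        refine h4.congr ?_
        filter_upwards [he] with z' hz'
        have h6 := idx_of_near hz'
        have h7 := red_of_near hz'
        rw [f1 g z' (by rw [h6]; exact h), h7, cen, h6]
        simp only [Function.comp_apply]
        congr 2
        push_cast; ring
      · refine APAt.id.congr ?_
        filter_upwards [he] with z' hz'
        exact f2 g z' (by rw [idx_of_near hz']; exact h)
    · refine APAt.id.congr ?_
      filter_upwards [eventually_red_gt (z := z) (a := 1) (by norm_num) (by linarith)] with z' hz'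
      by_cases h : 0 ≤ idx z'
      · rw [f1 g z' h, hs _ (not_lt.2 hz'.le), hrc]
      · exact f2 g z' h
  set Ψ : Equiv.Perm ℂ := mkPerm surf.S (f g) (f g⁻¹) (hmaps g hg hs)
    (hmaps g⁻¹ (surf.G.inv_mem hg) hs') (fun z _ => hinv g hs hs' z) (fun z _ => by
      have := hinv g⁻¹ hs' (by rw [inv_inv]; exact hs) z
      rwa [inv_inv] at this) with hΨ
  have hΨG : Ψ ∈ surf.G := mkPerm_mem_G hap
  refine ⟨Ψ, hΨG, ?_⟩
  have key : Ψ = g * (Tr 1 * Ψ * (Tr 1)⁻¹) := by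
    ext1 z
    by_cases hz : Esc z
    · have hTi : (Tr 1)⁻¹ z = z - tau := by
        rw [Equiv.Perm.inv_eq_iff_eq]
        have : Esc (z - tau) := by
          have := (esc_add z (-1)).2 hz
          convert this using 1
          push_cast; ring
        rw [Tr_apply this]; push_cast; ring
      have hE : Esc (z - tau) := by
        have := (esc_add z (-1)).2 hz
        convert this using 1
        push_cast; ring
      have e0 : z - tau = z + ((-1 : ℤ) : ℂ) * tau := by push_cast; ring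
      have e1 : idx (z - tau) = idx z - 1 := by rw [e0, idx_add]; ring
      have e2 : red (z - tau) = red z := by rw [e0, red_add]
      have e3 : cen (z - tau) = cen z - tau := by rw [e0, cen_add]; push_cast; ring
      simp only [Equiv.Perm.mul_apply]
      rw [hTi, hΨ, mkPerm_apply (show z ∈ surf.S from hz),
        mkPerm_apply (show z - tau ∈ surf.S from hE), Tr_apply (hmaps g hg hs hE)]
      push_cast
      rw [one_mul]
      rcases lt_trichotomy (idx z) 0 with h | h | h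
      · rw [f2 g z (by omega), f2 g _ (by rw [e1]; omega), sub_add_cancel, hs z]
        intro h1
        have h2 : ‖z - (0:ℤ) * tau‖ < 5 := by
          have h3 : ‖z‖ < 1 := h1
          simp only [Int.cast_zero, zero_mul, sub_zero]; linarith
        have := idx_of_near h2
        omega
      · have hc : cen z = 0 := by rw [cen, h]; simp
        have hr : red z = z := by rw [red, hc, sub_zero]
        rw [f1 g z (by omega), f2 g _ (by rw [e1]; omega), sub_add_cancel, hc, hr, add_zero]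
      · rw [f1 g z (by omega), f1 g _ (by rw [e1]; omega), e2, e3]
        have e4 : g (red z) + (cen z - tau) + tau = g (red z) + cen z := by ring
        rw [e4, hs (g (red z) + cen z)]
        intro h1
        have h2 : ‖(g (red z) + cen z) - (0:ℤ) * tau‖ < 5 := by
          have h3 : ‖g (red z) + cen z‖ < 1 := h1
          simp only [Int.cast_zero, zero_mul, sub_zero]; linarith
        have h3 := idx_of_near h2
        rw [(hidx g hs z).1] at h3
        omega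
    · have a1 : Ψ z = z := hΨG.1 z hz
      have a2 : (Tr 1)⁻¹ z = z := (surf.G.inv_mem (Tr_mem 1)).1 z hz
      have a3 : Tr 1 z = z := (Tr_mem 1).1 z hz
      have a4 : g z = z := hg.1 z hz
      simp only [Equiv.Perm.mul_apply]
      rw [a2, a1, a3, a4]
  rw [commutatorElement_def]
  have h2 : g = Ψ * (Tr 1 * Ψ * (Tr 1)⁻¹)⁻¹ := by
    rw [eq_mul_inv_iff_mul_eq]; exact key.symm
  rw [h2]
  group

/-- Every element of the group is a product of two commutators. -/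
theorem main_perm {φ : Equiv.Perm ℂ} (hφ : φ ∈ surf.G) :
    ∃ a ∈ surf.G, ∃ b ∈ surf.G, ∃ c ∈ surf.G, ∃ d ∈ surf.G, φ = ⁅a, b⁆ * ⁅c, d⁆ := by
  obtain ⟨g, hg, a, ha, b, hb, h1, h2⟩ := exists_decomp hφ
  obtain ⟨Ψ₁, hΨ₁, e1⟩ := swindle (surf.G.mul_mem (surf.G.mul_mem (surf.G.inv_mem ha) hg) ha) h1
  obtain ⟨Ψ₂, hΨ₂, e2⟩ := swindle (surf.G.mul_mem (surf.G.mul_mem (surf.G.inv_mem hb)
    (surf.G.mul_mem (surf.G.inv_mem hg) hφ)) hb) h2
  refine ⟨a * Ψ₁ * a⁻¹, surf.G.mul_mem (surf.G.mul_mem ha hΨ₁) (surf.G.inv_mem ha),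
    a * Tr 1 * a⁻¹, surf.G.mul_mem (surf.G.mul_mem ha (Tr_mem 1)) (surf.G.inv_mem ha),
    b * Ψ₂ * b⁻¹, surf.G.mul_mem (surf.G.mul_mem hb hΨ₂) (surf.G.inv_mem hb),
    b * Tr 1 * b⁻¹, surf.G.mul_mem (surf.G.mul_mem hb (Tr_mem 1)) (surf.G.inv_mem hb), ?_⟩
  have c1 : ⁅a * Ψ₁ * a⁻¹, a * Tr 1 * a⁻¹⁆ = a * ⁅Ψ₁, Tr 1⁆ * a⁻¹ := by
    rw [commutatorElement_def, commutatorElement_def]; group
  have c2 : ⁅b * Ψ₂ * b⁻¹, b * Tr 1 * b⁻¹⁆ = b * ⁅Ψ₂, Tr 1⁆ * b⁻¹ := by
    rw [commutatorElement_def, commutatorElement_def]; group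
  rw [c1, c2, ← e1, ← e2]
  group

end Pool.Agent.Helper186.Area
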