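import Mathlib
import Pool.Agent.Helper186.AreaSurf

/-! The fundamental group of the surface is not finitely generated. -/

open scoped Topology ContDiff NNReal
open Set Filter Complex Metric

noncomputable section

namespace Pool.Agent.Helper186.Area

set_option linter.unusedSimpArgs false

variable {X : Type*} [TopologicalSpace X]

/-- Difference with the `n`-th centre, as a map to the punctured plane. -/
def qmap (ι : X → ℂ) (hι : Continuous ι) (n : ℤ) (hn : ∀ x, ι x ≠ n * tau) :
    C(X, {z : ℂ // z ≠ 0}) where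
  toFun x := ⟨ι x - n * tau, sub_ne_zero.2 (hn x)⟩
  continuous_toFun := (hι.sub continuous_const).subtype_mk _

/-- The homomorphism to permutations of logarithms. -/
def Phi (ι : X → ℂ) (hι : Continuous ι) (n : ℤ) (hn : ∀ x, ι x ≠ n * tau) (x : X) :=
  (Complex.isCoveringMap_exp.monodromyPerm (qmap ι hι n hn x)).comp
    (FundamentalGroup.map (qmap ι hι n hn) x)

lemma Phi_apply (ι : X → ℂ) (hι : Continuous ι) (n : ℤ) (hn : ∀ x, ι x ≠ n * tau) (x : X)
    (γ : Path x x) (e) :
    Phi ι hι n hn x (Path.Homotopic.Quotient.mk γ) e =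
      Complex.isCoveringMap_exp.monodromy
        (Path.Homotopic.Quotient.mk (γ.map (qmap ι hι n hn).continuous)) e := rfl

/-- Loops far from the centre act trivially. -/
lemma Phi_far (ι : X → ℂ) (hι : Continuous ι) (n : ℤ) (hn : ∀ x, ι x ≠ n * tau) (x : X)
    (γ : Path x x) (hγ : ∀ t, ‖ι (γ t)‖ < ‖(n : ℂ) * tau‖) :
    Phi ι hι n hn x (Path.Homotopic.Quotient.mk γ) = 1 := by
  set c : ℂ := (n : ℂ) * tau with hc
  have hc0 : c ≠ 0 := by
    intro h
    have := hγ 0
    rw [h, norm_zero] at this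
    exact absurd this (not_lt.2 (norm_nonneg _))
  have hslit : ∀ t, 1 - ι (γ t) / c ∈ slitPlane := by
    intro t
    left
    have h1 : ‖ι (γ t) / c‖ < 1 := by
      rw [norm_div, div_lt_one (norm_pos_iff.2 hc0)]; exact hγ t
    have h2 := (abs_re_le_norm (ι (γ t) / c)).trans_lt h1
    rw [abs_lt] at h2
    simp only [sub_re, one_re]
    linarith [h2.2]
  set L : unitInterval → ℂ := fun t => Complex.log (1 - ι (γ t) / c) with hL
  have hLc : Continuous L := by
    have h1 : Continuous (fun t => 1 - ι (γ t) / c) := by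
      have := hι.comp γ.continuous
      exact continuous_const.sub (this.div_const _)
    exact h1.clog hslit
  have hLe : ∀ t, cexp (L t) = 1 - ι (γ t) / c := fun t =>
    Complex.exp_log (slitPlane_ne_zero (hslit t))
  ext e
  rw [Phi_apply]
  have he : cexp (e : ℂ) = ι x - c := congrArg Subtype.val e.2
  let Γ : C(unitInterval, ℂ) := ⟨fun t => (e : ℂ) + L t - L 0, by fun_prop⟩
  have h0 : ((γ.map (qmap ι hι n hn).continuous) : C(unitInterval, {z : ℂ // z ≠ 0})) 0 =
      ⟨cexp (e : ℂ), Complex.exp_ne_zero _⟩ := by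
    apply Subtype.ext
    simp only [ContinuousMap.coe_mk, Path.coe_toContinuousMap, Path.map_coe, Function.comp_apply]
    rw [he, γ.source]
    rfl
  have key : Γ = Complex.isCoveringMap_exp.liftPath
      ((γ.map (qmap ι hι n hn).continuous) : C(unitInterval, {z : ℂ // z ≠ 0})) (e : ℂ) h0 := by
    rw [Complex.isCoveringMap_exp.eq_liftPath_iff']
    constructor
    · funext t
      apply Subtype.ext
      change cexp ((e : ℂ) + L t - L 0) = ι (γ t) - c
      rw [Complex.exp_sub, Complex.exp_add, he, hLe, hLe, γ.source]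
      have h3 : 1 - ι x / c ≠ 0 := by
        have := slitPlane_ne_zero (hslit 0)
        rwa [γ.source] at this
      rw [div_eq_iff h3]
      field_simp
      ring
    · change (e : ℂ) + L 0 - L 0 = e
      ring
  have h1 : ((Complex.isCoveringMap_exp.monodromy
      (Path.Homotopic.Quotient.mk (γ.map (qmap ι hι n hn).continuous)) e) : ℂ) =
      Complex.isCoveringMap_exp.liftPath
        ((γ.map (qmap ι hι n hn).continuous) : C(unitInterval, {z : ℂ // z ≠ 0})) (e : ℂ) h0 1 := rfl
  rw [h1, ← key]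
  change (e : ℂ) + L 1 - L 0 = e
  have h2 : L 1 = L 0 := by simp only [hL]; rw [γ.source, γ.target]
  rw [h2]; ring

theorem not_fg [PathConnectedSpace X] (ι : X → ℂ) (hι : Continuous ι)
    (hn : ∀ (n : ℤ) x, ι x ≠ n * tau)
    (hc : ∀ n : ℤ, ∃ c : ℝ → X, Continuous c ∧ c 0 = c 1 ∧
      ∀ t, ι (c t) = n * tau + cexp (2 * Real.pi * t * I)) (x : X) :
    ¬ Group.FG (FundamentalGroup X x) := by
  intro hfg
  obtain ⟨T, hT, hTf⟩ := Group.fg_iff.1 hfg
  -- bound on all generators
  have hb : ∀ g : FundamentalGroup X x, ∃ M : ℝ, ∀ n : ℤ, M < ‖(n : ℂ) * tau‖ →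
      Phi ι hι n (hn n) x g = 1 := by
    intro g
    obtain ⟨γ, rfl⟩ := Path.Homotopic.Quotient.mk_surjective g
    have h1 : IsCompact (range fun t => ι (γ t)) :=
      isCompact_range (hι.comp γ.continuous)
    obtain ⟨M, hM⟩ := h1.isBounded.exists_norm_le
    exact ⟨M, fun n hnM => Phi_far ι hι n (hn n) x γ fun t => (hM _ ⟨t, rfl⟩).trans_lt hnM⟩
  choose M hM using hb
  obtain ⟨B, hB⟩ := (hTf.image M).bddAbove
  obtain ⟨n₀, hn₀⟩ := exists_nat_gt B
  set n : ℤ := (n₀ : ℤ) + 1 with hnn
  have hbig : B < ‖(n : ℂ) * tau‖ := by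
    rw [norm_mul, Complex.norm_intCast, hnn]
    push_cast
    have h0 : (0:ℝ) ≤ n₀ := Nat.cast_nonneg _
    rw [abs_of_nonneg (by linarith)]
    have := tau_norm
    nlinarith
  have hone : Phi ι hι n (hn n) x = 1 := by
    refine MonoidHom.eq_of_eqOn_dense hT fun g hg => ?_
    exact hM g n ((hB ⟨g, hg, rfl⟩).trans_lt hbig)
  -- a loop with non trivial monodromy
  obtain ⟨c, hcc, hc01, hce⟩ := hc n
  let ℓ : Path (c 0) (c 0) := ⟨⟨fun t => c t, by fun_prop⟩, by simp, by simp [hc01]⟩
  let α : Path x (c 0) := PathConnectedSpace.somePath x (c 0)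
  have h1 := fun e => DFunLike.congr_fun
    (DFunLike.congr_fun hone (Path.Homotopic.Quotient.mk (α.trans (ℓ.trans α.symm)))) e
  -- pick a logarithm
  obtain ⟨e₀, he₀⟩ : ∃ e : ℂ, cexp e = ι x - n * tau :=
    ⟨Complex.log (ι x - n * tau), Complex.exp_log (sub_ne_zero.2 (hn n x))⟩
  set q := qmap ι hι n (hn n) with hq
  let e : (fun z : ℂ ↦ (⟨_, z.exp_ne_zero⟩ : {z : ℂ // z ≠ 0})) ⁻¹' {q x} :=
    ⟨e₀, by
      rw [mem_preimage, mem_singleton_iff]
      exact Subtype.ext he₀⟩
  have h2 := h1 e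
  rw [Phi_apply] at h2
  rw [Path.map_trans, Path.map_trans, Path.Homotopic.Quotient.mk_trans,
    Path.Homotopic.Quotient.mk_trans, IsCoveringMap.monodromy_trans_apply,
    IsCoveringMap.monodromy_trans_apply] at h2
  set e' := Complex.isCoveringMap_exp.monodromy
    (Path.Homotopic.Quotient.mk (α.map q.continuous)) e with he'
  have h3 : Complex.isCoveringMap_exp.monodromy
      (Path.Homotopic.Quotient.mk (α.symm.map q.continuous)) e' = e := by
    rw [he', ← IsCoveringMap.monodromy_trans_apply, ← Path.map_symm,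
      Path.Homotopic.Quotient.mk_symm, Path.Homotopic.Quotient.trans_symm,
      IsCoveringMap.monodromy_refl]
    rfl
  have h4 : Complex.isCoveringMap_exp.monodromy
      (Path.Homotopic.Quotient.mk (ℓ.map q.continuous)) e' = e' := by
    apply (Complex.isCoveringMap_exp.monodromy_bijective
      (Path.Homotopic.Quotient.mk (α.symm.map q.continuous))).1
    rw [h3]
    exact h2
  have he'v : cexp (e' : ℂ) = ι (c 0) - n * tau := congrArg Subtype.val e'.2
  have hc0v : ι (c 0) - n * tau = 1 := by rw [hce 0]; simp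
  let Γ : C(unitInterval, ℂ) := ⟨fun t => (e' : ℂ) + 2 * Real.pi * (t : ℝ) * I, by fun_prop⟩
  have h0 : ((ℓ.map q.continuous) : C(unitInterval, {z : ℂ // z ≠ 0})) 0 =
      ⟨cexp (e' : ℂ), Complex.exp_ne_zero _⟩ := by
    apply Subtype.ext
    simp only [ContinuousMap.coe_mk, Path.coe_toContinuousMap, Path.map_coe, Function.comp_apply]
    rw [he'v, ℓ.source]
    rfl
  have key : Γ = Complex.isCoveringMap_exp.liftPath
      ((ℓ.map q.continuous) : C(unitInterval, {z : ℂ // z ≠ 0})) (e' : ℂ) h0 := by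
    rw [Complex.isCoveringMap_exp.eq_liftPath_iff']
    constructor
    · funext t
      apply Subtype.ext
      change cexp ((e' : ℂ) + 2 * Real.pi * (t : ℝ) * I) = ι (c t) - n * tau
      rw [Complex.exp_add, he'v, hc0v, hce, one_mul, add_sub_cancel_left]
    · change (e' : ℂ) + 2 * Real.pi * ((0 : unitInterval) : ℝ) * I = e'
      simp
  have h5 : ((Complex.isCoveringMap_exp.monodromy
      (Path.Homotopic.Quotient.mk (ℓ.map q.continuous)) e') : ℂ) =
      Complex.isCoveringMap_exp.liftPath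
        ((ℓ.map q.continuous) : C(unitInterval, {z : ℂ // z ≠ 0})) (e' : ℂ) h0 1 := rfl
  rw [h4, ← key] at h5
  have h6 : (e' : ℂ) = (e' : ℂ) + 2 * Real.pi * ((1 : unitInterval) : ℝ) * I := h5
  simp [Complex.I_ne_zero, Real.pi_ne_zero] at h6

end Pool.Agent.Helper186.Area
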