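import Mathlib
import Pool.Agent.Helper186.Forms

/-! Smoothness of vector fields defined by nondegenerate bilinear forms. -/

open scoped Topology ContDiff Manifold
open Set Metric Bundle

noncomputable section

namespace Pool.Agent.Helper186

set_option linter.unusedSectionVars false

variable {E : Type*} [NormedAddCommGroup E] [NormedSpace ℝ E] [FiniteDimensional ℝ E]
  {H : Type*} [TopologicalSpace H] {I : ModelWithCorners ℝ E H} [I.Boundaryless]
  {M : Type*} [TopologicalSpace M] [ChartedSpace H M] [IsManifold I ∞ M]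
  {E' : Type*} [NormedAddCommGroup E'] [NormedSpace ℝ E']
  {H' : Type*} [TopologicalSpace H'] {J : ModelWithCorners ℝ E' H'}
  {P : Type*} [TopologicalSpace P] [ChartedSpace H' P]

lemma contMDiffAt_clm_of_apply {G G' : Type*} [NormedAddCommGroup G] [NormedSpace ℝ G]
    [FiniteDimensional ℝ G] [NormedAddCommGroup G'] [NormedSpace ℝ G']
    {A : P → (G →L[ℝ] G')} {p₀ : P} {n : ℕ∞ω}
    (h : ∀ a, ContMDiffAt J 𝓘(ℝ, G') n (fun p => A p a) p₀) :
    ContMDiffAt J 𝓘(ℝ, G →L[ℝ] G') n A p₀ := by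
  let d := Module.finrank ℝ G
  have hd : d = Module.finrank ℝ (Fin d → ℝ) := (Module.finrank_fin_fun ℝ).symm
  let e₁ := ContinuousLinearEquiv.ofFinrankEq hd
  let e₂ := (e₁.arrowCongr (1 : G' ≃L[ℝ] G')).trans (ContinuousLinearEquiv.piRing (Fin d))
  have h1 : ContMDiffAt J 𝓘(ℝ, Fin d → G') n (fun p => e₂ (A p)) p₀ := by
    rw [contMDiffAt_pi_space]
    intro i
    exact h _
  have h2 : A = fun p => e₂.symm (e₂ (A p)) := by ext1 p; simp
  rw [h2]
  exact e₂.symm.contDiff.contMDiff.contMDiffAt.comp p₀ h1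

/-- sections given by constant coordinates are smooth -/
lemma contMDiffAt_symmL {f : P → M} {p₀ : P} (hf : ContMDiffAt J I ∞ f p₀) (a : E) :
    ContMDiffAt J I.tangent ∞ (fun p => (⟨f p,
      (trivializationAt E (TangentSpace I) (f p₀)).symmL ℝ (f p) a⟩ : TangentBundle I M)) p₀ := by
  rw [contMDiffAt_totalSpace]
  refine ⟨hf, ?_⟩
  have h1 : ∀ᶠ p in 𝓝 p₀, f p ∈ (trivializationAt E (TangentSpace I) (f p₀)).baseSet :=
    hf.continuousAt.preimage_mem_nhds
      ((trivializationAt E (TangentSpace I) (f p₀)).open_baseSet.mem_nhds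
        (mem_baseSet_trivializationAt E (TangentSpace I) (f p₀)))
  refine (contMDiffAt_const (c := a)).congr_of_eventuallyEq ?_
  filter_upwards [h1] with p hp
  rw [Trivialization.symmL_apply _ hp]
  simp [Trivialization.apply_mk_symm _ hp]

/-- coordinates of a section that is smooth at a point -/
lemma contMDiffAt_coord {f : P → M} {p₀ : P} {w : (p : P) → TangentSpace I (f p)}
    (hw : ContMDiffAt J I.tangent ∞ (fun p => (⟨f p, w p⟩ : TangentBundle I M)) p₀) :
    ContMDiffAt J 𝓘(ℝ, E) ∞ (fun p => (trivializationAt E (TangentSpace I) (f p₀)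
      (⟨f p, w p⟩ : TangentBundle I M)).2) p₀ :=
  (contMDiffAt_totalSpace.1 hw).2

/-- A smooth family of bilinear forms along a map, tested on smooth sections. -/
def SmoothBilinAt (J : ModelWithCorners ℝ E' H') (f : P → M)
    (B : (p : P) → TangentSpace I (f p) →L[ℝ] TangentSpace I (f p) →L[ℝ] ℝ) (p₀ : P) : Prop :=
  ∀ u v : (p : P) → TangentSpace I (f p),
    ContMDiffAt J I.tangent ∞ (fun p => (⟨f p, u p⟩ : TangentBundle I M)) p₀ →
    ContMDiffAt J I.tangent ∞ (fun p => (⟨f p, v p⟩ : TangentBundle I M)) p₀ →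
    ContMDiffAt J 𝓘(ℝ, ℝ) ∞ (fun p => B p (u p) (v p)) p₀

/-- the coordinate matrix of a family of bilinear forms -/
def coordBilin (f : P → M)
    (B : (p : P) → TangentSpace I (f p) →L[ℝ] TangentSpace I (f p) →L[ℝ] ℝ) (p₀ p : P) :
    E →L[ℝ] E →L[ℝ] ℝ :=
  ContinuousLinearMap.bilinearComp (show E →L[ℝ] E →L[ℝ] ℝ from B p)
    (show E →L[ℝ] E from (trivializationAt E (TangentSpace I) (f p₀)).symmL ℝ (f p))
    (show E →L[ℝ] E from (trivializationAt E (TangentSpace I) (f p₀)).symmL ℝ (f p))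

lemma coordBilin_apply (f : P → M)
    (B : (p : P) → TangentSpace I (f p) →L[ℝ] TangentSpace I (f p) →L[ℝ] ℝ) (p₀ p : P) (a b : E) :
    coordBilin f B p₀ p a b =
    B p ((trivializationAt E (TangentSpace I) (f p₀)).symmL ℝ (f p) a)
    ((trivializationAt E (TangentSpace I) (f p₀)).symmL ℝ (f p) b) := rfl

lemma contMDiffAt_coordBilin {f : P → M} {p₀ : P} (hf : ContMDiffAt J I ∞ f p₀)
    {B : (p : P) → TangentSpace I (f p) →L[ℝ] TangentSpace I (f p) →L[ℝ] ℝ}
    (hB : SmoothBilinAt J f B p₀) :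
    ContMDiffAt J 𝓘(ℝ, E →L[ℝ] E →L[ℝ] ℝ) ∞ (coordBilin f B p₀) p₀ := by
  apply contMDiffAt_clm_of_apply
  intro a
  apply contMDiffAt_clm_of_apply
  intro b
  exact hB _ _ (contMDiffAt_symmL hf a) (contMDiffAt_symmL hf b)

/-- A nondegenerate coordinate matrix is invertible. -/
lemma coordBilin_invertible {f : P → M} {p₀ p : P}
    (hp : f p ∈ (trivializationAt E (TangentSpace I) (f p₀)).baseSet)
    {B : (p : P) → TangentSpace I (f p) →L[ℝ] TangentSpace I (f p) →L[ℝ] ℝ}
    (hnd : ∀ u, (∀ v, B p u v = 0) → u = 0) :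
    ∃ e : E ≃L[ℝ] (E →L[ℝ] ℝ), (e : E →L[ℝ] (E →L[ℝ] ℝ)) = coordBilin f B p₀ p := by
  have hinj : Function.Injective (coordBilin f B p₀ p) := by
    rw [injective_iff_map_eq_zero]
    intro a ha
    have h1 : (trivializationAt E (TangentSpace I) (f p₀)).symmL ℝ (f p) a = 0 := by
      apply hnd
      intro v
      have h2 := DFunLike.congr_fun ha ((trivializationAt E (TangentSpace I) (f p₀)).continuousLinearMapAt ℝ (f p) v)
      rw [coordBilin_apply] at h2
      rw [(trivializationAt E (TangentSpace I) (f p₀)).symmL_continuousLinearMapAt hp] at h2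
      exact h2
    have h2 := (trivializationAt E (TangentSpace I) (f p₀)).continuousLinearMapAt_symmL
      (R := ℝ) hp a
    rw [h1, map_zero] at h2
    exact h2.symm
  have hdim : Module.finrank ℝ E = Module.finrank ℝ (E →L[ℝ] ℝ) := by
    rw [← (LinearMap.toContinuousLinearMap (𝕜 := ℝ) (E := E) (F' := ℝ)).finrank_eq]
    exact (Subspace.dual_finrank_eq (K := ℝ) (V := E)).symm
  let l : E ≃ₗ[ℝ] (E →L[ℝ] ℝ) := LinearEquiv.ofInjectiveOfFinrankEq
    (coordBilin f B p₀ p : E →ₗ[ℝ] (E →L[ℝ] ℝ)) hinj hdim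
  refine ⟨l.toContinuousLinearEquiv, ?_⟩
  ext a b
  rfl

/-- Nondegeneracy is an open condition. -/
lemma eventually_nondegenerate {f : P → M} {p₀ : P} (hf : ContMDiffAt J I ∞ f p₀)
    {B : (p : P) → TangentSpace I (f p) →L[ℝ] TangentSpace I (f p) →L[ℝ] ℝ}
    (hB : SmoothBilinAt J f B p₀) (hnd : ∀ u, (∀ v, B p₀ u v = 0) → u = 0) :
    ∀ᶠ p in 𝓝 p₀, ∀ u, (∀ v, B p u v = 0) → u = 0 := by
  have h1 : ∀ᶠ p in 𝓝 p₀, f p ∈ (trivializationAt E (TangentSpace I) (f p₀)).baseSet :=
    hf.continuousAt.preimage_mem_nhds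
      ((trivializationAt E (TangentSpace I) (f p₀)).open_baseSet.mem_nhds (mem_baseSet_trivializationAt E (TangentSpace I) (f p₀)))
  obtain ⟨e₀, he₀⟩ := coordBilin_invertible (p₀ := p₀) (p := p₀)
    (mem_baseSet_trivializationAt E (TangentSpace I) (f p₀)) hnd
  have h2 : ∀ᶠ p in 𝓝 p₀, coordBilin f B p₀ p ∈
      range ((↑) : (E ≃L[ℝ] (E →L[ℝ] ℝ)) → E →L[ℝ] (E →L[ℝ] ℝ)) := by
    have h3 := (contMDiffAt_coordBilin hf hB).continuousAt
    apply h3.preimage_mem_nhds
    rw [← he₀]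
    exact ContinuousLinearEquiv.nhds e₀
  filter_upwards [h1, h2] with p hp hp2 u hu
  obtain ⟨e₁, he₁⟩ := hp2
  have h4 : e₁ ((trivializationAt E (TangentSpace I) (f p₀)).continuousLinearMapAt ℝ (f p) u) = 0 := by
    ext b
    have : (e₁ : E →L[ℝ] (E →L[ℝ] ℝ)) ((trivializationAt E (TangentSpace I) (f p₀)).continuousLinearMapAt ℝ (f p) u) b =
        coordBilin f B p₀ p ((trivializationAt E (TangentSpace I) (f p₀)).continuousLinearMapAt ℝ (f p) u) b := by rw [he₁]
    rw [coordBilin_apply, (trivializationAt E (TangentSpace I) (f p₀)).symmL_continuousLinearMapAt hp] at this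
    exact this.trans (hu _)
  have h5 : (trivializationAt E (TangentSpace I) (f p₀)).continuousLinearMapAt ℝ (f p) u = 0 := by
    simpa using h4
  have h6 := (trivializationAt E (TangentSpace I) (f p₀)).symmL_continuousLinearMapAt (R := ℝ) hp u
  rw [h5, map_zero] at h6
  exact h6.symm

/-- **Sharp lemma**: a vector field along a map whose contraction with a smooth nondegenerate
family of bilinear forms is smooth, is itself smooth. -/
theorem contMDiffAt_of_pairing {f : P → M} {p₀ : P} (hf : ContMDiffAt J I ∞ f p₀)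
    {B : (p : P) → TangentSpace I (f p) →L[ℝ] TangentSpace I (f p) →L[ℝ] ℝ}
    (hB : SmoothBilinAt J f B p₀) (hnd : ∀ u, (∀ v, B p₀ u v = 0) → u = 0)
    {w : (p : P) → TangentSpace I (f p)}
    (hw : ∀ v : (p : P) → TangentSpace I (f p),
      ContMDiffAt J I.tangent ∞ (fun p => (⟨f p, v p⟩ : TangentBundle I M)) p₀ →
      ContMDiffAt J 𝓘(ℝ, ℝ) ∞ (fun p => B p (w p) (v p)) p₀) :
    ContMDiffAt J I.tangent ∞ (fun p => (⟨f p, w p⟩ : TangentBundle I M)) p₀ := by
  rw [contMDiffAt_totalSpace]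
  refine ⟨hf, ?_⟩
  have h1 : ∀ᶠ p in 𝓝 p₀, f p ∈ (trivializationAt E (TangentSpace I) (f p₀)).baseSet :=
    hf.continuousAt.preimage_mem_nhds
      ((trivializationAt E (TangentSpace I) (f p₀)).open_baseSet.mem_nhds (mem_baseSet_trivializationAt E (TangentSpace I) (f p₀)))
  obtain ⟨e₀, he₀⟩ := coordBilin_invertible (p₀ := p₀) (p := p₀)
    (mem_baseSet_trivializationAt E (TangentSpace I) (f p₀)) hnd
  have hA := contMDiffAt_coordBilin hf hB
  -- the right hand side in coordinates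
  let β : P → E →L[ℝ] ℝ := fun p => (B p (w p)).comp ((trivializationAt E (TangentSpace I) (f p₀)).symmL ℝ (f p))
  have hβ : ContMDiffAt J 𝓘(ℝ, E →L[ℝ] ℝ) ∞ β p₀ := by
    apply contMDiffAt_clm_of_apply
    intro b
    exact hw _ (contMDiffAt_symmL hf b)
  have hinv : ContMDiffAt J 𝓘(ℝ, (E →L[ℝ] ℝ) →L[ℝ] E) ∞
      (fun p => ContinuousLinearMap.inverse (coordBilin f B p₀ p)) p₀ := by
    have h2 : ContDiffAt ℝ ∞ (ContinuousLinearMap.inverse :
        (E →L[ℝ] (E →L[ℝ] ℝ)) → ((E →L[ℝ] ℝ) →L[ℝ] E)) (coordBilin f B p₀ p₀) := by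
      rw [← he₀]
      exact contDiffAt_map_inverse e₀
    exact h2.contMDiffAt.comp p₀ hA
  have h2 : ∀ᶠ p in 𝓝 p₀, coordBilin f B p₀ p ∈
      range ((↑) : (E ≃L[ℝ] (E →L[ℝ] ℝ)) → E →L[ℝ] (E →L[ℝ] ℝ)) := by
    apply hA.continuousAt.preimage_mem_nhds
    rw [← he₀]
    exact ContinuousLinearEquiv.nhds e₀
  have h3 : (fun p => ((trivializationAt E (TangentSpace I) (f p₀)) (⟨f p, w p⟩ : TangentBundle I M)).2) =ᶠ[𝓝 p₀]
      fun p => ContinuousLinearMap.inverse (coordBilin f B p₀ p) (β p) := by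
    filter_upwards [h1, h2] with p hp hp2
    obtain ⟨e₁, he₁⟩ := hp2
    have h4 : e₁ ((trivializationAt E (TangentSpace I) (f p₀)).continuousLinearMapAt ℝ (f p) (w p)) = β p := by
      ext b
      have : (e₁ : E →L[ℝ] (E →L[ℝ] ℝ)) ((trivializationAt E (TangentSpace I) (f p₀)).continuousLinearMapAt ℝ (f p) (w p)) b =
          coordBilin f B p₀ p ((trivializationAt E (TangentSpace I) (f p₀)).continuousLinearMapAt ℝ (f p) (w p)) b := by rw [he₁]
      rw [coordBilin_apply, (trivializationAt E (TangentSpace I) (f p₀)).symmL_continuousLinearMapAt hp] at this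
      exact this
    rw [← he₁, ContinuousLinearMap.inverse_equiv, ← h4]
    simp [Trivialization.continuousLinearMapAt_apply,
      Trivialization.coe_linearMapAt_of_mem (R := ℝ) _ hp]
  exact (hinv.clm_apply hβ).congr_of_eventuallyEq h3

end Pool.Agent.Helper186
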