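import Mathlib
import Pool.Agent.Helper186.Sharp

/-! The cotangent bundle as a smooth manifold. -/

open scoped Topology ContDiff Manifold
open Set Metric Bundle

noncomputable section

namespace Pool.Agent.Helper186

set_option linter.unusedSectionVars false

variable {F : Type*} [NormedAddCommGroup F] [NormedSpace ℝ F] [FiniteDimensional ℝ F]
  {L : Type*} [TopologicalSpace L] [ChartedSpace F L] [IsManifold 𝓘(ℝ, F) ∞ L]
  {E' : Type*} [NormedAddCommGroup E'] [NormedSpace ℝ E']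
  {H' : Type*} [TopologicalSpace H'] {J : ModelWithCorners ℝ E' H'}
  {P : Type*} [TopologicalSpace P] [ChartedSpace H' P]

variable (F L) in
/-- The cotangent bundle of the manifold `L` modelled on `F`. -/
abbrev Cotangent : Type _ :=
  TotalSpace (F →L[ℝ] ℝ) (fun q : L => TangentSpace 𝓘(ℝ, F) q →L[ℝ] ℝ)

variable (F) in
/-- The model of the cotangent bundle. -/
abbrev IC : ModelWithCorners ℝ (F × (F →L[ℝ] ℝ)) (ModelProd F (F →L[ℝ] ℝ)) :=
  𝓘(ℝ, F).prod 𝓘(ℝ, F →L[ℝ] ℝ)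

/-- Pairing a smooth map to the cotangent bundle with a smooth vector field. -/
lemma contMDiffAt_cot_pairing {f : P → Cotangent F L} {p₀ : P} (hf : ContMDiffAt J (IC F) ∞ f p₀)
    {v : (p : P) → TangentSpace 𝓘(ℝ, F) (f p).1}
    (hv : ContMDiffAt J 𝓘(ℝ, F).tangent ∞
      (fun p => (⟨(f p).1, v p⟩ : TangentBundle 𝓘(ℝ, F) L)) p₀) :
    ContMDiffAt J 𝓘(ℝ, ℝ) ∞ (fun p => (f p).2 (v p)) p₀ := by
  have h1 := ContMDiffAt.clm_bundle_apply (𝕜 := ℝ) (B := L) (F₁ := F) (F₂ := ℝ)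
    (E₁ := fun q : L => TangentSpace 𝓘(ℝ, F) q) (E₂ := Bundle.Trivial L ℝ)
    (IB := 𝓘(ℝ, F)) (IM := J) (b := fun p => (f p).1) (v := v)
    (ϕ := fun p => (f p).2) (n := ∞) (x := p₀) hf hv
  exact (contMDiffAt_totalSpace.1 h1).2

lemma cot_triv_apply (q₀ q : L) (θ : TangentSpace 𝓘(ℝ, F) q →L[ℝ] ℝ) (a : F) :
    (trivializationAt (F →L[ℝ] ℝ) (fun x : L => TangentSpace 𝓘(ℝ, F) x →L[ℝ] ℝ) q₀
      (⟨q, θ⟩ : Cotangent F L)).2 a =
      θ ((trivializationAt F (TangentSpace 𝓘(ℝ, F)) q₀).symmL ℝ q a) := by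
  have e1 : (trivializationAt (F →L[ℝ] ℝ) (fun x : L => TangentSpace 𝓘(ℝ, F) x →L[ℝ] ℝ) q₀
      (⟨q, θ⟩ : Cotangent F L)).2 a =
      (Bundle.Trivial.trivialization L ℝ).continuousLinearMapAt ℝ q
        (θ ((trivializationAt F (TangentSpace 𝓘(ℝ, F)) q₀).symmL ℝ q a)) := rfl
  rw [e1, Bundle.Trivial.continuousLinearMapAt_trivialization]
  rfl

/-- A map to the cotangent bundle is smooth if its pairings with smooth fields are smooth. -/
lemma contMDiffAt_cot_of_pairing {b : P → L} {θ : (p : P) → TangentSpace 𝓘(ℝ, F) (b p) →L[ℝ] ℝ}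
    {p₀ : P} (hb : ContMDiffAt J 𝓘(ℝ, F) ∞ b p₀)
    (h : ∀ v : (p : P) → TangentSpace 𝓘(ℝ, F) (b p),
      ContMDiffAt J 𝓘(ℝ, F).tangent ∞ (fun p => (⟨b p, v p⟩ : TangentBundle 𝓘(ℝ, F) L)) p₀ →
      ContMDiffAt J 𝓘(ℝ, ℝ) ∞ (fun p => θ p (v p)) p₀) :
    ContMDiffAt J (IC F) ∞ (fun p => (⟨b p, θ p⟩ : Cotangent F L)) p₀ := by
  rw [contMDiffAt_totalSpace]
  refine ⟨hb, ?_⟩
  apply contMDiffAt_clm_of_apply
  intro a
  have h1 := h _ (contMDiffAt_symmL hb a)
  refine h1.congr_of_eventuallyEq ?_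
  exact Filter.Eventually.of_forall fun p => cot_triv_apply _ _ _ _

instance instBoundarylessIC : (IC F).Boundaryless := inferInstance

/-- Fibrewise scaling. -/
def scal (s : ℝ) (ξ : Cotangent F L) : Cotangent F L := ⟨ξ.1, s • ξ.2⟩

/-- The zero section. -/
def zeroC (q : L) : Cotangent F L := ⟨q, 0⟩

/-- The canonical one-form. -/
def canForm (ξ : Cotangent F L) : TangentSpace (IC F) ξ →L[ℝ] ℝ :=
  ξ.2.comp (mfderiv (IC F) 𝓘(ℝ, F) (TotalSpace.proj : Cotangent F L → L) ξ)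

lemma contMDiff_projC : ContMDiff (IC F) 𝓘(ℝ, F) ∞ (TotalSpace.proj : Cotangent F L → L) :=
  contMDiff_proj _

lemma contMDiff_scal : ContMDiff (𝓘(ℝ, ℝ).prod (IC F)) (IC F) ∞
    (fun p : ℝ × Cotangent F L => scal p.1 p.2) := by
  intro p₀
  refine contMDiffAt_cot_of_pairing (b := fun p : ℝ × Cotangent F L => p.2.1)
    (θ := fun p => p.1 • p.2.2) ?_ ?_
  · exact (contMDiff_projC _).comp p₀ contMDiffAt_snd
  · intro v hv
    have h1 := contMDiffAt_cot_pairing (f := fun p : ℝ × Cotangent F L => p.2) (v := v)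
      (p₀ := p₀) contMDiffAt_snd hv
    exact contMDiffAt_fst.mul h1

lemma contMDiff_zeroC : ContMDiff 𝓘(ℝ, F) (IC F) ∞ (zeroC : L → Cotangent F L) := by
  intro q
  refine contMDiffAt_cot_of_pairing (b := fun q : L => q) (θ := fun _ => 0) contMDiffAt_id ?_
  intro v hv
  exact contMDiffAt_const

lemma smoothForm_canForm : SmoothForm (canForm : (ξ : Cotangent F L) → _) := by
  intro V
  have h1 : ContMDiff (IC F).tangent 𝓘(ℝ, F).tangent ∞
      (tangentMap (IC F) 𝓘(ℝ, F) (TotalSpace.proj : Cotangent F L → L)) :=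
    contMDiff_projC.contMDiff_tangentMap (by simp)
  exact contMDiffAt_cot_pairing (J := (IC F).tangent)
    (f := fun V : TangentBundle (IC F) (Cotangent F L) => V.1)
    (v := fun V => mfderiv (IC F) 𝓘(ℝ, F) (TotalSpace.proj : Cotangent F L → L) V.1 V.2)
    (contMDiff_proj _ _) (h1 V)

/-- The scaling flow. -/
lemma scal_scal (s t : ℝ) (ξ : Cotangent F L) : scal s (scal t ξ) = scal (s * t) ξ :=
  congrArg (TotalSpace.mk ξ.1) (smul_smul s t ξ.2)

lemma scal_one (ξ : Cotangent F L) : scal 1 ξ = ξ := by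
  simp only [scal, one_smul]

lemma scal_zero (ξ : Cotangent F L) : scal 0 ξ = zeroC ξ.1 := by
  simp only [scal, zero_smul, zeroC]

lemma scal_zeroC (s : ℝ) (q : L) : scal s (zeroC q : Cotangent F L) = zeroC q :=
  congrArg (TotalSpace.mk q) (smul_zero s)

lemma contMDiff_scal_slice (s : ℝ) : ContMDiff (IC F) (IC F) ∞
    (scal s : Cotangent F L → Cotangent F L) :=
  contMDiff_scal.comp (contMDiff_const.prodMk contMDiff_id)

lemma canForm_scal (s : ℝ) (ξ : Cotangent F L) (u : TangentSpace (IC F) ξ) :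
    canForm (scal s ξ) (mfderiv (IC F) (IC F) (scal s) ξ u) = s * canForm ξ u := by
  have h1 := DFunLike.congr_fun (mfderiv_comp (I := IC F) (I' := IC F) (I'' := 𝓘(ℝ, F)) ξ
    (contMDiff_projC.mdifferentiableAt (by simp) (x := scal s ξ))
    ((contMDiff_scal_slice s).mdifferentiableAt (by simp) (x := ξ))) u
  have h2 : ((TotalSpace.proj : Cotangent F L → L) ∘ scal s) = TotalSpace.proj := rfl
  rw [h2] at h1
  have h3 : canForm (scal s ξ) (mfderiv (IC F) (IC F) (scal s) ξ u) =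
    (s • ξ.2) (mfderiv (IC F) 𝓘(ℝ, F) (TotalSpace.proj : Cotangent F L → L) ξ u) := by
    exact congrArg (s • ξ.2) h1.symm
  rw [h3]
  rfl

section topology

instance instT2Cotangent [T2Space L] : T2Space (Cotangent F L) := by
  refine ⟨fun ξ η hne => ?_⟩
  by_cases h : ξ.1 = η.1
  · let e := trivializationAt (F →L[ℝ] ℝ) (fun x : L => TangentSpace 𝓘(ℝ, F) x →L[ℝ] ℝ) ξ.1
    have h1 : ξ ∈ e.source := by
      rw [e.mem_source]; exact mem_baseSet_trivializationAt _ _ ξ.1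
    have h2 : η ∈ e.source := by
      rw [e.mem_source, ← h]; exact mem_baseSet_trivializationAt _ _ ξ.1
    have h3 : e ξ ≠ e η := fun h => hne (e.toOpenPartialHomeomorph.injOn h1 h2 h)
    obtain ⟨u, v, hu, hv, hξ, hη, huv⟩ := t2_separation h3
    refine ⟨e.source ∩ e ⁻¹' u, e.source ∩ e ⁻¹' v,
      e.continuousOn.isOpen_inter_preimage e.open_source hu,
      e.continuousOn.isOpen_inter_preimage e.open_source hv, ⟨h1, hξ⟩, ⟨h2, hη⟩, ?_⟩
    rw [Set.disjoint_left]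
    rintro x ⟨_, hx1⟩ ⟨_, hx2⟩
    exact Set.disjoint_left.1 huv hx1 hx2
  · obtain ⟨u, v, hu, hv, hξ, hη, huv⟩ := t2_separation h
    have hc : Continuous (TotalSpace.proj : Cotangent F L → L) := contMDiff_projC.continuous
    exact ⟨_, _, hu.preimage hc, hv.preimage hc, hξ, hη, huv.preimage _⟩

instance instLocallyCompactCotangent : LocallyCompactSpace (Cotangent F L) :=
  have : LocallyCompactSpace (ModelProd F (F →L[ℝ] ℝ)) := (IC F).locallyCompactSpace
  ChartedSpace.locallyCompactSpace (ModelProd F (F →L[ℝ] ℝ)) _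

lemma continuous_scal : Continuous (fun p : ℝ × Cotangent F L => scal p.1 p.2) :=
  contMDiff_scal.continuous

lemma isCompact_range_zeroC [CompactSpace L] :
    IsCompact (range (zeroC : L → Cotangent F L)) :=
  isCompact_range contMDiff_zeroC.continuous

/-- Star-shaped compact neighbourhoods of the zero section. -/
lemma exists_starshaped [CompactSpace L] {U : Set (Cotangent F L)} (hU : IsOpen U)
    (h0 : ∀ q, zeroC q ∈ U) :
    ∃ Q : Set (Cotangent F L), IsCompact Q ∧ Q ⊆ U ∧ (∀ q, zeroC q ∈ interior Q) ∧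
      ∀ s ∈ Icc (0:ℝ) 1, MapsTo (scal s) Q Q := by
  have hV : IsOpen {p : ℝ × Cotangent F L | scal p.1 p.2 ∈ U} := hU.preimage continuous_scal
  obtain ⟨u, v, hu, hv, h1, h2, h3⟩ := generalized_tube_lemma
    (isCompact_Icc (a := (0:ℝ)) (b := 1)) (isCompact_range_zeroC (F := F) (L := L)) hV (by
      rintro ⟨s, _⟩ ⟨_, q, rfl⟩
      show scal s (zeroC q) ∈ U
      rw [scal_zeroC]
      exact h0 q)
  obtain ⟨Q', hQ', h4, h5⟩ := exists_compact_between isCompact_range_zeroC hv h2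
  refine ⟨(fun p : ℝ × Cotangent F L => scal p.1 p.2) '' (Icc (0:ℝ) 1 ×ˢ Q'),
    (isCompact_Icc.prod hQ').image continuous_scal, ?_, ?_, ?_⟩
  · rintro _ ⟨p, hp, rfl⟩
    exact h3 ⟨h1 hp.1, h5 hp.2⟩
  · intro q
    refine interior_mono ?_ (h4 ⟨q, rfl⟩)
    intro ξ hξ
    exact ⟨(1, ξ), ⟨⟨zero_le_one, le_rfl⟩, hξ⟩, scal_one ξ⟩
  · rintro s hs _ ⟨⟨t, ξ⟩, ⟨ht, hξ⟩, rfl⟩
    refine ⟨(s * t, ξ), ⟨⟨mul_nonneg hs.1 ht.1, mul_le_one₀ hs.2 ht.1 ht.2⟩, hξ⟩, ?_⟩
    exact (scal_scal s t ξ).symm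

/-- Contraction of compact sets to the zero section. -/
lemma exists_contract {Q C : Set (Cotangent F L)}
    (h0 : ∀ q, zeroC q ∈ interior Q) (hC : IsCompact C) :
    ∃ s₀ : ℝ, 0 ≤ s₀ ∧ ∀ r ≥ s₀, ∀ ξ ∈ C, scal (Real.exp (-r)) ξ ∈ interior Q := by
  have hV : IsOpen {p : ℝ × Cotangent F L | scal p.1 p.2 ∈ interior Q} :=
    isOpen_interior.preimage continuous_scal
  obtain ⟨u, v, hu, hv, h1, h2, h3⟩ := generalized_tube_lemma
    (isCompact_singleton (x := (0:ℝ))) hC hV (by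
      rintro ⟨s, ξ⟩ ⟨hs, hξ⟩
      show scal s ξ ∈ interior Q
      have hs' : s = 0 := hs
      rw [hs', scal_zero]
      exact h0 _)
  have h4 : ∀ᶠ r : ℝ in Filter.atTop, Real.exp (-r) ∈ u :=
    Real.tendsto_exp_neg_atTop_nhds_zero.eventually (hu.mem_nhds (h1 rfl))
  obtain ⟨a, ha⟩ := Filter.eventually_atTop.1 h4
  refine ⟨max a 0, le_max_right _ _, fun r hr ξ hξ => ?_⟩
  exact h3 (⟨ha r ((le_max_left _ _).trans hr), h2 hξ⟩ : (Real.exp (-r), ξ) ∈ u ×ˢ v)

instance instSigmaCompactCotangent [CompactSpace L] : SigmaCompactSpace (Cotangent F L) := by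
  obtain ⟨Q, hQ, -, hQ0, -⟩ := exists_starshaped (F := F) (L := L) isOpen_univ
    (fun q => mem_univ _)
  refine ⟨⟨fun n : ℕ => scal (Real.exp n) '' Q,
    fun n => hQ.image (contMDiff_scal_slice _).continuous, ?_⟩⟩
  rw [eq_univ_iff_forall]
  intro ξ
  obtain ⟨s₀, -, hs₀⟩ := exists_contract hQ0 (isCompact_singleton (x := ξ))
  obtain ⟨n, hn⟩ := exists_nat_ge s₀
  refine mem_iUnion.2 ⟨n, scal (Real.exp (-n)) ξ, interior_subset (hs₀ n hn ξ rfl), ?_⟩
  rw [scal_scal, ← Real.exp_add, add_neg_cancel, Real.exp_zero, scal_one]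

end topology

end Pool.Agent.Helper186
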