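import Mathlib
import Pool.Agent.Helper186.Sharp

/-! The exterior derivative as a smooth family of bilinear forms. -/

open scoped Topology ContDiff Manifold
open Set Metric Bundle

noncomputable section

namespace Pool.Agent.Helper186

set_option linter.unusedSectionVars false

variable {E : Type*} [NormedAddCommGroup E] [NormedSpace ℝ E] [FiniteDimensional ℝ E]
  {H : Type*} [TopologicalSpace H] {I : ModelWithCorners ℝ E H} [I.Boundaryless]
  {M : Type*} [TopologicalSpace M] [ChartedSpace H M] [IsManifold I ∞ M]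
  {E' : Type*} [NormedAddCommGroup E'] [NormedSpace ℝ E']
  {H' : Type*} [TopologicalSpace H'] {J : ModelWithCorners ℝ E' H'}
  {P : Type*} [TopologicalSpace P] [ChartedSpace H' P]

variable (I) in
/-- The exterior derivative as a bilinear form on the tangent space. -/
def extDerL (α : (x : M) → TangentSpace I x →L[ℝ] ℝ) (x : M) :
    TangentSpace I x →L[ℝ] TangentSpace I x →L[ℝ] ℝ :=
  (fderiv ℝ (chartForm I α x) (extChartAt I x x) -
    (fderiv ℝ (chartForm I α x) (extChartAt I x x)).flip : E →L[ℝ] E →L[ℝ] ℝ)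

lemma extDerL_apply (α : (x : M) → TangentSpace I x →L[ℝ] ℝ) (x : M) (u v : TangentSpace I x) :
    extDerL I α x u v = extDer I α x u v := rfl

/-- Expression of the exterior derivative in an arbitrary chart. -/
lemma extDer_eq_chart {α : (x : M) → TangentSpace I x →L[ℝ] ℝ} (hα : SmoothForm α) (x₀ : M)
    {x : M} (hx : x ∈ (chartAt H x₀).source) (a b : TangentSpace I x) :
    extDer I α x a b = fderiv ℝ (chartForm I α x₀) (extChartAt I x₀ x)
        ((trivializationAt E (TangentSpace I) x₀).continuousLinearMapAt ℝ x a)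
        ((trivializationAt E (TangentSpace I) x₀).continuousLinearMapAt ℝ x b) -
      fderiv ℝ (chartForm I α x₀) (extChartAt I x₀ x)
        ((trivializationAt E (TangentSpace I) x₀).continuousLinearMapAt ℝ x b)
        ((trivializationAt E (TangentSpace I) x₀).continuousLinearMapAt ℝ x a) := by
  set φ := extChartAt I x₀ with hφ
  have hx' : x ∈ φ.source := by rwa [hφ, extChartAt_source]
  obtain ⟨y, hy, hyx⟩ : ∃ y ∈ φ.target, φ.symm y = x := ⟨φ x, φ.map_source hx', φ.left_inv hx'⟩
  subst hyx
  have hcoord : ∀ a : TangentSpace I (φ.symm y), mfderiv 𝓘(ℝ, E) I φ.symm y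
      ((trivializationAt E (TangentSpace I) x₀).continuousLinearMapAt ℝ (φ.symm y) a) = a := by
    intro a
    have h1 := TangentBundle.symmL_trivializationAt (I := I) hx
    have h2 : (trivializationAt E (TangentSpace I) x₀).symmL ℝ (φ.symm y)
      ((trivializationAt E (TangentSpace I) x₀).continuousLinearMapAt ℝ (φ.symm y) a) = a :=
      (trivializationAt E (TangentSpace I) x₀).symmL_continuousLinearMapAt (R := ℝ) hx a
    rw [h1, I.range_eq_univ, mfderivWithin_univ] at h2
    rw [← hφ, φ.right_inv hy] at h2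
    exact h2
  have h3 := extDer_pullback hα (isOpen_extChartAt_target x₀) (contMDiffOn_extChartAt_symm x₀) hy
    ((trivializationAt E (TangentSpace I) x₀).continuousLinearMapAt ℝ (φ.symm y) a)
    ((trivializationAt E (TangentSpace I) x₀).continuousLinearMapAt ℝ (φ.symm y) b)
  rw [← hφ, hcoord a, hcoord b] at h3
  rw [h3, φ.right_inv hy]
  have hd : DifferentiableAt ℝ (chartForm I α x₀) y :=
    ((contDiffOn_chartForm hα x₀).contDiffAt
      ((isOpen_extChartAt_target x₀).mem_nhds hy)).differentiableAt (by simp)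
  have h4 : ∀ c d : E, fderiv ℝ (fun q => α (φ.symm q) (mfderiv 𝓘(ℝ, E) I φ.symm q d)) y c =
      fderiv ℝ (chartForm I α x₀) y c d := by
    intro c d
    have h5 : HasFDerivAt (fun q => chartForm I α x₀ q d)
        ((ContinuousLinearMap.apply ℝ ℝ d).comp (fderiv ℝ (chartForm I α x₀) y)) y :=
      (ContinuousLinearMap.apply ℝ ℝ d).hasFDerivAt.comp y hd.hasFDerivAt
    have h6 := h5.fderiv
    change fderiv ℝ (fun q => chartForm I α x₀ q d) y c = _
    rw [h6]
    rfl
  rw [h4, h4]

/-- The exterior derivative of a smooth form is smooth. -/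
lemma smoothBilinAt_extDer {α : (x : M) → TangentSpace I x →L[ℝ] ℝ} (hα : SmoothForm α)
    {f : P → M} {p₀ : P} (hf : ContMDiffAt J I ∞ f p₀) :
    SmoothBilinAt J f (fun p => extDerL I α (f p)) p₀ := by
  intro u v hu hv
  have hu' := contMDiffAt_coord hu
  have hv' := contMDiffAt_coord hv
  have h1 : ∀ᶠ p in 𝓝 p₀, f p ∈ (chartAt H (f p₀)).source :=
    hf.continuousAt.preimage_mem_nhds (chart_source_mem_nhds H (f p₀))
  have hD : ContMDiffAt J 𝓘(ℝ, E →L[ℝ] E →L[ℝ] ℝ) ∞
      (fun p => fderiv ℝ (chartForm I α (f p₀)) (extChartAt I (f p₀) (f p))) p₀ := by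
    have h2 : ContDiffAt ℝ ∞ (fderiv ℝ (chartForm I α (f p₀))) (extChartAt I (f p₀) (f p₀)) :=
      ((contDiffOn_chartForm hα (f p₀)).contDiffAt
        (extChartAt_target_mem_nhds (f p₀))).fderiv_right (by simp)
    exact h2.contMDiffAt.comp p₀ ((contMDiffAt_extChartAt (x := f p₀)).comp p₀ hf)
  have h3 := ((hD.clm_apply hu').clm_apply hv').sub ((hD.clm_apply hv').clm_apply hu')
  refine h3.congr_of_eventuallyEq ?_
  filter_upwards [h1] with p hp
  rw [extDerL_apply, extDer_eq_chart hα (f p₀) hp]
  simp only [Trivialization.continuousLinearMapAt_apply]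
  rw [Trivialization.coe_linearMapAt_of_mem (R := ℝ) _ (by simpa using hp)]

end Pool.Agent.Helper186
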