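import Mathlib
import Pool.Agent.Helper186.Nemytskii

/-! Smooth dependence of solutions of ordinary differential equations on initial conditions
(local version, in a finite dimensional normed space). -/

open scoped Topology ContDiff
open Set Metric

noncomputable section

namespace Pool.Agent.Helper186

universe u

section

variable {E : Type u} [NormedAddCommGroup E] [NormedSpace ℝ E]

abbrev K01 := Icc (0 : ℝ) 1

/-- The primitive operator on continuous maps `[0,1] → E`. -/
def primOp [CompleteSpace E] (γ : C(K01, E)) : C(K01, E) :=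
  ⟨fun τ => ∫ s in (0:ℝ)..τ, IccExtend (zero_le_one' ℝ) γ s, by
    have hc : Continuous (IccExtend (zero_le_one' ℝ) γ) := γ.continuous.Icc_extend'
    have := intervalIntegral.continuous_primitive (μ := MeasureTheory.volume)
      (fun a b => hc.intervalIntegrable a b) 0
    exact this.comp continuous_subtype_val⟩

lemma isBoundedLinearMap_primOp [CompleteSpace E] :
    IsBoundedLinearMap ℝ (primOp (E := E)) := by
  have hc : ∀ γ : C(K01, E), Continuous (IccExtend (zero_le_one' ℝ) γ) :=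
    fun γ => γ.continuous.Icc_extend'
  refine ⟨⟨fun γ δ => ?_, fun c γ => ?_⟩, 1, one_pos, fun γ => ?_⟩
  · ext τ
    simp only [primOp, ContinuousMap.coe_mk, ContinuousMap.coe_add, Pi.add_apply]
    rw [← intervalIntegral.integral_add ((hc γ).intervalIntegrable _ _)
      ((hc δ).intervalIntegrable _ _)]
    rfl
  · ext τ
    simp only [primOp, ContinuousMap.coe_mk, ContinuousMap.coe_smul, Pi.smul_apply]
    rw [← intervalIntegral.integral_smul]
    rfl
  · rw [ContinuousMap.norm_le _ (by positivity)]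
    intro τ
    simp only [primOp, ContinuousMap.coe_mk]
    have h1 : ∀ s ∈ Set.uIoc (0:ℝ) τ, ‖IccExtend (zero_le_one' ℝ) γ s‖ ≤ ‖γ‖ := by
      intro s _
      exact γ.norm_coe_le_norm _
    have := intervalIntegral.norm_integral_le_of_norm_le_const h1
    refine this.trans ?_
    rw [one_mul]
    have hτ0 : (0:ℝ) ≤ τ := τ.2.1
    have hτ1 : (τ:ℝ) ≤ 1 := τ.2.2
    have : |(τ:ℝ) - 0| ≤ 1 := by rw [sub_zero, abs_of_nonneg hτ0]; exact hτ1
    nlinarith [norm_nonneg γ]

lemma isBoundedLinearMap_constMap :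
    IsBoundedLinearMap ℝ (fun x : E => (ContinuousMap.const K01 x)) := by
  refine ⟨⟨fun γ δ => ?_, fun c γ => ?_⟩, 1, one_pos, fun γ => ?_⟩
  · ext; simp
  · ext; simp
  · rw [ContinuousMap.norm_le _ (by positivity)]
    intro τ; simp

lemma isBoundedLinearMap_evalMap (τ : K01) :
    IsBoundedLinearMap ℝ (fun γ : C(K01, E) => γ τ) := by
  refine ⟨⟨fun γ δ => ?_, fun c γ => ?_⟩, 1, one_pos, fun γ => ?_⟩
  · simp
  · simp
  · rw [one_mul]; exact γ.norm_coe_le_norm _

/-- The implicit equation for the flow. -/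
def flowEq [CompleteSpace E] (f : C(E, E)) (p : (E × ℝ) × C(K01, E)) : C(K01, E) :=
  p.2 - ContinuousMap.const K01 p.1.1 - p.1.2 • primOp (f.comp p.2)

lemma contDiff_flowEq [CompleteSpace E] (f : C(E, E)) {n : ℕ} (hf : ContDiff ℝ n f) :
    ContDiff ℝ n (flowEq f) := by
  have h0 : ContDiff ℝ n (fun x : E => (ContinuousMap.const K01 x)) :=
    isBoundedLinearMap_constMap.contDiff
  have h0' : ContDiff ℝ n (primOp (E := E)) := isBoundedLinearMap_primOp.contDiff
  have h1 : ContDiff ℝ n (fun p : (E × ℝ) × C(K01, E) => ContinuousMap.const K01 p.1.1) :=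
    h0.comp (contDiff_fst.comp contDiff_fst)
  have h2 : ContDiff ℝ n (fun p : (E × ℝ) × C(K01, E) => f.comp p.2) :=
    (contDiff_comp_nat n f hf).comp contDiff_snd
  have h3 : ContDiff ℝ n (fun p : (E × ℝ) × C(K01, E) => primOp (f.comp p.2)) :=
    h0'.comp h2
  have h4 : ContDiff ℝ n (fun p : (E × ℝ) × C(K01, E) => p.1.2) :=
    contDiff_snd.comp contDiff_fst
  exact (contDiff_snd.sub h1).sub (h4.smul h3)

lemma fderiv_flowEq_inr [CompleteSpace E] (f : C(E, E)) {n : ℕ} (hn : n ≠ 0)
    (hf : ContDiff ℝ n f) (x₀ : E) (γ : C(K01, E)) :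
    (fderiv ℝ (flowEq f) ((x₀, 0), γ)).comp (ContinuousLinearMap.inr ℝ (E × ℝ) C(K01, E))
      = ContinuousLinearMap.id ℝ _ := by
  have hd : DifferentiableAt ℝ (flowEq f) ((x₀, 0), γ) :=
    (contDiff_flowEq f hf).differentiable (by simpa using hn) _
  have h1 : HasFDerivAt (fun δ : C(K01, E) => flowEq f ((x₀, 0), δ))
      ((fderiv ℝ (flowEq f) ((x₀, 0), γ)).comp (ContinuousLinearMap.inr ℝ (E × ℝ) C(K01, E))) γ :=
    HasFDerivAt.comp γ hd.hasFDerivAt (hasFDerivAt_prodMk_right _ _)
  have h2 : HasFDerivAt (fun δ : C(K01, E) => flowEq f ((x₀, 0), δ))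
      (ContinuousLinearMap.id ℝ _) γ := by
    have : (fun δ : C(K01, E) => flowEq f ((x₀, 0), δ)) =
        fun δ => δ - ContinuousMap.const K01 x₀ := by
      ext δ τ; simp [flowEq]
    rw [this]
    exact (hasFDerivAt_id γ).sub_const _
  exact h1.unique h2

/-- A continuous local flow of a `C^n` vector field is `C^n` at time zero. -/
theorem contDiffAt_of_isFlow [CompleteSpace E] (f : C(E, E)) {n : ℕ} (hn : n ≠ 0)
    (hf : ContDiff ℝ n f) (x₀ : E) (α : E × ℝ → E) {r ε : ℝ} (hr : 0 < r) (hε : 0 < ε)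
    (hcont : ContinuousOn α (closedBall x₀ r ×ˢ Icc (-ε) ε))
    (h0 : ∀ x ∈ closedBall x₀ r, α (x, 0) = x)
    (hd : ∀ x ∈ closedBall x₀ r, ∀ t ∈ Ioo (-ε) ε,
      HasDerivAt (fun s => α (x, s)) (f (α (x, t))) t) :
    ContDiffAt ℝ n α (x₀, 0) := by
  classical
  set Φ := flowEq f with hΦ
  set u : (E × ℝ) × C(K01, E) := ((x₀, 0), ContinuousMap.const K01 x₀) with hu
  have hΦu : Φ u = 0 := by ext τ; simp [hΦ, hu, flowEq]
  have cdf : ContDiffAt ℝ n Φ u := (contDiff_flowEq f hf).contDiffAt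
  have pn : (n : ℕ∞ω) ≠ 0 := by simpa using hn
  have inv : (fderiv ℝ Φ u ∘L .inr ℝ (E × ℝ) C(K01, E)).IsInvertible := by
    rw [hΦ, hu, fderiv_flowEq_inr f hn hf]
    exact ⟨ContinuousLinearEquiv.refl ℝ _, rfl⟩
  set ψ := cdf.implicitFunction pn inv with hψ
  have hψ1 : ContDiffAt ℝ n ψ (x₀, 0) := cdf.contDiffAt_implicitFunction pn inv
  have hψ2 := cdf.eventually_apply_eq_iff_implicitFunction pn inv
  -- the curve through `x`, rescaled
  let γ : E × ℝ → C(K01, E) := fun p =>
    if h : Continuous (fun τ : K01 => α (p.1, p.2 * τ)) then ⟨_, h⟩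
    else ContinuousMap.const K01 x₀
  have hdom : ∀ᶠ p : E × ℝ in 𝓝 (x₀, 0), p.1 ∈ closedBall x₀ r ∧ p.2 ∈ Ioo (-ε) ε := by
    apply Filter.Eventually.and
    · exact continuous_fst.continuousAt.eventually (closedBall_mem_nhds x₀ hr)
    · exact continuous_snd.continuousAt.eventually (Ioo_mem_nhds (by simpa using hε) hε)
  have hmul : ∀ {t : ℝ}, t ∈ Ioo (-ε) ε → ∀ τ ∈ Icc (0:ℝ) 1, t * τ ∈ Ioo (-ε) ε := by
    intro t ht τ hτ
    have ht : |t| < ε := abs_lt.2 ht
    have : |t * τ| < ε := by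
      rw [abs_mul, abs_of_nonneg hτ.1]
      nlinarith [abs_nonneg t, hτ.1, hτ.2]
    exact abs_lt.1 this
  have hγc : ∀ p : E × ℝ, p.1 ∈ closedBall x₀ r → p.2 ∈ Ioo (-ε) ε →
      Continuous (fun τ : K01 => α (p.1, p.2 * τ)) := by
    intro p h1 h2
    rw [← continuousOn_univ]
    refine hcont.comp (by fun_prop) ?_
    intro τ _
    exact ⟨h1, Ioo_subset_Icc_self (hmul h2 τ τ.2)⟩
  have hγ : ∀ p : E × ℝ, p.1 ∈ closedBall x₀ r → p.2 ∈ Ioo (-ε) ε → ∀ τ : K01,
      γ p τ = α (p.1, p.2 * τ) := by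
    intro p h1 h2 τ
    simp only [γ, dif_pos (hγc p h1 h2)]
    rfl
  have htend : Filter.Tendsto (fun p => (p, γ p)) (𝓝 (x₀, 0)) (𝓝 u) := by
    refine Filter.Tendsto.prodMk_nhds Filter.tendsto_id ?_
    rw [Metric.tendsto_nhds]
    intro δ hδ
    have hx0 : α (x₀, 0) = x₀ := h0 x₀ (mem_closedBall_self hr.le)
    have hca : ContinuousAt α (x₀, 0) := by
      apply hcont.continuousAt
      exact prod_mem_nhds (closedBall_mem_nhds x₀ hr) (Icc_mem_nhds (by simpa using hε) hε)
    have h1 : ∀ᶠ q in 𝓝 ((x₀, 0) : E × ℝ), dist (α q) x₀ < δ / 2 := by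
      have := (Metric.tendsto_nhds.1 hca) (δ / 2) (by positivity)
      simpa [hx0] using this
    obtain ⟨η, hη, hη'⟩ := Metric.eventually_nhds_iff.1 h1
    have h2 : ∀ᶠ p : E × ℝ in 𝓝 (x₀, 0), dist p (x₀, 0) < η := by
      exact Metric.eventually_nhds_iff.2 ⟨η, hη, fun _ h => h⟩
    filter_upwards [h2, hdom] with p hp hp2
    have : dist (γ p) (ContinuousMap.const K01 x₀) ≤ δ / 2 := by
      rw [ContinuousMap.dist_le (by positivity)]
      intro τ
      rw [hγ p hp2.1 hp2.2]
      apply le_of_lt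
      apply hη'
      refine lt_of_le_of_lt ?_ hp
      simp only [Prod.dist_eq]
      apply max_le_max le_rfl
      simp only [dist_zero_right, norm_mul, Real.norm_eq_abs]
      have h3 := τ.2
      rw [abs_of_nonneg h3.1]
      nlinarith [abs_nonneg p.2, h3.1, h3.2]
    linarith
  have hev : ∀ᶠ p : E × ℝ in 𝓝 (x₀, 0), α p = (ψ p) ⟨1, by simp⟩ := by
    filter_upwards [htend.eventually hψ2, hdom] with p hp hp2
    have hsol : Φ (p, γ p) = Φ u := by
      rw [hΦu]
      ext τ
      have hint : ∀ τ : K01, α (p.1, p.2 * τ) - p.1 =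
          ∫ s in (0:ℝ)..τ, p.2 • (f (α (p.1, p.2 * s))) := by
        intro τ
        have hder : ∀ s ∈ uIcc (0:ℝ) τ, HasDerivAt (fun s => α (p.1, p.2 * s))
            (p.2 • (f (α (p.1, p.2 * s)))) s := by
          intro s hs
          rw [uIcc_of_le τ.2.1] at hs
          have hs' : p.2 * s ∈ Ioo (-ε) ε := hmul hp2.2 s ⟨hs.1, hs.2.trans τ.2.2⟩
          have := (hd p.1 hp2.1 _ hs').scomp s
            ((hasDerivAt_id s).const_mul p.2)
          rw [mul_one] at this
          exact this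
        have hcs : ContinuousOn (fun s : ℝ => p.2 • (f (α (p.1, p.2 * s)))) (uIcc (0:ℝ) τ) := by
          intro s hs
          apply ContinuousAt.continuousWithinAt
          have := (hder s hs).continuousAt
          exact continuousAt_const.smul (f.continuous.continuousAt.comp this)
        have := intervalIntegral.integral_eq_sub_of_hasDerivAt hder hcs.intervalIntegrable
        rw [this]
        simp [h0 p.1 hp2.1]
      have h5 := hint τ
      simp only [hΦ, flowEq, ContinuousMap.sub_apply, ContinuousMap.smul_apply,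
        ContinuousMap.const_apply, ContinuousMap.zero_apply, primOp, ContinuousMap.coe_mk]
      rw [hγ p hp2.1 hp2.2, h5, intervalIntegral.integral_smul, sub_eq_zero]
      congr 1
      apply intervalIntegral.integral_congr
      intro s hs
      rw [uIcc_of_le τ.2.1] at hs
      have hs' : s ∈ Icc (0:ℝ) 1 := ⟨hs.1, hs.2.trans τ.2.2⟩
      simp only [IccExtend_of_mem (zero_le_one' ℝ) _ hs', ContinuousMap.comp_apply]
      rw [hγ p hp2.1 hp2.2]
    have h6 : ψ p = γ p := (hp.1 hsol)
    rw [h6, hγ p hp2.1 hp2.2]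
    simp
  have hfin : ContDiffAt ℝ n (fun p => (ψ p) ⟨1, by simp⟩) (x₀, 0) :=
    (isBoundedLinearMap_evalMap (E := E) ⟨1, by simp⟩).contDiff.contDiffAt.comp _ hψ1
  exact hfin.congr_of_eventuallyEq hev

/-- A vector field that is `C^n` near a point agrees near this point with a globally `C^n` one. -/
lemma exists_global_extension [FiniteDimensional ℝ E] {G : Type*} [NormedAddCommGroup G]
    [NormedSpace ℝ G] {f : E → G} {x₀ : E} {n : ℕ}
    (hf : ContDiffAt ℝ n f x₀) : ∃ g : E → G, ContDiff ℝ n g ∧ g =ᶠ[𝓝 x₀] f := by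
  have h1 : ∀ᶠ y in 𝓝 x₀, ContDiffAt ℝ n f y := hf.eventually (by simp)
  obtain ⟨ρ, hρ, hρ'⟩ := Metric.eventually_nhds_iff_ball.1 h1
  let χ : ContDiffBump x₀ := ⟨ρ / 4, ρ / 2, by positivity, by linarith⟩
  refine ⟨fun x => χ x • f x, ?_, ?_⟩
  · rw [contDiff_iff_contDiffAt]
    intro y
    by_cases hy : y ∈ ball x₀ ρ
    · exact χ.contDiffAt.smul (hρ' y hy)
    · have hy2 : y ∈ (closedBall x₀ (ρ / 2))ᶜ := by
        simp only [mem_compl_iff, mem_closedBall, not_le]
        simp only [mem_ball, not_lt] at hy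
        linarith
      have : (fun x => χ x • f x) =ᶠ[𝓝 y] fun _ => 0 := by
        filter_upwards [isClosed_closedBall.isOpen_compl.mem_nhds hy2] with z hz
        have : χ z = 0 := by
          apply χ.zero_of_le_dist
          simp only [mem_compl_iff, mem_closedBall, not_le] at hz
          exact hz.le
        simp [this]
      exact contDiffAt_const.congr_of_eventuallyEq this
  · filter_upwards [χ.eventuallyEq_one] with z hz
    simp at hz
    simp [hz]

/-- Local flows of `C^n` vector fields. -/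
theorem exists_local_flow [FiniteDimensional ℝ E] {f : E → E} {x₀ : E} {n : ℕ} (hn : n ≠ 0)
    (hf : ContDiffAt ℝ n f x₀) :
    ∃ r > (0 : ℝ), ∃ ε > (0 : ℝ), ∃ α : E × ℝ → E,
      (∀ x ∈ closedBall x₀ r, α (x, 0) = x) ∧
      (∀ x ∈ closedBall x₀ r, ∀ t ∈ Ioo (-ε) ε,
        HasDerivAt (fun s => α (x, s)) (f (α (x, t))) t) ∧
      ContDiffAt ℝ n α (x₀, 0) := by
  have : CompleteSpace E := FiniteDimensional.complete ℝ E
  obtain ⟨g, hg, hgf⟩ := exists_global_extension hf
  have hf1 : ContDiffAt ℝ 1 f x₀ := hf.of_le (by exact_mod_cast Nat.one_le_iff_ne_zero.2 hn)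
  obtain ⟨ε, hε, a, r, L, K, hr, hpl⟩ := IsPicardLindelof.of_contDiffAt_one hf1
  obtain ⟨α, hα, hαc⟩ :=
    (hpl 0).exists_forall_mem_closedBall_eq_hasDerivWithinAt_continuousOn
  simp only [zero_sub, zero_add] at hα hαc
  have hα0 : ∀ x ∈ closedBall x₀ r, α (x, 0) = x := fun x hx => (hα x hx).1
  have hαd : ∀ x ∈ closedBall x₀ r, ∀ t ∈ Ioo (-ε) ε,
      HasDerivAt (fun s => α (x, s)) (f (α (x, t))) t := fun x hx t ht =>
    ((hα x hx).2 t (Ioo_subset_Icc_self ht)).hasDerivAt (Icc_mem_nhds ht.1 ht.2)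
  have hr' : (0:ℝ) < r := by exact_mod_cast hr
  have hca : ContinuousAt α (x₀, 0) :=
    hαc.continuousAt (prod_mem_nhds (closedBall_mem_nhds x₀ hr')
      (Icc_mem_nhds (by simpa using hε) hε))
  have h1 : ∀ᶠ q in 𝓝 ((x₀, 0) : E × ℝ), g (α q) = f (α q) := by
    have h2 : ∀ᶠ z in 𝓝 (α (x₀, 0)), g z = f z := by
      rw [hα0 x₀ (mem_closedBall_self hr'.le)]
      exact hgf
    exact hca.eventually h2
  obtain ⟨η, hη, hη'⟩ := Metric.eventually_nhds_iff.1 h1
  refine ⟨min r (η / 2), by positivity, min ε (η / 2), by positivity, α, ?_, ?_, ?_⟩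
  · intro x hx
    exact hα0 x (closedBall_subset_closedBall (min_le_left _ _) hx)
  · intro x hx t ht
    exact hαd x (closedBall_subset_closedBall (min_le_left _ _) hx) t
      ⟨by linarith [ht.1, min_le_left ε (η/2)], by linarith [ht.2, min_le_left ε (η/2)]⟩
  · refine contDiffAt_of_isFlow ⟨g, hg.continuous⟩ hn hg x₀ α (r := min r (η / 2))
      (ε := min ε (η / 2)) (by positivity) (by positivity) ?_ ?_ ?_
    · refine hαc.mono (prod_mono (closedBall_subset_closedBall (min_le_left _ _)) ?_)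
      exact Icc_subset_Icc (neg_le_neg (min_le_left _ _)) (min_le_left _ _)
    · intro x hx
      exact hα0 x (closedBall_subset_closedBall (min_le_left _ _) hx)
    · intro x hx t ht
      have h2 : g (α (x, t)) = f (α (x, t)) := by
        apply hη'
        rw [Prod.dist_eq]
        apply max_lt
        · have := (mem_closedBall.1 hx).trans (min_le_right _ _)
          exact lt_of_le_of_lt this (by linarith)
        · simp only [dist_zero_right, Real.norm_eq_abs]
          rw [abs_lt]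
          constructor
          · linarith [ht.1, min_le_right ε (η/2)]
          · linarith [ht.2, min_le_right ε (η/2)]
      simp only [ContinuousMap.coe_mk]
      rw [h2]
      exact hαd x (closedBall_subset_closedBall (min_le_left _ _) hx) t
        ⟨by linarith [ht.1, min_le_left ε (η/2)], by linarith [ht.2, min_le_left ε (η/2)]⟩

end

end Pool.Agent.Helper186
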