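import Mathlib
import Pool.Agent.Helper186.Flow

/-! Evolution maps of compactly supported time dependent vector fields. -/

open scoped Topology ContDiff Manifold
open Set Metric

noncomputable section

namespace Pool.Agent.Helper186

universe u

variable {E : Type u} [NormedAddCommGroup E] [NormedSpace ℝ E] [FiniteDimensional ℝ E]
  {H : Type*} [TopologicalSpace H] {I : ModelWithCorners ℝ E H} [I.Boundaryless]
  {M : Type*} [TopologicalSpace M] [ChartedSpace H M] [IsManifold I ∞ M]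

set_option linter.unusedSectionVars false

/-- The autonomous vector field on `ℝ × M` given by a time dependent vector field. -/
def timeField (Y : (s : ℝ) → (x : M) → TangentSpace I x) (p : ℝ × M) :
    TangentSpace (𝓘(ℝ, ℝ).prod I) p := ((1 : ℝ), Y p.1 p.2)

lemma contMDiff_timeField {Y : (s : ℝ) → (x : M) → TangentSpace I x}
    (hY : ContMDiff (𝓘(ℝ, ℝ).prod I) I.tangent ∞
      (fun p : ℝ × M => (⟨p.2, Y p.1 p.2⟩ : TangentBundle I M))) :
    ContMDiff (𝓘(ℝ, ℝ).prod I) (𝓘(ℝ, ℝ).prod I).tangent ∞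
      (fun p : ℝ × M => (⟨p, timeField Y p⟩ : TangentBundle (𝓘(ℝ, ℝ).prod I) (ℝ × M))) := by
  have h1 : ContMDiff (𝓘(ℝ, ℝ).prod I) 𝓘(ℝ, ℝ).tangent ∞
      (fun p : ℝ × M => (⟨p.1, (1:ℝ)⟩ : TangentBundle 𝓘(ℝ, ℝ) ℝ)) := by
    have h2 : ContMDiff 𝓘(ℝ, ℝ) 𝓘(ℝ, ℝ).tangent ∞
        (fun s : ℝ => (⟨s, (1:ℝ)⟩ : TangentBundle 𝓘(ℝ, ℝ) ℝ)) :=
      contMDiff_vectorSpace_iff_contDiff.2 contDiff_const
    exact h2.comp contMDiff_fst
  exact (contMDiff_equivTangentBundleProd_symm (I := 𝓘(ℝ, ℝ)) (M := ℝ) (I' := I) (M' := M)).comp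
    (h1.prodMk hY)

lemma hasMFDerivAt_line (s : ℝ) (x : M) (t : ℝ) :
    HasMFDerivAt 𝓘(ℝ, ℝ) (𝓘(ℝ, ℝ).prod I) (fun t : ℝ => (s + t, x)) t
      ((1 : ℝ →L[ℝ] ℝ).smulRight (((1:ℝ), (0 : E)) : ℝ × E)) := by
  have h1 : HasMFDerivAt 𝓘(ℝ, ℝ) 𝓘(ℝ, ℝ) (fun t : ℝ => s + t) t (1 : ℝ →L[ℝ] ℝ) :=
    ((hasFDerivAt_id t).const_add s).hasMFDerivAt
  have h2 : HasMFDerivAt 𝓘(ℝ, ℝ) I (fun _ : ℝ => x) t (0 : ℝ →L[ℝ] E) := hasMFDerivAt_const x t
  have h3 := h1.prodMk h2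
  have h4 : (1 : ℝ →L[ℝ] ℝ).smulRight (((1:ℝ), (0 : E)) : ℝ × E) =
      ContinuousLinearMap.prod (1 : ℝ →L[ℝ] ℝ) (0 : ℝ →L[ℝ] E) := by
    ext <;> simp
  exact h3.congr_mfderiv h4.symm


/-- Local existence, uniform on compact sets. -/
lemma exists_uniform_time_compact {V : (x : M) → TangentSpace I x}
    (hV : ContMDiff I I.tangent ∞ (fun x => (⟨x, V x⟩ : TangentBundle I M)))
    {C : Set M} (hC : IsCompact C) :
    ∃ ε > (0:ℝ), ∀ x ∈ C, ∃ γ : ℝ → M, γ 0 = x ∧ IsMIntegralCurveOn γ V (Ioo (-ε) ε) := by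
  have : IsManifold I 1 M := IsManifold.of_le (n := ∞) (by simp)
  refine hC.induction_on (p := fun S => ∃ ε > (0:ℝ), ∀ x ∈ S, ∃ γ : ℝ → M, γ 0 = x ∧
    IsMIntegralCurveOn γ V (Ioo (-ε) ε)) ⟨1, one_pos, by simp⟩ ?_ ?_ ?_
  · rintro s t hst ⟨ε, hε, h⟩
    exact ⟨ε, hε, fun x hx => h x (hst hx)⟩
  · rintro s t ⟨ε₁, hε₁, h₁⟩ ⟨ε₂, hε₂, h₂⟩
    refine ⟨min ε₁ ε₂, by positivity, ?_⟩
    rintro x (hx | hx)
    · obtain ⟨γ, h0, hγ⟩ := h₁ x hx
      exact ⟨γ, h0, hγ.mono (Ioo_subset_Ioo (neg_le_neg (min_le_left _ _)) (min_le_left _ _))⟩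
    · obtain ⟨γ, h0, hγ⟩ := h₂ x hx
      exact ⟨γ, h0, hγ.mono (Ioo_subset_Ioo (neg_le_neg (min_le_right _ _)) (min_le_right _ _))⟩
  · intro x _
    obtain ⟨U, hU, ε, hε, a, ha0, had, -⟩ := exists_local_flow_manifold hV x one_ne_zero
    exact ⟨U, mem_nhdsWithin_of_mem_nhds hU, ε, hε, fun y hy => ⟨a y, ha0 y hy, had y hy⟩⟩

/-- Completeness of the autonomous field of a compactly supported time dependent field. -/
lemma timeField_complete [T2Space M] {Y : (s : ℝ) → (x : M) → TangentSpace I x}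
    (hY : ContMDiff (𝓘(ℝ, ℝ).prod I) I.tangent ∞
      (fun p : ℝ × M => (⟨p.2, Y p.1 p.2⟩ : TangentBundle I M)))
    {K : Set (ℝ × M)} (hK : IsCompact K) (hYK : ∀ p : ℝ × M, p ∉ K → Y p.1 p.2 = 0)
    (p : ℝ × M) : ∃ γ : ℝ → ℝ × M, γ 0 = p ∧ IsMIntegralCurve γ (timeField Y) := by
  have : IsManifold I 1 M := IsManifold.of_le (n := ∞) (by simp)
  have hV := contMDiff_timeField hY
  obtain ⟨R, hR⟩ := (hK.image continuous_fst).isBounded.subset_closedBall (0:ℝ)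
  have hR' : ∀ p ∈ K, |p.1| ≤ R := by
    intro p hp
    have := hR (mem_image_of_mem _ hp)
    simpa using this
  have hC : IsCompact (closedBall (0:ℝ) (R + 1) ×ˢ (Prod.snd '' K)) :=
    (isCompact_closedBall _ _).prod (hK.image continuous_snd)
  obtain ⟨ε, hε, hεC⟩ := exists_uniform_time_compact hV hC
  have hline : ∀ (s : ℝ) (x : M) (J : Set ℝ), (∀ t ∈ J, (s + t, x) ∉ K) →
      IsMIntegralCurveOn (fun t : ℝ => (s + t, x)) (timeField Y) J := by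
    intro s x J h t ht
    have h1 := hasMFDerivAt_line (I := I) s x t
    have h2 : timeField Y (s + t, x) = (((1:ℝ), (0 : E)) : ℝ × E) := by
      have := hYK _ (h t ht)
      simp only [timeField]
      simp only at this
      rw [this]
      rfl
    rw [h2]
    exact h1.hasMFDerivWithinAt
  refine exists_isMIntegralCurve_of_isMIntegralCurveOn (hV.of_le (by simp))
    (ε := min ε 1) (by positivity) ?_ p
  rintro ⟨s, x⟩
  by_cases hx : x ∈ Prod.snd '' K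
  · by_cases hs : s ∈ closedBall (0:ℝ) (R + 1)
    · obtain ⟨γ, h0, hγ⟩ := hεC (s, x) ⟨hs, hx⟩
      exact ⟨γ, h0, hγ.mono (Ioo_subset_Ioo (neg_le_neg (min_le_left _ _)) (min_le_left _ _))⟩
    · refine ⟨fun t => (s + t, x), by simp, hline s x _ ?_⟩
      intro t ht hmem
      have h1 := hR' _ hmem
      simp only [mem_closedBall, dist_zero_right, Real.norm_eq_abs, not_le] at hs
      have h2 : |t| < 1 := by
        rw [abs_lt]
        exact ⟨by linarith [ht.1, min_le_right ε 1], by linarith [ht.2, min_le_right ε 1]⟩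
      have h3 : |s| ≤ |s + t| + |t| := by
        have := abs_sub (s + t) t
        simpa using this
      linarith
  · refine ⟨fun t => (s + t, x), by simp, hline s x _ ?_⟩
    intro t _ hmem
    exact hx ⟨_, hmem, rfl⟩

/-- A curve in `M` solving the time dependent equation gives an integral curve in `ℝ × M`. -/
lemma hasMFDerivAt_graph {Y : (s : ℝ) → (x : M) → TangentSpace I x} {c : ℝ → M} {s : ℝ}
    (h : HasMFDerivAt 𝓘(ℝ, ℝ) I c s ((1 : ℝ →L[ℝ] ℝ).smulRight (Y s (c s)))) :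
    HasMFDerivAt 𝓘(ℝ, ℝ) (𝓘(ℝ, ℝ).prod I) (fun s => (s, c s)) s
      ((1 : ℝ →L[ℝ] ℝ).smulRight (timeField Y (s, c s))) := by
  have h1 : HasMFDerivAt 𝓘(ℝ, ℝ) 𝓘(ℝ, ℝ) (fun t : ℝ => t) s (1 : ℝ →L[ℝ] ℝ) :=
    (hasFDerivAt_id s).hasMFDerivAt
  have h3 := h1.prodMk h
  have h4 : (1 : ℝ →L[ℝ] ℝ).smulRight (((1:ℝ), (Y s (c s) : E)) : ℝ × E) =
      ContinuousLinearMap.prod (1 : ℝ →L[ℝ] ℝ) ((1 : ℝ →L[ℝ] ℝ).smulRight (Y s (c s) : E)) := by
    refine ContinuousLinearMap.ext fun r => Prod.ext ?_ rfl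
    show r * 1 = r
    ring
  exact h3.congr_mfderiv h4.symm

/-- **Evolution maps** of a compactly supported smooth time dependent vector field. -/
theorem exists_evolution [T2Space M] {Y : (s : ℝ) → (x : M) → TangentSpace I x}
    (hY : ContMDiff (𝓘(ℝ, ℝ).prod I) I.tangent ∞
      (fun p : ℝ × M => (⟨p.2, Y p.1 p.2⟩ : TangentBundle I M)))
    {K : Set (ℝ × M)} (hK : IsCompact K) (hYK : ∀ p : ℝ × M, p ∉ K → Y p.1 p.2 = 0) :
    ∃ R B : ℝ × M → M,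
      ContMDiff (𝓘(ℝ, ℝ).prod I) I ∞ R ∧ ContMDiff (𝓘(ℝ, ℝ).prod I) I ∞ B ∧
      (∀ x, R (0, x) = x) ∧ (∀ s x, B (s, R (s, x)) = x) ∧ (∀ s x, R (s, B (s, x)) = x) ∧
      (∀ s x, HasMFDerivAt 𝓘(ℝ, ℝ) I (fun s => R (s, x)) s
        ((1 : ℝ →L[ℝ] ℝ).smulRight (Y s (R (s, x))))) ∧
      (∀ (c : ℝ → M) (a b : ℝ), 0 ∈ Ioo a b →
        (∀ s ∈ Ioo a b, HasMFDerivAt 𝓘(ℝ, ℝ) I c s
          ((1 : ℝ →L[ℝ] ℝ).smulRight (Y s (c s)))) → ∀ s ∈ Ioo a b, c s = R (s, c 0)) := by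
  have : IsManifold I 1 M := IsManifold.of_le (n := ∞) (by simp)
  have hV := contMDiff_timeField hY
  choose Fl h0 hFl using timeField_complete hY hK hYK
  have hsm := contMDiff_flow hV h0 hFl
  have hadd := flow_add hV h0 hFl
  -- the first component
  have hfst : ∀ (p : ℝ × M) (t : ℝ), (Fl p t).1 = p.1 + t := by
    intro p t
    have hd : ∀ t, HasDerivAt (fun t => (Fl p t).1) 1 t := by
      intro t
      have h1 : HasMFDerivAt 𝓘(ℝ, ℝ) 𝓘(ℝ, ℝ) (fun t => (Fl p t).1) t (1 : ℝ →L[ℝ] ℝ) := by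
        refine ((hasMFDerivAt_fst (I := 𝓘(ℝ, ℝ)) (I' := I) (Fl p t)).comp t
          (hFl p t)).congr_mfderiv ?_
        refine ContinuousLinearMap.ext fun (r : ℝ) => ?_
        exact mul_one r
      have h2 : HasFDerivAt (fun t => (Fl p t).1) (1 : ℝ →L[ℝ] ℝ) t :=
        hasMFDerivAt_iff_hasFDerivAt.1 h1
      simpa using h2.hasDerivAt
    have hc : ∀ t, HasDerivAt (fun t => (Fl p t).1 - t) 0 t := by
      intro t
      simpa using (hd t).fun_sub (hasDerivAt_id' t)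
    have := is_const_of_deriv_eq_zero (f := fun t => (Fl p t).1 - t)
      (fun t => (hc t).differentiableAt) (fun t => (hc t).deriv) t 0
    simp only [h0, sub_zero] at this
    linarith
  refine ⟨fun q => (Fl (0, q.2) q.1).2, fun q => (Fl q (-q.1)).2, ?_, ?_, ?_, ?_, ?_, ?_, ?_⟩
  · have h1 : ContMDiff (𝓘(ℝ, ℝ).prod I) ((𝓘(ℝ, ℝ).prod I).prod 𝓘(ℝ, ℝ)) ∞
        (fun q : ℝ × M => (((0:ℝ), q.2), q.1)) :=
      (contMDiff_const.prodMk contMDiff_snd).prodMk contMDiff_fst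
    exact contMDiff_snd.comp (hsm.comp h1)
  · have h1 : ContMDiff (𝓘(ℝ, ℝ).prod I) ((𝓘(ℝ, ℝ).prod I).prod 𝓘(ℝ, ℝ)) ∞
        (fun q : ℝ × M => (q, -q.1)) :=
      contMDiff_id.prodMk contMDiff_fst.neg
    exact contMDiff_snd.comp (hsm.comp h1)
  · intro x
    simp [h0]
  · intro s x
    have h1 : (s, (Fl (0, x) s).2) = Fl (0, x) s := by
      ext
      · simp [hfst]
      · rfl
    simp only
    rw [h1, ← hadd]
    simp [h0]
  · intro s x
    have h1 : ((0:ℝ), (Fl (s, x) (-s)).2) = Fl (s, x) (-s) := by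
      ext
      · simp [hfst]
      · rfl
    simp only
    rw [h1, ← hadd]
    simp [h0]
  · intro s x
    have h1 := (hasMFDerivAt_snd (I := 𝓘(ℝ, ℝ)) (I' := I) (Fl (0, x) s)).comp s (hFl (0, x) s)
    refine h1.congr_mfderiv ?_
    have h3 : (Fl (0, x) s).1 = s := by simp [hfst]
    refine ContinuousLinearMap.ext fun (r : ℝ) => ?_
    show r • (Y (Fl (0, x) s).1 (Fl (0, x) s).2) = r • (Y s (Fl (0, x) s).2)
    rw [h3]
  · intro c a b hab hc s hs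
    have h1 : IsMIntegralCurveOn (fun s => (s, c s)) (timeField Y) (Ioo a b) :=
      fun s hs => (hasMFDerivAt_graph (hc s hs)).hasMFDerivWithinAt
    have h2 := isMIntegralCurveOn_Ioo_eqOn_of_contMDiff_boundaryless hab (hV.of_le (by simp)) h1
      ((hFl (0, c 0)).isMIntegralCurveOn _) (by simp [h0]) hs
    exact congrArg Prod.snd h2

end Pool.Agent.Helper186
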