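import Mathlib
import Pool.Agent.Helper186.Variation

/-! Flows of compactly supported time dependent Hamiltonians. -/

open scoped Topology ContDiff Manifold
open Set Metric Bundle

noncomputable section

namespace Pool.Agent.Helper186

set_option linter.unusedSectionVars false

universe u

variable {E : Type u} [NormedAddCommGroup E] [NormedSpace ℝ E] [FiniteDimensional ℝ E]
  {H : Type*} [TopologicalSpace H] {I : ModelWithCorners ℝ E H} [I.Boundaryless]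
  {M : Type*} [TopologicalSpace M] [ChartedSpace H M] [IsManifold I ∞ M]

/-- Existence and uniqueness of solutions of linear equations for nondegenerate forms. -/
lemma exists_sharp {x : M} (B : TangentSpace I x →L[ℝ] TangentSpace I x →L[ℝ] ℝ)
    (hnd : ∀ u, (∀ v, B u v = 0) → u = 0) (θ : TangentSpace I x →L[ℝ] ℝ) :
    ∃ u, ∀ v, B u v = θ v := by
  let B' : E →L[ℝ] E →L[ℝ] ℝ := B
  have hinj : Function.Injective B' := by
    rw [injective_iff_map_eq_zero]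
    intro a ha
    exact hnd a (fun v => DFunLike.congr_fun ha v)
  have hdim : Module.finrank ℝ E = Module.finrank ℝ (E →L[ℝ] ℝ) := by
    rw [← (LinearMap.toContinuousLinearMap (𝕜 := ℝ) (E := E) (F' := ℝ)).finrank_eq]
    exact (Subspace.dual_finrank_eq (K := ℝ) (V := E)).symm
  let l : E ≃ₗ[ℝ] (E →L[ℝ] ℝ) := LinearEquiv.ofInjectiveOfFinrankEq
    (B' : E →ₗ[ℝ] (E →L[ℝ] ℝ)) hinj hdim
  refine ⟨l.symm θ, fun v => ?_⟩
  have h1 : l (l.symm θ) = θ := l.apply_symm_apply θ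
  exact DFunLike.congr_fun h1 v

/-- A smooth section of the pull back of the tangent bundle gives a smooth vertical section. -/
lemma contMDiffAt_vertical {p₀ : ℝ × M} {v : (p : ℝ × M) → TangentSpace I p.2}
    (hv : ContMDiffAt (𝓘(ℝ, ℝ).prod I) I.tangent ∞
      (fun p : ℝ × M => (⟨p.2, v p⟩ : TangentBundle I M)) p₀) :
    ContMDiffAt (𝓘(ℝ, ℝ).prod I) (𝓘(ℝ, ℝ).prod I).tangent ∞
      (fun p : ℝ × M => (⟨p, ((0:ℝ), (v p : E))⟩ :
        TangentBundle (𝓘(ℝ, ℝ).prod I) (ℝ × M))) p₀ := by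
  have h1 : ContMDiff (𝓘(ℝ, ℝ).prod I) 𝓘(ℝ, ℝ).tangent ∞
      (fun p : ℝ × M => (⟨p.1, (0:ℝ)⟩ : TangentBundle 𝓘(ℝ, ℝ) ℝ)) := by
    have h2 : ContMDiff 𝓘(ℝ, ℝ) 𝓘(ℝ, ℝ).tangent ∞
        (fun s : ℝ => (⟨s, (0:ℝ)⟩ : TangentBundle 𝓘(ℝ, ℝ) ℝ)) :=
      contMDiff_vectorSpace_iff_contDiff.2 contDiff_const
    exact h2.comp contMDiff_fst
  exact (contMDiff_equivTangentBundleProd_symm (I := 𝓘(ℝ, ℝ)) (M := ℝ) (I' := I) (M' := M)
    _).comp p₀ ((h1 p₀).prodMk hv)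

/-- The pairing of the space derivative of a smooth function with a smooth field is smooth. -/
lemma contMDiffAt_spaceDeriv {Hh : ℝ × M → ℝ}
    (hH : ContMDiff (𝓘(ℝ, ℝ).prod I) 𝓘(ℝ, ℝ) ∞ Hh)
    {p₀ : ℝ × M} {v : (p : ℝ × M) → TangentSpace I p.2}
    (hv : ContMDiffAt (𝓘(ℝ, ℝ).prod I) I.tangent ∞
      (fun p : ℝ × M => (⟨p.2, v p⟩ : TangentBundle I M)) p₀) :
    ContMDiffAt (𝓘(ℝ, ℝ).prod I) 𝓘(ℝ, ℝ) ∞
      (fun p : ℝ × M => (show ℝ from mfderiv I 𝓘(ℝ, ℝ) (fun y => Hh (p.1, y)) p.2 (v p))) p₀ := by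
  have h1 : ContMDiff (𝓘(ℝ, ℝ).prod I).tangent 𝓘(ℝ, ℝ).tangent ∞
      (tangentMap (𝓘(ℝ, ℝ).prod I) 𝓘(ℝ, ℝ) Hh) := hH.contMDiff_tangentMap (by simp)
  have h2 := (h1 _).comp p₀ (contMDiffAt_vertical hv)
  have h3 : ContMDiff 𝓘(ℝ, ℝ).tangent 𝓘(ℝ, ℝ) ∞
      (fun v : TangentBundle 𝓘(ℝ, ℝ) ℝ => (show ℝ from v.2)) :=
    contMDiff_snd_tangentBundle_modelSpace ℝ 𝓘(ℝ, ℝ)
  have h4 := (h3 _).comp p₀ h2
  refine h4.congr_of_eventuallyEq (Filter.Eventually.of_forall fun p => ?_)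
  have h5 := mfderiv_space (I := 𝓘(ℝ, ℝ)) (J := I) (i := Hh) (p := p)
    (hH.mdifferentiableAt (by simp)) (v p)
  exact h5.symm

lemma dS_eq_of_hasMFDerivAt {R : ℝ × M → M} {s : ℝ} {x : M} {w : TangentSpace I (R (s, x))}
    (h : HasMFDerivAt 𝓘(ℝ, ℝ) I (fun σ => R (σ, x)) s ((1 : ℝ →L[ℝ] ℝ).smulRight w)) :
    dS I R s x = w := by
  unfold dS
  rw [h.mfderiv]
  exact one_smul ℝ w

/-- **Flows of compactly supported Hamiltonians.** -/
theorem hamiltonian_flow [T2Space M] {lam : (x : M) → TangentSpace I x →L[ℝ] ℝ}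
    (hlam : SmoothForm lam)
    (hnd : ∀ (x : M) (u : TangentSpace I x), (∀ v, extDer I lam x u v = 0) → u = 0)
    {Hh : ℝ × M → ℝ} (hH : ContMDiff (𝓘(ℝ, ℝ).prod I) 𝓘(ℝ, ℝ) ∞ Hh)
    {K : Set (ℝ × M)} (hK : IsCompact K) (hHK : ∀ p ∉ K, Hh p = 0) :
    ∃ R Ri : ℝ × M → M,
      ContMDiff (𝓘(ℝ, ℝ).prod I) I ∞ R ∧ ContMDiff (𝓘(ℝ, ℝ).prod I) I ∞ Ri ∧
      (∀ x, R (0, x) = x) ∧ (∀ s x, Ri (s, R (s, x)) = x) ∧ (∀ s x, R (s, Ri (s, x)) = x) ∧
      (∀ s x v, extDer I lam (R (s, x)) (dS I R s x) v =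
        (show ℝ from mfderiv I 𝓘(ℝ, ℝ) (fun y => Hh (s, y)) (R (s, x)) v)) ∧
      (∀ (c : ℝ → M) (a b : ℝ), 0 ∈ Ioo a b →
        (∀ s ∈ Ioo a b, MDifferentiableAt 𝓘(ℝ, ℝ) I c s ∧ ∀ v, extDer I lam (c s)
          (mfderiv 𝓘(ℝ, ℝ) I c s (1:ℝ)) v =
            (show ℝ from mfderiv I 𝓘(ℝ, ℝ) (fun y => Hh (s, y)) (c s) v)) →
        ∀ s ∈ Ioo a b, c s = R (s, c 0)) ∧
      (∀ x, (∀ s, (s, x) ∉ K) → ∀ s, R (s, x) = x) := by
  have hnd' : ∀ (x : M) (u : TangentSpace I x), (∀ v, extDerL I lam x u v = 0) → u = 0 :=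
    fun x u h => hnd x u h
  choose Y hY using fun p : ℝ × M => exists_sharp (extDerL I lam p.2) (hnd' p.2)
    (show TangentSpace I p.2 →L[ℝ] ℝ from mfderiv I 𝓘(ℝ, ℝ) (fun y => Hh (p.1, y)) p.2)
  have hYs : ContMDiff (𝓘(ℝ, ℝ).prod I) I.tangent ∞
      (fun p : ℝ × M => (⟨p.2, Y p⟩ : TangentBundle I M)) := by
    intro p₀
    refine contMDiffAt_of_pairing (f := fun p : ℝ × M => p.2) contMDiffAt_snd
      (smoothBilinAt_extDer hlam contMDiffAt_snd) (hnd' p₀.2) ?_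
    intro v hv
    have h1 := contMDiffAt_spaceDeriv hH hv
    refine h1.congr_of_eventuallyEq (Filter.Eventually.of_forall fun p => ?_)
    exact hY p (v p)
  have huniq : ∀ (p : ℝ × M) (w : TangentSpace I p.2), (∀ v, extDer I lam p.2 w v =
      (show ℝ from mfderiv I 𝓘(ℝ, ℝ) (fun y => Hh (p.1, y)) p.2 v)) → w = Y p := by
    intro p w hw
    rw [← sub_eq_zero]
    apply hnd' p.2
    intro v
    rw [map_sub, sub_apply, sub_eq_zero]
    exact (hw v).trans (hY p v).symm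
  have hYK : ∀ p : ℝ × M, p ∉ K → Y p = 0 := by
    intro p hp
    symm
    apply huniq
    intro v
    have h1 : (fun y => Hh (p.1, y)) =ᶠ[𝓝 p.2] fun _ => 0 := by
      have h2 : ContinuousAt (fun y : M => (p.1, y)) p.2 := by fun_prop
      have h3 : ∀ᶠ y in 𝓝 p.2, (p.1, y) ∈ Kᶜ :=
        h2.preimage_mem_nhds (hK.isClosed.isOpen_compl.mem_nhds hp)
      filter_upwards [h3] with y hy
      exact hHK _ hy
    have h4 : mfderiv I 𝓘(ℝ, ℝ) (fun y => Hh (p.1, y)) p.2 = 0 := by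
      rw [h1.mfderiv_eq]
      exact mfderiv_const
    have h5 : extDerL I lam p.2 0 v = 0 := by rw [map_zero]; rfl
    refine h5.trans ?_
    exact (DFunLike.congr_fun h4 v).symm
  obtain ⟨R, Ri, hR, hRi, hR0, hRiR, hRRi, hRd, hRu⟩ :=
    exists_evolution (Y := fun s x => Y (s, x)) hYs hK hYK
  refine ⟨R, Ri, hR, hRi, hR0, hRiR, hRRi, ?_, ?_, ?_⟩
  · intro s x v
    rw [dS_eq_of_hasMFDerivAt (hRd s x)]
    exact hY (s, R (s, x)) v
  · intro c a b hab hc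
    apply hRu c a b hab
    intro s hs
    obtain ⟨h1, h2⟩ := hc s hs
    have h3 := huniq (s, c s) _ h2
    refine h1.hasMFDerivAt.congr_mfderiv ?_
    refine ContinuousLinearMap.ext fun (r : ℝ) => ?_
    have h4 : mfderiv 𝓘(ℝ, ℝ) I c s r = r • mfderiv 𝓘(ℝ, ℝ) I c s (1:ℝ) := by
      rw [← map_smul]
      congr 1
      exact (mul_one r).symm
    rw [h4]
    exact congrArg (fun z => r • z) h3
  · intro x hx s
    have h1 := hRu (fun _ => x) (-|s| - 1) (|s| + 1)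
      ⟨by linarith [abs_nonneg s], by linarith [abs_nonneg s]⟩ (by
        intro σ _
        have h2 : Y (σ, x) = 0 := hYK _ (hx σ)
        refine (hasMFDerivAt_const x σ).congr_mfderiv ?_
        refine ContinuousLinearMap.ext fun (r : ℝ) => ?_
        show (0 : E) = r • (Y (σ, x) : E)
        rw [h2]
        exact (smul_zero r).symm) s
      ⟨by linarith [neg_abs_le s], by linarith [le_abs_self s]⟩
    exact h1.symm

lemma form_congr (α : (x : M) → TangentSpace I x →L[ℝ] ℝ) {v w : TangentBundle I M} (h : v = w) :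
    α v.1 v.2 = α w.1 w.2 := by rw [h]

/-- The fundamental theorem of calculus for slices. -/
lemma integral_slice {k : ℝ × M → ℝ} (hk : ContMDiff (𝓘(ℝ, ℝ).prod I) 𝓘(ℝ, ℝ) ∞ k) {a : ℝ → ℝ}
    {T : ℝ} {x : M} {u : TangentSpace I x}
    (ha : ∀ s ∈ uIcc 0 T, HasDerivAt a
      (show ℝ from mfderiv I 𝓘(ℝ, ℝ) (fun x => k (s, x)) x u) s) :
    a T - a 0 = (show ℝ from mfderiv I 𝓘(ℝ, ℝ) (fun x => ∫ s in (0:ℝ)..T, k (s, x)) x u) := by
  have h1 := intervalIntegral.integral_eq_sub_of_hasDerivAt ha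
    ((continuous_mfderiv_slice hk x u).intervalIntegrable 0 T)
  rw [← h1]
  exact (mfderiv_paramInt hk T x u).symm

/-- The integrand of the primitive. -/
def actionIntegrand (lam : (x : M) → TangentSpace I x →L[ℝ] ℝ) (Hh : ℝ × M → ℝ)
    (R : ℝ × M → M) (q : ℝ × M) : ℝ := Hh (q.1, R q) + lam (R q) (dS I R q.1 q.2)

lemma contMDiff_actionIntegrand {lam : (x : M) → TangentSpace I x →L[ℝ] ℝ}
    (hlam : SmoothForm lam) {Hh : ℝ × M → ℝ}
    (hH : ContMDiff (𝓘(ℝ, ℝ).prod I) 𝓘(ℝ, ℝ) ∞ Hh) {R : ℝ × M → M}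
    (hR : ContMDiff (𝓘(ℝ, ℝ).prod I) I ∞ R) :
    ContMDiff (𝓘(ℝ, ℝ).prod I) 𝓘(ℝ, ℝ) ∞ (actionIntegrand lam Hh R) := by
  intro q
  have h1 : ContMDiffAt (𝓘(ℝ, ℝ).prod I) 𝓘(ℝ, ℝ) ∞ (fun q : ℝ × M => Hh (q.1, R q)) q :=
    (hH _).comp q (contMDiffAt_fst.prodMk (hR q))
  have h2 : ContMDiffAt (𝓘(ℝ, ℝ).prod I) 𝓘(ℝ, ℝ) ∞
      (fun q : ℝ × M => lam (R q) (dS I R q.1 q.2)) q :=
    hlam.comp (contMDiffAt_dS isOpen_univ hR.contMDiffOn (mem_univ q)) le_rfl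
  exact h1.add h2

theorem pullback_hamiltonian {lam : (x : M) → TangentSpace I x →L[ℝ] ℝ}
    (hlam : SmoothForm lam) {Hh : ℝ × M → ℝ}
    (hH : ContMDiff (𝓘(ℝ, ℝ).prod I) 𝓘(ℝ, ℝ) ∞ Hh) {R : ℝ × M → M}
    (hR : ContMDiff (𝓘(ℝ, ℝ).prod I) I ∞ R) (hR0 : ∀ x, R (0, x) = x)
    (hRH : ∀ s x v, extDer I lam (R (s, x)) (dS I R s x) v =
        (show ℝ from mfderiv I 𝓘(ℝ, ℝ) (fun y => Hh (s, y)) (R (s, x)) v))
    (T : ℝ) (x : M) (u : TangentSpace I x) :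
    lam (R (T, x)) (dX I I R T x u) = lam x u + (show ℝ from mfderiv I 𝓘(ℝ, ℝ)
      (fun x => ∫ s in (0:ℝ)..T, actionIntegrand lam Hh R (s, x)) x u) := by
  have hk := contMDiff_actionIntegrand hlam hH hR
  have h1 : ∀ s ∈ uIcc 0 T, HasDerivAt (fun σ => lam (R (σ, x)) (dX I I R σ x u))
      (show ℝ from mfderiv I 𝓘(ℝ, ℝ) (fun x => actionIntegrand lam Hh R (s, x)) x u) s := by
    intro s _
    have h2 := hasDerivAt_variation hlam isOpen_univ hR.contMDiffOn (mem_univ (s, x)) u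
    refine h2.congr_deriv ?_
    rw [hRH]
    have hd1 : MDifferentiableAt I I (fun x' => R (s, x')) x := by
      have : ContMDiff I I ∞ (fun x' => R (s, x')) :=
        hR.comp (contMDiff_const.prodMk contMDiff_id)
      exact this.mdifferentiableAt (by simp)
    have hd2 : MDifferentiableAt I 𝓘(ℝ, ℝ) (fun y => Hh (s, y)) (R (s, x)) := by
      have : ContMDiff I 𝓘(ℝ, ℝ) ∞ (fun y => Hh (s, y)) :=
        hH.comp (contMDiff_const.prodMk contMDiff_id)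
      exact this.mdifferentiableAt (by simp)
    have hd3 : MDifferentiableAt I 𝓘(ℝ, ℝ) (fun x' => lam (R (s, x')) (dS I R s x')) x := by
      have h3 : ContMDiff (𝓘(ℝ, ℝ).prod I) 𝓘(ℝ, ℝ) ∞
          (fun q : ℝ × M => lam (R q) (dS I R q.1 q.2)) := fun q =>
        hlam.comp (contMDiffAt_dS isOpen_univ hR.contMDiffOn (mem_univ q)) le_rfl
      have : ContMDiff I 𝓘(ℝ, ℝ) ∞ (fun x' => lam (R (s, x')) (dS I R s x')) :=
        h3.comp (contMDiff_const.prodMk contMDiff_id)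
      exact this.mdifferentiableAt (by simp)
    have h4 := mfderiv_comp (I := I) (I' := I) (I'' := 𝓘(ℝ, ℝ)) x hd2 hd1
    have h5 : mfderiv I 𝓘(ℝ, ℝ) (fun x' => Hh (s, R (s, x'))) x u =
        mfderiv I 𝓘(ℝ, ℝ) (fun y => Hh (s, y)) (R (s, x)) (dX I I R s x u) :=
      DFunLike.congr_fun h4 u
    have h6 := mfderiv_add (hd2.comp x hd1) hd3
    have h7 := DFunLike.congr_fun h6 u
    refine Eq.trans ?_ h7.symm
    exact congrArg₂ (· + ·) h5.symm rfl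
  have h2 := integral_slice hk h1
  have h3 : lam (R (0, x)) (dX I I R 0 x u) = lam x u := by
    have h4 : (fun x' => R (0, x')) = id := by ext x'; exact hR0 x'
    have h5 : tangentMap I I (fun x' => R (0, x')) (⟨x, u⟩ : TangentBundle I M) = ⟨x, u⟩ := by
      rw [h4, tangentMap_id]; rfl
    exact form_congr lam h5
  simp only [h3] at h2
  linarith

end Pool.Agent.Helper186
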