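import Mathlib
import Pool.Agent.Helper186.Cot
import Pool.Agent.Helper186.DForms

/-! The canonical form at the zero section. -/

open scoped Topology ContDiff Manifold
open Set Metric Bundle

noncomputable section

namespace Pool.Agent.Helper186

set_option linter.unusedSectionVars false

variable {F : Type*} [NormedAddCommGroup F] [NormedSpace ℝ F] [FiniteDimensional ℝ F]
  {L : Type*} [TopologicalSpace L] [ChartedSpace F L] [IsManifold 𝓘(ℝ, F) ∞ L]

/-- Inclusion of a fibre. -/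
def incl (q : L) (θ : F →L[ℝ] ℝ) : Cotangent F L := ⟨q, θ⟩

lemma contMDiff_incl (q : L) : ContMDiff 𝓘(ℝ, F →L[ℝ] ℝ) (IC F) ∞
    (incl q : (F →L[ℝ] ℝ) → Cotangent F L) := by
  intro θ₀
  refine contMDiffAt_cot_of_pairing (b := fun _ : F →L[ℝ] ℝ => q) (θ := fun θ => θ)
    contMDiffAt_const ?_
  intro v hv
  have h1 := contMDiffAt_coord hv
  let S : F →L[ℝ] F := (trivializationAt F (TangentSpace 𝓘(ℝ, F)) q).symmL ℝ q
  have h2 : ContMDiffAt 𝓘(ℝ, F →L[ℝ] ℝ) 𝓘(ℝ, F →L[ℝ] ℝ) ∞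
      (fun θ : F →L[ℝ] ℝ => θ.comp S) θ₀ := by
    have h3 : ContDiff ℝ ∞ (fun θ : F →L[ℝ] ℝ => θ.comp S) := contDiff_id.clm_comp contDiff_const
    exact h3.contMDiff _
  refine (h2.clm_apply h1).congr_of_eventuallyEq (Filter.Eventually.of_forall fun θ => ?_)
  have h4 := (trivializationAt F (TangentSpace 𝓘(ℝ, F)) q).symmL_continuousLinearMapAt (R := ℝ)
    (mem_baseSet_trivializationAt F (TangentSpace 𝓘(ℝ, F)) q) (v θ)
  have h5 : (trivializationAt F (TangentSpace 𝓘(ℝ, F)) q).continuousLinearMapAt ℝ q (v θ) =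
      (trivializationAt F (TangentSpace 𝓘(ℝ, F)) q (⟨q, v θ⟩ : TangentBundle 𝓘(ℝ, F) L)).2 := by
    rw [Trivialization.continuousLinearMapAt_apply,
      Trivialization.coe_linearMapAt_of_mem (R := ℝ) _
        (mem_baseSet_trivializationAt F (TangentSpace 𝓘(ℝ, F)) q)]
  rw [h5] at h4
  exact (congrArg θ h4).symm

/-- Vertical vectors at the zero section. -/
def vertV (q : L) (p : F →L[ℝ] ℝ) : TangentSpace (IC F) (zeroC q : Cotangent F L) :=
  mfderiv 𝓘(ℝ, F →L[ℝ] ℝ) (IC F) (incl q) 0 p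

/-- Horizontal vectors at the zero section. -/
def horV (q : L) (v : TangentSpace 𝓘(ℝ, F) q) :
    TangentSpace (IC F) (zeroC q : Cotangent F L) :=
  mfderiv 𝓘(ℝ, F) (IC F) (zeroC : L → Cotangent F L) q v

lemma mfderiv_proj_horV (q : L) (v : TangentSpace 𝓘(ℝ, F) q) :
    mfderiv (IC F) 𝓘(ℝ, F) (TotalSpace.proj : Cotangent F L → L) (zeroC q) (horV q v) = v := by
  have h1 := mfderiv_comp (I := 𝓘(ℝ, F)) (I' := IC F) (I'' := 𝓘(ℝ, F)) q
    (contMDiff_projC.mdifferentiableAt (by simp) (x := (zeroC q : Cotangent F L)))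
    (contMDiff_zeroC.mdifferentiableAt (by simp))
  have h2 : ((TotalSpace.proj : Cotangent F L → L) ∘ zeroC) = id := rfl
  rw [h2, mfderiv_id] at h1
  exact (DFunLike.congr_fun h1 v).symm

lemma mfderiv_proj_vertV (q : L) (p : F →L[ℝ] ℝ) :
    mfderiv (IC F) 𝓘(ℝ, F) (TotalSpace.proj : Cotangent F L → L) (zeroC q) (vertV q p) = 0 := by
  have h1 := mfderiv_comp (I := 𝓘(ℝ, F →L[ℝ] ℝ)) (I' := IC F) (I'' := 𝓘(ℝ, F)) (0 : F →L[ℝ] ℝ)
    (contMDiff_projC.mdifferentiableAt (by simp) (x := incl q 0))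
    ((contMDiff_incl q).mdifferentiableAt (by simp))
  have h2 : ((TotalSpace.proj : Cotangent F L → L) ∘ incl q) = fun _ => q := rfl
  rw [h2, mfderiv_const] at h1
  exact (DFunLike.congr_fun h1 p).symm

lemma canForm_zeroC (q : L) (w : TangentSpace (IC F) (zeroC q : Cotangent F L)) :
    canForm (zeroC q) w = 0 := rfl

lemma extDer_hor_hor (q : L) (v v' : TangentSpace 𝓘(ℝ, F) q) :
    extDer (IC F) (canForm : (ξ : Cotangent F L) → _) (zeroC q) (horV q v) (horV q v') = 0 := by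
  have h1 := extDer_pull (I := IC F) (J := 𝓘(ℝ, F)) (contMDiff_zeroC (F := F) (L := L))
    smoothForm_canForm q v v'
  have h2 : pullForm (IC F) 𝓘(ℝ, F) (zeroC : L → Cotangent F L) canForm =
      dForm 𝓘(ℝ, F) (fun _ : L => (0:ℝ)) := by
    ext1 q
    have h3 : dForm 𝓘(ℝ, F) (fun _ : L => (0:ℝ)) q = 0 := mfderiv_const
    rw [h3]
    refine ContinuousLinearMap.ext fun u => ?_
    rfl
  rw [h2, extDer_dForm contMDiff_const] at h1
  exact h1.symm

lemma extDer_vert_hor (q : L) (p : F →L[ℝ] ℝ) (v : TangentSpace 𝓘(ℝ, F) q) :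
    extDer (IC F) (canForm : (ξ : Cotangent F L) → _) (zeroC q) (vertV q p) (horV q v) = p v := by
  -- a local section through `p`
  let e := trivializationAt (F →L[ℝ] ℝ) (fun x : L => TangentSpace 𝓘(ℝ, F) x →L[ℝ] ℝ) q
  have hq : q ∈ e.baseSet := mem_baseSet_trivializationAt _ _ q
  let a : F →L[ℝ] ℝ := (e (incl q p)).2
  let σ : L → Cotangent F L := fun q' => e.toOpenPartialHomeomorph.symm (q', a)
  have hσs : ContMDiffOn 𝓘(ℝ, F) (IC F) ∞ σ e.baseSet := by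
    refine (Bundle.Trivialization.contMDiffOn_symm (n := ∞) (IB := 𝓘(ℝ, F)) e).comp
      (contMDiffOn_id.prodMk contMDiffOn_const) ?_
    intro q' hq'
    rw [e.target_eq]
    exact ⟨hq', mem_univ _⟩
  have hσq : σ q = incl q p := by
    have h1 : incl q p ∈ e.source := by rw [e.mem_source]; exact hq
    have h2 : e (incl q p) = (q, a) := by
      refine Prod.ext ?_ rfl
      exact e.coe_fst h1
    show e.toOpenPartialHomeomorph.symm (q, a) = incl q p
    rw [← h2]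
    exact e.toOpenPartialHomeomorph.left_inv h1
  have hσp : ∀ q' ∈ e.baseSet, (σ q').proj = q' := fun q' hq' => e.proj_symm_apply' hq'
  -- the two-parameter family
  let i : ℝ × L → Cotangent F L := fun x => scal x.1 (σ x.2)
  have hD : IsOpen ((univ : Set ℝ) ×ˢ e.baseSet) := isOpen_univ.prod e.open_baseSet
  have hi : ContMDiffOn (𝓘(ℝ, ℝ).prod 𝓘(ℝ, F)) (IC F) ∞ i (univ ×ˢ e.baseSet) :=
    contMDiff_scal.comp_contMDiffOn (contMDiffOn_fst.prodMk
      (hσs.comp contMDiffOn_snd fun x hx => hx.2))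
  have hmem : ((0:ℝ), q) ∈ (univ : Set ℝ) ×ˢ e.baseSet := ⟨mem_univ _, hq⟩
  have h1 := hasDerivAt_variation (I := IC F) (J := 𝓘(ℝ, F)) smoothForm_canForm hD hi hmem v
  -- the second term vanishes
  have h2 : (fun x' => canForm (i (0, x')) (dS (IC F) i 0 x')) = fun _ => (0:ℝ) := by
    ext x'
    have h3 : ∀ (ξ : Cotangent F L) (w : TangentSpace (IC F) (scal 0 ξ)),
        canForm (scal 0 ξ) w = 0 := by
      intro ξ w
      show ((0:ℝ) • ξ.2) _ = 0
      rw [zero_smul]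
      rfl
    exact h3 _ _
  have h3 : mfderiv 𝓘(ℝ, F) 𝓘(ℝ, ℝ) (fun x' => canForm (i (0, x')) (dS (IC F) i 0 x')) q = 0 := by
    rw [h2]; exact mfderiv_const
  have h3' : (show ℝ from mfderiv 𝓘(ℝ, F) 𝓘(ℝ, ℝ)
      (fun x' => canForm (i (0, x')) (dS (IC F) i 0 x')) q v) = 0 := DFunLike.congr_fun h3 v
  rw [h3', add_zero] at h1
  -- the function is linear
  have h4 : (fun s => canForm (i (s, q)) (dX (IC F) 𝓘(ℝ, F) i s q v)) = fun s => s * p v := by
    ext s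
    have hd : MDifferentiableAt 𝓘(ℝ, F) (IC F) (fun q' => i (s, q')) q :=
      mdifferentiableAt_slice hD hi (s := s) ⟨mem_univ _, hq⟩
    have h5 := mfderiv_comp (I := 𝓘(ℝ, F)) (I' := IC F) (I'' := 𝓘(ℝ, F)) q
      (contMDiff_projC.mdifferentiableAt (by simp) (x := i (s, q))) hd
    have h6 : ((TotalSpace.proj : Cotangent F L → L) ∘ fun q' => i (s, q')) =ᶠ[𝓝 q] id := by
      filter_upwards [e.open_baseSet.mem_nhds hq] with q' hq'
      exact hσp q' hq'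
    have h7 : (mfderiv (IC F) 𝓘(ℝ, F) (TotalSpace.proj : Cotangent F L → L) (i (s, q))
        (dX (IC F) 𝓘(ℝ, F) i s q v) : F) = v := by
      have h8 := DFunLike.congr_fun h5 v
      refine h8.symm.trans ?_
      have h9 := tangentMap_congr_of_eventuallyEq (J := 𝓘(ℝ, F)) (I := 𝓘(ℝ, F))
        (v := (⟨q, v⟩ : TangentBundle 𝓘(ℝ, F) L)) h6
      rw [tangentMap_id] at h9
      have h10 : ∀ (V W : TangentBundle 𝓘(ℝ, F) L), V = W → (V.2 : F) = (W.2 : F) := by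
        rintro V W rfl; rfl
      exact h10 _ _ h9
    have h8 : ∀ ξ : Cotangent F L, ξ = incl q p → (ξ.2 : F →L[ℝ] ℝ) = p := by
      rintro ξ rfl; rfl
    have h9 : canForm (i (s, q)) (dX (IC F) 𝓘(ℝ, F) i s q v) =
        s * (show F →L[ℝ] ℝ from (σ q).2) (show F from (mfderiv (IC F) 𝓘(ℝ, F)
        (TotalSpace.proj : Cotangent F L → L) (i (s, q)) (dX (IC F) 𝓘(ℝ, F) i s q v))) := rfl
    rw [h9, h7, h8 _ hσq]
  rw [h4] at h1
  have h5 : HasDerivAt (fun s : ℝ => s * p v) (p v) 0 := by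
    simpa using (hasDerivAt_id (0:ℝ)).mul_const (p v)
  have h6 := h5.unique h1
  rw [h6]
  -- identify the vectors
  have h7 : i (0, q) = zeroC q := by
    show scal 0 (σ q) = zeroC q
    rw [hσq]
    exact scal_zero _
  have h8 : (dS (IC F) i 0 q : F × (F →L[ℝ] ℝ)) = vertV q p := by
    have h9 : (fun s : ℝ => i (s, q)) = incl q ∘ (fun s : ℝ => s • p) := by
      ext1 s
      show scal s (σ q) = _
      rw [hσq]
      rfl
    have h10 : HasMFDerivAt 𝓘(ℝ, ℝ) 𝓘(ℝ, F →L[ℝ] ℝ) (fun s : ℝ => s • p) 0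
        ((1 : ℝ →L[ℝ] ℝ).smulRight p) := by
      have h20 : HasFDerivAt (fun s : ℝ => s • p) ((1 : ℝ →L[ℝ] ℝ).smulRight p) 0 :=
        (hasFDerivAt_id (𝕜 := ℝ) (0:ℝ)).smul_const p
      exact h20.hasMFDerivAt
    have h11 : MDifferentiableAt 𝓘(ℝ, F →L[ℝ] ℝ) (IC F) (incl q) ((0:ℝ) • p) :=
      (contMDiff_incl q).mdifferentiableAt (by simp)
    have h12 := (h11.hasMFDerivAt.comp 0 h10).mfderiv
    have h13 : dS (IC F) i 0 q = mfderiv 𝓘(ℝ, ℝ) (IC F) (incl q ∘ (fun s : ℝ => s • p)) 0 (1:ℝ) := by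
      unfold dS
      rw [h9]
      rfl
    have h14 := DFunLike.congr_fun h12 (1:ℝ)
    refine h13.trans (h14.trans ?_)
    have h15 : ∀ z : F →L[ℝ] ℝ, z = 0 → ∀ w : F →L[ℝ] ℝ, w = p →
        (mfderiv 𝓘(ℝ, F →L[ℝ] ℝ) (IC F) (incl q) z w : F × (F →L[ℝ] ℝ)) = vertV q p := by
      rintro z rfl w rfl; rfl
    exact h15 _ (zero_smul ℝ p) _ (one_smul ℝ p)
  have h9 : (dX (IC F) 𝓘(ℝ, F) i 0 q v : F × (F →L[ℝ] ℝ)) = horV q v := by
    have h10 : (fun q' => i (0, q')) =ᶠ[𝓝 q] zeroC := by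
      filter_upwards [e.open_baseSet.mem_nhds hq] with q' hq'
      show scal 0 (σ q') = zeroC q'
      rw [scal_zero]
      have := hσp q' hq'
      rw [this]
    have h11 := tangentMap_congr_of_eventuallyEq (J := 𝓘(ℝ, F)) (I := IC F)
        (v := (⟨q, v⟩ : TangentBundle 𝓘(ℝ, F) L)) h10
    have h12 : ∀ (V W : TangentBundle (IC F) (Cotangent F L)), V = W →
        (V.2 : F × (F →L[ℝ] ℝ)) = (W.2 : F × (F →L[ℝ] ℝ)) := by
      rintro V W rfl; rfl
    exact h12 _ _ h11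
  have h10 : ∀ (z : Cotangent F L), z = zeroC q → ∀ a b a' b' : F × (F →L[ℝ] ℝ), a = a' → b = b' →
      extDer (IC F) (canForm : (ξ : Cotangent F L) → _) z a b =
      extDer (IC F) (canForm : (ξ : Cotangent F L) → _) (zeroC q) a' b' := by
    rintro z rfl a b a' b' rfl rfl; rfl
  exact (h10 _ h7 _ _ _ _ h8 h9).symm

/-- Tangent vectors at the zero section are sums of horizontal and vertical vectors. -/
lemma exists_hor_vert (q : L) (u : TangentSpace (IC F) (zeroC q : Cotangent F L)) :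
    ∃ (v : TangentSpace 𝓘(ℝ, F) q) (p : F →L[ℝ] ℝ), u = horV q v + vertV q p := by
  let Λ : F × (F →L[ℝ] ℝ) →ₗ[ℝ] F × (F →L[ℝ] ℝ) :=
    ((show F →L[ℝ] F × (F →L[ℝ] ℝ) from mfderiv 𝓘(ℝ, F) (IC F) (zeroC : L → Cotangent F L) q).comp
      (ContinuousLinearMap.fst ℝ F (F →L[ℝ] ℝ)) +
    (show (F →L[ℝ] ℝ) →L[ℝ] F × (F →L[ℝ] ℝ) from
      mfderiv 𝓘(ℝ, F →L[ℝ] ℝ) (IC F) (incl q : (F →L[ℝ] ℝ) → Cotangent F L) 0).comp
      (ContinuousLinearMap.snd ℝ F (F →L[ℝ] ℝ)) :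
    F × (F →L[ℝ] ℝ) →L[ℝ] F × (F →L[ℝ] ℝ))
  have hΛ : ∀ x : F × (F →L[ℝ] ℝ), Λ x = (horV q x.1 + vertV q x.2 :
      TangentSpace (IC F) (zeroC q : Cotangent F L)) := fun x => rfl
  have hinj : Function.Injective Λ := by
    rw [injective_iff_map_eq_zero]
    rintro ⟨v, p⟩ h
    rw [hΛ] at h
    have h1 : (horV q v + vertV q p : TangentSpace (IC F) (zeroC q : Cotangent F L)) = 0 := h
    have h2 : (v : F) = 0 := by
      have h3 := congrArg (mfderiv (IC F) 𝓘(ℝ, F) (TotalSpace.proj : Cotangent F L → L)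
        (zeroC q)) h1
      rw [map_add, map_zero] at h3
      have h4 := mfderiv_proj_horV (F := F) q v
      have h5 := mfderiv_proj_vertV (F := F) q p
      have h6 := congrArg₂ (fun (a b : F) => a + b) h4 h5
      have h7 := h6.symm.trans h3
      exact (add_zero (v : F)).symm.trans h7
    have h3 : p = 0 := by
      refine ContinuousLinearMap.ext fun v' => ?_
      have h4 : (vertV q p : TangentSpace (IC F) (zeroC q : Cotangent F L)) = 0 := by
        rw [h2] at h1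
        have h5 : (horV q (0:F) : TangentSpace (IC F) (zeroC q : Cotangent F L)) = 0 :=
          map_zero _
        rw [h5, zero_add] at h1
        exact h1
      have h5 := extDer_vert_hor q p (v' : TangentSpace 𝓘(ℝ, F) q)
      rw [h4] at h5
      have h6 : extDerL (IC F) (canForm : (ξ : Cotangent F L) → _) (zeroC q) 0 (horV q v') = 0 := by
        rw [map_zero]; rfl
      exact h5.symm.trans h6
    rw [h2, h3]
    rfl
  have hsurj := LinearMap.injective_iff_surjective.1 hinj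
  obtain ⟨x, hx⟩ := hsurj u
  exact ⟨x.1, x.2, hx.symm⟩

/-- The function on the cotangent bundle given by pairing with a vector field. -/
def cfun (v : (q : L) → TangentSpace 𝓘(ℝ, F) q) (ξ : Cotangent F L) : ℝ := ξ.2 (v ξ.1)

lemma contMDiff_cfun {v : (q : L) → TangentSpace 𝓘(ℝ, F) q}
    (hv : ContMDiff 𝓘(ℝ, F) 𝓘(ℝ, F).tangent ∞
      (fun q => (⟨q, v q⟩ : TangentBundle 𝓘(ℝ, F) L))) :
    ContMDiff (IC F) 𝓘(ℝ, ℝ) ∞ (cfun v) := by
  intro ξ
  exact contMDiffAt_cot_pairing (J := IC F) (f := fun ξ : Cotangent F L => ξ)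
    (v := fun ξ => v ξ.1) contMDiffAt_id ((hv _).comp ξ (contMDiff_projC ξ))

lemma cfun_zeroC (v : (q : L) → TangentSpace 𝓘(ℝ, F) q) (q : L) :
    cfun v (zeroC q : Cotangent F L) = 0 := rfl

lemma dForm_cfun_hor {v : (q : L) → TangentSpace 𝓘(ℝ, F) q}
    (hv : ContMDiff 𝓘(ℝ, F) 𝓘(ℝ, F).tangent ∞
      (fun q => (⟨q, v q⟩ : TangentBundle 𝓘(ℝ, F) L))) (q : L) (w : TangentSpace 𝓘(ℝ, F) q) :
    dForm (IC F) (cfun v) (zeroC q) (horV q w) = 0 := by
  have h1 := mfderiv_comp (I := 𝓘(ℝ, F)) (I' := IC F) (I'' := 𝓘(ℝ, ℝ)) q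
    ((contMDiff_cfun hv).mdifferentiableAt (by simp) (x := (zeroC q : Cotangent F L)))
    (contMDiff_zeroC.mdifferentiableAt (by simp))
  have h2 : (cfun v ∘ (zeroC : L → Cotangent F L)) = fun _ => (0:ℝ) := rfl
  rw [h2, mfderiv_const] at h1
  exact (DFunLike.congr_fun h1 w).symm

lemma dForm_cfun_vert {v : (q : L) → TangentSpace 𝓘(ℝ, F) q}
    (hv : ContMDiff 𝓘(ℝ, F) 𝓘(ℝ, F).tangent ∞
      (fun q => (⟨q, v q⟩ : TangentBundle 𝓘(ℝ, F) L))) (q : L) (p : F →L[ℝ] ℝ) :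
    dForm (IC F) (cfun v) (zeroC q) (vertV q p) = p (v q) := by
  have h1 := mfderiv_comp (I := 𝓘(ℝ, F →L[ℝ] ℝ)) (I' := IC F) (I'' := 𝓘(ℝ, ℝ)) (0 : F →L[ℝ] ℝ)
    ((contMDiff_cfun hv).mdifferentiableAt (by simp) (x := incl q 0))
    ((contMDiff_incl q).mdifferentiableAt (by simp))
  have h2 : (cfun v ∘ (incl q : (F →L[ℝ] ℝ) → Cotangent F L)) =
      ContinuousLinearMap.apply ℝ ℝ (show F from v q) := rfl
  have h3 : mfderiv 𝓘(ℝ, F →L[ℝ] ℝ) 𝓘(ℝ, ℝ)
      (cfun v ∘ (incl q : (F →L[ℝ] ℝ) → Cotangent F L)) 0 =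
      ContinuousLinearMap.apply ℝ ℝ (show F from v q) := by
    rw [h2, mfderiv_eq_fderiv]
    exact (ContinuousLinearMap.apply ℝ ℝ (show F from v q)).fderiv
  exact (DFunLike.congr_fun (h1.symm.trans h3) p)

end Pool.Agent.Helper186
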