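import Mathlib
import Pool.Agent.Helper186.Isotopy

/-! Conformally symplectic flows with equivalent germs are equivalent. -/

open scoped Topology ContDiff Manifold
open Set Metric Bundle

noncomputable section

namespace Pool.Agent.Helper186

set_option linter.unusedSectionVars false

universe u

variable {E : Type u} [NormedAddCommGroup E] [NormedSpace ℝ E] [FiniteDimensional ℝ E]
  {H : Type*} [TopologicalSpace H] {I : ModelWithCorners ℝ E H} [I.Boundaryless]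
  {X : Type*} [TopologicalSpace X] [ChartedSpace H X] [IsManifold I ∞ X]
  {E' : Type*} [NormedAddCommGroup E'] [NormedSpace ℝ E'] [FiniteDimensional ℝ E']
  {H' : Type*} [TopologicalSpace H'] {J : ModelWithCorners ℝ E' H'} [J.Boundaryless]
  {N : Type*} [TopologicalSpace N] [ChartedSpace H' N] [IsManifold J ∞ N]

/-- A smooth flow conformally rescaling a one-form. -/
structure ConfFlow (I : ModelWithCorners ℝ E H) (lam : (x : X) → TangentSpace I x →L[ℝ] ℝ) where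
  φ : ℝ → X → X
  smooth : ContMDiff (𝓘(ℝ, ℝ).prod I) I ∞ (fun p : ℝ × X => φ p.1 p.2)
  zero : ∀ x, φ 0 x = x
  add : ∀ s t x, φ (s + t) x = φ s (φ t x)
  conf : ∀ t x (u : TangentSpace I x), lam (φ t x) (mfderiv I I (φ t) x u) = Real.exp t * lam x u

namespace ConfFlow

variable {lam : (x : X) → TangentSpace I x →L[ℝ] ℝ} (F : ConfFlow I lam)

lemma smooth_slice (t : ℝ) : ContMDiff I I ∞ (F.φ t) :=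
  F.smooth.comp (contMDiff_const.prodMk contMDiff_id)

lemma mdiff (t : ℝ) (x : X) : MDifferentiableAt I I (F.φ t) x :=
  (F.smooth_slice t).mdifferentiableAt (by simp)

lemma neg_left (t : ℝ) (x : X) : F.φ (-t) (F.φ t x) = x := by
  rw [← F.add, neg_add_cancel, F.zero]

lemma neg_right (t : ℝ) (x : X) : F.φ t (F.φ (-t) x) = x := by
  rw [← F.add, add_neg_cancel, F.zero]

lemma continuous : Continuous (fun p : ℝ × X => F.φ p.1 p.2) := F.smooth.continuous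

lemma continuous_slice (t : ℝ) : Continuous (F.φ t) := (F.smooth_slice t).continuous

/-- The flow at time `t` as a homeomorphism. -/
def homeo (t : ℝ) : X ≃ₜ X where
  toFun := F.φ t
  invFun := F.φ (-t)
  left_inv := F.neg_left t
  right_inv := F.neg_right t
  continuous_toFun := F.continuous_slice t
  continuous_invFun := F.continuous_slice (-t)

lemma pb (t : ℝ) (x : X) : PB lam lam (F.φ t) (Real.exp t) (fun _ => 0) x := by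
  intro u
  rw [F.conf]
  have h1 : mfderiv I 𝓘(ℝ, ℝ) (fun _ : X => (0:ℝ)) x = 0 := mfderiv_const
  have h2 : (show ℝ from mfderiv I 𝓘(ℝ, ℝ) (fun _ : X => (0:ℝ)) x u) = 0 :=
    DFunLike.congr_fun h1 u
  rw [h2, add_zero]

end ConfFlow

/-- The data of an equivalence of germs. -/
structure GermData (I : ModelWithCorners ℝ E H) (J : ModelWithCorners ℝ E' H')
    (lam : (x : X) → TangentSpace I x →L[ℝ] ℝ) (β : (x : N) → TangentSpace J x →L[ℝ] ℝ) where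
  F : ConfFlow I lam
  G : ConfFlow J β
  w : N → X
  w' : X → N
  O : Set N
  A : Set X
  B : Set X
  Q : Set N
  g : X → ℝ
  T₀ : ℝ
  s₀ : ℝ
  O_open : IsOpen O
  A_open : IsOpen A
  w_maps : MapsTo w O A
  w'_maps : MapsTo w' A O
  w'_w : ∀ ξ ∈ O, w' (w ξ) = ξ
  w_w' : ∀ x ∈ A, w (w' x) = x
  w_smooth : ContMDiffOn J I ∞ w O
  w'_smooth : ContMDiffOn I J ∞ w' A
  g_smooth : ContMDiffOn I 𝓘(ℝ, ℝ) ∞ g A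
  w'_form : ∀ x ∈ A, PB lam β w' 1 (fun x => - g x) x
  B_sub : B ⊆ A
  B_inv : ∀ r ≥ 0, MapsTo (F.φ (-r)) B B
  Q_compact : IsCompact Q
  Q_sub : Q ⊆ O
  Q_inv : ∀ r ≥ 0, MapsTo (G.φ (-r)) Q Q
  wQ_B : MapsTo w Q B
  T₀_nonneg : 0 ≤ T₀
  T₀_spec : ∀ r ≥ T₀, ∀ x ∈ B, w' (F.φ (-r) x) ∈ interior Q
  s₀_nonneg : 0 ≤ s₀
  s₀_spec : ∀ r ≥ s₀, ∀ x ∈ B, G.φ (-r) (w' x) ∈ interior Q
  absorb : ∀ x, ∃ t₀, ∀ t ≥ t₀, F.φ (-t) x ∈ A ∧ w' (F.φ (-t) x) ∈ interior Q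
  absorb' : ∀ ξ, ∃ t₀, ∀ t ≥ t₀, G.φ (-t) ξ ∈ interior Q

namespace GermData

variable {lam : (x : X) → TangentSpace I x →L[ℝ] ℝ} {β : (x : N) → TangentSpace J x →L[ℝ] ℝ}
  (𝒟 : GermData I J lam β)

/-- total time -/
def T : ℝ := 𝒟.T₀ + 𝒟.s₀ + 1

lemma T_pos : 0 < 𝒟.T := by
  have := 𝒟.T₀_nonneg
  have := 𝒟.s₀_nonneg
  unfold T; linarith

/-- The isotopy from the flow on `X` to the flow of the model. -/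
def i (p : ℝ × X) : X := 𝒟.w (𝒟.G.φ (-p.1) (𝒟.w' (𝒟.F.φ (p.1 - 𝒟.T) p.2)))

/-- The domain of `i`. -/
def D : Set (ℝ × X) := {p | 𝒟.F.φ (p.1 - 𝒟.T) p.2 ∈ 𝒟.A ∧
  𝒟.G.φ (-p.1) (𝒟.w' (𝒟.F.φ (p.1 - 𝒟.T) p.2)) ∈ 𝒟.O}

/-- The inverse isotopy. -/
def j (p : ℝ × X) : X := 𝒟.F.φ (𝒟.T - p.1) (𝒟.w (𝒟.G.φ p.1 (𝒟.w' p.2)))

/-- The domain of `j`. -/
def D' : Set (ℝ × X) := {p | p.2 ∈ 𝒟.A ∧ 𝒟.G.φ p.1 (𝒟.w' p.2) ∈ 𝒟.O}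

/-- The primitive. -/
def k (p : ℝ × X) : ℝ := 𝒟.g (𝒟.i p) - Real.exp (-p.1) * 𝒟.g (𝒟.F.φ (p.1 - 𝒟.T) p.2)

lemma smooth_u : ContMDiff (𝓘(ℝ, ℝ).prod I) I ∞
    (fun p : ℝ × X => 𝒟.F.φ (p.1 - 𝒟.T) p.2) :=
  𝒟.F.smooth.comp ((contMDiff_fst.sub contMDiff_const).prodMk contMDiff_snd)

lemma smooth_v : ContMDiffOn (𝓘(ℝ, ℝ).prod I) J ∞
    (fun p : ℝ × X => 𝒟.G.φ (-p.1) (𝒟.w' (𝒟.F.φ (p.1 - 𝒟.T) p.2)))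
    ((fun p : ℝ × X => 𝒟.F.φ (p.1 - 𝒟.T) p.2) ⁻¹' 𝒟.A) :=
  𝒟.G.smooth.comp_contMDiffOn (contMDiff_fst.neg.contMDiffOn.prodMk
    (𝒟.w'_smooth.comp 𝒟.smooth_u.contMDiffOn (fun _ hp => hp)))

lemma D_open : IsOpen 𝒟.D :=
  𝒟.smooth_v.continuousOn.isOpen_inter_preimage
    (𝒟.A_open.preimage 𝒟.smooth_u.continuous) 𝒟.O_open

lemma smooth_i : ContMDiffOn (𝓘(ℝ, ℝ).prod I) I ∞ 𝒟.i 𝒟.D :=
  𝒟.w_smooth.comp (𝒟.smooth_v.mono (fun _ hp => hp.1)) (fun _ hp => hp.2)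

lemma smooth_v' : ContMDiffOn (𝓘(ℝ, ℝ).prod I) J ∞
    (fun p : ℝ × X => 𝒟.G.φ p.1 (𝒟.w' p.2)) (Prod.snd ⁻¹' 𝒟.A) :=
  𝒟.G.smooth.comp_contMDiffOn (contMDiffOn_fst.prodMk
    (𝒟.w'_smooth.comp contMDiffOn_snd (fun _ hp => hp)))

lemma D'_open : IsOpen 𝒟.D' :=
  𝒟.smooth_v'.continuousOn.isOpen_inter_preimage
    (𝒟.A_open.preimage continuous_snd) 𝒟.O_open

lemma smooth_j : ContMDiffOn (𝓘(ℝ, ℝ).prod I) I ∞ 𝒟.j 𝒟.D' :=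
  𝒟.F.smooth.comp_contMDiffOn ((contMDiff_const.sub contMDiff_fst).contMDiffOn.prodMk
    (𝒟.w_smooth.comp (𝒟.smooth_v'.mono (fun _ hp => hp.1)) (fun _ hp => hp.2)))

lemma i_j (s : ℝ) (x : X) (h : (s, x) ∈ 𝒟.D) :
    (s, 𝒟.i (s, x)) ∈ 𝒟.D' ∧ 𝒟.j (s, 𝒟.i (s, x)) = x := by
  obtain ⟨h1, h2⟩ := h
  simp only at h1 h2
  have h3 : 𝒟.G.φ s (𝒟.w' (𝒟.i (s, x))) = 𝒟.w' (𝒟.F.φ (s - 𝒟.T) x) := by
    simp only [i]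
    rw [𝒟.w'_w _ h2, 𝒟.G.neg_right]
  refine ⟨⟨𝒟.w_maps h2, ?_⟩, ?_⟩
  · simp only
    rw [h3]
    exact 𝒟.w'_maps h1
  · simp only [j]
    rw [h3, 𝒟.w_w' _ h1, ← 𝒟.F.add, sub_add_sub_cancel, sub_self, 𝒟.F.zero]

lemma j_i (s : ℝ) (y : X) (h : (s, y) ∈ 𝒟.D') :
    (s, 𝒟.j (s, y)) ∈ 𝒟.D ∧ 𝒟.i (s, 𝒟.j (s, y)) = y := by
  obtain ⟨h1, h2⟩ := h
  simp only at h1 h2
  have h3 : 𝒟.F.φ (s - 𝒟.T) (𝒟.j (s, y)) = 𝒟.w (𝒟.G.φ s (𝒟.w' y)) := by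
    simp only [j]
    rw [← 𝒟.F.add, sub_add_sub_cancel, sub_self, 𝒟.F.zero]
  have h4 : 𝒟.G.φ (-s) (𝒟.w' (𝒟.F.φ (s - 𝒟.T) (𝒟.j (s, y)))) = 𝒟.w' y := by
    rw [h3, 𝒟.w'_w _ h2, 𝒟.G.neg_left]
  refine ⟨⟨?_, ?_⟩, ?_⟩
  · simp only
    rw [h3]
    exact 𝒟.w_maps h2
  · simp only
    rw [h4]
    exact 𝒟.w'_maps h1
  · simp only [i]
    rw [h4, 𝒟.w_w' _ h1]

lemma smooth_k : ContMDiffOn (𝓘(ℝ, ℝ).prod I) 𝓘(ℝ, ℝ) ∞ 𝒟.k 𝒟.D := by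
  have h1 : ContMDiffOn (𝓘(ℝ, ℝ).prod I) 𝓘(ℝ, ℝ) ∞ (fun p => 𝒟.g (𝒟.i p)) 𝒟.D :=
    𝒟.g_smooth.comp 𝒟.smooth_i (fun p hp => 𝒟.w_maps hp.2)
  have h2 : ContMDiffOn (𝓘(ℝ, ℝ).prod I) 𝓘(ℝ, ℝ) ∞
      (fun p : ℝ × X => 𝒟.g (𝒟.F.φ (p.1 - 𝒟.T) p.2)) 𝒟.D :=
    𝒟.g_smooth.comp 𝒟.smooth_u.contMDiffOn (fun p hp => hp.1)
  have h3 : ContMDiff (𝓘(ℝ, ℝ).prod I) 𝓘(ℝ, ℝ) ∞
      (fun p : ℝ × X => Real.exp (-p.1)) := by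
    have h4 : ContDiff ℝ ∞ (fun s : ℝ => Real.exp (-s)) := Real.contDiff_exp.comp contDiff_neg
    exact h4.contMDiff.comp contMDiff_fst
  exact h1.sub (h3.contMDiffOn.mul h2)

lemma w_form (ξ : N) (hξ : ξ ∈ 𝒟.O) : PB β lam 𝒟.w 1 (fun ζ => 𝒟.g (𝒟.w ζ)) ξ := by
  refine PB.inv (𝒟.w'_form _ (𝒟.w_maps hξ)) ?_ ?_ ?_ ?_
  · filter_upwards [𝒟.O_open.mem_nhds hξ] with ζ hζ
    exact 𝒟.w'_w ζ hζ
  · exact (𝒟.w_smooth.contMDiffAt (𝒟.O_open.mem_nhds hξ)).mdifferentiableAt (by simp)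
  · exact (𝒟.w'_smooth.contMDiffAt
      (𝒟.A_open.mem_nhds (𝒟.w_maps hξ))).mdifferentiableAt (by simp)
  · exact (𝒟.g_smooth.contMDiffAt
      (𝒟.A_open.mem_nhds (𝒟.w_maps hξ))).mdifferentiableAt (by simp)

lemma pb_i (s : ℝ) (x : X) (h : (s, x) ∈ 𝒟.D) :
    PB lam lam (fun x' => 𝒟.i (s, x')) (Real.exp (-𝒟.T)) (fun x' => 𝒟.k (s, x')) x := by
  obtain ⟨h1, h2⟩ := h
  simp only at h1 h2
  have hgd : MDifferentiableAt I 𝓘(ℝ, ℝ) 𝒟.g (𝒟.F.φ (s - 𝒟.T) x) :=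
    (𝒟.g_smooth.contMDiffAt (𝒟.A_open.mem_nhds h1)).mdifferentiableAt (by simp)
  have hw'd : MDifferentiableAt I J 𝒟.w' (𝒟.F.φ (s - 𝒟.T) x) :=
    (𝒟.w'_smooth.contMDiffAt (𝒟.A_open.mem_nhds h1)).mdifferentiableAt (by simp)
  have hwd : MDifferentiableAt J I 𝒟.w (𝒟.G.φ (-s) (𝒟.w' (𝒟.F.φ (s - 𝒟.T) x))) :=
    (𝒟.w_smooth.contMDiffAt (𝒟.O_open.mem_nhds h2)).mdifferentiableAt (by simp)
  have hgwd : MDifferentiableAt J 𝓘(ℝ, ℝ) (fun ζ => 𝒟.g (𝒟.w ζ))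
      (𝒟.G.φ (-s) (𝒟.w' (𝒟.F.φ (s - 𝒟.T) x))) := by
    have : MDifferentiableAt I 𝓘(ℝ, ℝ) 𝒟.g (𝒟.w (𝒟.G.φ (-s) (𝒟.w' (𝒟.F.φ (s - 𝒟.T) x)))) :=
      (𝒟.g_smooth.contMDiffAt (𝒟.A_open.mem_nhds (𝒟.w_maps h2))).mdifferentiableAt (by simp)
    exact this.comp _ hwd
  -- `w' ∘ φ`
  have a1 := PB.comp (𝒟.w'_form _ h1) (𝒟.F.pb (s - 𝒟.T) x) (𝒟.F.mdiff _ _) hw'd
    mdifferentiableAt_const hgd.neg
  have a1d : MDifferentiableAt I J (𝒟.w' ∘ 𝒟.F.φ (s - 𝒟.T)) x := hw'd.comp x (𝒟.F.mdiff _ _)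
  have k1d : MDifferentiableAt I 𝓘(ℝ, ℝ)
      (fun x => 1 * 0 + -𝒟.g (𝒟.F.φ (s - 𝒟.T) x)) x := by
    have : MDifferentiableAt I 𝓘(ℝ, ℝ) (fun x => 𝒟.g (𝒟.F.φ (s - 𝒟.T) x)) x :=
      hgd.comp x (𝒟.F.mdiff _ _)
    exact mdifferentiableAt_const.add this.neg
  -- `m ∘ w' ∘ φ`
  have a2 := PB.comp (𝒟.G.pb (-s) ((𝒟.w' ∘ 𝒟.F.φ (s - 𝒟.T)) x)) a1 a1d (𝒟.G.mdiff _ _) k1d
    mdifferentiableAt_const
  have a2d : MDifferentiableAt I J (𝒟.G.φ (-s) ∘ 𝒟.w' ∘ 𝒟.F.φ (s - 𝒟.T)) x :=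
    (𝒟.G.mdiff _ _).comp x a1d
  have k2d : MDifferentiableAt I 𝓘(ℝ, ℝ) (fun x => Real.exp (-s) *
      (1 * 0 + -𝒟.g (𝒟.F.φ (s - 𝒟.T) x)) + 0) x := by
    have h3 : MDifferentiableAt I 𝓘(ℝ, ℝ) (fun x => Real.exp (-s) *
      (1 * 0 + -𝒟.g (𝒟.F.φ (s - 𝒟.T) x))) x := by
      have h4 : DifferentiableAt ℝ (fun r : ℝ => Real.exp (-s) * r)
        (1 * 0 + -𝒟.g (𝒟.F.φ (s - 𝒟.T) x)) := by fun_prop
      exact (mdifferentiableAt_iff_differentiableAt.2 h4).comp x k1d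
    exact h3.add mdifferentiableAt_const
  have a3 := PB.comp (f := 𝒟.G.φ (-s) ∘ 𝒟.w' ∘ 𝒟.F.φ (s - 𝒟.T)) (x := x) (𝒟.w_form _ h2)
    a2 a2d hwd k2d hgwd
  intro u
  have a4 := a3.congr (f' := fun x' => 𝒟.i (s, x')) (k' := fun x' => 𝒟.k (s, x'))
    (Filter.Eventually.of_forall fun y => rfl) (Filter.Eventually.of_forall fun y => by
      simp only [k, i, Function.comp]
      ring) u
  rw [a4]
  have h5 : 1 * (Real.exp (-s) * (1 * Real.exp (s - 𝒟.T))) = Real.exp (-𝒟.T) := by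
    rw [one_mul, one_mul, ← Real.exp_add]
    congr 1; ring
  rw [h5]

/-- the open set on which the model contraction takes place -/
def W : Set X := {x | x ∈ 𝒟.A ∧ 𝒟.w' x ∈ interior 𝒟.Q}

lemma W_open : IsOpen 𝒟.W :=
  𝒟.w'_smooth.continuousOn.isOpen_inter_preimage 𝒟.A_open isOpen_interior

/-- its compact closure -/
def WQ : Set X := {x | x ∈ 𝒟.A ∧ 𝒟.w' x ∈ 𝒟.Q}

lemma WQ_eq : 𝒟.WQ = 𝒟.w '' 𝒟.Q := by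
  ext x
  constructor
  · rintro ⟨h1, h2⟩
    exact ⟨𝒟.w' x, h2, 𝒟.w_w' x h1⟩
  · rintro ⟨ξ, h1, rfl⟩
    refine ⟨𝒟.w_maps (𝒟.Q_sub h1), ?_⟩
    rw [𝒟.w'_w _ (𝒟.Q_sub h1)]
    exact h1

lemma W_sub_WQ : 𝒟.W ⊆ 𝒟.WQ := fun _ h => ⟨h.1, interior_subset h.2⟩

lemma WQ_compact : IsCompact 𝒟.WQ := by
  rw [WQ_eq]
  exact 𝒟.Q_compact.image_of_continuousOn (𝒟.w_smooth.continuousOn.mono 𝒟.Q_sub)

lemma WQ_sub_B : 𝒟.WQ ⊆ 𝒟.B := by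
  rintro x ⟨h1, h2⟩
  have := 𝒟.wQ_B h2
  rwa [𝒟.w_w' x h1] at this

lemma Qint_inv (r : ℝ) (hr : 0 ≤ r) : MapsTo (𝒟.G.φ (-r)) (interior 𝒟.Q) (interior 𝒟.Q) := by
  have h1 : 𝒟.G.φ (-r) '' interior 𝒟.Q ⊆ interior 𝒟.Q := by
    apply interior_maximal
    · exact (image_mono interior_subset).trans (𝒟.Q_inv r hr).image_subset
    · exact (𝒟.G.homeo (-r)).isOpenMap _ isOpen_interior
  intro x hx
  exact h1 (mem_image_of_mem _ hx)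

lemma traj (s : ℝ) (hs : s ∈ Icc 0 𝒟.T) (x : X) (hx : x ∈ 𝒟.WQ) :
    (s, x) ∈ 𝒟.D ∧ 𝒟.i (s, x) ∈ 𝒟.W := by
  have hxB : 𝒟.F.φ (s - 𝒟.T) x ∈ 𝒟.B := by
    have := 𝒟.B_inv (𝒟.T - s) (by linarith [hs.2]) (𝒟.WQ_sub_B hx)
    rwa [neg_sub] at this
  have hxA := 𝒟.B_sub hxB
  have h1 : 𝒟.G.φ (-s) (𝒟.w' (𝒟.F.φ (s - 𝒟.T) x)) ∈ interior 𝒟.Q := by
    by_cases h : 𝒟.s₀ ≤ s
    · exact 𝒟.s₀_spec s h _ hxB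
    · push Not at h
      apply 𝒟.Qint_inv s hs.1
      have := 𝒟.T₀_spec (𝒟.T - s) (by unfold T; linarith) x (𝒟.WQ_sub_B hx)
      rwa [neg_sub] at this
  have h2 : 𝒟.G.φ (-s) (𝒟.w' (𝒟.F.φ (s - 𝒟.T) x)) ∈ 𝒟.O := 𝒟.Q_sub (interior_subset h1)
  refine ⟨⟨hxA, h2⟩, 𝒟.w_maps h2, ?_⟩
  simp only [i]
  rw [𝒟.w'_w _ h2]
  exact h1

end GermData

end Pool.Agent.Helper186
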