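import Mathlib
import Pool.Agent.Helper903.ES.Main

set_option autoImplicit false

namespace H186J

open Finset

variable {V ι : Type*} [DecidableEq V] [Fintype V] [Fintype ι]

/-- number of edges missed by `A` -/
def miss (E : ι → Finset V) (A : Finset V) : ℕ :=
  (univ.filter fun i => Disjoint (E i) A).card

omit [Fintype V] in
theorem miss_anti (E : ι → Finset V) {A B : Finset V} (h : A ⊆ B) : miss E B ≤ miss E A := by
  unfold miss
  apply card_le_card
  intro i hi
  simp only [mem_filter, mem_univ, true_and] at hi ⊢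
  exact Finset.disjoint_of_subset_right h hi

omit [Fintype V] in
theorem miss_insert (E : ι → Finset V) (A : Finset V) (x : V) :
    miss E (insert x A) + (univ.filter fun i => Disjoint (E i) A ∧ x ∈ E i).card = miss E A := by
  classical
  unfold miss
  have : (univ.filter fun i => Disjoint (E i) A) =
      (univ.filter fun i => Disjoint (E i) (insert x A)) ∪
      (univ.filter fun i => Disjoint (E i) A ∧ x ∈ E i) := by
    ext i
    simp only [mem_filter, mem_univ, true_and, mem_union, Finset.disjoint_insert_right]
    tauto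
  rw [this, card_union_of_disjoint]
  rw [Finset.disjoint_left]
  intro i hi hj
  simp only [mem_filter, mem_univ, true_and, Finset.disjoint_insert_right] at hi hj
  exact hi.1 hj.2

theorem sum_deg (E : ι → Finset V) (k : ℕ) (hk : ∀ i, k ≤ (E i).card) (A R : Finset V)
    (hR : R = univ \ A) :
    k * miss E A ≤ ∑ x ∈ R, (univ.filter fun i => Disjoint (E i) A ∧ x ∈ E i).card := by
  classical
  have h1 : ∑ x ∈ R, (univ.filter fun i => Disjoint (E i) A ∧ x ∈ E i).card =
      ∑ i ∈ univ.filter (fun i => Disjoint (E i) A), (E i).card := by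
    simp only [card_eq_sum_ones, sum_filter]
    rw [sum_comm]
    apply sum_congr rfl
    intro i _
    by_cases hd : Disjoint (E i) A
    · simp only [hd, true_and, if_true]
      rw [← sum_filter]
      apply sum_congr _ (fun _ _ => rfl)
      ext x
      simp only [mem_filter, hR, mem_sdiff, mem_univ, true_and]
      constructor
      · rintro ⟨_, h⟩; exact h
      · intro h; exact ⟨fun h' => Finset.disjoint_left.1 hd h h', h⟩
    · simp [hd]
  rw [h1]
  unfold miss
  calc k * (univ.filter fun i => Disjoint (E i) A).card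
      = ∑ i ∈ univ.filter (fun i => Disjoint (E i) A), k := by rw [sum_const, smul_eq_mul, mul_comm]
    _ ≤ _ := sum_le_sum fun i _ => hk i

/-- the potential -/
noncomputable def psi (E : ι → Finset V) (c D : ℝ) (A : Finset V) : ℝ :=
  if (miss E A : ℝ) ≤ c then 0 else D / c + Real.log (miss E A / c)

omit [Fintype V] in
theorem psi_nonneg (E : ι → Finset V) {c D : ℝ} (hc : 0 < c) (hD : 0 ≤ D) (A : Finset V) :
    0 ≤ psi E c D A := by
  unfold psi
  split_ifs with h
  · exact le_rfl
  · push Not at h
    have : 0 ≤ Real.log (miss E A / c) := Real.log_nonneg (by rw [le_div_iff₀ hc]; linarith)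
    positivity

omit [Fintype V] in
theorem psi_step (E : ι → Finset V) {c D : ℝ} (hc : 0 < c) (hD : 0 ≤ D)
    (hdeg : ∀ v, ((univ.filter fun i => v ∈ E i).card : ℝ) ≤ D) (A : Finset V) (x : V)
    (hA : c < miss E A) :
    ((univ.filter fun i => Disjoint (E i) A ∧ x ∈ E i).card : ℝ) / miss E A ≤
      psi E c D A - psi E c D (insert x A) := by
  have hm : (0 : ℝ) < miss E A := lt_trans hc hA
  have hins := miss_insert E A x
  set d := (univ.filter fun i => Disjoint (E i) A ∧ x ∈ E i).card with hd
  have hins' : (miss E (insert x A) : ℝ) = miss E A - d := by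
    have : (miss E (insert x A) : ℝ) + d = miss E A := by exact_mod_cast hins
    linarith
  have hdD : (d : ℝ) ≤ D := by
    refine le_trans ?_ (hdeg x)
    have : d ≤ (univ.filter fun i => x ∈ E i).card := by
      apply card_le_card
      intro i hi
      simp only [mem_filter, mem_univ, true_and] at hi ⊢
      exact hi.2
    exact_mod_cast this
  have hpA : psi E c D A = D / c + Real.log (miss E A / c) := by
    unfold psi; rw [if_neg (not_le.2 hA)]
  by_cases h : (miss E (insert x A) : ℝ) ≤ c
  · have : psi E c D (insert x A) = 0 := by unfold psi; rw [if_pos h]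
    rw [this, hpA, sub_zero]
    have h1 : 0 ≤ Real.log (miss E A / c) := Real.log_nonneg (by rw [le_div_iff₀ hc]; linarith)
    have h2 : (d : ℝ) / miss E A ≤ D / c := by
      rw [div_le_div_iff₀ hm hc]
      have h3 : (d : ℝ) * c ≤ D * c := mul_le_mul_of_nonneg_right hdD hc.le
      have h4 : D * c ≤ D * miss E A := mul_le_mul_of_nonneg_left hA.le hD
      linarith
    linarith
  · have hp : psi E c D (insert x A) = D / c + Real.log (miss E (insert x A) / c) := by
      unfold psi; rw [if_neg h]
    push Not at h
    have hi : (0 : ℝ) < miss E (insert x A) := lt_trans hc h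
    rw [hp, hpA, Real.log_div hm.ne' hc.ne', Real.log_div hi.ne' hc.ne']
    have h1 := Real.one_sub_inv_le_log_of_pos (div_pos hm hi)
    rw [Real.log_div hm.ne' hi.ne', inv_div] at h1
    have h2 : (d : ℝ) / miss E A = 1 - miss E (insert x A) / miss E A := by
      rw [hins']; field_simp; ring
    rw [h2]
    linarith

/-- success: few edges are missed -/
def Ok (E : ι → Finset V) (c : ℝ) (S : Finset V) : Prop := (miss E S : ℝ) ≤ c

theorem cost (E : ι → Finset V) (k : ℕ) (hk1 : 1 ≤ k) (hk : ∀ i, k ≤ (E i).card)
    {c D : ℝ} (hc : 0 < c) (hD : 0 ≤ D)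
    (hdeg : ∀ v, ((univ.filter fun i => v ∈ E i).card : ℝ) ≤ D) (n : ℕ) :
    ∀ (A R : Finset V), R.card = n → R = univ \ A →
      ((ES903.E R (ES903.Fail fun S => Ok E c (A ∪ S)) : ℚ) : ℝ) ≤ ((n : ℝ) + 1) / k * psi E c D A := by
  have hkpos : (0 : ℝ) < k := by exact_mod_cast hk1
  induction n with
  | zero =>
    intro A R hR hRA
    rw [card_eq_zero] at hR
    have hA : A = univ := by
      rw [hR] at hRA
      exact (sdiff_eq_empty_iff_subset.1 hRA.symm).antisymm (subset_univ _) |>.symm
    have hm : miss E A = 0 := by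
      unfold miss
      rw [card_eq_zero, filter_eq_empty_iff]
      intro i _ hd
      obtain ⟨x, hx⟩ := Finset.card_pos.1 (lt_of_lt_of_le hk1 (hk i))
      exact Finset.disjoint_left.1 hd hx (hA ▸ mem_univ x)
    have hOk : ∀ S, Ok E c (A ∪ S) := by
      intro S
      have h1 := miss_anti E (subset_union_left (s₁ := A) (s₂ := S))
      have h2 : miss E (A ∪ S) = 0 := by omega
      unfold Ok
      rw [h2]; simpa using hc.le
    have : ES903.E R (ES903.Fail fun S => Ok E c (A ∪ S)) = 0 := by
      unfold ES903.E ES903.Fail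
      apply sum_eq_zero
      intro S _
      simp [hOk S]
    rw [this]
    have := psi_nonneg E hc hD A
    push_cast
    positivity
  | succ n ih =>
    intro A R hR hRA
    have hps := psi_nonneg E hc hD A
    by_cases hA : (miss E A : ℝ) ≤ c
    · have hOk : ∀ S, Ok E c (A ∪ S) := by
        intro S
        have h1 := miss_anti E (subset_union_left (s₁ := A) (s₂ := S))
        unfold Ok
        have : (miss E (A ∪ S) : ℝ) ≤ miss E A := by exact_mod_cast h1
        linarith
      have : ES903.E R (ES903.Fail fun S => Ok E c (A ∪ S)) = 0 := by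
        unfold ES903.E ES903.Fail
        apply sum_eq_zero
        intro S _
        simp [hOk S]
      rw [this]
      push_cast
      positivity
    · have hA' := not_le.1 hA
      have hm : (0 : ℝ) < miss E A := lt_trans hc hA'
      have key := ES903.E_first R (ES903.Fail fun S => Ok E c (A ∪ S))
      have f0 : ES903.Fail (fun S => Ok E c (A ∪ S)) ∅ = 1 := by
        unfold ES903.Fail
        rw [if_neg]
        show ¬ Ok E c (A ∪ ∅)
        rw [union_empty]; exact hA
      rw [f0] at key
      have hx : ∀ x ∈ R, ((ES903.E (R.erase x) (fun S => ES903.Fail (fun S => Ok E c (A ∪ S)) (insert x S)) : ℚ) : ℝ)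
          ≤ ((n : ℝ) + 1) / k * psi E c D (insert x A) := by
        intro x hx
        have h1 := ih (insert x A) (R.erase x) (by rw [card_erase_of_mem hx, hR]; rfl)
          (by rw [hRA]; ext y; simp only [mem_erase, mem_sdiff, mem_univ, true_and, mem_insert]; tauto)
        refine le_trans (le_of_eq ?_) h1
        congr 2
        funext S
        have hS : A ∪ insert x S = insert x A ∪ S := by rw [union_insert, insert_union]
        apply le_antisymm
        · apply ES903.Fail_mono
          intro h
          show Ok E c (A ∪ insert x S)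
          rw [hS]; exact h
        · apply ES903.Fail_mono
          intro h
          show Ok E c (insert x A ∪ S)
          rw [← hS]; exact h
      have key' : (∑ x ∈ R, ((ES903.E (R.erase x) (fun S => ES903.Fail (fun S => Ok E c (A ∪ S)) (insert x S)) : ℚ) : ℝ))
          = (n + 1) * (((ES903.E R (ES903.Fail fun S => Ok E c (A ∪ S)) : ℚ) : ℝ) - 1) := by
        have := congrArg (fun q : ℚ => (q : ℝ)) key
        push_cast at this
        rw [this, hR]; push_cast; ring
      have s1 := sum_le_sum hx
      rw [key', ← mul_sum] at s1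
      have s2 : ∑ x ∈ R, ((univ.filter fun i => Disjoint (E i) A ∧ x ∈ E i).card : ℝ) / miss E A ≤
          ∑ x ∈ R, (psi E c D A - psi E c D (insert x A)) :=
        sum_le_sum fun x _ => psi_step E hc hD hdeg A x hA'
      rw [sum_sub_distrib, sum_const, nsmul_eq_mul, hR, ← sum_div] at s2
      have s3 : (k : ℝ) ≤ (∑ x ∈ R, ((univ.filter fun i => Disjoint (E i) A ∧ x ∈ E i).card : ℝ)) / miss E A := by
        rw [le_div_iff₀ hm]
        exact_mod_cast sum_deg E k hk A R hRA
      push_cast at s2 ⊢
      set P := psi E c D A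
      set Q := ∑ x ∈ R, psi E c D (insert x A)
      set e := ((ES903.E R (ES903.Fail fun S => Ok E c (A ∪ S)) : ℚ) : ℝ)
      have s4 : (k : ℝ) + Q ≤ ((n : ℝ) + 1) * P := by linarith
      have hn : (0 : ℝ) < (n : ℝ) + 1 := by positivity
      have s5 : e - 1 ≤ 1 / k * Q := by
        have : ((n : ℝ) + 1) * (e - 1) ≤ ((n : ℝ) + 1) * (1 / k * Q) := by
          calc ((n : ℝ) + 1) * (e - 1) ≤ ((n : ℝ) + 1) / k * Q := s1
            _ = _ := by ring
        exact le_of_mul_le_mul_left this hn
      have s6 : 1 / (k : ℝ) * Q ≤ 1 / k * (((n : ℝ) + 1) * P - k) :=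
        mul_le_mul_of_nonneg_left (by linarith) (by positivity)
      have s7 : 1 / (k : ℝ) * (((n : ℝ) + 1) * P - k) = ((n : ℝ) + 1) / k * P - 1 := by
        field_simp
      have s8 : 0 ≤ 1 / (k : ℝ) * P := by positivity
      have s9 : ((n : ℝ) + 1 + 1) / k * P = ((n : ℝ) + 1) / k * P + 1 / k * P := by ring
      rw [s9]
      linarith

/-- iterated disjoint occurrence -/
def compN (f : Finset V → Prop) : ℕ → Finset V → Prop
  | 0 => fun _ => True
  | k + 1 => ES903.comp f (compN f k)

omit [Fintype V] in
theorem E_compN (R : Finset V) (f : Finset V → Prop) (k : ℕ) :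
    ES903.E R (ES903.Fail (compN f k)) ≤ k * ES903.E R (ES903.Fail f) := by
  induction k with
  | zero =>
    have : ES903.E R (ES903.Fail (compN f 0)) = 0 := by
      unfold ES903.E ES903.Fail compN
      apply sum_eq_zero
      intro S _
      simp
    rw [this]; simp
  | succ k ih =>
    have := ES903.glue R f (compN f k)
    show ES903.E R (ES903.Fail (ES903.comp f (compN f k))) ≤ _
    push_cast
    linarith

omit [Fintype V] in
theorem compN_extract (f : Finset V → Prop) (k : ℕ) : ∀ S, compN f k S →
    ∃ A : Fin k → Finset V, (∀ i, A i ⊆ S) ∧ (∀ i j, i ≠ j → Disjoint (A i) (A j)) ∧ ∀ i, f (A i) := by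
  induction k with
  | zero => intro S _; exact ⟨fun i => i.elim0, fun i => i.elim0, fun i => i.elim0, fun i => i.elim0⟩
  | succ k ih =>
    rintro S ⟨S1, h1, h2, h3⟩
    obtain ⟨A, hA, hB, hC⟩ := ih _ h3
    let F : Fin (k + 1) → Finset V := Fin.cons S1 A
    have hF0 : F 0 = S1 := rfl
    have hFs : ∀ j : Fin k, F j.succ = A j := fun _ => rfl
    have hdis : ∀ j, Disjoint S1 (A j) := fun j =>
      Finset.disjoint_of_subset_right (hA j) disjoint_sdiff
    refine ⟨F, ?_, ?_, ?_⟩
    · intro i
      rcases Fin.eq_zero_or_eq_succ i with rfl | ⟨i', rfl⟩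
      · rw [hF0]; exact h1
      · rw [hFs]; exact (hA i').trans sdiff_subset
    · intro i j hij
      rcases Fin.eq_zero_or_eq_succ i with rfl | ⟨i', rfl⟩ <;>
        rcases Fin.eq_zero_or_eq_succ j with rfl | ⟨j', rfl⟩
      · exact absurd rfl hij
      · rw [hF0, hFs]; exact hdis j'
      · rw [hF0, hFs]; exact (hdis i').symm
      · rw [hFs, hFs]; exact hB i' j' (fun h' => hij (by rw [h']))
    · intro i
      rcases Fin.eq_zero_or_eq_succ i with rfl | ⟨i', rfl⟩
      · rw [hF0]; exact h2
      · rw [hFs]; exact hC i'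

theorem E_one (f : Finset V → Prop) (h : ∀ S, ¬ f S) :
    ES903.E (univ : Finset V) (ES903.Fail f) = (Fintype.card V : ℚ) + 1 := by
  unfold ES903.E
  have h1 : ∀ S ∈ (univ : Finset V).powerset,
      ES903.Fail f S / (((univ : Finset V).card.choose S.card : ℕ) : ℚ) =
      (fun j => 1 / (((univ : Finset V).card.choose j : ℕ) : ℚ)) S.card := by
    intro S _
    have : ES903.Fail f S = 1 := by unfold ES903.Fail; rw [if_neg (h S)]
    rw [this]
  rw [sum_congr rfl h1, Finset.sum_powerset_apply_card
    (fun j => 1 / (((univ : Finset V).card.choose j : ℕ) : ℚ))]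
  have h2 : ∀ j ∈ range ((univ : Finset V).card + 1), ((univ : Finset V).card.choose j) •
      (1 / (((univ : Finset V).card.choose j : ℕ) : ℚ)) = 1 := by
    intro j hj
    rw [mem_range] at hj
    have : (univ : Finset V).card.choose j ≠ 0 := Nat.choose_ne_zero (by omega)
    rw [nsmul_eq_mul]
    have : (((univ : Finset V).card.choose j : ℕ) : ℚ) ≠ 0 := by exact_mod_cast this
    field_simp
  rw [sum_congr rfl h2]
  simp

/-- low degree case -/
theorem low (E : ι → Finset V) (k : ℕ) (hk1 : 1 ≤ k) (hk : ∀ i, k ≤ (E i).card)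
    (hm : 0 < Fintype.card ι) {u δ : ℝ} (hu : 0 < u) (hu1 : u < 1) (hδ : 0 ≤ δ)
    (hdeg : ∀ v, ((univ.filter fun i => v ∈ E i).card : ℝ) ≤ δ * Fintype.card ι)
    (hcond : δ / u + Real.log (1 / u) < 1) :
    ∃ A : Fin k → Finset V, (∀ i j, i ≠ j → Disjoint (A i) (A j)) ∧
      ∀ i, (miss E (A i) : ℝ) ≤ u * Fintype.card ι := by
  have hmR : (0 : ℝ) < Fintype.card ι := by exact_mod_cast hm
  have hkpos : (0 : ℝ) < k := by exact_mod_cast hk1
  by_contra hno
  have hno' : ∀ S, ¬ compN (Ok E (u * Fintype.card ι)) k S := by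
    intro S hS
    obtain ⟨A, _, hB, hC⟩ := compN_extract _ k S hS
    exact hno ⟨A, hB, hC⟩
  have h1 := E_one _ hno'
  have h2 := E_compN (univ : Finset V) (Ok E (u * Fintype.card ι)) k
  rw [h1] at h2
  have h3 := cost E k hk1 hk (c := u * Fintype.card ι) (D := δ * Fintype.card ι)
    (mul_pos hu hmR) (by positivity) hdeg (Fintype.card V) ∅ univ card_univ (by simp)
  have h4 : (fun S => Ok E (u * Fintype.card ι) (∅ ∪ S)) = Ok E (u * Fintype.card ι) := by
    funext S; rw [empty_union]
  rw [h4] at h3
  have h5 : miss E ∅ = Fintype.card ι := by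
    unfold miss
    simp
  have h6 : psi E (u * Fintype.card ι) (δ * Fintype.card ι) ∅ = δ / u + Real.log (1 / u) := by
    unfold psi
    rw [h5, if_neg]
    · congr 1
      · field_simp
      · congr 1; field_simp
    · push Not
      nlinarith
  rw [h6] at h3
  have h2' : ((Fintype.card V : ℝ) + 1) ≤ k * ((ES903.E univ (ES903.Fail (Ok E (u * Fintype.card ι))) : ℚ) : ℝ) := by
    have := (Rat.cast_le (K := ℝ)).2 h2
    push_cast at this
    exact this
  have hn : (0 : ℝ) < (Fintype.card V : ℝ) + 1 := by positivity
  have h7 : ((Fintype.card V : ℝ) + 1) / k * (δ / u + Real.log (1 / u)) < ((Fintype.card V : ℝ) + 1) / k := by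
    have : 0 < ((Fintype.card V : ℝ) + 1) / k := by positivity
    nlinarith
  have h8 : (k : ℝ) * ((ES903.E univ (ES903.Fail (Ok E (u * Fintype.card ι))) : ℚ) : ℝ) <
      (Fintype.card V : ℝ) + 1 := by
    calc (k : ℝ) * ((ES903.E univ (ES903.Fail (Ok E (u * Fintype.card ι))) : ℚ) : ℝ)
        < k * (((Fintype.card V : ℝ) + 1) / k) := mul_lt_mul_of_pos_left (lt_of_le_of_lt h3 h7) hkpos
      _ = _ := by field_simp
  linarith

theorem numeric : (0.3577 : ℝ) / 0.6423 + Real.log (1 / 0.6423) < 1 := by
  have h1 : (1 : ℝ) / 0.6423 < Real.exp (0.44309) := by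
    have := Real.sum_le_exp_of_nonneg (x := 0.44309) (by norm_num) 5
    simp only [Finset.sum_range_succ, Finset.sum_range_zero, Nat.factorial] at this
    refine lt_of_lt_of_le ?_ this
    norm_num
  have h2 : Real.log (1 / 0.6423) < 0.44309 := by
    rw [Real.log_lt_iff_lt_exp (by norm_num)]
    exact h1
  have h3 : (0.3577 : ℝ) / 0.6423 < 1 - 0.44309 := by norm_num
  linarith

/-- all hypergraphs -/
theorem all (k : ℕ) : ∀ (E : ι → Finset V), (∀ i, k ≤ (E i).card) →
    ∃ A : Fin k → Finset V, (∀ i j, i ≠ j → Disjoint (A i) (A j)) ∧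
      ∀ i, (miss E (A i) : ℝ) ≤ 0.6423 * Fintype.card ι := by
  induction k with
  | zero => intro E _; exact ⟨fun i => i.elim0, fun i => i.elim0, fun i => i.elim0⟩
  | succ k ih =>
    intro E hk
    by_cases hm : Fintype.card ι = 0
    · refine ⟨fun _ => ∅, fun _ _ _ => by simp, fun i => ?_⟩
      have : miss E (∅ : Finset V) ≤ Fintype.card ι := by
        unfold miss; exact card_le_univ _
      have h0 : miss E (∅ : Finset V) = 0 := by omega
      simp [h0, hm]
    by_cases hv : ∃ v, 0.3577 * (Fintype.card ι : ℝ) < ((univ.filter fun i => v ∈ E i).card : ℝ)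
    · obtain ⟨v, hv⟩ := hv
      obtain ⟨A, hA, hB⟩ := ih (fun i => (E i).erase v) (fun i => by
        have h1 := hk i
        have h2 := Finset.pred_card_le_card_erase (s := E i) (a := v)
        omega)
      let F : Fin (k + 1) → Finset V := Fin.cons {v} (fun j => (A j).erase v)
      have hF0 : F 0 = {v} := rfl
      have hFs : ∀ j : Fin k, F j.succ = (A j).erase v := fun _ => rfl
      have hdis : ∀ j, Disjoint ({v} : Finset V) ((A j).erase v) := fun j => by
        rw [Finset.disjoint_singleton_left]; simp
      refine ⟨F, ?_, ?_⟩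
      · intro i j hij
        rcases Fin.eq_zero_or_eq_succ i with rfl | ⟨i', rfl⟩ <;>
          rcases Fin.eq_zero_or_eq_succ j with rfl | ⟨j', rfl⟩
        · exact absurd rfl hij
        · rw [hF0, hFs]; exact hdis j'
        · rw [hF0, hFs]; exact (hdis i').symm
        · rw [hFs, hFs]
          exact (hA i' j' (fun h' => hij (by rw [h']))).mono (erase_subset _ _) (erase_subset _ _)
      · intro i
        rcases Fin.eq_zero_or_eq_succ i with rfl | ⟨j, rfl⟩
        · rw [hF0]
          have h1 := miss_insert E ∅ v
          have h2 : miss E (∅ : Finset V) = Fintype.card ι := by unfold miss; simp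
          have h3 : (univ.filter fun i => Disjoint (E i) ∅ ∧ v ∈ E i) = univ.filter fun i => v ∈ E i := by
            ext i; simp
          rw [h3, h2] at h1
          have h4 : (miss E (insert v (∅ : Finset V)) : ℝ) + ((univ.filter fun i => v ∈ E i).card : ℝ) = Fintype.card ι := by
            exact_mod_cast h1
          have h5 : (insert v (∅ : Finset V)) = {v} := by simp
          rw [h5] at h4
          linarith
        · rw [hFs]
          refine le_trans ?_ (hB j)
          have : miss E ((A j).erase v) ≤ miss (fun i => (E i).erase v) (A j) := by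
            unfold miss
            apply card_le_card
            intro i hi
            simp only [mem_filter, mem_univ, true_and] at hi ⊢
            rw [Finset.disjoint_left] at hi ⊢
            intro a ha hb
            rw [mem_erase] at ha
            exact hi ha.2 (mem_erase.2 ⟨ha.1, hb⟩)
          exact_mod_cast this
    · push Not at hv
      have hnum := numeric
      obtain ⟨A, hA, hB⟩ := low E (k + 1) (by omega) hk (Nat.pos_of_ne_zero hm) (u := 0.6423)
        (δ := 0.3577) (by norm_num) (by norm_num) (by norm_num) hv hnum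
      exact ⟨A, hA, hB⟩

end H186J
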