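import Mathlib
import Pool.Agent.Helper186.Germ

/-! Topology and dynamics of Liouville manifolds. -/

open scoped Topology ContDiff Manifold
open Set Metric Bundle

noncomputable section

namespace Pool.Agent.Helper186

set_option linter.unusedSectionVars false

universe u

variable {E : Type u} [NormedAddCommGroup E] [NormedSpace ℝ E] [FiniteDimensional ℝ E]
  {H : Type*} [TopologicalSpace H] {I : ModelWithCorners ℝ E H} [I.Boundaryless]
  {X : Type*} [TopologicalSpace X] [ChartedSpace H X] [IsManifold I ∞ X]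

/-- Liouville manifolds. -/
structure LData (I : ModelWithCorners ℝ E H) (X : Type*) [TopologicalSpace X] [ChartedSpace H X]
    [IsManifold I ∞ X] where
  lam : (x : X) → TangentSpace I x →L[ℝ] ℝ
  hlam : SmoothForm lam
  hnd : ∀ (x : X) (u : TangentSpace I x), (∀ v, extDer I lam x u v = 0) → u = 0
  Z : (x : X) → TangentSpace I x
  hZ : ∀ (x : X) (v : TangentSpace I x), extDer I lam x (Z x) v = lam x v
  φ : ℝ → X → X
  φ0 : ∀ x, φ 0 x = x
  hφ : ∀ x, IsMIntegralCurve (I := I) (fun t => φ t x) Z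
  X₀ : Set X
  hc : IsCompact X₀
  hb : ∀ x ∈ frontier X₀, ∃ ρ : X → ℝ, MDifferentiableAt I 𝓘(ℝ, ℝ) ρ x ∧ ρ x = 0 ∧
    (∀ᶠ y in 𝓝 x, y ∈ X₀ ↔ ρ y ≤ 0) ∧ 0 < (show ℝ from mfderiv I 𝓘(ℝ, ℝ) ρ x (Z x))
  hs : ∀ x ∉ interior X₀, ∃ y ∈ frontier X₀, ∃ t ≥ 0, φ t y = x

namespace LData

variable (D : LData I X)

lemma smooth_Z : ContMDiff I I.tangent ∞ (fun x => (⟨x, D.Z x⟩ : TangentBundle I X)) := by
  intro x
  refine contMDiffAt_of_pairing (J := I) (f := fun x : X => x) contMDiffAt_id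
    (smoothBilinAt_extDer D.hlam contMDiffAt_id) (D.hnd x) ?_
  intro v hv
  have h1 : ContMDiffAt I 𝓘(ℝ, ℝ) ∞ (fun x => D.lam x (v x)) x := D.hlam.comp hv le_rfl
  refine h1.congr_of_eventuallyEq (Filter.Eventually.of_forall fun p => ?_)
  exact D.hZ p (v p)

lemma smooth_φ [T2Space X] : ContMDiff (𝓘(ℝ, ℝ).prod I) I ∞ (fun p : ℝ × X => D.φ p.1 p.2) := by
  have : IsManifold I 1 X := IsManifold.of_le (n := ∞) (by simp)
  have h1 := contMDiff_flow D.smooth_Z (Fl := fun x t => D.φ t x) D.φ0 D.hφ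
  exact h1.comp (contMDiff_snd.prodMk contMDiff_fst)

lemma φ_add [T2Space X] (s t : ℝ) (x : X) : D.φ (s + t) x = D.φ s (D.φ t x) := by
  have : IsManifold I 1 X := IsManifold.of_le (n := ∞) (by simp)
  have h1 := flow_add D.smooth_Z (Fl := fun x t => D.φ t x) D.φ0 D.hφ x t s
  rw [add_comm]
  exact h1

lemma lam_Z (x : X) : D.lam x (D.Z x) = 0 := by
  rw [← D.hZ]
  unfold extDer
  rw [sub_self]

lemma dS_φ (s : ℝ) (x : X) : dS I (fun p : ℝ × X => D.φ p.1 p.2) s x = D.Z (D.φ s x) :=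
  dS_eq_of_hasMFDerivAt (R := fun p : ℝ × X => D.φ p.1 p.2) (D.hφ x s)

lemma conf [T2Space X] (t : ℝ) (x : X) (u : TangentSpace I x) :
    D.lam (D.φ t x) (mfderiv I I (D.φ t) x u) = Real.exp t * D.lam x u := by
  set a : ℝ → ℝ := fun s => D.lam (D.φ s x) (mfderiv I I (D.φ s) x u) with ha
  have h1 : ∀ s, HasDerivAt a (a s) s := by
    intro s
    have h2 := hasDerivAt_variation D.hlam isOpen_univ D.smooth_φ.contMDiffOn (mem_univ (s, x)) u
    have h3 : a = fun σ => D.lam (D.φ σ x) (dX I I (fun p : ℝ × X => D.φ p.1 p.2) σ x u) := rfl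
    rw [h3]
    refine h2.congr_deriv ?_
    have h4 : (fun x' => D.lam (D.φ s x') (dS I (fun p : ℝ × X => D.φ p.1 p.2) s x')) =
        fun _ => 0 := by
      ext x'
      rw [D.dS_φ, D.lam_Z]
    have h5 : mfderiv I 𝓘(ℝ, ℝ) (fun x' => D.lam (D.φ s x')
        (dS I (fun p : ℝ × X => D.φ p.1 p.2) s x')) x = 0 := by
      rw [h4]; exact mfderiv_const
    have h6 := DFunLike.congr_fun h5 u
    refine (congrArg₂ (fun (a b : ℝ) => a + b) rfl h6).trans ?_
    rw [D.dS_φ]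
    simp only
    rw [D.hZ]
    exact add_zero _
  have h2 : ∀ s, HasDerivAt (fun s => Real.exp (-s) * a s) 0 s := by
    intro s
    have h3 : HasDerivAt (fun s : ℝ => Real.exp (-s)) (-Real.exp (-s)) s := by
      simpa using (hasDerivAt_neg s).exp
    refine (h3.mul (h1 s)).congr_deriv ?_
    ring
  have h3 := is_const_of_deriv_eq_zero (f := fun s => Real.exp (-s) * a s)
    (fun t => (h2 t).differentiableAt) (fun t => (h2 t).deriv) t 0
  simp only [neg_zero, Real.exp_zero, one_mul] at h3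
  have h4 : a 0 = D.lam x u := by
    have h5 : D.φ 0 = id := by ext y; exact D.φ0 y
    have h6 : tangentMap I I (D.φ 0) (⟨x, u⟩ : TangentBundle I X) = ⟨x, u⟩ := by
      rw [h5, tangentMap_id]; rfl
    exact form_congr D.lam h6
  rw [h4] at h3
  show a t = _
  rw [← h3, ← mul_assoc, ← Real.exp_add, add_neg_cancel, Real.exp_zero, one_mul]

/-- The conformal flow of a Liouville manifold. -/
def confFlow [T2Space X] : ConfFlow I D.lam where
  φ := D.φ
  smooth := D.smooth_φ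
  zero := D.φ0
  add := D.φ_add
  conf := D.conf

lemma hasDerivAt_comp_φ {ρ : X → ℝ} {x : X} (hρ : MDifferentiableAt I 𝓘(ℝ, ℝ) ρ x) :
    HasDerivAt (fun s => ρ (D.φ s x)) (show ℝ from mfderiv I 𝓘(ℝ, ℝ) ρ x (D.Z x)) 0 := by
  have h0 : D.φ 0 x = x := D.φ0 x
  have h1 : MDifferentiableAt I 𝓘(ℝ, ℝ) ρ (D.φ 0 x) := by rw [h0]; exact hρ
  have h2 := h1.hasMFDerivAt.comp 0 (D.hφ x 0)
  have h3' : HasFDerivAt (fun s => ρ (D.φ s x)) (show ℝ →L[ℝ] ℝ from
      (mfderiv I 𝓘(ℝ, ℝ) ρ (D.φ 0 x)).comp ((1 : ℝ →L[ℝ] ℝ).smulRight (D.Z (D.φ 0 x)))) 0 :=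
    hasMFDerivAt_iff_hasFDerivAt.1 h2
  have h3 := h3'.hasDerivAt
  refine h3.congr_deriv ?_
  have h4 : ∀ y, y = x → (show ℝ from mfderiv I 𝓘(ℝ, ℝ) ρ y (D.Z y)) =
      (show ℝ from mfderiv I 𝓘(ℝ, ℝ) ρ x (D.Z x)) := by rintro y rfl; rfl
  rw [← h4 _ h0]
  exact congrArg (mfderiv I 𝓘(ℝ, ℝ) ρ (D.φ 0 x)) (one_smul ℝ (D.Z (D.φ 0 x)))

lemma flow_signs {x : X} (hx : x ∈ frontier D.X₀) :
    (∀ᶠ s in 𝓝[>] (0:ℝ), D.φ s x ∉ D.X₀) ∧ (∀ᶠ s in 𝓝[>] (0:ℝ), D.φ (-s) x ∈ D.X₀) := by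
  obtain ⟨ρ, hρ, hρ0, hρX, hρZ⟩ := D.hb x hx
  have h1 := D.hasDerivAt_comp_φ hρ
  set c := (show ℝ from mfderiv I 𝓘(ℝ, ℝ) ρ x (D.Z x)) with hc
  have h2 := hasDerivAt_iff_isLittleO.1 h1
  simp only [D.φ0, hρ0, sub_zero] at h2
  have h3 := h2.def (c := c / 2) (by positivity)
  have hcont : ContinuousAt (fun s => D.φ s x) 0 := (D.hφ x).continuous.continuousAt
  have h4 : ∀ᶠ s in 𝓝 (0:ℝ), (D.φ s x ∈ D.X₀ ↔ ρ (D.φ s x) ≤ 0) :=
    hcont.eventually (p := fun y => y ∈ D.X₀ ↔ ρ y ≤ 0) (by simp only [D.φ0]; exact hρX)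
  have hneg : Filter.Tendsto (fun s : ℝ => -s) (𝓝 0) (𝓝 0) := by
    have := (continuous_neg (G := ℝ)).tendsto 0
    rwa [neg_zero] at this
  constructor
  · have h5 : ∀ᶠ s in 𝓝[>] (0:ℝ), _ := (h3.and h4).filter_mono nhdsWithin_le_nhds
    filter_upwards [h5, self_mem_nhdsWithin] with s hs hs0
    have hs0' : 0 < s := hs0
    rw [hs.2, not_le]
    have h6 := hs.1
    simp only [Real.norm_eq_abs, smul_eq_mul] at h6
    rw [abs_of_pos hs0'] at h6
    have h7 := (abs_le.1 h6).1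
    nlinarith [mul_pos hs0' hρZ]
  · have h5 : ∀ᶠ s in 𝓝[>] (0:ℝ), _ :=
      (hneg.eventually (h3.and h4)).filter_mono nhdsWithin_le_nhds
    filter_upwards [h5, self_mem_nhdsWithin] with s hs hs0
    have hs0' : 0 < s := hs0
    rw [hs.2]
    have h6 := hs.1
    simp only [Real.norm_eq_abs, smul_eq_mul, abs_neg] at h6
    rw [abs_of_pos hs0'] at h6
    have h7 := (abs_le.1 h6).2
    nlinarith [mul_pos hs0' hρZ]

variable [T2Space X]

lemma closed_X₀ : IsClosed D.X₀ := D.hc.isClosed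

/-- Backward invariance of the Liouville domain. -/
lemma back_inv (t : ℝ) (ht : 0 ≤ t) (x : X) (hx : x ∈ D.X₀) : D.φ (-t) x ∈ D.X₀ := by
  have hcont : Continuous (fun s => D.φ (-s) x) := (D.hφ x).continuous.comp continuous_neg
  have h1 : Icc 0 t ⊆ {s | D.φ (-s) x ∈ D.X₀} := by
    apply IsClosed.Icc_subset_of_forall_mem_nhdsWithin
    · exact (D.closed_X₀.preimage hcont).inter isClosed_Icc
    · show D.φ (-0) x ∈ D.X₀
      rw [neg_zero, D.φ0]; exact hx
    · rintro s ⟨hs, hst⟩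
      have hs' : D.φ (-s) x ∈ D.X₀ := hs
      by_cases hi : D.φ (-s) x ∈ interior D.X₀
      · have h2 : ∀ᶠ σ in 𝓝 s, D.φ (-σ) x ∈ interior D.X₀ :=
          hcont.continuousAt.eventually (isOpen_interior.mem_nhds hi)
        exact mem_nhdsWithin_of_mem_nhds (h2.mono fun σ hσ => interior_subset hσ)
      · have hf : D.φ (-s) x ∈ frontier D.X₀ := ⟨subset_closure hs', hi⟩
        have h2 := (D.flow_signs hf).2
        have h3 : Filter.Tendsto (fun σ => σ - s) (𝓝[>] s) (𝓝[>] 0) := by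
          apply tendsto_nhdsWithin_iff.2
          refine ⟨?_, ?_⟩
          · have : ContinuousAt (fun σ : ℝ => σ - s) s := by fun_prop
            have h4 := this.tendsto
            rw [sub_self] at h4
            exact h4.mono_left nhdsWithin_le_nhds
          · filter_upwards [self_mem_nhdsWithin] with σ hσ
            have hσ' : s < σ := hσ
            exact sub_pos.2 hσ'
        have h4 := h3.eventually h2
        filter_upwards [h4] with σ hσ
        rw [← D.φ_add] at hσ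
        have h5 : -(σ - s) + -s = -σ := by ring
        rw [h5] at hσ
        exact hσ
  exact h1 ⟨ht, le_rfl⟩

lemma back_interior (t : ℝ) (ht : 0 < t) (x : X) (hx : x ∈ D.X₀) :
    D.φ (-t) x ∈ interior D.X₀ := by
  by_contra hi
  have hf : D.φ (-t) x ∈ frontier D.X₀ :=
    ⟨subset_closure (D.back_inv t ht.le x hx), hi⟩
  have h2 := (D.flow_signs hf).1
  have h3' : ∀ᶠ s in 𝓝 (0:ℝ), s < t := Iio_mem_nhds ht
  have h3 : ∀ᶠ s in 𝓝[>] (0:ℝ), s < t := h3'.filter_mono nhdsWithin_le_nhds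
  have h4 : ∀ᶠ s in 𝓝[>] (0:ℝ), (0:ℝ) < s := self_mem_nhdsWithin
  obtain ⟨s, hs1, hs2, hs3⟩ := (h2.and (h3.and h4)).exists
  apply hs1
  rw [← D.φ_add]
  have h5 : s + -t = -(t - s) := by ring
  rw [h5]
  exact D.back_inv (t - s) (by linarith) x hx

lemma sweep (x : X) : ∃ t ≥ 0, D.φ (-t) x ∈ D.X₀ := by
  by_cases hx : x ∈ interior D.X₀
  · exact ⟨0, le_rfl, by rw [neg_zero, D.φ0]; exact interior_subset hx⟩
  · obtain ⟨y, hy, t, ht, rfl⟩ := D.hs x hx
    refine ⟨t, ht, ?_⟩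
    rw [← D.φ_add, neg_add_cancel, D.φ0]
    exact D.closed_X₀.frontier_subset hy

/-- The nested compact sets `φ^{-t}(X₀)`. -/
def K (t : ℝ) : Set X := {x | D.φ t x ∈ D.X₀}

/-- The core. -/
def core : Set X := {x | ∀ t > 0, D.φ t x ∈ D.X₀}

lemma K_eq (t : ℝ) : D.K t = D.φ (-t) '' D.X₀ := by
  ext x
  constructor
  · intro hx
    refine ⟨D.φ t x, hx, ?_⟩
    rw [← D.φ_add, neg_add_cancel, D.φ0]
  · rintro ⟨y, hy, rfl⟩
    show D.φ t (D.φ (-t) y) ∈ D.X₀
    rw [← D.φ_add, add_neg_cancel, D.φ0]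
    exact hy

lemma continuous_φ (t : ℝ) : Continuous (D.φ t) :=
  D.confFlow.continuous_slice t

lemma K_compact (t : ℝ) : IsCompact (D.K t) := by
  rw [K_eq]
  exact D.hc.image (D.continuous_φ _)

lemma K_anti {s t : ℝ} (h : s ≤ t) : D.K t ⊆ D.K s := by
  intro x hx
  show D.φ s x ∈ D.X₀
  have h1 : D.φ s x = D.φ (-(t - s)) (D.φ t x) := by
    rw [← D.φ_add]; congr 1; ring
  rw [h1]
  exact D.back_inv _ (by linarith) _ hx

lemma K_shift (s t : ℝ) {x : X} (hx : x ∈ D.K t) : D.φ (-s) x ∈ D.K (t + s) := by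
  show D.φ (t + s) (D.φ (-s) x) ∈ D.X₀
  rw [← D.φ_add]
  have : t + s + -s = t := by ring
  rw [this]
  exact hx

lemma K_inv (r : ℝ) (hr : 0 ≤ r) (t : ℝ) {x : X} (hx : x ∈ D.K t) : D.φ (-r) x ∈ D.K t :=
  D.K_anti (by linarith) (D.K_shift r t hx)

lemma core_sub_K (t : ℝ) : D.core ⊆ D.K t := by
  intro x hx
  exact D.K_anti (le_max_left t 1) (hx (max t 1) (by positivity))

lemma core_eq_iInter : D.core = ⋂ n : ℕ, D.K n := by
  apply Subset.antisymm
  · exact subset_iInter fun n => D.core_sub_K n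
  · intro x hx t ht
    obtain ⟨n, hn⟩ := exists_nat_ge t
    exact D.K_anti hn (mem_iInter.1 hx n)

lemma K_sub_interior {s t : ℝ} (h : s < t) : D.K t ⊆ interior (D.K s) := by
  intro x hx
  have h1 : D.φ s ⁻¹' interior D.X₀ ⊆ interior (D.K s) := by
    apply interior_maximal
    · exact preimage_mono interior_subset
    · exact isOpen_interior.preimage (D.continuous_φ s)
  apply h1
  show D.φ s x ∈ interior D.X₀
  have h2 : D.φ s x = D.φ (-(t - s)) (D.φ t x) := by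
    rw [← D.φ_add]; congr 1; ring
  rw [h2]
  exact D.back_interior _ (by linarith) _ hx

lemma core_sub_interior (t : ℝ) : D.core ⊆ interior (D.K t) :=
  (D.core_sub_K (t + 1)).trans (D.K_sub_interior (by linarith))

/-- Neighbourhoods of the core contain some `K t`. -/
lemma exists_K_sub {U : Set X} (hU : IsOpen U) (h : D.core ⊆ U) : ∃ t ≥ 0, D.K t ⊆ U := by
  obtain ⟨n, hn⟩ := exists_subset_nhds_of_isCompact' (V := fun n : ℕ => D.K n)
    (directed_of_isDirected_le fun m n hmn => D.K_anti (by exact_mod_cast hmn))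
    (fun n => D.K_compact n) (fun n => (D.K_compact n).isClosed) (U := U) (by
      intro x hx
      rw [← D.core_eq_iInter] at hx
      exact hU.mem_nhds (h hx))
  exact ⟨n, Nat.cast_nonneg n, hn⟩

lemma core_inv (s : ℝ) {x : X} (hx : x ∈ D.core) : D.φ s x ∈ D.core := by
  intro t _
  rw [← D.φ_add]
  exact D.core_sub_K (t + s) hx

/-- every point is absorbed by `K t` -/
lemma absorb_K (t : ℝ) (x : X) : ∃ t₀, ∀ r ≥ t₀, D.φ (-r) x ∈ D.K t := by
  obtain ⟨a, _, ha⟩ := D.sweep x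
  refine ⟨t + a, fun r hr => ?_⟩
  have h1 : x ∈ D.K (-a) := ha
  exact D.K_anti (by linarith) (D.K_shift r (-a) h1)

end LData

end Pool.Agent.Helper186
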