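import Mathlib
import Pool.Agent.Helper186.Liou

/-! The Liouville field is tangent to a smooth core. -/

open scoped Topology ContDiff Manifold
open Set Metric Bundle

noncomputable section

namespace Pool.Agent.Helper186

set_option linter.unusedSectionVars false

universe u

section lin

variable {E : Type*} [NormedAddCommGroup E] [NormedSpace ℝ E] [FiniteDimensional ℝ E]
  {F : Type*} [NormedAddCommGroup F] [NormedSpace ℝ F] [FiniteDimensional ℝ F]

lemma mem_range_of_curve {f : F → E} {A : F →L[ℝ] E} {y₀ : F} (hf : HasStrictFDerivAt f A y₀)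
    (hA : Function.Injective A) {y : ℝ → F} (hy : ContinuousAt y 0) (hy0 : y 0 = y₀)
    {z : ℝ → E} {b : E} (hz : HasDerivAt z b 0) (hzy : ∀ᶠ t in 𝓝 0, z t = f (y t)) :
    ∃ a, A a = b := by
  obtain ⟨g, hg⟩ := LinearMap.exists_leftInverse_of_injective (A : F →ₗ[ℝ] E)
    (LinearMap.ker_eq_bot.2 hA)
  let B : E →L[ℝ] F := LinearMap.toContinuousLinearMap g
  have hBA : B.comp A = ((ContinuousLinearEquiv.refl ℝ F : F ≃L[ℝ] F) : F →L[ℝ] F) := by
    refine ContinuousLinearMap.ext fun v => ?_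
    exact LinearMap.congr_fun hg v
  have h2 : HasStrictFDerivAt (fun v => B (f v))
      ((ContinuousLinearEquiv.refl ℝ F : F ≃L[ℝ] F) : F →L[ℝ] F) y₀ := by
    rw [← hBA]
    exact B.hasStrictFDerivAt.comp y₀ hf
  have h3 := h2.eventually_left_inverse
  have h4 := h2.to_localInverse
  -- `y` is differentiable
  have h5 : ∀ᶠ t in 𝓝 (0:ℝ), h2.localInverse _ _ _ (B (f (y t))) = y t :=
    hy.eventually (p := fun x => h2.localInverse _ _ _ (B (f x)) = x) (by rw [hy0]; exact h3)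
  have hz0 : z 0 = f y₀ := by
    have := hzy.self_of_nhds
    rwa [hy0] at this
  have h6 : HasDerivAt (fun t => h2.localInverse _ _ _ (B (z t))) (B b) 0 := by
    have h7 : HasDerivAt (fun t => B (z t)) (B b) 0 := B.hasFDerivAt.comp_hasDerivAt 0 hz
    have h8 : HasFDerivAt (h2.localInverse _ _ _)
        ((ContinuousLinearEquiv.refl ℝ F).symm : F →L[ℝ] F) (B (z 0)) := by
      rw [hz0]
      exact h4.hasFDerivAt
    exact h8.comp_hasDerivAt 0 h7
  have h7 : HasDerivAt y (B b) 0 := by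
    refine h6.congr_of_eventuallyEq ?_
    filter_upwards [h5, hzy] with t ht1 ht2
    rw [ht2, ht1]
  have h8 : HasDerivAt z (A (B b)) 0 := by
    have h9 : HasFDerivAt f A (y 0) := by rw [hy0]; exact hf.hasFDerivAt
    exact (h9.comp_hasDerivAt 0 h7).congr_of_eventuallyEq hzy
  exact ⟨B b, h8.unique hz⟩

end lin

variable {F : Type*} [NormedAddCommGroup F] [NormedSpace ℝ F] [FiniteDimensional ℝ F]
  {L : Type*} [TopologicalSpace L] [ChartedSpace F L] [IsManifold 𝓘(ℝ, F) ∞ L]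
  {E : Type u} [NormedAddCommGroup E] [NormedSpace ℝ E] [FiniteDimensional ℝ E]
  {H : Type*} [TopologicalSpace H] {I : ModelWithCorners ℝ E H} [I.Boundaryless]
  {X : Type*} [TopologicalSpace X] [ChartedSpace H X] [IsManifold I ∞ X]

namespace LData

variable (D : LData I X) [T2Space X]

/-- The Liouville field is tangent to the core. -/
lemma tangent {ι : L → X} (hι : ContMDiff 𝓘(ℝ, F) I ∞ ι) (hιe : Topology.IsEmbedding ι)
    (hιimm : ∀ q, Function.Injective (mfderiv 𝓘(ℝ, F) I ι q)) (hcore : range ι = D.core) (q : L) :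
    ∃ a : TangentSpace 𝓘(ℝ, F) q, mfderiv 𝓘(ℝ, F) I ι q a = D.Z (ι q) := by
  have hmem : ∀ t, D.φ t (ι q) ∈ range ι := by
    intro t
    rw [hcore]
    exact D.core_inv t (hcore ▸ mem_range_self q)
  choose c hc using hmem
  have hccont : Continuous c := by
    rw [hιe.isInducing.continuous_iff]
    have : ι ∘ c = fun t => D.φ t (ι q) := by ext1 t; exact hc t
    rw [this]
    exact (D.hφ (ι q)).continuous
  have hc0 : c 0 = q := hιe.injective (by rw [hc, D.φ0])
  -- charts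
  set ψ := extChartAt 𝓘(ℝ, F) q with hψ
  set χ := extChartAt I (ι q) with hχ
  have hfs : ContDiffAt ℝ ∞ (χ ∘ ι ∘ ψ.symm) (ψ q) := by
    rw [← contMDiffAt_iff_contDiffAt]
    have hsym : ψ.symm (ψ q) = q := ψ.left_inv (mem_extChartAt_source q)
    have h1 : ContMDiffAt 𝓘(ℝ, F) 𝓘(ℝ, F) ∞ ψ.symm (ψ q) :=
      (contMDiffOn_extChartAt_symm q).contMDiffAt (extChartAt_target_mem_nhds q)
    have h2 : ContMDiffAt 𝓘(ℝ, F) I ∞ (ι ∘ ψ.symm) (ψ q) := (hι _).comp (ψ q) h1
    have h3 : ContMDiffAt I 𝓘(ℝ, E) ∞ χ ((ι ∘ ψ.symm) (ψ q)) := by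
      simp only [Function.comp, hsym]
      exact contMDiffAt_extChartAt
    exact h3.comp (ψ q) h2
  have hfd : fderiv ℝ (χ ∘ ι ∘ ψ.symm) (ψ q) = mfderiv 𝓘(ℝ, F) I ι q := by
    have h1 := (hι.mdifferentiableAt (by simp) (x := q)).mfderiv
    rw [h1]
    simp only [modelWithCornersSelf_coe, range_id, fderivWithin_univ]
    rfl
  have hf := hfs.hasStrictFDerivAt (by simp)
  have hy : ContinuousAt (fun t => ψ (c t)) 0 := by
    have h1 : ContinuousAt ψ (c 0) := by rw [hc0]; exact continuousAt_extChartAt q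
    exact h1.comp hccont.continuousAt
  have hz : HasDerivAt (fun t => χ (D.φ t (ι q))) (show E from D.Z (ι q)) 0 := by
    have h0 : D.φ 0 (ι q) = ι q := D.φ0 _
    have h1 : MDifferentiableAt I 𝓘(ℝ, E) χ (D.φ 0 (ι q)) := by
      rw [h0]
      exact (contMDiffAt_extChartAt (n := ∞)).mdifferentiableAt (by simp)
    have h2 := h1.hasMFDerivAt.comp 0 (D.hφ (ι q) 0)
    have h3' : HasFDerivAt (fun t => χ (D.φ t (ι q))) (show ℝ →L[ℝ] E from
      (mfderiv I 𝓘(ℝ, E) χ (D.φ 0 (ι q))).comp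
        ((1 : ℝ →L[ℝ] ℝ).smulRight (D.Z (D.φ 0 (ι q))))) 0 :=
      hasMFDerivAt_iff_hasFDerivAt.1 h2
    refine h3'.hasDerivAt.congr_deriv ?_
    have h4 : ∀ x, x = ι q → (show E from mfderiv I 𝓘(ℝ, E) χ x ((1:ℝ) • D.Z x)) =
        (show E from D.Z (ι q)) := by
      rintro x rfl
      have h5 := mfderiv_extChartAt_self (ι q) ((1:ℝ) • D.Z (ι q))
      refine h5.trans ?_
      exact one_smul ℝ (D.Z (ι q))
    exact h4 _ h0
  have hzy : ∀ᶠ t in 𝓝 (0:ℝ), χ (D.φ t (ι q)) = (χ ∘ ι ∘ ψ.symm) (ψ (c t)) := by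
    have h1 : ∀ᶠ t in 𝓝 (0:ℝ), c t ∈ ψ.source := by
      apply hccont.continuousAt.eventually
      rw [hc0]
      exact extChartAt_source_mem_nhds q
    filter_upwards [h1] with t ht
    simp only [Function.comp]
    rw [ψ.left_inv ht, hc]
  obtain ⟨a, ha⟩ := mem_range_of_curve hf (by rw [hfd]; exact hιimm q) hy
    (by simp only [hc0]) hz hzy
  rw [hfd] at ha
  exact ⟨a, ha⟩

/-- The Liouville form vanishes on a Lagrangian core. -/
lemma lam_core {ι : L → X} (hι : ContMDiff 𝓘(ℝ, F) I ∞ ι) (hιe : Topology.IsEmbedding ι)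
    (hιimm : ∀ q, Function.Injective (mfderiv 𝓘(ℝ, F) I ι q)) (hcore : range ι = D.core)
    (hlag : ∀ q (u v : TangentSpace 𝓘(ℝ, F) q),
      extDer I D.lam (ι q) (mfderiv 𝓘(ℝ, F) I ι q u) (mfderiv 𝓘(ℝ, F) I ι q v) = 0)
    (q : L) (w : TangentSpace 𝓘(ℝ, F) q) : D.lam (ι q) (mfderiv 𝓘(ℝ, F) I ι q w) = 0 := by
  obtain ⟨a, ha⟩ := D.tangent hι hιe hιimm hcore q
  rw [← D.hZ, ← ha]
  exact hlag q a w

end LData

end Pool.Agent.Helper186
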