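import Mathlib

/-! Inverse function theorem on manifolds, and tubular embeddings. -/

open scoped Topology ContDiff Manifold
open Set Metric Bundle

noncomputable section

namespace Pool.Agent.Helper186

set_option linter.unusedSectionVars false

variable {E : Type*} [NormedAddCommGroup E] [NormedSpace ℝ E] [FiniteDimensional ℝ E]
  {H : Type*} [TopologicalSpace H] {I : ModelWithCorners ℝ E H} [I.Boundaryless]
  {X : Type*} [TopologicalSpace X] [ChartedSpace H X] [IsManifold I ∞ X]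
  {E' : Type*} [NormedAddCommGroup E'] [NormedSpace ℝ E'] [FiniteDimensional ℝ E']
  {H' : Type*} [TopologicalSpace H'] {J : ModelWithCorners ℝ E' H'} [J.Boundaryless]
  {N : Type*} [TopologicalSpace N] [ChartedSpace H' N] [IsManifold J ∞ N]

/-- Inverse function theorem. -/
theorem local_inverse {w : N → X} (hw : ContMDiff J I ∞ w) {ξ : N}
    (hinj : Function.Injective (mfderiv J I w ξ))
    (hdim : Module.finrank ℝ E' = Module.finrank ℝ E) :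
    ∃ (S : Set N) (v : X → N), IsOpen S ∧ ξ ∈ S ∧ (∀ ζ ∈ S, v (w ζ) = ζ) ∧
      (∀ S' ⊆ S, IsOpen S' → IsOpen (w '' S')) ∧ ∀ ζ ∈ S, ContMDiffAt I J ∞ v (w ζ) := by
  set φ := extChartAt I (w ξ) with hφ
  set ψ := extChartAt J ξ with hψ
  have hψo : IsOpen ψ.target := isOpen_extChartAt_target ξ
  have hφs : IsOpen φ.source := isOpen_extChartAt_source (w ξ)
  have hψs : IsOpen ψ.source := isOpen_extChartAt_source ξ
  set W : E' → E := φ ∘ w ∘ ψ.symm with hW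
  have hWs : ∀ y ∈ ψ.target, w (ψ.symm y) ∈ φ.source → ContDiffAt ℝ ∞ W y := by
    intro y hy hwy
    rw [← contMDiffAt_iff_contDiffAt]
    have h1 : ContMDiffAt 𝓘(ℝ, E') J ∞ ψ.symm y :=
      (contMDiffOn_extChartAt_symm ξ).contMDiffAt (hψo.mem_nhds hy)
    have h2 : ContMDiffAt 𝓘(ℝ, E') I ∞ (w ∘ ψ.symm) y := (hw _).comp y h1
    have h3 : ContMDiffAt I 𝓘(ℝ, E) ∞ φ ((w ∘ ψ.symm) y) :=
      contMDiffAt_extChartAt' (by rwa [hφ, extChartAt_source] at hwy)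
    exact h3.comp y h2
  have hy₀ : ψ ξ ∈ ψ.target := mem_extChartAt_target ξ
  have hsym : ψ.symm (ψ ξ) = ξ := ψ.left_inv (mem_extChartAt_source ξ)
  have hw₀ : w (ψ.symm (ψ ξ)) ∈ φ.source := by rw [hsym]; exact mem_extChartAt_source (w ξ)
  have hWd : fderiv ℝ W (ψ ξ) = mfderiv J I w ξ := by
    have h1 := (hw.mdifferentiableAt (by simp) (x := ξ)).mfderiv
    rw [h1, J.range_eq_univ, fderivWithin_univ]
    rfl
  have hinj' : Function.Injective (fderiv ℝ W (ψ ξ)) := by rw [hWd]; exact hinj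
  let l : E' ≃ₗ[ℝ] E := LinearEquiv.ofInjectiveOfFinrankEq
    (fderiv ℝ W (ψ ξ) : E' →ₗ[ℝ] E) hinj' hdim
  let L : E' ≃L[ℝ] E := l.toContinuousLinearEquiv
  have hL : (L : E' →L[ℝ] E) = fderiv ℝ W (ψ ξ) := by
    refine ContinuousLinearMap.ext fun a => ?_
    rfl
  have hWdiff : HasFDerivAt W (L : E' →L[ℝ] E) (ψ ξ) := by
    rw [hL]
    exact ((hWs _ hy₀ hw₀).differentiableAt (by simp)).hasFDerivAt
  let f := (hWs _ hy₀ hw₀).toOpenPartialHomeomorph W hWdiff (by simp)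
  have hfc : (f : E' → E) = W := rfl
  have hfs : ψ ξ ∈ f.source := (hWs _ hy₀ hw₀).mem_toOpenPartialHomeomorph_source hWdiff (by simp)
  -- the neighbourhood
  have hS : ∀ᶠ ζ in 𝓝 ξ, ζ ∈ ψ.source ∧ ψ ζ ∈ f.source ∧ w ζ ∈ φ.source ∧
      fderiv ℝ W (ψ ζ) ∈ range ((↑) : (E' ≃L[ℝ] E) → (E' →L[ℝ] E)) := by
    have h1 : ∀ᶠ ζ in 𝓝 ξ, ζ ∈ ψ.source := hψs.mem_nhds (mem_extChartAt_source ξ)
    have hψc : ContinuousAt ψ ξ := continuousAt_extChartAt ξ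
    have h2 : ∀ᶠ ζ in 𝓝 ξ, ψ ζ ∈ f.source := hψc.eventually (f.open_source.mem_nhds hfs)
    have h3 : ∀ᶠ ζ in 𝓝 ξ, w ζ ∈ φ.source :=
      hw.continuous.continuousAt.eventually (hφs.mem_nhds (mem_extChartAt_source (w ξ)))
    have h4 : ContinuousAt (fderiv ℝ W) (ψ ξ) :=
      ((hWs _ hy₀ hw₀).fderiv_right (m := ∞) (by simp)).continuousAt
    have h5 : ∀ᶠ ζ in 𝓝 ξ, fderiv ℝ W (ψ ζ) ∈
        range ((↑) : (E' ≃L[ℝ] E) → (E' →L[ℝ] E)) := by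
      have h6 : ∀ᶠ A in 𝓝 (fderiv ℝ W (ψ ξ)), A ∈
          range ((↑) : (E' ≃L[ℝ] E) → (E' →L[ℝ] E)) := by
        rw [← hL]
        exact ContinuousLinearEquiv.nhds L
      exact (h4.comp (f := ψ) (x := ξ) hψc).eventually h6
    exact h1.and (h2.and (h3.and h5))
  obtain ⟨S, hSP, hSo, hξS⟩ := _root_.mem_nhds_iff.1 hS
  have hWψ : ∀ ζ ∈ S, W (ψ ζ) = φ (w ζ) := by
    intro ζ hζ
    simp only [hW, Function.comp]
    rw [ψ.left_inv (hSP hζ).1]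
  have hinv : ∀ ζ ∈ S, ψ.symm (f.symm (φ (w ζ))) = ζ := by
    intro ζ hζ
    rw [← hWψ ζ hζ, ← hfc, f.left_inv (hSP hζ).2.1, ψ.left_inv (hSP hζ).1]
  refine ⟨S, fun x => ψ.symm (f.symm (φ x)), hSo, hξS, hinv, ?_, ?_⟩
  · intro S' hS'S hS'o
    -- the image of `S'` in the chart
    have h1 : IsOpen (ψ.target ∩ ψ.symm ⁻¹' S') :=
      (continuousOn_extChartAt_symm ξ).isOpen_inter_preimage hψo hS'o
    have h2 : IsOpen (f.source ∩ (ψ.target ∩ ψ.symm ⁻¹' S')) := f.open_source.inter h1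
    have h3 : IsOpen (f '' (f.source ∩ (ψ.target ∩ ψ.symm ⁻¹' S'))) :=
      f.isOpen_image_of_subset_source h2 inter_subset_left
    have h4 : IsOpen (φ.source ∩ φ ⁻¹' (f '' (f.source ∩ (ψ.target ∩ ψ.symm ⁻¹' S')))) :=
      (continuousOn_extChartAt (w ξ)).isOpen_inter_preimage hφs h3
    convert h4 using 1
    ext x
    constructor
    · rintro ⟨ζ, hζ, rfl⟩
      have hζS := hS'S hζ
      refine ⟨(hSP hζS).2.2.1, ψ ζ, ⟨(hSP hζS).2.1, ψ.map_source (hSP hζS).1, ?_⟩, hWψ ζ hζS⟩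
      show ψ.symm (ψ ζ) ∈ S'
      rw [ψ.left_inv (hSP hζS).1]
      exact hζ
    · rintro ⟨hx, y, ⟨hy1, hy2, hy3⟩, hyx⟩
      refine ⟨ψ.symm y, hy3, ?_⟩
      have h5 : φ (w (ψ.symm y)) = φ x := hyx
      exact φ.injOn (hSP (hS'S hy3)).2.2.1 hx h5
  · intro ζ hζ
    obtain ⟨hζ1, hζ2, hζ3, A, hA⟩ := hSP hζ
    have h1 : ContMDiffAt I 𝓘(ℝ, E) ∞ φ (w ζ) :=
      contMDiffAt_extChartAt' (by rwa [hφ, extChartAt_source] at hζ3)
    have hψζ : ψ ζ ∈ ψ.target := ψ.map_source hζ1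
    have hwψ : w (ψ.symm (ψ ζ)) ∈ φ.source := by rw [ψ.left_inv hζ1]; exact hζ3
    have hfζ : f.symm (φ (w ζ)) = ψ ζ := by
      rw [← hWψ ζ hζ, ← hfc, f.left_inv hζ2]
    have h2 : ContDiffAt ℝ ∞ f.symm (φ (w ζ)) := by
      apply f.contDiffAt_symm (f₀' := A)
      · rw [← hWψ ζ hζ, ← hfc]
        exact f.map_source hζ2
      · rw [hfζ, hfc, hA]
        exact ((hWs _ hψζ hwψ).differentiableAt (by simp)).hasFDerivAt
      · rw [hfζ, hfc]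
        exact hWs _ hψζ hwψ
    have h3 : ContMDiffAt 𝓘(ℝ, E') J ∞ ψ.symm (f.symm (φ (w ζ))) := by
      rw [hfζ]
      exact (contMDiffOn_extChartAt_symm ξ).contMDiffAt (hψo.mem_nhds hψζ)
    exact h3.comp (w ζ) (h2.contMDiffAt.comp (w ζ) h1)

/-- A map that is injective with injective derivative on a compact set is an open embedding
near the compact set. -/
theorem exists_inverse_near [T2Space X] [Nonempty N] {w : N → X} (hw : ContMDiff J I ∞ w) {C : Set N}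
    (hC : IsCompact C) (hCinj : InjOn w C)
    (hinj : ∀ ξ ∈ C, Function.Injective (mfderiv J I w ξ))
    (hdim : Module.finrank ℝ E' = Module.finrank ℝ E) {V : Set N} (hV : IsOpen V) (hCV : C ⊆ V) :
    ∃ (O : Set N) (w' : X → N), IsOpen O ∧ C ⊆ O ∧ O ⊆ V ∧ IsOpen (w '' O) ∧
      (∀ ξ ∈ O, w' (w ξ) = ξ) ∧ ContMDiffOn I J ∞ w' (w '' O) := by
  classical
  have hloc := fun ξ : C => local_inverse hw (hinj ξ ξ.2) hdim
  choose S v hSo hξS hinv hopen hvs using hloc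
  obtain ⟨t, ht, htinj⟩ := hCinj.exists_mem_nhdsSet hC
    (fun ξ _ => hw.continuous.continuousAt) (fun ξ hξ =>
      ⟨S ⟨ξ, hξ⟩, (hSo _).mem_nhds (hξS ⟨ξ, hξ⟩), fun a ha b hb hab => by
        rw [← hinv _ a ha, ← hinv _ b hb, hab]⟩)
  rw [← subset_interior_iff_mem_nhdsSet] at ht
  set O : Set N := (interior t ∩ V) ∩ ⋃ ξ, S ξ with hO
  have hOo : IsOpen O := (isOpen_interior.inter hV).inter (isOpen_iUnion hSo)
  have hOinj : InjOn w O := htinj.mono fun x hx => interior_subset hx.1.1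
  have hpiece : ∀ (ξ : C), IsOpen (w '' (O ∩ S ξ)) := fun ξ =>
    hopen ξ _ inter_subset_right (hOo.inter (hSo ξ))
  have hleft : ∀ ξ ∈ O, Function.invFunOn w O (w ξ) = ξ := fun ξ hξ => hOinj.leftInvOn_invFunOn hξ
  refine ⟨O, Function.invFunOn w O, hOo, ?_, fun x hx => hx.1.2, ?_, hleft, ?_⟩
  · intro ξ hξ
    exact ⟨⟨ht hξ, hCV hξ⟩, mem_iUnion.2 ⟨⟨ξ, hξ⟩, hξS _⟩⟩
  · have h1 : w '' O = ⋃ ξ : C, w '' (O ∩ S ξ) := by
      ext x
      constructor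
      · rintro ⟨ζ, hζ, rfl⟩
        obtain ⟨ξ, hξ⟩ := mem_iUnion.1 hζ.2
        exact mem_iUnion.2 ⟨ξ, ζ, ⟨hζ, hξ⟩, rfl⟩
      · intro hx
        obtain ⟨ξ, ζ, hζ, rfl⟩ := mem_iUnion.1 hx
        exact ⟨ζ, hζ.1, rfl⟩
    rw [h1]
    exact isOpen_iUnion hpiece
  · rintro _ ⟨ζ, hζ, rfl⟩
    obtain ⟨ξ, hξ⟩ := mem_iUnion.1 hζ.2
    have h1 : Function.invFunOn w O =ᶠ[𝓝 (w ζ)] v ξ := by
      filter_upwards [(hpiece ξ).mem_nhds ⟨ζ, ⟨hζ, hξ⟩, rfl⟩] with x hx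
      obtain ⟨η, hη, rfl⟩ := hx
      rw [hleft η hη.1, hinv ξ η hη.2]
    exact ((hvs ξ ζ hξ).congr_of_eventuallyEq h1).contMDiffWithinAt

end Pool.Agent.Helper186
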