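import Mathlib
import Pool.Agent.Helper186.DForms

/-! Moser's argument near a compact set on which two one-forms agree. -/

open scoped Topology ContDiff Manifold
open Set Metric Bundle

noncomputable section

namespace Pool.Agent.Helper186

set_option linter.unusedSectionVars false

universe u

section along

variable {E : Type*} [NormedAddCommGroup E] [NormedSpace ℝ E]
  {H : Type*} [TopologicalSpace H] {I : ModelWithCorners ℝ E H}
  {M : Type*} [TopologicalSpace M] [ChartedSpace H M] [IsManifold I ∞ M]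
  {E' : Type*} [NormedAddCommGroup E'] [NormedSpace ℝ E']
  {H' : Type*} [TopologicalSpace H'] {J : ModelWithCorners ℝ E' H'}
  {P : Type*} [TopologicalSpace P] [ChartedSpace H' P]

lemma contMDiffAt_smul_along {f : P → M} {a : P → ℝ} {w : (p : P) → TangentSpace I (f p)} {p₀ : P}
    (ha : ContMDiffAt J 𝓘(ℝ, ℝ) ∞ a p₀)
    (hw : ContMDiffAt J I.tangent ∞ (fun p => (⟨f p, w p⟩ : TangentBundle I M)) p₀) :
    ContMDiffAt J I.tangent ∞ (fun p => (⟨f p, a p • w p⟩ : TangentBundle I M)) p₀ := by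
  obtain ⟨hf, hw2⟩ := contMDiffAt_totalSpace.1 hw
  rw [contMDiffAt_totalSpace]
  refine ⟨hf, ?_⟩
  have h1 : ∀ᶠ p in 𝓝 p₀, f p ∈ (trivializationAt E (TangentSpace I) (f p₀)).baseSet :=
    hf.continuousAt.preimage_mem_nhds
      ((trivializationAt E (TangentSpace I) (f p₀)).open_baseSet.mem_nhds
        (mem_baseSet_trivializationAt E (TangentSpace I) (f p₀)))
  refine (ha.smul hw2).congr_of_eventuallyEq ?_
  filter_upwards [h1] with p hp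
  exact ((trivializationAt E (TangentSpace I) (f p₀)).linear ℝ hp).map_smul (a p) (w p)

lemma contMDiffAt_add_along {f : P → M} {v w : (p : P) → TangentSpace I (f p)} {p₀ : P}
    (hv : ContMDiffAt J I.tangent ∞ (fun p => (⟨f p, v p⟩ : TangentBundle I M)) p₀)
    (hw : ContMDiffAt J I.tangent ∞ (fun p => (⟨f p, w p⟩ : TangentBundle I M)) p₀) :
    ContMDiffAt J I.tangent ∞ (fun p => (⟨f p, v p + w p⟩ : TangentBundle I M)) p₀ := by
  obtain ⟨hf, hw2⟩ := contMDiffAt_totalSpace.1 hw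
  obtain ⟨-, hv2⟩ := contMDiffAt_totalSpace.1 hv
  rw [contMDiffAt_totalSpace]
  refine ⟨hf, ?_⟩
  have h1 : ∀ᶠ p in 𝓝 p₀, f p ∈ (trivializationAt E (TangentSpace I) (f p₀)).baseSet :=
    hf.continuousAt.preimage_mem_nhds
      ((trivializationAt E (TangentSpace I) (f p₀)).open_baseSet.mem_nhds
        (mem_baseSet_trivializationAt E (TangentSpace I) (f p₀)))
  refine (hv2.add hw2).congr_of_eventuallyEq ?_
  filter_upwards [h1] with p hp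
  exact ((trivializationAt E (TangentSpace I) (f p₀)).linear ℝ hp).map_add (v p) (w p)

lemma contMDiffAt_zero_along {f : P → M} {p₀ : P} (hf : ContMDiffAt J I ∞ f p₀) :
    ContMDiffAt J I.tangent ∞ (fun p => (⟨f p, 0⟩ : TangentBundle I M)) p₀ := by
  have h1 : ContMDiff I I.tangent ∞ (fun x : M => (⟨x, 0⟩ : TangentBundle I M)) :=
    contMDiff_zeroSection ℝ (TangentSpace I)
  exact (h1 _).comp p₀ hf

end along

variable {E : Type u} [NormedAddCommGroup E] [NormedSpace ℝ E] [FiniteDimensional ℝ E]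
  {H : Type*} [TopologicalSpace H] {I : ModelWithCorners ℝ E H} [I.Boundaryless]
  {N : Type*} [TopologicalSpace N] [ChartedSpace H N] [IsManifold I ∞ N]

/-- The interpolation between the exterior derivatives. -/
def moserB (α₀ α₁ : (x : N) → TangentSpace I x →L[ℝ] ℝ) (p : ℝ × N) :
    TangentSpace I p.2 →L[ℝ] TangentSpace I p.2 →L[ℝ] ℝ :=
  (1 - p.1) • extDerL I α₀ p.2 + p.1 • extDerL I α₁ p.2

lemma moserB_apply (α₀ α₁ : (x : N) → TangentSpace I x →L[ℝ] ℝ) (p : ℝ × N)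
    (u v : TangentSpace I p.2) : moserB α₀ α₁ p u v =
      (1 - p.1) * extDer I α₀ p.2 u v + p.1 * extDer I α₁ p.2 u v := rfl

lemma smooth_moserB {α₀ α₁ : (x : N) → TangentSpace I x →L[ℝ] ℝ} (h₀ : SmoothForm α₀)
    (h₁ : SmoothForm α₁) (p₀ : ℝ × N) :
    SmoothBilinAt (𝓘(ℝ, ℝ).prod I) (fun p : ℝ × N => p.2) (moserB α₀ α₁) p₀ := by
  intro u v hu hv
  have a0 := smoothBilinAt_extDer (J := 𝓘(ℝ, ℝ).prod I) (f := fun p : ℝ × N => p.2) h₀
    (contMDiffAt_snd (p := p₀)) u v hu hv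
  have a1 := smoothBilinAt_extDer (J := 𝓘(ℝ, ℝ).prod I) (f := fun p : ℝ × N => p.2) h₁
    (contMDiffAt_snd (p := p₀)) u v hu hv
  have hs : ContMDiffAt (𝓘(ℝ, ℝ).prod I) 𝓘(ℝ, ℝ) ∞ (fun p : ℝ × N => p.1) p₀ := contMDiffAt_fst
  exact ((contMDiffAt_const.sub hs).mul a0).add (hs.mul a1)

/-- **Moser's argument.** -/
theorem moser [T2Space N] [SigmaCompactSpace N] {α₀ α₁ : (x : N) → TangentSpace I x →L[ℝ] ℝ}
    (h₀ : SmoothForm α₀) (h₁ : SmoothForm α₁) {C : Set N} (hC : IsCompact C)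
    (heq : ∀ ξ ∈ C, α₀ ξ = α₁ ξ)
    (hnd : ∀ s : ℝ, ∀ ξ ∈ C, ∀ u, (∀ v, moserB α₀ α₁ (s, ξ) u v = 0) → u = 0) :
    ∃ (ρ ρi : N → N) (κ : N → ℝ) (V : Set N), ContMDiff I I ∞ ρ ∧ ContMDiff I I ∞ ρi ∧
      (∀ ξ, ρi (ρ ξ) = ξ) ∧ (∀ ξ, ρ (ρi ξ) = ξ) ∧ ContMDiff I 𝓘(ℝ, ℝ) ∞ κ ∧
      (∀ ξ ∈ C, ρ ξ = ξ) ∧ IsOpen V ∧ C ⊆ V ∧ ∀ ξ ∈ V, PB α₀ α₁ ρ 1 κ ξ := by
  classical
  -- the domain of nondegeneracy
  set 𝒰 : Set (ℝ × N) := {p | ∀ u, (∀ v, moserB α₀ α₁ p u v = 0) → u = 0} with h𝒰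
  have h𝒰o : IsOpen 𝒰 := by
    rw [isOpen_iff_mem_nhds]
    intro p hp
    exact eventually_nondegenerate contMDiffAt_snd (smooth_moserB h₀ h₁ p) hp
  have hex : ∀ p : ℝ × N, ∃ u : TangentSpace I p.2, p ∈ 𝒰 → ∀ v, moserB α₀ α₁ p u v =
      α₀ p.2 v - α₁ p.2 v := by
    intro p
    by_cases hp : p ∈ 𝒰
    · obtain ⟨u, hu⟩ := exists_sharp (moserB α₀ α₁ p) hp (α₀ p.2 - α₁ p.2)
      exact ⟨u, fun _ v => hu v⟩
    · exact ⟨0, fun h => absurd h hp⟩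
  choose Y hY using hex
  have hYs : ∀ p ∈ 𝒰, ContMDiffAt (𝓘(ℝ, ℝ).prod I) I.tangent ∞
      (fun p : ℝ × N => (⟨p.2, Y p⟩ : TangentBundle I N)) p := by
    intro p₀ hp₀
    refine contMDiffAt_of_pairing (f := fun p : ℝ × N => p.2) contMDiffAt_snd
      (smooth_moserB h₀ h₁ p₀) hp₀ ?_
    intro v hv
    have a0 : ContMDiffAt (𝓘(ℝ, ℝ).prod I) 𝓘(ℝ, ℝ) ∞ (fun p : ℝ × N => α₀ p.2 (v p)) p₀ :=
      h₀.comp hv le_rfl
    have a1 : ContMDiffAt (𝓘(ℝ, ℝ).prod I) 𝓘(ℝ, ℝ) ∞ (fun p : ℝ × N => α₁ p.2 (v p)) p₀ :=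
      h₁.comp hv le_rfl
    refine (a0.sub a1).congr_of_eventuallyEq ?_
    filter_upwards [h𝒰o.mem_nhds hp₀] with p hp
    exact hY p hp (v p)
  -- cut off
  have hI : IsCompact (Icc (0:ℝ) 1 ×ˢ C) := isCompact_Icc.prod hC
  obtain ⟨χ, K', hχ, hK', hK'U, hχ1, hχ0⟩ := exists_cutoff (𝓘(ℝ, ℝ).prod I) hI h𝒰o
    (fun p hp => hnd p.1 p.2 hp.2)
  have hYt : ContMDiff (𝓘(ℝ, ℝ).prod I) I.tangent ∞
      (fun p : ℝ × N => (⟨p.2, χ p • Y p⟩ : TangentBundle I N)) := by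
    intro p
    by_cases hp : p ∈ 𝒰
    · exact contMDiffAt_smul_along (hχ p) (hYs p hp)
    · have hp' : p ∈ K'ᶜ := fun h => hp (hK'U h)
      have h1 : ContMDiffAt (𝓘(ℝ, ℝ).prod I) I.tangent ∞
        (fun p : ℝ × N => (⟨p.2, 0⟩ : TangentBundle I N)) p :=
        contMDiffAt_zero_along contMDiffAt_snd
      refine h1.congr_of_eventuallyEq ?_
      filter_upwards [hK'.isClosed.isOpen_compl.mem_nhds hp'] with q hq
      rw [hχ0 q hq, zero_smul]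
  have hYK : ∀ p : ℝ × N, p ∉ K' → χ p • Y p = 0 := by
    intro p hp
    rw [hχ0 p hp, zero_smul]
  obtain ⟨R, B, hR, hB, hR0, hBR, hRB, hRd, hRu⟩ :=
    exists_evolution (Y := fun s x => χ (s, x) • Y (s, x)) hYt hK' hYK
  have hdS : ∀ s x, dS I R s x = χ (s, R (s, x)) • Y (s, R (s, x)) := fun s x =>
    dS_eq_of_hasMFDerivAt (hRd s x)
  -- `C` is fixed
  have hfix : ∀ ξ ∈ C, ∀ s, R (s, ξ) = ξ := by
    intro ξ hξ s
    have hY0 : ∀ s, Y (s, ξ) = 0 := by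
      intro s
      have hs : (s, ξ) ∈ 𝒰 := hnd s ξ hξ
      apply hs
      intro v
      rw [hY (s, ξ) hs v, heq ξ hξ, sub_self]
    have h1 := hRu (fun _ => ξ) (-|s| - 1) (|s| + 1)
      ⟨by linarith [abs_nonneg s], by linarith [abs_nonneg s]⟩ (by
        intro σ _
        refine (hasMFDerivAt_const ξ σ).congr_mfderiv ?_
        refine ContinuousLinearMap.ext fun (r : ℝ) => ?_
        show (0 : E) = r • ((χ (σ, ξ) • Y (σ, ξ) : TangentSpace I ξ) : E)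
        rw [hY0, smul_zero]
        exact (smul_zero r).symm) s
      ⟨by linarith [neg_abs_le s], by linarith [le_abs_self s]⟩
    exact h1.symm
  -- tube
  obtain ⟨U₁, hU₁o, hU₁C, hU₁⟩ : ∃ U₁ : Set (ℝ × N), IsOpen U₁ ∧ Icc (0:ℝ) 1 ×ˢ C ⊆ U₁ ∧
      ∀ p ∈ U₁, χ p = 1 ∧ p ∈ 𝒰 := by
    have h1 : ∀ᶠ p in 𝓝ˢ (Icc (0:ℝ) 1 ×ˢ C), p ∈ 𝒰 :=
      h𝒰o.mem_nhdsSet.2 (fun p hp => hnd p.1 p.2 hp.2)
    obtain ⟨U₁, h2, h3, h4⟩ := mem_nhdsSet_iff_exists.1 (hχ1.and h1)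
    exact ⟨U₁, h2, h3, fun p hp => h4 hp⟩
  have hcont : Continuous (fun p : ℝ × N => (p.1, R p)) := continuous_fst.prodMk hR.continuous
  obtain ⟨u, V, hu, hV, h01, hCV, huV⟩ := generalized_tube_lemma
    (isCompact_Icc (a := (0:ℝ)) (b := 1)) hC (hU₁o.preimage hcont) (by
      rintro ⟨s, ξ⟩ ⟨hs, hξ⟩
      show (s, R (s, ξ)) ∈ U₁
      rw [hfix ξ hξ]
      exact hU₁C ⟨hs, hξ⟩)
  have hRV : ∀ s ∈ Icc (0:ℝ) 1, ∀ ξ ∈ V, χ (s, R (s, ξ)) = 1 ∧ (s, R (s, ξ)) ∈ 𝒰 := by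
    intro s hs ξ hξ
    exact hU₁ _ (huV (⟨h01 hs, hξ⟩ : (s, ξ) ∈ u ×ˢ V))
  -- the primitive
  set k : ℝ × N → ℝ := fun p => (1 - p.1) * α₀ (R p) (dS I R p.1 p.2) +
    p.1 * α₁ (R p) (dS I R p.1 p.2) with hk
  have hka : ∀ {α : (x : N) → TangentSpace I x →L[ℝ] ℝ}, SmoothForm α →
      ContMDiff (𝓘(ℝ, ℝ).prod I) 𝓘(ℝ, ℝ) ∞ (fun p : ℝ × N => α (R p) (dS I R p.1 p.2)) := by
    intro α hα q
    exact hα.comp (contMDiffAt_dS isOpen_univ hR.contMDiffOn (mem_univ q)) le_rfl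
  have hfst : ContMDiff (𝓘(ℝ, ℝ).prod I) 𝓘(ℝ, ℝ) ∞ (fun p : ℝ × N => p.1) := contMDiff_fst
  have hks : ContMDiff (𝓘(ℝ, ℝ).prod I) 𝓘(ℝ, ℝ) ∞ k :=
    ((contMDiff_const.sub hfst).mul (hka h₀)).add (hfst.mul (hka h₁))
  refine ⟨fun x => R (1, x), fun x => B (1, x), fun x => ∫ s in (0:ℝ)..1, k (s, x), V,
    hR.comp (contMDiff_const.prodMk contMDiff_id), hB.comp (contMDiff_const.prodMk contMDiff_id),
    hBR 1, hRB 1, contMDiff_paramInt hks 1, fun ξ hξ => hfix ξ hξ 1, hV, hCV, ?_⟩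
  intro ξ hξ w
  set a : ℝ → ℝ := fun s => (1 - s) * α₀ (R (s, ξ)) (dX I I R s ξ w) +
    s * α₁ (R (s, ξ)) (dX I I R s ξ w) with ha
  have had : ∀ s ∈ uIcc (0:ℝ) 1, HasDerivAt a
      (show ℝ from mfderiv I 𝓘(ℝ, ℝ) (fun x => k (s, x)) ξ w) s := by
    intro s hs
    rw [uIcc_of_le zero_le_one] at hs
    have v0 := hasDerivAt_variation h₀ isOpen_univ hR.contMDiffOn (mem_univ (s, ξ)) w
    have v1 := hasDerivAt_variation h₁ isOpen_univ hR.contMDiffOn (mem_univ (s, ξ)) w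
    have t0 : HasDerivAt (fun s : ℝ => 1 - s) (-1) s := by
      simpa using (hasDerivAt_id s).const_sub 1
    have t1 : HasDerivAt (fun s : ℝ => s) 1 s := hasDerivAt_id s
    have h2 := (t0.mul v0).add (t1.mul v1)
    refine h2.congr_deriv ?_
    -- the Moser equation
    have h3 : (1 - s) * extDer I α₀ (R (s, ξ)) (dS I R s ξ) (dX I I R s ξ w) +
        s * extDer I α₁ (R (s, ξ)) (dS I R s ξ) (dX I I R s ξ w) =
        α₀ (R (s, ξ)) (dX I I R s ξ w) - α₁ (R (s, ξ)) (dX I I R s ξ w) := by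
      have h4 := hY (s, R (s, ξ)) (hRV s hs ξ hξ).2 (dX I I R s ξ w)
      rw [moserB_apply] at h4
      have h5 : dS I R s ξ = Y (s, R (s, ξ)) := by
        rw [hdS, (hRV s hs ξ hξ).1, one_smul]
      rw [h5]
      exact h4
    -- the derivative of `k`
    have hm : ∀ {α : (x : N) → TangentSpace I x →L[ℝ] ℝ}, SmoothForm α →
        MDifferentiableAt I 𝓘(ℝ, ℝ) (fun x => α (R (s, x)) (dS I R s x)) ξ := by
      intro α hα
      exact mdifferentiableAt_slice (i := fun p : ℝ × N => α (R p) (dS I R p.1 p.2)) isOpen_univ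
        (hka hα).contMDiffOn (mem_univ (s, ξ))
    have h6 : (show ℝ from mfderiv I 𝓘(ℝ, ℝ) (fun x => k (s, x)) ξ w) =
        (1 - s) * (show ℝ from mfderiv I 𝓘(ℝ, ℝ) (fun x => α₀ (R (s, x)) (dS I R s x)) ξ w) +
        s * (show ℝ from mfderiv I 𝓘(ℝ, ℝ) (fun x => α₁ (R (s, x)) (dS I R s x)) ξ w) := by
      have h7 : HasMFDerivAt I 𝓘(ℝ, ℝ) (fun x => k (s, x)) ξ
          ((1 - s) • (show TangentSpace I ξ →L[ℝ] ℝ from
            mfderiv I 𝓘(ℝ, ℝ) (fun x => α₀ (R (s, x)) (dS I R s x)) ξ) +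
          s • (show TangentSpace I ξ →L[ℝ] ℝ from
            mfderiv I 𝓘(ℝ, ℝ) (fun x => α₁ (R (s, x)) (dS I R s x)) ξ)) := by
        have b0 := (hm h₀).hasMFDerivAt.const_smul (1 - s)
        have b1 := (hm h₁).hasMFDerivAt.const_smul s
        exact b0.add b1
      exact DFunLike.congr_fun h7.mfderiv w
    rw [h6]
    linear_combination h3
  have h2 := integral_slice hks had
  have h3 : a 1 = α₁ (R (1, ξ)) (dX I I R 1 ξ w) := by simp [ha]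
  have h4 : a 0 = α₀ ξ w := by
    have h5 : (fun x' => R (0, x')) = id := by ext x'; exact hR0 x'
    have h6 : tangentMap I I (fun x' => R (0, x')) (⟨ξ, w⟩ : TangentBundle I N) = ⟨ξ, w⟩ := by
      rw [h5, tangentMap_id]; rfl
    have h7 : α₀ (R (0, ξ)) (dX I I R 0 ξ w) = α₀ ξ w := form_congr α₀ h6
    simp only [ha, h7]
    ring
  rw [h3, h4] at h2
  show α₁ (R (1, ξ)) (dX I I R 1 ξ w) = _
  linarith

end Pool.Agent.Helper186
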