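import Mathlib
import Pool.Agent.Helper186.Moser

/-! Generators of a tubular map. -/

open scoped Topology ContDiff Manifold
open Set Metric Bundle

noncomputable section

namespace Pool.Agent.Helper186

set_option linter.unusedSectionVars false

universe u

variable {E : Type u} [NormedAddCommGroup E] [NormedSpace ℝ E] [FiniteDimensional ℝ E]
  {H : Type*} [TopologicalSpace H] {I : ModelWithCorners ℝ E H} [I.Boundaryless]
  {X : Type*} [TopologicalSpace X] [ChartedSpace H X] [IsManifold I ∞ X]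

lemma exists_local_coord [T2Space X] (x₀ : X) : ∃ g : X → E, ContMDiff I 𝓘(ℝ, E) ∞ g ∧
    ∀ᶠ x in 𝓝 x₀, Function.Injective (mfderiv I 𝓘(ℝ, E) g x) := by
  obtain ⟨f⟩ : Nonempty (SmoothBumpFunction I x₀) := inferInstance
  refine ⟨fun x => f x • extChartAt I x₀ x, f.contMDiff_smul contMDiffOn_extChartAt, ?_⟩
  filter_upwards [f.eventuallyEq_one.eventually_nhds, extChartAt_source_mem_nhds (I := I) x₀]
    with x hx hxs
  have h1 : (fun x => f x • extChartAt I x₀ x) =ᶠ[𝓝 x] extChartAt I x₀ := by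
    filter_upwards [hx] with y hy
    rw [hy]
    simp
  rw [h1.mfderiv_eq]
  exact (isInvertible_mfderiv_extChartAt hxs).injective

/-- Finitely many smooth functions whose differentials span the cotangent spaces over
a compact set. -/
theorem exists_functions (I : ModelWithCorners ℝ E H) [I.Boundaryless] [IsManifold I ∞ X]
    [T2Space X] {K : Set X} (hK : IsCompact K) :
    ∃ (m : ℕ) (e : ℕ → X → ℝ), (∀ k, ContMDiff I 𝓘(ℝ, ℝ) ∞ (e k)) ∧
      ∀ x ∈ K, ∀ u : TangentSpace I x, (∀ k < m, dForm I (e k) x u = 0) → u = 0 := by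
  refine hK.induction_on (p := fun S => ∃ (m : ℕ) (e : ℕ → X → ℝ),
    (∀ k, ContMDiff I 𝓘(ℝ, ℝ) ∞ (e k)) ∧
      ∀ x ∈ S, ∀ u : TangentSpace I x, (∀ k < m, dForm I (e k) x u = 0) → u = 0)
    ⟨0, fun _ _ => 0, fun _ => contMDiff_const, by simp⟩ ?_ ?_ ?_
  · rintro s t hst ⟨m, e, he, h⟩
    exact ⟨m, e, he, fun x hx => h x (hst hx)⟩
  · rintro s t ⟨m₁, e₁, he₁, h₁⟩ ⟨m₂, e₂, he₂, h₂⟩
    refine ⟨m₁ + m₂, fun k => if k < m₁ then e₁ k else e₂ (k - m₁), ?_, ?_⟩
    · intro k
      by_cases hk : k < m₁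
      · simpa only [hk, if_true] using he₁ k
      · simpa only [hk, if_false] using he₂ (k - m₁)
    · rintro x (hx | hx) u hu
      · apply h₁ x hx u
        intro k hk
        have := hu k (by omega)
        simpa only [hk, if_true] using this
      · apply h₂ x hx u
        intro k hk
        have := hu (m₁ + k) (by omega)
        have h3 : ¬ (m₁ + k < m₁) := by omega
        simpa only [h3, if_false, Nat.add_sub_cancel_left] using this
  · intro x₀ _
    obtain ⟨g, hg, hginj⟩ := exists_local_coord (I := I) x₀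
    let b := Module.finBasis ℝ E
    let ℓ : Fin (Module.finrank ℝ E) → (E →L[ℝ] ℝ) := fun i =>
      LinearMap.toContinuousLinearMap (b.coord i)
    refine ⟨_, mem_nhdsWithin_of_mem_nhds hginj, Module.finrank ℝ E,
      fun k x => if h : k < Module.finrank ℝ E then ℓ ⟨k, h⟩ (g x) else 0, ?_, ?_⟩
    · intro k
      by_cases hk : k < Module.finrank ℝ E
      · simp only [hk, dif_pos]
        exact (ℓ ⟨k, hk⟩).contMDiff.comp hg
      · simp only [hk, dif_neg, not_false_iff]
        exact contMDiff_const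
    · intro x hx u hu
      apply hx
      have hgd : MDifferentiableAt I 𝓘(ℝ, E) g x := hg.mdifferentiableAt (by simp)
      have h1 : ∀ i, ℓ i (mfderiv I 𝓘(ℝ, E) g x u) = 0 := by
        intro i
        have h2 := hu i i.2
        simp only [i.2, dif_pos] at h2
        have h3 := mfderiv_comp (I := I) (I' := 𝓘(ℝ, E)) (I'' := 𝓘(ℝ, ℝ)) x
          (((ℓ i).contMDiff (n := ∞)).mdifferentiableAt (by simp)) hgd
        have h4 := DFunLike.congr_fun h3 u
        have h5 : mfderiv 𝓘(ℝ, E) 𝓘(ℝ, ℝ) (ℓ i) (g x) = ℓ i := by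
          rw [mfderiv_eq_fderiv]
          exact (ℓ i).fderiv
        have h6 : ℓ i (mfderiv I 𝓘(ℝ, E) g x u) =
          mfderiv 𝓘(ℝ, E) 𝓘(ℝ, ℝ) (ℓ i) (g x) (mfderiv I 𝓘(ℝ, E) g x u) :=
          (DFunLike.congr_fun h5 _).symm
        rw [h6]
        exact h4.symm.trans h2
      have hℓ : ∀ a : E, (∀ i, ℓ i a = 0) → a = 0 := by
        intro a ha
        apply b.ext_elem
        intro i
        rw [map_zero]
        exact ha i
      have h2 : (mfderiv I 𝓘(ℝ, E) g x u : E) = 0 := hℓ _ h1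
      rw [map_zero]
      exact h2

/-- A smooth one-parameter family of maps starting at the identity, with initial velocity
the Hamiltonian vector field of `e` along a compact set. -/
theorem exists_generator [T2Space X] [SigmaCompactSpace X]
    {lam : (x : X) → TangentSpace I x →L[ℝ] ℝ} (hlam : SmoothForm lam)
    (hnd : ∀ (x : X) (u : TangentSpace I x), (∀ v, extDer I lam x u v = 0) → u = 0)
    {K : Set X} (hK : IsCompact K) {e : X → ℝ} (he : ContMDiff I 𝓘(ℝ, ℝ) ∞ e) :
    ∃ R : ℝ × X → X, ContMDiff (𝓘(ℝ, ℝ).prod I) I ∞ R ∧ (∀ x, R (0, x) = x) ∧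
      ∀ x ∈ K, ∀ v : TangentSpace I x,
        extDer I lam x (show TangentSpace I x from (show E from dS I R 0 x)) v =
          dForm I e x v := by
  have h0 : IsCompact ({(0:ℝ)} ×ˢ K) := isCompact_singleton.prod hK
  have hes : ContMDiff (𝓘(ℝ, ℝ).prod I) 𝓘(ℝ, ℝ) ∞ (fun p : ℝ × X => e p.2) :=
    he.comp contMDiff_snd
  obtain ⟨Hh, K', hHh, hK', -, hHh1, hHh0⟩ := exists_extension h0 isOpen_univ (subset_univ _)
    hes.contMDiffOn
  obtain ⟨R, Ri, hR, hRi, hR0, -, -, hRH, -, -⟩ := hamiltonian_flow hlam hnd hHh hK' hHh0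
  refine ⟨R, hR, hR0, ?_⟩
  intro x hx v
  have h1 := hRH 0 x
  have h2 : ∀ (y : X), y = x → ∀ a : E, (∀ v : E, extDer I lam y a v =
      (show ℝ from mfderiv I 𝓘(ℝ, ℝ) (fun y => Hh (0, y)) y v)) →
      ∀ v : E, extDer I lam x a v = (show ℝ from mfderiv I 𝓘(ℝ, ℝ) (fun y => Hh (0, y)) x v) := by
    rintro y rfl a h; exact h
  have h3 := h2 _ (hR0 x) _ h1 v
  refine h3.trans ?_
  have h4 : (fun y => Hh (0, y)) =ᶠ[𝓝 x] e := by
    have h7 : ((0:ℝ), x) ∈ ({(0:ℝ)} ×ˢ K : Set (ℝ × X)) := ⟨rfl, hx⟩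
    have h5 : ∀ᶠ p in 𝓝 ((0:ℝ), x), Hh p = e p.2 :=
      hHh1.filter_mono (nhds_le_nhdsSet h7)
    have h6 : ContinuousAt (fun y : X => ((0:ℝ), y)) x := by fun_prop
    exact h6.eventually h5
  exact DFunLike.congr_fun (h4.mfderiv_eq (I := I) (I' := 𝓘(ℝ, ℝ))) v

/-- Fields dual to spanning functions. -/
theorem exists_dual_fields {f : ℕ → X → ℝ} (hf : ∀ k, ContMDiff I 𝓘(ℝ, ℝ) ∞ (f k)) {m : ℕ}
    (hinj : ∀ (q : X) (u : TangentSpace I q), (∀ k < m, dForm I (f k) q u = 0) → u = 0) :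
    ∃ v : ℕ → (q : X) → TangentSpace I q,
      (∀ k, ContMDiff I I.tangent ∞ (fun q => (⟨q, v k q⟩ : TangentBundle I X))) ∧
      ∀ (q : X) (u : TangentSpace I q),
        ∑ k ∈ Finset.range m, (dForm I (f k) q u) • v k q = u := by
  set B : (q : X) → TangentSpace I q →L[ℝ] TangentSpace I q →L[ℝ] ℝ := fun q =>
    ∑ k ∈ Finset.range m, (dForm I (f k) q).smulRight (dForm I (f k) q) with hB
  have hBa : ∀ q (u v : TangentSpace I q), B q u v =
      ∑ k ∈ Finset.range m, dForm I (f k) q u * dForm I (f k) q v := by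
    intro q u v
    simp only [hB, sum_apply]
    rfl
  have hnd : ∀ (q : X) (u : TangentSpace I q), (∀ v, B q u v = 0) → u = 0 := by
    intro q u hu
    apply hinj q u
    have h1 := hu u
    rw [hBa, Finset.sum_eq_zero_iff_of_nonneg (fun k _ => mul_self_nonneg _)] at h1
    intro k hk
    exact mul_self_eq_zero.1 (h1 k (Finset.mem_range.2 hk))
  choose v hv using fun (k : ℕ) (q : X) => exists_sharp (B q) (hnd q) (dForm I (f k) q)
  have hBs : ∀ q₀, SmoothBilinAt I (fun q : X => q) B q₀ := by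
    intro q₀ u w hu hw
    have h1 : ContMDiffAt I 𝓘(ℝ, ℝ) ∞ (fun q => ∑ k ∈ Finset.range m,
        dForm I (f k) q (u q) * dForm I (f k) q (w q)) q₀ := by
      apply ContMDiffAt.sum
      intro k _
      exact ((smoothForm_dForm (hf k)).comp hu le_rfl).mul
        ((smoothForm_dForm (hf k)).comp hw le_rfl)
    refine h1.congr_of_eventuallyEq (Filter.Eventually.of_forall fun q => hBa _ _ _)
  refine ⟨v, ?_, ?_⟩
  · intro k q₀
    refine contMDiffAt_of_pairing (f := fun q : X => q) contMDiffAt_id (hBs q₀) (hnd q₀) ?_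
    intro w hw
    have h1 : ContMDiffAt I 𝓘(ℝ, ℝ) ∞ (fun q => dForm I (f k) q (w q)) q₀ :=
      (smoothForm_dForm (hf k)).comp hw le_rfl
    exact h1.congr_of_eventuallyEq (Filter.Eventually.of_forall fun q => hv k q _)
  · intro q u
    rw [← sub_eq_zero]
    apply hnd q
    intro w
    rw [map_sub, map_sum]
    simp only [map_smul]
    have h1 : (∑ k ∈ Finset.range m, dForm I (f k) q u • B q (v k q) - B q u) w =
        ∑ k ∈ Finset.range m, dForm I (f k) q u * B q (v k q) w - B q u w := by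
      rw [sub_apply, sum_apply]
      rfl
    rw [h1, hBa, sub_eq_zero]
    refine Finset.sum_congr rfl fun k _ => ?_
    rw [hv]

end Pool.Agent.Helper186
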