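import Mathlib
import Pool.Agent.Helper186.CotForm
import Pool.Agent.Helper186.Tube
import Pool.Agent.Helper186.LocDiffeo

/-! The tubular map of a Lagrangian. -/

open scoped Topology ContDiff Manifold
open Set Metric Bundle

noncomputable section

namespace Pool.Agent.Helper186

set_option linter.unusedSectionVars false

universe u

variable {F : Type*} [NormedAddCommGroup F] [NormedSpace ℝ F] [FiniteDimensional ℝ F]
  {L : Type*} [TopologicalSpace L] [ChartedSpace F L] [IsManifold 𝓘(ℝ, F) ∞ L]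
  {E : Type u} [NormedAddCommGroup E] [NormedSpace ℝ E] [FiniteDimensional ℝ E]
  {H : Type*} [TopologicalSpace H] {I : ModelWithCorners ℝ E H} [I.Boundaryless]
  {X : Type*} [TopologicalSpace X] [ChartedSpace H X] [IsManifold I ∞ X]

variable (I) in
/-- Initial velocity as an element of the model space. -/
def vel (R : ℝ × X → X) (x : X) : E := dS I R 0 x

/-- Derivative of a family starting at the identity. -/
lemma mfderiv_generator {R : ℝ × X → X} (hR : ContMDiff (𝓘(ℝ, ℝ).prod I) I ∞ R)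
    (hR0 : ∀ x, R (0, x) = x) (x : X) (p : ℝ × X) (hp : p = (0, x)) (a : ℝ) (b : E) :
    (show E from mfderiv (𝓘(ℝ, ℝ).prod I) I R p ((a, b) : ℝ × E)) = a • vel I R x + b := by
  subst hp
  rw [mfderiv_prod_eq_add_apply (hR.mdifferentiableAt (by simp))]
  have h1 : (show E from mfderiv 𝓘(ℝ, ℝ) I (fun z : ℝ => R (z, x)) 0 a) = a • vel I R x := by
    have h2 : mfderiv 𝓘(ℝ, ℝ) I (fun z : ℝ => R (z, x)) 0 (a • (1:ℝ)) =
        a • mfderiv 𝓘(ℝ, ℝ) I (fun z : ℝ => R (z, x)) 0 (1:ℝ) := map_smul _ _ _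
    rw [smul_eq_mul, mul_one] at h2
    exact h2
  have h2 : (show E from mfderiv I I (fun z : X => R (0, z)) x b) = b := by
    have h3 : (fun z : X => R (0, z)) = id := by ext z; exact hR0 z
    have h4 : tangentMap I I (fun z : X => R (0, z)) (⟨x, b⟩ : TangentBundle I X) = ⟨x, b⟩ := by
      rw [h3, tangentMap_id]; rfl
    have h5 : ∀ V W : TangentBundle I X, V = W → (V.2 : E) = (W.2 : E) := by
      rintro V W rfl; rfl
    exact h5 _ _ h4
  exact congrArg₂ (fun (a b : E) => a + b) h1 h2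

/-- The tubular map. -/
def tubeMap (ι : L → X) (R : ℕ → ℝ × X → X) (v : ℕ → (q : L) → TangentSpace 𝓘(ℝ, F) q) :
    ℕ → Cotangent F L → X
  | 0 => fun ξ => ι ξ.1
  | k + 1 => fun ξ => R k (cfun (v k) ξ, tubeMap ι R v k ξ)

section

variable {ι : L → X} {R : ℕ → ℝ × X → X} {v : ℕ → (q : L) → TangentSpace 𝓘(ℝ, F) q}

lemma contMDiff_tubeMap (hι : ContMDiff 𝓘(ℝ, F) I ∞ ι)
    (hR : ∀ k, ContMDiff (𝓘(ℝ, ℝ).prod I) I ∞ (R k))
    (hv : ∀ k, ContMDiff 𝓘(ℝ, F) 𝓘(ℝ, F).tangent ∞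
      (fun q => (⟨q, v k q⟩ : TangentBundle 𝓘(ℝ, F) L))) (k : ℕ) :
    ContMDiff (IC F) I ∞ (tubeMap ι R v k) := by
  induction k with
  | zero => exact hι.comp contMDiff_projC
  | succ k ih => exact (hR k).comp ((contMDiff_cfun (hv k)).prodMk ih)

lemma tubeMap_zeroC (hR0 : ∀ k x, R k (0, x) = x) (k : ℕ) (q : L) :
    tubeMap ι R v k (zeroC q) = ι q := by
  induction k with
  | zero => rfl
  | succ k ih =>
    show R k (cfun (v k) (zeroC q), tubeMap ι R v k (zeroC q)) = ι q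
    rw [cfun_zeroC, ih, hR0]

lemma mfderiv_tubeMap (hι : ContMDiff 𝓘(ℝ, F) I ∞ ι)
    (hR : ∀ k, ContMDiff (𝓘(ℝ, ℝ).prod I) I ∞ (R k)) (hR0 : ∀ k x, R k (0, x) = x)
    (hv : ∀ k, ContMDiff 𝓘(ℝ, F) 𝓘(ℝ, F).tangent ∞
      (fun q => (⟨q, v k q⟩ : TangentBundle 𝓘(ℝ, F) L))) (q : L)
    (u : TangentSpace (IC F) (zeroC q : Cotangent F L)) (k : ℕ) :
    (show E from mfderiv (IC F) I (tubeMap ι R v k) (zeroC q) u) =
      (show E from mfderiv 𝓘(ℝ, F) I ι q
        (mfderiv (IC F) 𝓘(ℝ, F) (TotalSpace.proj : Cotangent F L → L) (zeroC q) u)) +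
      ∑ j ∈ Finset.range k, dForm (IC F) (cfun (v j)) (zeroC q) u • vel I (R j) (ι q) := by
  induction k with
  | zero =>
    have h1 := mfderiv_comp (I := IC F) (I' := 𝓘(ℝ, F)) (I'' := I) (zeroC q : Cotangent F L)
      (hι.mdifferentiableAt (by simp) (x := q)) (contMDiff_projC.mdifferentiableAt (by simp))
    have h2 := DFunLike.congr_fun h1 u
    rw [Finset.range_zero, Finset.sum_empty, add_zero]
    exact h2
  | succ k ih =>
    have hp : (cfun (v k) (zeroC q : Cotangent F L), tubeMap ι R v k (zeroC q)) = (0, ι q) := by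
      rw [tubeMap_zeroC hR0, cfun_zeroC]
    have hcd : MDifferentiableAt (IC F) 𝓘(ℝ, ℝ) (cfun (v k)) (zeroC q : Cotangent F L) :=
      (contMDiff_cfun (hv k)).mdifferentiableAt (by simp)
    have hGd : MDifferentiableAt (IC F) I (tubeMap ι R v k) (zeroC q : Cotangent F L) :=
      (contMDiff_tubeMap hι hR hv k).mdifferentiableAt (by simp)
    have h1 := mfderiv_comp (I := IC F) (I' := 𝓘(ℝ, ℝ).prod I) (I'' := I)
      (zeroC q : Cotangent F L)
      ((hR k).mdifferentiableAt (by simp)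
        (x := (cfun (v k) (zeroC q : Cotangent F L), tubeMap ι R v k (zeroC q))))
      (hcd.prodMk hGd)
    have h2 := DFunLike.congr_fun h1 u
    have h3 := DFunLike.congr_fun (mfderiv_prodMk hcd hGd) u
    have h4 : (show E from mfderiv (IC F) I (tubeMap ι R v (k + 1)) (zeroC q) u) =
        (show E from mfderiv (𝓘(ℝ, ℝ).prod I) I (R k)
          (cfun (v k) (zeroC q : Cotangent F L), tubeMap ι R v k (zeroC q))
          ((dForm (IC F) (cfun (v k)) (zeroC q) u,
            (show E from mfderiv (IC F) I (tubeMap ι R v k) (zeroC q) u)) : ℝ × E)) := by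
      refine h2.trans ?_
      exact congrArg (mfderiv (𝓘(ℝ, ℝ).prod I) I (R k)
          (cfun (v k) (zeroC q : Cotangent F L), tubeMap ι R v k (zeroC q))) h3
    rw [h4, mfderiv_generator (hR k) (hR0 k) (ι q) _ hp, ih, Finset.sum_range_succ]
    abel

end

end Pool.Agent.Helper186
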