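import Mathlib
import Pool.Agent.Helper186.TubeMap

/-! The Weinstein neighbourhood theorem for exact symplectic manifolds. -/

open scoped Topology ContDiff Manifold
open Set Metric Bundle

noncomputable section

namespace Pool.Agent.Helper186

set_option linter.unusedSectionVars false

universe u

section dform

variable {E' : Type*} [NormedAddCommGroup E'] [NormedSpace ℝ E'] [FiniteDimensional ℝ E']
  {H' : Type*} [TopologicalSpace H'] {J : ModelWithCorners ℝ E' H'}
  {N : Type*} [TopologicalSpace N] [ChartedSpace H' N] [IsManifold J ∞ N]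

lemma dForm_mul {c μ : N → ℝ} (hc : ContMDiff J 𝓘(ℝ, ℝ) ∞ c) (hμ : ContMDiff J 𝓘(ℝ, ℝ) ∞ μ)
    (ξ : N) (u : TangentSpace J ξ) :
    dForm J (fun ξ => c ξ * μ ξ) ξ u = c ξ * dForm J μ ξ u + μ ξ * dForm J c ξ u := by
  have h1 := (hc.mdifferentiableAt (by simp) (x := ξ)).hasMFDerivAt.mul
    (hμ.mdifferentiableAt (by simp) (x := ξ)).hasMFDerivAt
  exact DFunLike.congr_fun h1.mfderiv u

lemma dForm_add {c μ : N → ℝ} (hc : ContMDiff J 𝓘(ℝ, ℝ) ∞ c) (hμ : ContMDiff J 𝓘(ℝ, ℝ) ∞ μ)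
    (ξ : N) (u : TangentSpace J ξ) :
    dForm J (fun ξ => c ξ + μ ξ) ξ u = dForm J c ξ u + dForm J μ ξ u := by
  have h1 := (hc.mdifferentiableAt (by simp) (x := ξ)).hasMFDerivAt.add
    (hμ.mdifferentiableAt (by simp) (x := ξ)).hasMFDerivAt
  exact DFunLike.congr_fun h1.mfderiv u

lemma dForm_neg {c : N → ℝ} (hc : ContMDiff J 𝓘(ℝ, ℝ) ∞ c)
    (ξ : N) (u : TangentSpace J ξ) :
    dForm J (fun ξ => - c ξ) ξ u = - dForm J c ξ u := by
  have h1 := (hc.mdifferentiableAt (by simp) (x := ξ)).hasMFDerivAt.neg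
  exact DFunLike.congr_fun h1.mfderiv u

lemma dForm_const (a : ℝ) (ξ : N) (u : TangentSpace J ξ) : dForm J (fun _ => a) ξ u = 0 := by
  have h1 : mfderiv J 𝓘(ℝ, ℝ) (fun _ : N => a) ξ = 0 := mfderiv_const
  exact DFunLike.congr_fun h1 u

lemma contMDiff_sum {c : ℕ → N → ℝ} (hc : ∀ k, ContMDiff J 𝓘(ℝ, ℝ) ∞ (c k)) (m : ℕ) :
    ContMDiff J 𝓘(ℝ, ℝ) ∞ (fun ξ => ∑ k ∈ Finset.range m, c k ξ) := by
  induction m with
  | zero => simp only [Finset.range_zero, Finset.sum_empty]; exact contMDiff_const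
  | succ m ih => simp only [Finset.sum_range_succ]; exact ih.add (hc m)

lemma dForm_sum {c : ℕ → N → ℝ} (hc : ∀ k, ContMDiff J 𝓘(ℝ, ℝ) ∞ (c k)) (m : ℕ)
    (ξ : N) (u : TangentSpace J ξ) :
    dForm J (fun ξ => ∑ k ∈ Finset.range m, c k ξ) ξ u =
      ∑ k ∈ Finset.range m, dForm J (c k) ξ u := by
  induction m with
  | zero =>
    simp only [Finset.range_zero, Finset.sum_empty]
    exact dForm_const 0 ξ u
  | succ m ih =>
    simp only [Finset.sum_range_succ]
    rw [dForm_add (contMDiff_sum hc m) (hc m), ih]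

end dform

variable {F : Type*} [NormedAddCommGroup F] [NormedSpace ℝ F] [FiniteDimensional ℝ F]
  {L : Type*} [TopologicalSpace L] [ChartedSpace F L] [IsManifold 𝓘(ℝ, F) ∞ L]
  {E : Type u} [NormedAddCommGroup E] [NormedSpace ℝ E] [FiniteDimensional ℝ E]
  {H : Type*} [TopologicalSpace H] {I : ModelWithCorners ℝ E H} [I.Boundaryless]
  {X : Type*} [TopologicalSpace X] [ChartedSpace H X] [IsManifold I ∞ X]

/-- moving the base point of a form -/
lemma form_move (α : (x : X) → TangentSpace I x →L[ℝ] ℝ) {x y : X} (h : x = y) {a b : E}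
    (hab : a = b) : α x (show TangentSpace I x from a) = α y (show TangentSpace I y from b) := by
  subst h; subst hab; rfl

lemma extDer_move (α : (x : X) → TangentSpace I x →L[ℝ] ℝ) {x y : X} (h : x = y) {a b a' b' : E}
    (ha : a = a') (hb : b = b') :
    extDer I α x (show TangentSpace I x from a) (show TangentSpace I x from b) =
      extDer I α y (show TangentSpace I y from a') (show TangentSpace I y from b') := by
  subst h; subst ha; subst hb; rfl

lemma extDer_sum_left (α : (x : X) → TangentSpace I x →L[ℝ] ℝ) (x : X) (m : ℕ) (c : ℕ → ℝ)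
    (b : ℕ → E) (a : E) :
    extDer I α x (show TangentSpace I x from (∑ k ∈ Finset.range m, c k • b k : E))
      (show TangentSpace I x from a) =
    ∑ k ∈ Finset.range m, c k * extDer I α x (show TangentSpace I x from b k)
      (show TangentSpace I x from a) := by
  let ℓ : E →L[ℝ] E →L[ℝ] ℝ := extDerL I α x
  have h1 : ℓ (∑ k ∈ Finset.range m, c k • b k : E) a = ∑ k ∈ Finset.range m, c k * ℓ (b k) a := by
    rw [map_sum, sum_apply]
    simp only [map_smul]
    rfl
  exact h1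

lemma form_add_sum (α : (x : X) → TangentSpace I x →L[ℝ] ℝ) (x : X) (m : ℕ) (c : ℕ → ℝ)
    (b : ℕ → E) (a : E) :
    α x (show TangentSpace I x from (a + ∑ k ∈ Finset.range m, c k • b k : E)) =
      α x (show TangentSpace I x from a) +
      ∑ k ∈ Finset.range m, c k * α x (show TangentSpace I x from b k) := by
  let ℓ : E →L[ℝ] ℝ := α x
  have h1 : ℓ (a + ∑ k ∈ Finset.range m, c k • b k) = ℓ a +
      ∑ k ∈ Finset.range m, c k * ℓ (b k) := by
    rw [map_add, map_sum]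
    simp only [map_smul, smul_eq_mul]
  exact h1

/-- **Weinstein neighbourhood theorem** with primitives. -/
theorem weinstein [T2Space X] [SigmaCompactSpace X] [CompactSpace L] [T2Space L] [Nonempty L]
    {lam : (x : X) → TangentSpace I x →L[ℝ] ℝ} (hlam : SmoothForm lam)
    (hnd : ∀ (x : X) (u : TangentSpace I x), (∀ v, extDer I lam x u v = 0) → u = 0)
    {ι : L → X} (hι : ContMDiff 𝓘(ℝ, F) I ∞ ι) (hιinj : Function.Injective ι)
    (hιimm : ∀ q, Function.Injective (mfderiv 𝓘(ℝ, F) I ι q))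
    (hι0 : ∀ q (w : TangentSpace 𝓘(ℝ, F) q), lam (ι q) (mfderiv 𝓘(ℝ, F) I ι q w) = 0)
    (hdim : Module.finrank ℝ E = 2 * Module.finrank ℝ F) :
    ∃ (w : Cotangent F L → X) (w' : X → Cotangent F L) (O : Set (Cotangent F L)) (g : X → ℝ),
      IsOpen O ∧ (∀ q, zeroC q ∈ O) ∧ IsOpen (w '' O) ∧ ContMDiff (IC F) I ∞ w ∧
      ContMDiffOn I (IC F) ∞ w' (w '' O) ∧ (∀ ξ ∈ O, w' (w ξ) = ξ) ∧ (∀ q, w (zeroC q) = ι q) ∧
      ContMDiffOn I 𝓘(ℝ, ℝ) ∞ g (w '' O) ∧
      ∀ x ∈ w '' O, PB lam canForm w' 1 (fun x => - g x) x := by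
  have hK : IsCompact (range ι) := isCompact_range hι.continuous
  -- functions
  obtain ⟨m, e, he, hespan⟩ := exists_functions I hK
  -- generators
  choose R hR hR0 hRe using fun k => exists_generator hlam hnd hK (he k)
  -- dual fields
  have heι : ∀ k, ContMDiff 𝓘(ℝ, F) 𝓘(ℝ, ℝ) ∞ (e k ∘ ι) := fun k => (he k).comp hι
  have hdeι : ∀ k q (u : TangentSpace 𝓘(ℝ, F) q), dForm 𝓘(ℝ, F) (e k ∘ ι) q u =
      dForm I (e k) (ι q) (mfderiv 𝓘(ℝ, F) I ι q u) := by
    intro k q u
    have h1 := mfderiv_comp (I := 𝓘(ℝ, F)) (I' := I) (I'' := 𝓘(ℝ, ℝ)) q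
      ((he k).mdifferentiableAt (by simp) (x := ι q)) (hι.mdifferentiableAt (by simp))
    exact DFunLike.congr_fun h1 u
  obtain ⟨v, hv, hvsum⟩ := exists_dual_fields heι (m := m) (by
    intro q u hu
    apply hιimm q
    rw [map_zero]
    apply hespan (ι q) ⟨q, rfl⟩
    intro k hk
    rw [← hdeι]
    exact hu k hk)
  -- the tubular map
  set G := tubeMap ι R v m with hGdef
  have hG : ContMDiff (IC F) I ∞ G := contMDiff_tubeMap hι hR hv m
  have hG0 : ∀ q, G (zeroC q) = ι q := fun q => tubeMap_zeroC hR0 m q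
  have hGd := fun q u => mfderiv_tubeMap hι hR hR0 hv q u m
  -- the correction function
  set μ : ℕ → L → ℝ := fun k q => lam (R k (0, ι q)) (dS I (R k) 0 (ι q)) with hμdef
  have hμ : ∀ k, ContMDiff 𝓘(ℝ, F) 𝓘(ℝ, ℝ) ∞ (μ k) := by
    intro k q
    have h1 : ContMDiff 𝓘(ℝ, F) (𝓘(ℝ, ℝ).prod I) ∞ (fun q : L => ((0:ℝ), ι q)) :=
      contMDiff_const.prodMk hι
    have h2 : ContMDiffAt (𝓘(ℝ, ℝ).prod I) 𝓘(ℝ, ℝ) ∞
        (fun p : ℝ × X => lam (R k p) (dS I (R k) p.1 p.2)) (0, ι q) :=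
      hlam.comp (contMDiffAt_dS isOpen_univ (hR k).contMDiffOn (mem_univ _)) le_rfl
    exact ContMDiffAt.comp q h2 (h1 q)
  have hμlam : ∀ k q, μ k q = lam (ι q) (show TangentSpace I (ι q) from (show E from vel I (R k) (ι q))) :=
    fun k q => form_move lam (hR0 k (ι q)) rfl
  have hμp : ∀ k, ContMDiff (IC F) 𝓘(ℝ, ℝ) ∞ (fun ξ : Cotangent F L => μ k ξ.1) := fun k =>
    (hμ k).comp contMDiff_projC
  set S : Cotangent F L → ℝ := fun ξ => ∑ k ∈ Finset.range m, cfun (v k) ξ * μ k ξ.1 with hSdef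
  have hS : ContMDiff (IC F) 𝓘(ℝ, ℝ) ∞ S :=
    contMDiff_sum (fun k => (contMDiff_cfun (hv k)).mul (hμp k)) m
  set h : Cotangent F L → ℝ := fun ξ => - S ξ with hhdef
  have hh : ContMDiff (IC F) 𝓘(ℝ, ℝ) ∞ h := hS.neg
  have hdh : ∀ q (u : TangentSpace (IC F) (zeroC q : Cotangent F L)),
      dForm (IC F) h (zeroC q) u =
      - ∑ k ∈ Finset.range m, dForm (IC F) (cfun (v k)) (zeroC q) u * μ k q := by
    intro q u
    have h1 := dForm_sum (c := fun k (ξ : Cotangent F L) => cfun (v k) ξ * μ k ξ.1)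
      (fun k => (contMDiff_cfun (hv k)).mul (hμp k)) m (zeroC q) u
    have h2 : dForm (IC F) h (zeroC q) u = - dForm (IC F) S (zeroC q) u := dForm_neg hS _ _
    rw [h2, hSdef, h1]
    congr 1
    refine Finset.sum_congr rfl fun k _ => ?_
    rw [dForm_mul (contMDiff_cfun (hv k)) (hμp k), cfun_zeroC]
    show 0 * _ + μ k q * _ = _
    ring
  -- the form on the cotangent bundle
  set lam₁ : (ξ : Cotangent F L) → TangentSpace (IC F) ξ →L[ℝ] ℝ := fun ξ =>
    pullForm I (IC F) G lam ξ + dForm (IC F) h ξ with hlam₁def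
  have hlam₁ : SmoothForm lam₁ := (smoothForm_pull hG hlam).add (smoothForm_dForm hh)
  have hext₁ : ∀ ξ (u w : TangentSpace (IC F) ξ), extDer (IC F) lam₁ ξ u w =
      extDer I lam (G ξ) (mfderiv (IC F) I G ξ u) (mfderiv (IC F) I G ξ w) := by
    intro ξ u w
    rw [hlam₁def, extDer_add (smoothForm_pull hG hlam) (smoothForm_dForm hh),
      extDer_dForm hh, add_zero, extDer_pull hG hlam]
  -- it vanishes on the zero section
  have hzero : ∀ ξ ∈ range (zeroC : L → Cotangent F L), canForm ξ = lam₁ ξ := by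
    rintro _ ⟨q, rfl⟩
    refine ContinuousLinearMap.ext fun u => ?_
    rw [canForm_zeroC]
    have h1 : lam₁ (zeroC q) u = lam (G (zeroC q)) (mfderiv (IC F) I G (zeroC q) u) +
      dForm (IC F) h (zeroC q) u := rfl
    have h2 : lam (G (zeroC q)) (mfderiv (IC F) I G (zeroC q) u) =
        ∑ k ∈ Finset.range m, dForm (IC F) (cfun (v k)) (zeroC q) u * μ k q := by
      have h3 := form_move lam (hG0 q) (hGd q u)
      refine h3.trans ?_
      refine (form_add_sum lam (ι q) m _ _ _).trans ?_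
      have h5 := hι0 q (mfderiv (IC F) 𝓘(ℝ, F) (TotalSpace.proj : Cotangent F L → L) (zeroC q) u)
      have h6 : ∀ a b : ℝ, a = 0 → a + b = b := by intro a b h; rw [h, zero_add]
      refine (h6 _ _ h5).trans ?_
      refine Finset.sum_congr rfl fun k _ => ?_
      rw [hμlam]
    rw [h1, h2, hdh]
    ring
  -- derivatives of the tubular map on horizontal and vertical vectors
  have hGhor : ∀ q (w : TangentSpace 𝓘(ℝ, F) q),
      (show E from mfderiv (IC F) I G (zeroC q) (horV q w)) =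
        (show E from mfderiv 𝓘(ℝ, F) I ι q w) := by
    intro q w
    rw [hGd q (horV q w)]
    have h1 : ∑ k ∈ Finset.range m, dForm (IC F) (cfun (v k)) (zeroC q) (horV q w) •
        vel I (R k) (ι q) = 0 := by
      apply Finset.sum_eq_zero
      intro k _
      rw [dForm_cfun_hor (hv k), zero_smul]
    rw [h1, add_zero]
    have h2 := mfderiv_proj_horV q w
    exact congrArg (mfderiv 𝓘(ℝ, F) I ι q) h2
  have hGvert : ∀ q (p : F →L[ℝ] ℝ),
      (show E from mfderiv (IC F) I G (zeroC q) (vertV q p)) =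
        ∑ k ∈ Finset.range m, p (v k q) • vel I (R k) (ι q) := by
    intro q p
    rw [hGd q (vertV q p)]
    have h2 := mfderiv_proj_vertV q p
    have h3 : (show E from mfderiv 𝓘(ℝ, F) I ι q (mfderiv (IC F) 𝓘(ℝ, F)
        (TotalSpace.proj : Cotangent F L → L) (zeroC q) (vertV q p))) = 0 :=
      (congrArg (mfderiv 𝓘(ℝ, F) I ι q) h2).trans (map_zero _)
    rw [h3, zero_add]
    refine Finset.sum_congr rfl fun k _ => ?_
    rw [dForm_cfun_vert (hv k)]
  -- `dλ₁` on horizontal and vertical vectors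
  have hvh : ∀ q (p : F →L[ℝ] ℝ) (w : TangentSpace 𝓘(ℝ, F) q),
      extDer (IC F) lam₁ (zeroC q) (vertV q p) (horV q w) = p w := by
    intro q p w
    rw [hext₁]
    have h1 := extDer_move lam (hG0 q) (hGvert q p) (hGhor q w)
    refine h1.trans ?_
    refine (extDer_sum_left lam (ι q) m _ _ _).trans ?_
    have h3 : ∀ k, extDer I lam (ι q) (show TangentSpace I (ι q) from (show E from vel I (R k) (ι q)))
        (show TangentSpace I (ι q) from (show E from mfderiv 𝓘(ℝ, F) I ι q w)) =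
        dForm 𝓘(ℝ, F) (e k ∘ ι) q w := by
      intro k
      rw [hdeι]
      exact hRe k (ι q) ⟨q, rfl⟩ _
    have h4 : ∑ k ∈ Finset.range m, p (v k q) * extDer I lam (ι q)
        (show TangentSpace I (ι q) from (show E from vel I (R k) (ι q)))
        (show TangentSpace I (ι q) from (show E from mfderiv 𝓘(ℝ, F) I ι q w)) =
        ∑ k ∈ Finset.range m, p (v k q) * dForm 𝓘(ℝ, F) (e k ∘ ι) q w :=
      Finset.sum_congr rfl fun k _ => by rw [h3]
    refine h4.trans ?_
    have h5 : p (∑ k ∈ Finset.range m, dForm 𝓘(ℝ, F) (e k ∘ ι) q w • (v k q : F)) = p w :=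
      congrArg p (hvsum q w)
    rw [← h5, map_sum]
    refine Finset.sum_congr rfl fun k _ => ?_
    exact (mul_comm _ _).trans (ContinuousLinearMap.map_smul p _ (v k q : F)).symm
  have hιext : ∀ q (a b : TangentSpace 𝓘(ℝ, F) q),
      extDer I lam (ι q) (mfderiv 𝓘(ℝ, F) I ι q a) (mfderiv 𝓘(ℝ, F) I ι q b) = 0 := by
    intro q a b
    rw [← extDer_pull hι hlam]
    have h1 : pullForm I 𝓘(ℝ, F) ι lam = dForm 𝓘(ℝ, F) (fun _ : L => (0:ℝ)) := by
      ext1 q
      have h3 : dForm 𝓘(ℝ, F) (fun _ : L => (0:ℝ)) q = 0 := mfderiv_const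
      rw [h3]
      refine ContinuousLinearMap.ext fun u => ?_
      exact hι0 q u
    rw [h1, extDer_dForm contMDiff_const]
  have hhh : ∀ q (a b : TangentSpace 𝓘(ℝ, F) q),
      extDer (IC F) lam₁ (zeroC q) (horV q a) (horV q b) = 0 := by
    intro q a b
    rw [hext₁]
    exact (extDer_move lam (hG0 q) (hGhor q a) (hGhor q b)).trans (hιext q a b)
  -- nondegeneracy
  have hanti : ∀ {α : (ξ : Cotangent F L) → TangentSpace (IC F) ξ →L[ℝ] ℝ} {ξ : Cotangent F L}
      (a b : TangentSpace (IC F) ξ), extDer (IC F) α ξ a b = - extDer (IC F) α ξ b a := by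
    intro α ξ a b
    unfold extDer
    ring
  have hnd₁ : ∀ s : ℝ, ∀ ξ ∈ range (zeroC : L → Cotangent F L), ∀ u,
      (∀ v, moserB canForm lam₁ (s, ξ) u v = 0) → u = 0 := by
    rintro s _ ⟨q, rfl⟩ u hu
    obtain ⟨a, p, rfl⟩ := exists_hor_vert q u
    have h1 : p = 0 := by
      refine ContinuousLinearMap.ext fun b => ?_
      have h2 := hu (horV q b)
      rw [map_add] at h2
      have h3 : moserB canForm lam₁ (s, zeroC q) (horV q a) (horV q b) +
        moserB canForm lam₁ (s, zeroC q) (vertV q p) (horV q b) = 0 := h2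
      rw [moserB_apply, moserB_apply] at h3
      simp only at h3
      rw [extDer_hor_hor, hhh, extDer_vert_hor, hvh] at h3
      have h4 : p b = 0 := by linarith
      exact h4
    have h2 : (vertV q p : TangentSpace (IC F) (zeroC q : Cotangent F L)) = 0 := by
      rw [h1]; exact map_zero _
    have h3 : (a : F) = 0 := by
      by_contra ha
      obtain ⟨p', hp'⟩ : ∃ p' : F →L[ℝ] ℝ, p' a ≠ 0 := by
        exact SeparatingDual.exists_ne_zero (R := ℝ) (V := F) ha
      have h4 := hu (vertV q p')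
      rw [h2, add_zero, moserB_apply] at h4
      simp only at h4
      rw [hanti, extDer_vert_hor, hanti, hvh] at h4
      apply hp'
      linarith
    rw [h2, add_zero]
    have h4 : (horV q (0:F) : TangentSpace (IC F) (zeroC q : Cotangent F L)) = 0 := map_zero _
    have h5 : a = (0 : F) := h3
    rw [h5]
    exact h4
  -- Moser
  obtain ⟨ρ, ρi, κ, V, hρ, hρi, hρiρ, hρρi, hκ, hρ0, hV, hCV, hρpb⟩ :=
    moser smoothForm_canForm hlam₁ isCompact_range_zeroC hzero hnd₁
  have hρ0' : ∀ q, ρ (zeroC q) = zeroC q := fun q => hρ0 _ ⟨q, rfl⟩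
  set w : Cotangent F L → X := G ∘ ρ with hwdef
  have hw : ContMDiff (IC F) I ∞ w := hG.comp hρ
  have hw0 : ∀ q, w (zeroC q) = ι q := by
    intro q
    show G (ρ (zeroC q)) = ι q
    rw [hρ0', hG0]
  set gt : Cotangent F L → ℝ := fun ξ => κ ξ - h (ρ ξ) with hgtdef
  have hgt : ContMDiff (IC F) 𝓘(ℝ, ℝ) ∞ gt := hκ.sub (hh.comp hρ)
  have hwpb : ∀ ξ ∈ V, PB canForm lam w 1 gt ξ := by
    intro ξ hξ u
    have h1 := hρpb ξ hξ u
    have h2 : lam₁ (ρ ξ) (mfderiv (IC F) (IC F) ρ ξ u) =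
        lam (G (ρ ξ)) (mfderiv (IC F) I G (ρ ξ) (mfderiv (IC F) (IC F) ρ ξ u)) +
        dForm (IC F) h (ρ ξ) (mfderiv (IC F) (IC F) ρ ξ u) := rfl
    have h3 := DFunLike.congr_fun (mfderiv_comp (I := IC F) (I' := IC F) (I'' := I) ξ
      (hG.mdifferentiableAt (by simp) (x := ρ ξ)) (hρ.mdifferentiableAt (by simp))) u
    have h4 : lam (w ξ) (mfderiv (IC F) I w ξ u) =
        lam (G (ρ ξ)) (mfderiv (IC F) I G (ρ ξ) (mfderiv (IC F) (IC F) ρ ξ u)) :=
      congrArg (lam (w ξ)) h3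
    have h5 := DFunLike.congr_fun (mfderiv_comp (I := IC F) (I' := IC F) (I'' := 𝓘(ℝ, ℝ)) ξ
      (hh.mdifferentiableAt (by simp) (x := ρ ξ)) (hρ.mdifferentiableAt (by simp))) u
    have h6 : (show ℝ from mfderiv (IC F) 𝓘(ℝ, ℝ) gt ξ u) =
        (show ℝ from mfderiv (IC F) 𝓘(ℝ, ℝ) κ ξ u) -
        (show ℝ from mfderiv (IC F) 𝓘(ℝ, ℝ) (h ∘ ρ) ξ u) := by
      have h7 := (hκ.mdifferentiableAt (by simp) (x := ξ)).hasMFDerivAt.sub
        ((hh.comp hρ).mdifferentiableAt (by simp) (x := ξ)).hasMFDerivAt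
      exact DFunLike.congr_fun h7.mfderiv u
    have h8 : (show ℝ from mfderiv (IC F) 𝓘(ℝ, ℝ) (h ∘ ρ) ξ u) =
      dForm (IC F) h (ρ ξ) (mfderiv (IC F) (IC F) ρ ξ u) := h5
    rw [h4, h6, h8]
    rw [h2] at h1
    linarith
  -- injectivity of the derivative along the zero section
  have hwinj : ∀ ξ ∈ range (zeroC : L → Cotangent F L),
      Function.Injective (mfderiv (IC F) I w ξ) := by
    rintro _ ⟨q, rfl⟩
    have hρinj : Function.Injective (mfderiv (IC F) (IC F) ρ (zeroC q : Cotangent F L)) := by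
      intro a b hab
      have h1 := mfderiv_comp (I := IC F) (I' := IC F) (I'' := IC F) (zeroC q : Cotangent F L)
        (hρi.mdifferentiableAt (by simp) (x := ρ (zeroC q))) (hρ.mdifferentiableAt (by simp))
      have h2 : ρi ∘ ρ = id := by ext1 ξ; exact hρiρ ξ
      rw [h2, mfderiv_id] at h1
      have h3 := DFunLike.congr_fun h1 a
      have h4 := DFunLike.congr_fun h1 b
      exact h3.trans ((congrArg (mfderiv (IC F) (IC F) ρi (ρ (zeroC q))) hab).trans h4.symm)
    have hGinj : ∀ ξ : Cotangent F L, ξ = zeroC q → Function.Injective (mfderiv (IC F) I G ξ) := by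
      rintro _ rfl
      rw [injective_iff_map_eq_zero]
      intro u hu
      apply hnd₁ 1 (zeroC q) ⟨q, rfl⟩ u
      intro b
      rw [moserB_apply]
      simp only
      rw [hext₁, hu]
      have h1 : extDerL I lam (G (zeroC q)) 0 (mfderiv (IC F) I G (zeroC q) b) = 0 := by
        rw [map_zero]; rfl
      have h2 : extDer I lam (G (zeroC q)) 0 (mfderiv (IC F) I G (zeroC q) b) = 0 := h1
      rw [h2]
      ring
    intro a b hab
    have h3 := mfderiv_comp (I := IC F) (I' := IC F) (I'' := I) (zeroC q : Cotangent F L)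
      (hG.mdifferentiableAt (by simp) (x := ρ (zeroC q))) (hρ.mdifferentiableAt (by simp))
    apply hρinj
    apply hGinj _ (hρ0' q)
    have h4 := DFunLike.congr_fun h3 a
    have h5 := DFunLike.congr_fun h3 b
    exact h4.symm.trans (hab.trans h5)
  have hw0inj : InjOn w (range (zeroC : L → Cotangent F L)) := by
    rintro _ ⟨q, rfl⟩ _ ⟨q', rfl⟩ hqq
    rw [hw0, hw0] at hqq
    rw [hιinj hqq]
  have hdim' : Module.finrank ℝ (F × (F →L[ℝ] ℝ)) = Module.finrank ℝ E := by
    rw [hdim, Module.finrank_prod]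
    have h1 : Module.finrank ℝ F = Module.finrank ℝ (F →L[ℝ] ℝ) := by
      rw [← (LinearMap.toContinuousLinearMap (𝕜 := ℝ) (E := F) (F' := ℝ)).finrank_eq]
      exact (Subspace.dual_finrank_eq (K := ℝ) (V := F)).symm
    omega
  have hne : Nonempty (Cotangent F L) := ⟨zeroC (Classical.arbitrary L)⟩
  obtain ⟨O, w', hO, hCO, hOV, hwO, hw'w, hw's⟩ := exists_inverse_near hw isCompact_range_zeroC
    hw0inj hwinj hdim' hV hCV
  refine ⟨w, w', O, fun x => gt (w' x), hO, fun q => hCO ⟨q, rfl⟩, hwO, hw, hw's, hw'w, hw0,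
    hgt.comp_contMDiffOn hw's, ?_⟩
  rintro _ ⟨ξ, hξ, rfl⟩
  have hw'd : MDifferentiableAt I (IC F) w' (w ξ) :=
    (hw's.contMDiffAt (hwO.mem_nhds ⟨ξ, hξ, rfl⟩)).mdifferentiableAt (by simp)
  have h1 : PB canForm lam w 1 (fun ζ => - (- gt ζ)) (w' (w ξ)) := by
    rw [hw'w ξ hξ]
    simp only [neg_neg]
    exact hwpb ξ (hOV hξ)
  have h2 := PB.inv (w' := w) (w := w') (g := fun ζ => - gt ζ) (ξ := w ξ) h1 (by
    filter_upwards [hwO.mem_nhds ⟨ξ, hξ, rfl⟩] with x hx
    obtain ⟨ζ, hζ, rfl⟩ := hx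
    rw [hw'w ζ hζ]) hw'd (hw.mdifferentiableAt (by simp))
    (hgt.neg.mdifferentiableAt (by simp))
  exact h2

end Pool.Agent.Helper186
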