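import Mathlib
import Pool.Agent.Helper186.Tangency
import Pool.Agent.Helper186.Weinstein
import Pool.Agent.Helper186.Germ3

/-! Liouville manifolds with smooth Lagrangian core are cotangent bundles. -/

open scoped Topology ContDiff Manifold
open Set Metric Bundle

noncomputable section

namespace Pool.Agent.Helper186

set_option linter.unusedSectionVars false

universe u

variable {F : Type*} [NormedAddCommGroup F] [NormedSpace ℝ F] [FiniteDimensional ℝ F]
  {L : Type*} [TopologicalSpace L] [ChartedSpace F L] [IsManifold 𝓘(ℝ, F) ∞ L]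
  {E : Type u} [NormedAddCommGroup E] [NormedSpace ℝ E] [FiniteDimensional ℝ E]
  {H : Type*} [TopologicalSpace H] {I : ModelWithCorners ℝ E H} [I.Boundaryless]
  {X : Type*} [TopologicalSpace X] [ChartedSpace H X] [IsManifold I ∞ X]

variable (F L) in
/-- The conformal flow of the cotangent bundle. -/
def cotFlow : ConfFlow (IC F) (canForm : (ξ : Cotangent F L) → _) where
  φ := fun t => scal (Real.exp t)
  smooth := contMDiff_scal.comp ((Real.contDiff_exp.contMDiff.comp contMDiff_fst).prodMk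
    contMDiff_snd)
  zero := fun ξ => by rw [Real.exp_zero, scal_one]
  add := fun s t ξ => by rw [Real.exp_add, scal_scal]
  conf := fun t ξ u => canForm_scal _ ξ u

namespace LData

variable (D : LData I X) [T2Space X]

include D in
lemma sigmaCompact : SigmaCompactSpace X := by
  refine ⟨⟨fun n : ℕ => D.K (-n), fun n => D.K_compact _, ?_⟩⟩
  rw [eq_univ_iff_forall]
  intro x
  obtain ⟨t, _, ht⟩ := D.sweep x
  obtain ⟨n, hn⟩ := exists_nat_ge t
  exact mem_iUnion.2 ⟨n, D.K_anti (neg_le_neg hn) (show x ∈ D.K (-t) from ht)⟩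

/-- **Main theorem**, nonempty core. -/
theorem main_nonempty [CompactSpace L] [T2Space L] [Nonempty L]
    {ι : L → X} (hι : ContMDiff 𝓘(ℝ, F) I ∞ ι) (hιe : Topology.IsEmbedding ι)
    (hιimm : ∀ q, Function.Injective (mfderiv 𝓘(ℝ, F) I ι q)) (hcore : range ι = D.core)
    (hlag : ∀ q (u v : TangentSpace 𝓘(ℝ, F) q),
      extDer I D.lam (ι q) (mfderiv 𝓘(ℝ, F) I ι q u) (mfderiv 𝓘(ℝ, F) I ι q v) = 0)
    (hdim : Module.finrank ℝ E = 2 * Module.finrank ℝ F) :
    ∃ (Φ : Diffeomorph I (IC F) X (Cotangent F L) ∞) (f : X → ℝ), ContMDiff I 𝓘(ℝ, ℝ) ∞ f ∧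
      ∀ x, PB D.lam canForm Φ 1 f x := by
  have := D.sigmaCompact
  obtain ⟨w, w', O, g, hO, h0O, hwO, hw, hw's, hw'w, hw0, hg, hpb⟩ :=
    weinstein D.hlam D.hnd hι hιe.injective hιimm (D.lam_core hι hιe hιimm hcore hlag) hdim
  set A := w '' O with hA
  have hcoreA : D.core ⊆ A := by
    rw [← hcore]
    rintro _ ⟨q, rfl⟩
    exact ⟨zeroC q, h0O q, hw0 q⟩
  obtain ⟨tB, htB, hBA⟩ := D.exists_K_sub hwO hcoreA
  -- the star-shaped neighbourhood
  have hO₁ : IsOpen (O ∩ w ⁻¹' interior (D.K tB)) :=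
    hO.inter (isOpen_interior.preimage hw.continuous)
  obtain ⟨Q, hQc, hQO, hQ0, hQs⟩ := exists_starshaped hO₁ (fun q => ⟨h0O q, by
    show w (zeroC q) ∈ interior (D.K tB)
    rw [hw0]
    exact D.core_sub_interior tB (hcore ▸ mem_range_self q)⟩)
  have hww' : ∀ x ∈ A, w (w' x) = x := by
    rintro _ ⟨ξ, hξ, rfl⟩
    rw [hw'w ξ hξ]
  have hw'maps : MapsTo w' A O := by
    rintro _ ⟨ξ, hξ, rfl⟩
    rw [hw'w ξ hξ]
    exact hξ
  -- the open set `w (int Q)`
  have hW₀ : IsOpen (A ∩ w' ⁻¹' interior Q) :=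
    hw's.continuousOn.isOpen_inter_preimage hwO isOpen_interior
  obtain ⟨T₀, hT₀, hT₀K⟩ := D.exists_K_sub hW₀ (by
    rw [← hcore]
    rintro _ ⟨q, rfl⟩
    refine ⟨⟨zeroC q, h0O q, hw0 q⟩, ?_⟩
    show w' (ι q) ∈ interior Q
    rw [← hw0 q, hw'w _ (h0O q)]
    exact hQ0 q)
  have hBc : IsCompact (w' '' D.K tB) :=
    (D.K_compact tB).image_of_continuousOn (hw's.continuousOn.mono hBA)
  obtain ⟨s₀, hs₀, hs₀C⟩ := exists_contract hQ0 hBc
  have hexp : ∀ r : ℝ, 0 ≤ r → Real.exp (-r) ∈ Icc (0:ℝ) 1 := fun r hr =>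
    ⟨(Real.exp_pos _).le, Real.exp_le_one_iff.2 (by linarith)⟩
  let 𝒟 : GermData I (IC F) D.lam (canForm : (ξ : Cotangent F L) → _) :=
    { F := D.confFlow
      G := cotFlow F L
      w := w
      w' := w'
      O := O
      A := A
      B := D.K tB
      Q := Q
      g := g
      T₀ := T₀
      s₀ := s₀
      O_open := hO
      A_open := hwO
      w_maps := fun ξ hξ => ⟨ξ, hξ, rfl⟩
      w'_maps := hw'maps
      w'_w := hw'w
      w_w' := hww'
      w_smooth := hw.contMDiffOn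
      w'_smooth := hw's
      g_smooth := hg
      w'_form := hpb
      B_sub := hBA
      B_inv := fun r hr x hx => D.K_inv r hr tB hx
      Q_compact := hQc
      Q_sub := fun ξ hξ => (hQO hξ).1
      Q_inv := fun r hr => hQs _ (hexp r hr)
      wQ_B := fun ξ hξ => interior_subset (hQO hξ).2
      T₀_nonneg := hT₀
      T₀_spec := fun r hr x hx => (hT₀K (D.K_anti (by linarith) (D.K_shift r tB hx))).2
      s₀_nonneg := hs₀
      s₀_spec := fun r hr x hx => hs₀C r hr _ (mem_image_of_mem w' hx)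
      absorb := fun x => by
        obtain ⟨t₀, ht₀⟩ := D.absorb_K T₀ x
        exact ⟨t₀, fun t ht => hT₀K (ht₀ t ht)⟩
      absorb' := fun ξ => by
        obtain ⟨s, _, hs⟩ := exists_contract hQ0 (isCompact_singleton (x := ξ))
        exact ⟨s, fun t ht => hs t ht ξ rfl⟩ }
  exact 𝒟.equiv D.hlam D.hnd

/-- **Main theorem**. -/
theorem main [CompactSpace L] [T2Space L]
    {ι : L → X} (hι : ContMDiff 𝓘(ℝ, F) I ∞ ι) (hιe : Topology.IsEmbedding ι)
    (hιimm : ∀ q, Function.Injective (mfderiv 𝓘(ℝ, F) I ι q)) (hcore : range ι = D.core)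
    (hlag : ∀ q (u v : TangentSpace 𝓘(ℝ, F) q),
      extDer I D.lam (ι q) (mfderiv 𝓘(ℝ, F) I ι q u) (mfderiv 𝓘(ℝ, F) I ι q v) = 0)
    (hdim : Module.finrank ℝ E = 2 * Module.finrank ℝ F) :
    ∃ (Φ : Diffeomorph I (IC F) X (Cotangent F L) ∞) (f : X → ℝ), ContMDiff I 𝓘(ℝ, ℝ) ∞ f ∧
      ∀ x, PB D.lam canForm Φ 1 f x := by
  rcases isEmpty_or_nonempty L with hL | hL
  · have hcore' : D.core = ∅ := by
      rw [← hcore, range_eq_empty_iff]; exact hL
    obtain ⟨t, _, ht⟩ := D.exists_K_sub isOpen_empty (by rw [hcore'])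
    have hX : IsEmpty X := by
      refine ⟨fun x => ?_⟩
      obtain ⟨t₀, ht₀⟩ := D.absorb_K t x
      exact (ht (ht₀ t₀ le_rfl)).elim
    have hN : IsEmpty (Cotangent F L) := ⟨fun ξ => hL.false ξ.1⟩
    exact ⟨⟨⟨fun x => isEmptyElim x, fun ξ => isEmptyElim ξ, fun x => isEmptyElim x,
      fun ξ => isEmptyElim ξ⟩, fun x => isEmptyElim x, fun ξ => isEmptyElim ξ⟩, fun _ => 0,
      contMDiff_const, fun x => isEmptyElim x⟩
  · exact D.main_nonempty hι hιe hιimm hcore hlag hdim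

end LData

end Pool.Agent.Helper186
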